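import Pool.Agent.H513R2.OZ.Defs

/-!
# T1: degree, zeros, parity, order of the poles
-/

open Polynomial

namespace Pool.Agent.H513R2.OZ

open Pool.Agent.H337R2

noncomputable section

namespace T1

lemma le_sB (B : ℕ) : B ≤ sB B := by
  unfold sB
  calc B = ∑ m ∈ Finset.Icc 1 B, 1 := by simp
    _ ≤ ∑ m ∈ Finset.Icc 1 B, m := Finset.sum_le_sum fun m hm => (Finset.mem_Icc.1 hm).1

lemma kB_le (P : Par) (h : P.OK) : P.κ * P.B + 1 ≤ P.g := by
  have h1 := le_sB P.B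
  have h2 : P.κ * P.B ≤ P.κ * sB P.B := Nat.mul_le_mul_left _ h1
  have h3 := h.hg
  have h4 : 2 * P.κ * ((2 * P.r + 3) * sB P.B) = (4 * P.r + 6) * (P.κ * sB P.B) := by ring
  rw [h4] at h3
  have h5 : P.κ * sB P.B ≤ (4 * P.r + 6) * (P.κ * sB P.B) := Nat.le_mul_of_pos_left _ (by omega)
  omega

lemma two_kB_le (P : Par) (h : P.OK) : 2 * P.κ * P.B + 2 ≤ P.g := by
  have h1 := le_sB P.B
  have h2 : P.κ * P.B ≤ P.κ * sB P.B := Nat.mul_le_mul_left _ h1
  have h3 := h.hg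
  have h4 : 2 * P.κ * ((2 * P.r + 3) * sB P.B) = (4 * P.r + 6) * (P.κ * sB P.B) := by ring
  rw [h4] at h3
  have h5 : 2 * (P.κ * sB P.B) ≤ (4 * P.r + 6) * (P.κ * sB P.B) := Nat.mul_le_mul_right _ (by omega)
  have h6 : 2 * P.κ * P.B = 2 * (P.κ * P.B) := by ring
  omega

lemma Z_lt (P : Par) (h : P.OK) : P.Z + 1 ≤ P.g := by
  rw [h.hg, Par.Z]
  have : 2 * P.κ * ((2 * P.r + 1) * sB P.B) ≤ 2 * P.κ * ((2 * P.r + 3) * sB P.B) := by gcongr; omega
  omega

/-- sum of the multiplicities -/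
lemma sum_mu (P : Par) (n : ℕ) (hn : 1 ≤ n) :
    ∑ k ∈ Finset.range (n + 1), mu P n k = P.a * (n + 1) + 2 * P.g := by
  have h1 : ∀ k, mu P n k = P.a + (if k = 0 then P.g else 0) + (if k = n then P.g else 0) := by
    intro k
    unfold mu
    by_cases h0 : k = 0
    · have : k ≠ n := by omega
      simp [h0]; omega
    · by_cases h2 : k = n
      · simp [h2]; omega
      · simp [h0, h2]
  rw [Finset.sum_congr rfl fun k _ => h1 k, Finset.sum_add_distrib, Finset.sum_add_distrib,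
    Finset.sum_ite_eq', Finset.sum_ite_eq', if_pos (Finset.mem_range.2 (by omega)),
    if_pos (Finset.mem_range.2 (by omega)), Finset.sum_const, Finset.card_range, smul_eq_mul]
  ring

lemma natDegree_PM (r m n : ℕ) : (PM r m n).natDegree ≤ (2 * r + 1) * n * m + 1 := by
  unfold PM
  refine (Polynomial.natDegree_prod_le _ _).trans ?_
  calc ∑ v ∈ Finset.range ((2 * r + 1) * n * m + 1),
        (C (m : ℚ) * X + C ((((r + 1) * n * m : ℕ) : ℚ) - (v : ℚ))).natDegree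
      ≤ ∑ v ∈ Finset.range ((2 * r + 1) * n * m + 1), 1 := by
        apply Finset.sum_le_sum
        intro v _
        exact Polynomial.natDegree_linear_le
    _ = _ := by simp

lemma natDegree_NP_le (P : Par) (n l : ℕ) :
    (NP P n l).natDegree ≤ 1 + 2 * l + P.Z * n + 2 * P.κ * P.B := by
  unfold NP
  have h1 : (C (cst P n) * (C 2 * X + C (n : ℚ))).natDegree ≤ 1 :=
    (Polynomial.natDegree_C_mul_le _ _).trans Polynomial.natDegree_linear_le
  have h2 : ((X * (X + C (n : ℚ))) ^ l : ℚ[X]).natDegree ≤ 2 * l := by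
    refine (Polynomial.natDegree_pow_le).trans ?_
    have : (X * (X + C (n : ℚ)) : ℚ[X]).natDegree ≤ 2 := by
      refine (Polynomial.natDegree_mul_le).trans ?_
      rw [Polynomial.natDegree_X, Polynomial.natDegree_X_add_C]
    rw [mul_comm]
    exact Nat.mul_le_mul_right _ this
  have h3 : (∏ m ∈ Finset.Icc 1 P.B, (PM P.r m n) ^ (2 * P.κ)).natDegree ≤
      P.Z * n + 2 * P.κ * P.B := by
    refine (Polynomial.natDegree_prod_le _ _).trans ?_
    calc ∑ m ∈ Finset.Icc 1 P.B, ((PM P.r m n) ^ (2 * P.κ)).natDegree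
        ≤ ∑ m ∈ Finset.Icc 1 P.B, (2 * P.κ) * ((2 * P.r + 1) * n * m + 1) := by
          apply Finset.sum_le_sum
          intro m _
          exact (Polynomial.natDegree_pow_le).trans (Nat.mul_le_mul_left _ (natDegree_PM _ _ _))
      _ = P.Z * n + 2 * P.κ * P.B := by
          rw [← Finset.mul_sum, Finset.sum_add_distrib, ← Finset.mul_sum]
          simp only [Finset.sum_const, Nat.card_Icc, smul_eq_mul, mul_one, Nat.add_sub_cancel]
          unfold Par.Z sB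
          ring
  refine (Polynomial.natDegree_mul_le).trans ?_
  have h4 : (C (cst P n) * (C 2 * X + C (n : ℚ)) * (X * (X + C (n : ℚ))) ^ l).natDegree ≤ 1 + 2 * l :=
    (Polynomial.natDegree_mul_le).trans (by omega)
  omega

/-- `X` divides the Taylor series of `PM` at a zero -/
lemma X_dvd_TS_PM (r m n : ℕ) (c : ℚ) (v : ℕ) (hv : v < (2 * r + 1) * n * m + 1)
    (hc : (m : ℚ) * c + ((((r + 1) * n * m : ℕ) : ℚ) - (v : ℚ)) = 0) :
    (PowerSeries.X : PowerSeries ℚ) ∣ TS c (PM r m n) := by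
  unfold PM
  rw [map_prod]
  refine dvd_trans ?_ (Finset.dvd_prod_of_mem _ (Finset.mem_range.2 hv))
  rw [map_add, map_mul, TS_C, TS_X, TS_C, mul_add, ← map_mul, add_assoc, ← map_add, hc, map_zero,
    add_zero]
  exact Dvd.intro_left _ rfl

lemma X_pow_dvd_TS_NP_one (P : Par) (n l : ℕ) (c : ℚ) (m : ℕ) (hm : m ∈ Finset.Icc 1 P.B)
    (h : (PowerSeries.X : PowerSeries ℚ) ∣ TS c (PM P.r m n)) :
    (PowerSeries.X : PowerSeries ℚ) ^ (2 * P.κ) ∣ TS c (NP P n l) := by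
  unfold NP
  rw [map_mul, map_prod]
  refine Dvd.dvd.mul_left (dvd_trans ?_ (Finset.dvd_prod_of_mem _ hm)) _
  rw [map_pow]
  exact pow_dvd_pow_of_dvd h _

lemma X_pow_dvd_TS_NP_all (P : Par) (n l : ℕ) (c : ℚ)
    (h : ∀ m ∈ Finset.Icc 1 P.B, (PowerSeries.X : PowerSeries ℚ) ∣ TS c (PM P.r m n)) :
    (PowerSeries.X : PowerSeries ℚ) ^ (2 * P.κ * P.B) ∣ TS c (NP P n l) := by
  unfold NP
  rw [map_mul, map_prod]
  refine Dvd.dvd.mul_left ?_ _
  have h1 : (PowerSeries.X : PowerSeries ℚ) ^ (2 * P.κ * P.B) =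
      ∏ m ∈ Finset.Icc 1 P.B, (PowerSeries.X : PowerSeries ℚ) ^ (2 * P.κ) := by
    rw [Finset.prod_const, Nat.card_Icc, Nat.add_sub_cancel, ← pow_mul]
  rw [h1]
  apply Finset.prod_dvd_prod_of_dvd
  intro m hm
  rw [map_pow]
  exact pow_dvd_pow_of_dvd (h m hm) _

lemma PM_comp (r m n : ℕ) :
    (PM r m n).comp (-X - C (n : ℚ)) = (-1) ^ ((2 * r + 1) * n * m + 1) * PM r m n := by
  unfold PM
  rw [Polynomial.prod_comp]
  set N := (2 * r + 1) * n * m with hN
  rw [← Finset.prod_range_reflect (fun v : ℕ => (C (m : ℚ) * X +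
    C ((((r + 1) * n * m : ℕ) : ℚ) - (v : ℚ)))) (N + 1)]
  have h1 : ((-1 : ℚ[X])) ^ (N + 1) = ∏ _v ∈ Finset.range (N + 1), (-1 : ℚ[X]) := by
    rw [Finset.prod_const, Finset.card_range]
  rw [h1, ← Finset.prod_mul_distrib]
  apply Finset.prod_congr rfl
  intro v hv
  rw [Finset.mem_range] at hv
  have h2 : ((N + 1 - 1 - v : ℕ) : ℚ) = (N : ℚ) - v := by
    rw [Nat.add_sub_cancel, Nat.cast_sub (by omega)]
  rw [h2]
  simp only [Polynomial.add_comp, Polynomial.mul_comp, Polynomial.C_comp, Polynomial.X_comp]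
  have h3 : C ((((r + 1) * n * m : ℕ) : ℚ) - (v : ℚ)) - C (m : ℚ) * C (n : ℚ) =
      -(C ((((r + 1) * n * m : ℕ) : ℚ) - ((N : ℚ) - v)) : ℚ[X]) := by
    rw [← map_mul, ← map_sub, ← map_neg]
    congr 1
    rw [hN]
    push_cast
    ring
  linear_combination h3

lemma NP_comp (P : Par) (n l : ℕ) : (NP P n l).comp (-X - C (n : ℚ)) = -NP P n l := by
  unfold NP
  rw [Polynomial.mul_comp, Polynomial.prod_comp]
  have h1 : ∏ m ∈ Finset.Icc 1 P.B, ((PM P.r m n) ^ (2 * P.κ)).comp (-X - C (n : ℚ)) =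
      ∏ m ∈ Finset.Icc 1 P.B, (PM P.r m n) ^ (2 * P.κ) := by
    apply Finset.prod_congr rfl
    intro m _
    rw [Polynomial.pow_comp, PM_comp, mul_pow, ← pow_mul, Even.neg_one_pow, one_mul]
    exact Even.mul_left (even_two_mul _) _
  rw [h1]
  have h2 : (C (cst P n) * (C 2 * X + C (n : ℚ)) * (X * (X + C (n : ℚ))) ^ l).comp (-X - C (n : ℚ)) =
      -(C (cst P n) * (C 2 * X + C (n : ℚ)) * (X * (X + C (n : ℚ))) ^ l) := by
    simp only [Polynomial.mul_comp, Polynomial.add_comp, Polynomial.pow_comp, Polynomial.C_comp,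
      Polynomial.X_comp]
    have h3 : ((-X - C (n : ℚ)) * (-X - C (n : ℚ) + C (n : ℚ)) : ℚ[X]) = X * (X + C (n : ℚ)) := by
      ring
    rw [h3]
    have h4 : (C (2 : ℚ) : ℚ[X]) = 2 := map_ofNat C 2
    rw [h4]
    ring
  rw [h2]
  ring

end T1

open T1

theorem natDegree_NP (P : Par) (h : P.OK) (n l : ℕ) (hn : 1 ≤ n) (hl : l ≤ P.L) :
    (NP P n l).natDegree + 2 ≤ (QQ (Finset.range (n + 1)) (mu P n)).natDegree := by
  rw [QQ_natDegree, sum_mu P n hn]
  have h1 := natDegree_NP_le P n l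
  have h2 := kB_le P h
  have h3 := Z_lt P h
  have h4 := h.hag
  obtain ⟨b, hb⟩ := h.ha
  have h5 : P.L + P.κ * P.B + 1 = P.a / 2 + P.g := by
    unfold Par.L; omega
  have h6 : P.Z * n + n ≤ P.a * n := by
    calc P.Z * n + n = (P.Z + 1) * n := by ring
      _ ≤ P.a * n := Nat.mul_le_mul_right _ (by omega)
  have h7 : 2 * P.κ * P.B = 2 * (P.κ * P.B) := by ring
  have h8 : P.a * (n + 1) = P.a * n + P.a := by ring
  omega

theorem cf_zero (P : Par) (n l k m : ℕ) (u : ℤ) (hm1 : 1 ≤ m) (hm : m ≤ P.B) (hk : k < 2 * P.κ)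
    (hu1 : -(((P.r + 1) * n * m : ℕ) : ℤ) ≤ u) (hu2 : u ≤ ((P.r * n * m : ℕ) : ℤ)) :
    cf P n l k ((u : ℚ) / m) = 0 := by
  have hm0 : (m : ℚ) ≠ 0 := by
    have : m ≠ 0 := by omega
    exact_mod_cast this
  set v : ℕ := ((((P.r + 1) * n * m : ℕ) : ℤ) + u).toNat with hv
  have hv1 : ((v : ℕ) : ℤ) = (((P.r + 1) * n * m : ℕ) : ℤ) + u := by
    rw [hv, Int.toNat_of_nonneg (by omega)]
  have hv2 : v < (2 * P.r + 1) * n * m + 1 := by
    have : ((v : ℕ) : ℤ) < (((2 * P.r + 1) * n * m + 1 : ℕ) : ℤ) := by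
      rw [hv1]
      push_cast at hu2 ⊢
      linarith
    exact_mod_cast this
  have hX : (PowerSeries.X : PowerSeries ℚ) ∣ TS ((u : ℚ) / m) (PM P.r m n) := by
    apply X_dvd_TS_PM P.r m n _ v hv2
    have h1 : (v : ℚ) = (((P.r + 1) * n * m : ℕ) : ℚ) + (u : ℚ) := by exact_mod_cast hv1
    rw [h1, mul_div_cancel₀ _ hm0]
    ring
  have h2 := X_pow_dvd_TS_NP_one P n l _ m (Finset.mem_Icc.2 ⟨hm1, hm⟩) hX
  have h3 : (PowerSeries.X : PowerSeries ℚ) ^ (2 * P.κ) ∣
      RS (Finset.range (n + 1)) (mu P n) (NP P n l) ((u : ℚ) / m) := by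
    unfold RS
    exact h2.mul_right _
  unfold cf
  exact PowerSeries.X_pow_dvd_iff.1 h3 k hk

theorem rh_even (P : Par) (h : P.OK) (n l i : ℕ) (hn : 1 ≤ n) (hi : Even i) (hi1 : 1 ≤ i) :
    rh P n l i = 0 := by
  unfold rh pc
  apply even_vanish (Finset.range (n + 1)) (mu P n) (NP P n l) n ?_ ?_ (NP_comp P n l) ?_ hi hi1
  · intro k hk
    rw [Finset.mem_range] at *
    omega
  · intro k hk
    rw [Finset.mem_range] at hk
    unfold mu
    by_cases h0 : k = 0 ∨ k = n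
    · rw [if_pos h0, if_pos (by omega)]
    · rw [if_neg h0, if_neg (by omega)]
  · rw [sum_mu P n hn]
    exact Even.add (h.ha.mul_right _) (even_two_mul _)

theorem rh_one (P : Par) (h : P.OK) (n l : ℕ) (hn : 1 ≤ n) (hl : l ≤ P.L) :
    rh P n l 1 = 0 := by
  unfold rh pc
  exact residue_sum _ _ _ (natDegree_NP P h n l hn hl)

theorem pc_high (P : Par) (h : P.OK) (n l j i : ℕ) (hn : 1 ≤ n) (hj : j ≤ n) (hi : P.Ae < i) :
    pc P n l j i = 0 := by
  unfold pc pa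
  split_ifs with hij
  · have h1 := two_kB_le P h
    have hmu : mu P n j ≤ P.a + P.g := by
      unfold mu; split_ifs <;> omega
    have h2 : mu P n j - i < 2 * P.κ * P.B := by
      unfold Par.Ae at hi
      have := h.hag
      omega
    unfold pfc
    have h3 : (PowerSeries.X : PowerSeries ℚ) ^ (2 * P.κ * P.B) ∣ TS (-(j : ℚ)) (NP P n l) := by
      apply X_pow_dvd_TS_NP_all
      intro m hm
      have hjn : m * j ≤ n * m := by
        rw [mul_comm n m]; exact Nat.mul_le_mul_left _ hj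
      have e1 : (P.r + 1) * n * m = P.r * n * m + n * m := by ring
      have e2 : (2 * P.r + 1) * n * m = 2 * (P.r * n * m) + n * m := by ring
      apply X_dvd_TS_PM P.r m n _ ((P.r + 1) * n * m - m * j) (by omega)
      rw [Nat.cast_sub (by omega)]
      push_cast
      ring
    have h4 := h3.mul_right (VV ((Finset.range (n + 1)).erase j) (mu P n) (-(j : ℚ)))
    exact PowerSeries.X_pow_dvd_iff.1 h4 _ h2
  · rfl

end

end Pool.Agent.H513R2.OZ
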