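import Pool.Agent.H513R2.OZ.Defs

/-!
# The series attached to a relation (definition used by T11 and T12)
-/

open Polynomial

namespace Pool.Agent.H513R2.OZ

open Pool.Agent.H337R2

noncomputable section

/-- the series attached to the relation -/
def GG (P : Par) (x : ℕ → ℚ) (y : ℕ → ℕ → ℚ) : PowerSeries ℚ :=
  (∑ i ∈ (Finset.Icc 3 P.Ae).filter Odd, PowerSeries.C (2 * x i) * PowerSeries.X ^ (i - 1)) +
  ∑ k ∈ Finset.range P.κ, ∑ m ∈ Finset.Icc 1 P.B, PowerSeries.C (y k m) *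
    ∑ v ∈ Finset.Icc 1 m, iv ((v : ℚ) / m) ^ (2 * k + 1)

end

end Pool.Agent.H513R2.OZ
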