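import Pool.Agent.H513R2.OZ.Cols
import Pool.Agent.H513R2.OZ.GG
import Pool.Agent.H513R2.OZ.Basics

/-!
# Assembly, part A: the matrices
-/

open Polynomial Filter Topology Matrix

namespace Pool.Agent.H513R2.OZ

open Pool.Agent.H337R2

noncomputable section

/-- the odd indices -/
def OI (P : Par) : Finset ℕ := (Finset.Icc 3 P.Ae).filter Odd

/-- row indices -/
abbrev RI (P : Par) (I0 : Finset ℕ) := {i // i ∈ I0} ⊕ (Fin P.κ × Fin P.B)

/-- combinatorial coefficient -/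
def ck (i k m : ℕ) : ℚ := (Nat.choose (i - 1 + k) (i - 1) : ℚ) * (m : ℚ) ^ (i + k)

/-- the rational linear form left when the zeta values outside `I0` are rational, with values `q` -/
def XQ (P : Par) (I0 : Finset ℕ) (q : ℕ → ℚ) (n l k m : ℕ) : ℚ :=
  (∑ i ∈ OI P \ I0, ck i k m * rh P n l i * q (i + k)) - r0 P n l k m

/-- the rational matrix -/
def MZ (P : Par) (I0 : Finset ℕ) (q : ℕ → ℚ) (n : ℕ) (c : RI P I0 → ℕ) :
    Matrix (RI P I0) (RI P I0) ℚ :=
  Matrix.of (Sum.elim (fun i j => rh P n (c j) i)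
    (fun kb j => XQ P I0 q n (c j) (2 * kb.1) (kb.2 + 1)))

/-- the real matrix -/
def MR (P : Par) (I0 : Finset ℕ) (n : ℕ) (c : RI P I0 → ℕ) :
    Matrix (RI P I0) (RI P I0) ℝ :=
  Matrix.of (Sum.elim (fun i j => ((rh P n (c j) i : ℚ) : ℝ))
    (fun kb j => XX P n (c j) (2 * kb.1) (kb.2 + 1)))

/-- the matrix for `n = 1` -/
def M1 (P : Par) (I0 : Finset ℕ) (c : RI P I0 → ℕ) : Matrix (RI P I0) (RI P I0) ℚ :=
  Matrix.of (Sum.elim (fun i j => rh P 1 (c j) i)
    (fun kb j => - r0 P 1 (c j) (2 * kb.1) (kb.2 + 1)))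

theorem sum_Icc_fin (B : ℕ) (f : ℕ → ℚ) :
    ∑ m ∈ Finset.Icc 1 B, f m = ∑ b : Fin B, f (b + 1) := by
  rw [Fin.sum_univ_eq_sum_range (fun b => f (b + 1)) B, Finset.range_eq_Ico,
    Finset.sum_Ico_add' f 0 B 1]
  rfl

/-- the exact relation between `XX` and `XQ` -/
theorem XX_eq (P : Par) (h : P.OK) (I0 : Finset ℕ) (hI : I0 ⊆ OI P) (q : ℕ → ℚ) (n l k m : ℕ)
    (hn : 1 ≤ n) (hl : l ≤ P.L)
    (hq : ∀ i ∈ OI P \ I0, zr (i + k) = ((q (i + k) : ℚ) : ℝ)) :
    XX P n l k m = ((XQ P I0 q n l k m : ℚ) : ℝ) +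
      ∑ i ∈ I0, (((ck i k m : ℚ) : ℝ) * zr (i + k)) * ((rh P n l i : ℚ) : ℝ) := by
  have hsub : OI P ⊆ Finset.Icc 1 P.A := by
    intro i hi
    simp only [OI, Finset.mem_filter, Finset.mem_Icc] at hi ⊢
    have : P.Ae ≤ P.A := by unfold Par.Ae Par.A; omega
    omega
  have h0 : ∀ i ∈ Finset.Icc 1 P.A, i ∉ OI P → rh P n l i = 0 := by
    intro i hi hi2
    simp only [OI, Finset.mem_filter, Finset.mem_Icc] at hi hi2
    rcases Nat.even_or_odd i with he | ho
    · exact rh_even P h n l i hn he hi.1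
    · by_cases h1 : i = 1
      · subst h1
        exact rh_one P h n l hn hl
      · have h3 : 3 ≤ i := by
          obtain ⟨t, ht⟩ := ho
          omega
        have h4 : P.Ae < i := by
          by_contra hc
          exact hi2 ⟨⟨h3, by omega⟩, ho⟩
        unfold rh
        apply Finset.sum_eq_zero
        intro j hj
        exact pc_high P h n l j i hn (by simpa [Nat.lt_succ_iff] using hj) h4
  unfold XX XQ
  rw [← Finset.sum_subset hsub (fun i hi hi2 => by rw [h0 i hi hi2]; simp),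
    ← Finset.sum_sdiff hI]
  push_cast
  have e1 : ∑ i ∈ OI P \ I0, ((Nat.choose (i - 1 + k) (i - 1) : ℕ) : ℝ) * (m : ℝ) ^ (i + k) *
      ((rh P n l i : ℚ) : ℝ) * zr (i + k) =
      ∑ i ∈ OI P \ I0, ((ck i k m : ℚ) : ℝ) * ((rh P n l i : ℚ) : ℝ) * ((q (i + k) : ℚ) : ℝ) := by
    apply Finset.sum_congr rfl
    intro i hi
    rw [hq i hi]
    unfold ck
    push_cast
    ring
  have e2 : ∑ i ∈ I0, ((Nat.choose (i - 1 + k) (i - 1) : ℕ) : ℝ) * (m : ℝ) ^ (i + k) *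
      ((rh P n l i : ℚ) : ℝ) * zr (i + k) =
      ∑ i ∈ I0, (((ck i k m : ℚ) : ℝ) * zr (i + k)) * ((rh P n l i : ℚ) : ℝ) := by
    apply Finset.sum_congr rfl
    intro i hi
    unfold ck
    push_cast
    ring
  rw [e1, e2]
  ring

/-- the two determinants are equal -/
theorem det_MR (P : Par) (h : P.OK) (I0 : Finset ℕ) (hI : I0 ⊆ OI P) (q : ℕ → ℚ) (n : ℕ)
    (hn : 1 ≤ n) (c : RI P I0 → ℕ) (hc : ∀ j, c j ≤ P.L)
    (hq : ∀ i ∈ OI P \ I0, ∀ k < P.κ, zr (i + 2 * k) = ((q (i + 2 * k) : ℚ) : ℝ)) :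
    (MR P I0 n c).det = (((MZ P I0 q n c).det : ℚ) : ℝ) := by
  have h1 : (((MZ P I0 q n c).det : ℚ) : ℝ) = ((MZ P I0 q n c).map (Rat.castHom ℝ)).det := by
    have := RingHom.map_det (Rat.castHom ℝ) (MZ P I0 q n c)
    simpa using this
  let T : Matrix (RI P I0) (RI P I0) ℝ := Matrix.fromBlocks 1 0
    (Matrix.of fun (kb : Fin P.κ × Fin P.B) (i : {i // i ∈ I0}) =>
      ((ck i (2 * kb.1) (kb.2 + 1) : ℚ) : ℝ) * zr (i + 2 * kb.1)) 1
  have hT : T.det = 1 := by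
    rw [Matrix.det_fromBlocks_zero₁₂]
    simp
  have h2 : MR P I0 n c = T * (MZ P I0 q n c).map (Rat.castHom ℝ) := by
    ext x j
    rw [Matrix.mul_apply, Fintype.sum_sum_type]
    rcases x with i | kb
    · simp only [T, MR, MZ, Matrix.fromBlocks_apply₁₁, Matrix.fromBlocks_apply₁₂,
        Matrix.of_apply, Sum.elim_inl, Matrix.map_apply, Matrix.zero_apply, zero_mul,
        Finset.sum_const_zero, add_zero]
      rw [Finset.sum_eq_single i]
      · simp
      · intro b _ hb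
        rw [Matrix.one_apply_ne hb.symm, zero_mul]
      · intro hh
        exact absurd (Finset.mem_univ _) hh
    · simp only [T, MR, MZ, Matrix.fromBlocks_apply₂₁, Matrix.fromBlocks_apply₂₂,
        Matrix.of_apply, Sum.elim_inl, Sum.elim_inr, Matrix.map_apply]
      rw [XX_eq P h I0 hI q n (c j) (2 * kb.1) (kb.2 + 1) hn (hc j)
        (fun i hi => hq i hi kb.1 kb.1.2), add_comm]
      congr 1
      · rw [← Finset.sum_coe_sort I0 (fun i => (((ck i (2 * kb.1) (kb.2 + 1) : ℚ) : ℝ) *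
          zr (i + 2 * kb.1)) * ((rh P n (c j) i : ℚ) : ℝ))]
        apply Finset.sum_congr rfl
        intro i _
        simp
      · rw [Finset.sum_eq_single kb]
        · simp
        · intro b _ hb
          rw [Matrix.one_apply_ne hb.symm, zero_mul]
        · intro hh
          exact absurd (Finset.mem_univ _) hh
  rw [h1, h2, Matrix.det_mul, hT, one_mul]

/-- a crude determinant bound by rows -/
theorem det_le (P : Par) (I0 : Finset ℕ) (M : Matrix (RI P I0) (RI P I0) ℝ) (U V : ℝ)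
    (hU : 0 ≤ U) (hV : 0 ≤ V)
    (h1 : ∀ i j, |M (Sum.inl i) j| ≤ U) (h2 : ∀ kb j, |M (Sum.inr kb) j| ≤ V) :
    |M.det| ≤ ((I0.card + P.κ * P.B).factorial : ℝ) * (U ^ I0.card * V ^ (P.κ * P.B)) := by
  rw [← Matrix.det_transpose, Matrix.det_apply]
  refine (Finset.abs_sum_le_sum_abs _ _).trans ?_
  have hb : ∀ σ ∈ (Finset.univ : Finset (Equiv.Perm (RI P I0))),
      |Equiv.Perm.sign σ • ∏ i, Mᵀ (σ i) i| ≤ U ^ I0.card * V ^ (P.κ * P.B) := by
    intro σ _
    have e1 : |Equiv.Perm.sign σ • ∏ i, Mᵀ (σ i) i| = ∏ i, |M i (σ i)| := by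
      rw [← Finset.abs_prod]
      rcases Int.units_eq_one_or (Equiv.Perm.sign σ) with hs | hs
      · rw [hs, one_smul]; rfl
      · rw [hs, Units.neg_smul, one_smul, abs_neg]; rfl
    rw [e1, Fintype.prod_sum_type]
    have c1 : ∏ i : {i // i ∈ I0}, |M (Sum.inl i) (σ (Sum.inl i))| ≤ U ^ I0.card := by
      calc ∏ i : {i // i ∈ I0}, |M (Sum.inl i) (σ (Sum.inl i))|
          ≤ ∏ _i : {i // i ∈ I0}, U := Finset.prod_le_prod (fun _ _ => abs_nonneg _) (fun i _ => h1 _ _)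
        _ = U ^ I0.card := by simp
    have c2 : ∏ kb : Fin P.κ × Fin P.B, |M (Sum.inr kb) (σ (Sum.inr kb))| ≤ V ^ (P.κ * P.B) := by
      calc ∏ kb : Fin P.κ × Fin P.B, |M (Sum.inr kb) (σ (Sum.inr kb))|
          ≤ ∏ _i : Fin P.κ × Fin P.B, V := Finset.prod_le_prod (fun _ _ => abs_nonneg _) (fun i _ => h2 _ _)
        _ = V ^ (P.κ * P.B) := by simp
    exact mul_le_mul c1 c2 (Finset.prod_nonneg fun _ _ => abs_nonneg _) (pow_nonneg hU _)
  refine (Finset.sum_le_card_nsmul _ _ _ hb).trans ?_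
  rw [Finset.card_univ, Fintype.card_perm, nsmul_eq_mul]
  simp

end

end Pool.Agent.H513R2.OZ
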