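import Pool.Agent.H513R2.OZ.AsmA


/-!
# Assembly, part B: non-vanishing
-/

open Polynomial Filter Topology Matrix

namespace Pool.Agent.H513R2.OZ

open Pool.Agent.H337R2

noncomputable section

/-- Statement: the zero estimate for `n = 1` -/
def ZeroEst (P : Par) : Prop :=
  ∀ (x : ℕ → ℚ) (y : ℕ → ℕ → ℚ),
    (∀ l ≤ P.L, ∑ i ∈ (Finset.Icc 3 P.Ae).filter Odd, x i * rh P 1 l i +
      ∑ k ∈ Finset.range P.κ, ∑ m ∈ Finset.Icc 1 P.B, y k m * r0 P 1 l (2 * k) m = 0) →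
    (∀ i ∈ (Finset.Icc 3 P.Ae).filter Odd, x i = 0) ∧
    (∀ k < P.κ, ∀ m ∈ Finset.Icc 1 P.B, y k m = 0)

/-- Statement: the `p`-adic lift -/
def LiftSt (P : Par) : Prop :=
  ∃ p0 : ℕ, ∀ p : ℕ, p.Prime → p0 ≤ p → ∃ w : ℚ, w ≠ 0 ∧ ∀ l : ℕ, l ≤ P.L →
      (∀ i : ℕ, 1 ≤ i → padicNorm p (rh P p l i / (w * (p : ℚ) ^ (P.E l + i)) - rh P 1 l i) ≤ (p : ℚ)⁻¹) ∧
      (∀ k m : ℕ, 1 ≤ m → m ≤ P.B → k < 2 * P.κ →
        padicNorm p (r0 P p l k m / (w * (p : ℚ) ^ (P.E l - k)) - r0 P 1 l k m) ≤ (p : ℚ)⁻¹)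

/-- columns for which the determinant for `n = 1` does not vanish -/
theorem exists_cols (P : Par) (hz : ZeroEst P) (I0 : Finset ℕ) (hI : I0 ⊆ OI P) :
    ∃ c : RI P I0 → ℕ, (∀ j, c j ≤ P.L) ∧ (M1 P I0 c).det ≠ 0 := by
  classical
  let v : RI P I0 → Fin (P.L + 1) → ℚ := Sum.elim (fun i l => rh P 1 l i)
    (fun kb l => - r0 P 1 l (2 * kb.1) (kb.2 + 1))
  have hv : LinearIndependent ℚ v := by
    rw [Fintype.linearIndependent_iff]
    intro g hg
    let x : ℕ → ℚ := fun i => if hi : i ∈ I0 then g (Sum.inl ⟨i, hi⟩) else 0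
    let y : ℕ → ℕ → ℚ := fun k m => if hk : k < P.κ ∧ m - 1 < P.B ∧ 1 ≤ m then
      - g (Sum.inr (⟨k, hk.1⟩, ⟨m - 1, hk.2.1⟩)) else 0
    have hx : ∀ i : {i // i ∈ I0}, x i = g (Sum.inl i) := by
      intro i
      simp only [x, i.2, dite_true]
    have hy : ∀ (k : Fin P.κ) (b : Fin P.B), y k (b + 1) = - g (Sum.inr (k, b)) := by
      intro k b
      have : (k : ℕ) < P.κ ∧ (b : ℕ) + 1 - 1 < P.B ∧ 1 ≤ (b : ℕ) + 1 := ⟨k.2, by simp, by omega⟩
      simp only [y, this, Nat.add_sub_cancel]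
      simp
    have hmain := hz x y (by
      intro l hl
      have h1 := congrFun hg ⟨l, by omega⟩
      rw [Finset.sum_apply, Fintype.sum_sum_type] at h1
      simp only [Pi.smul_apply, smul_eq_mul, Pi.zero_apply, v, Sum.elim_inl, Sum.elim_inr] at h1
      have e1 : ∑ i ∈ (Finset.Icc 3 P.Ae).filter Odd, x i * rh P 1 l i =
          ∑ i : {i // i ∈ I0}, g (Sum.inl i) * rh P 1 l i := by
        have e0 : ∑ i ∈ I0, x i * rh P 1 l i = ∑ i ∈ OI P, x i * rh P 1 l i :=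
          Finset.sum_subset hI (fun i _ hi2 => by
            have : x i = 0 := dif_neg hi2
            rw [this, zero_mul])
        have e00 : ∑ i ∈ (Finset.Icc 3 P.Ae).filter Odd, x i * rh P 1 l i =
          ∑ i ∈ I0, x i * rh P 1 l i := e0.symm
        rw [e00, ← Finset.sum_coe_sort I0 (fun i => x i * rh P 1 l i)]
        apply Finset.sum_congr rfl
        intro i _
        rw [hx]
      have e2 : ∑ k ∈ Finset.range P.κ, ∑ m ∈ Finset.Icc 1 P.B, y k m * r0 P 1 l (2 * k) m =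
          ∑ kb : Fin P.κ × Fin P.B, g (Sum.inr kb) * -(r0 P 1 l (2 * kb.1) (kb.2 + 1)) := by
        rw [Finset.sum_range, Fintype.sum_prod_type]
        apply Finset.sum_congr rfl
        intro k _
        rw [sum_Icc_fin]
        apply Finset.sum_congr rfl
        intro b _
        rw [hy]
        ring
      rw [e1, e2]
      exact h1)
    intro i
    rcases i with i | kb
    · rw [← hx i]
      exact hmain.1 i (hI i.2)
    · have := hmain.2 kb.1 kb.1.2 (kb.2 + 1) (by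
        rw [Finset.mem_Icc]; exact ⟨by omega, kb.2.2⟩)
      rw [hy] at this
      simpa using this
  obtain ⟨c, hc⟩ := choose_cols v hv
  refine ⟨fun j => c j, fun j => Nat.lt_succ_iff.mp (c j).2, ?_⟩
  convert hc using 2
  ext i j
  rcases i with i | kb
  · rfl
  · rfl

theorem padic_ck {p : ℕ} [Fact p.Prime] (i k m : ℕ) : padicNorm p (ck i k m) ≤ 1 := by
  have : ck i k m = ((((i - 1 + k).choose (i - 1) * m ^ (i + k) : ℕ) : ℤ) : ℚ) := by
    unfold ck; push_cast; ring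
  rw [this]
  exact padicNorm.of_int _

/-- the determinant of `MZ` does not vanish for `n = p` a large prime -/
theorem det_MZ_ne_zero (P : Par) (hlift : LiftSt P) (I0 : Finset ℕ) (q : ℕ → ℚ)
    (c : RI P I0 → ℕ) (hc : ∀ j, c j ≤ P.L) (hdet : (M1 P I0 c).det ≠ 0) (hI : I0 ⊆ OI P) :
    ∃ p0 : ℕ, ∀ p : ℕ, p.Prime → p0 ≤ p → (MZ P I0 q p c).det ≠ 0 := by
  classical
  obtain ⟨p1, h1⟩ := hlift
  obtain ⟨p2, h2⟩ := det_ne_zero_of_congr (M1 P I0 c) hdet
  obtain ⟨p3, h3⟩ := padic_large_fin (Finset.range (P.Ae + 2 * P.κ + 1)) q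
  obtain ⟨p4, h4⟩ := padic_large_fin ((Finset.range (P.L + 1)) ×ˢ (Finset.range (P.Ae + 1)))
    (fun x => rh P 1 x.1 x.2)
  refine ⟨max (max p1 p2) (max p3 p4), fun p hp hp0 => ?_⟩
  have : Fact p.Prime := ⟨hp⟩
  have hpp : (p : ℚ) ≠ 0 := by exact_mod_cast hp.ne_zero
  have hp1 : (1 : ℚ) < p := by exact_mod_cast hp.one_lt
  have hpi0 : (0 : ℚ) ≤ (p : ℚ)⁻¹ := by positivity
  have hpi : (p : ℚ)⁻¹ ≤ 1 := by
    rw [inv_le_one₀ (by linarith)]; linarith
  obtain ⟨w, hw, hl⟩ := h1 p hp (by omega)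
  have h2' := h2 p hp (by omega)
  have h3' := h3 p hp (by omega)
  have h4' := h4 p hp (by omega)
  -- scalings
  let R : RI P I0 → ℚ := Sum.elim (fun i => (p : ℚ) ^ (i : ℕ)) (fun kb => (p : ℚ) ^ (-(2 * (kb.1 : ℕ) : ℤ)))
  let S : RI P I0 → ℚ := fun j => w * (p : ℚ) ^ (P.E (c j))
  have hR : ∀ i, R i ≠ 0 := by
    intro i
    rcases i with i | kb
    · exact pow_ne_zero _ hpp
    · exact zpow_ne_zero _ hpp
  have hS : ∀ j, S j ≠ 0 := fun j => mul_ne_zero hw (zpow_ne_zero _ hpp)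
  let Sp : Matrix (RI P I0) (RI P I0) ℚ := Matrix.of fun i j => MZ P I0 q p c i j / (R i * S j)
  have hSp : Sp.det ≠ 0 := by
    apply h2'
    intro x j
    rcases x with i | kb
    · have hh := (hl (c j) (hc j)).1 i (by
        have := hI i.2
        simp only [OI, Finset.mem_filter, Finset.mem_Icc] at this
        omega)
      have e : Sp (Sum.inl i) j = rh P p (c j) i / (w * (p : ℚ) ^ (P.E (c j) + (i : ℕ))) := by
        simp only [Sp, MZ, R, S, Matrix.of_apply, Sum.elim_inl]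
        rw [zpow_add₀ hpp, zpow_natCast]
        congr 1
        ring
      have e' : M1 P I0 c (Sum.inl i) j = rh P 1 (c j) i := rfl
      rw [e, e']
      exact hh
    · have hk2 : 2 * (kb.1 : ℕ) < 2 * P.κ := by have := kb.1.2; omega
      have hh := (hl (c j) (hc j)).2 (2 * kb.1) (kb.2 + 1) (by omega) kb.2.2 hk2
      have e' : M1 P I0 c (Sum.inr kb) j = - r0 P 1 (c j) (2 * kb.1) (kb.2 + 1) := rfl
      have e : Sp (Sum.inr kb) j - M1 P I0 c (Sum.inr kb) j =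
          (∑ i ∈ OI P \ I0, ck i (2 * kb.1) (kb.2 + 1) * q (i + 2 * kb.1) *
            (p : ℚ) ^ (i + 2 * (kb.1 : ℕ)) * (rh P p (c j) i / (w * (p : ℚ) ^ (P.E (c j) + (i : ℕ))))) -
          (r0 P p (c j) (2 * kb.1) (kb.2 + 1) / (w * (p : ℚ) ^ (P.E (c j) - ((2 * (kb.1 : ℕ) : ℕ) : ℤ)))
            - r0 P 1 (c j) (2 * kb.1) (kb.2 + 1)) := by
        rw [e']
        simp only [Sp, MZ, R, S, Matrix.of_apply, Sum.elim_inr, XQ]
        have f1 : (p : ℚ) ^ (P.E (c j) - ((2 * (kb.1 : ℕ) : ℕ) : ℤ)) =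
            (p : ℚ) ^ (-(2 * (kb.1 : ℕ) : ℤ)) * (p : ℚ) ^ (P.E (c j)) := by
          rw [← zpow_add₀ hpp]
          congr 1
          push_cast
          ring
        rw [f1, sub_div, Finset.sum_div]
        have f2 : ∀ i ∈ OI P \ I0, ck i (2 * kb.1) (kb.2 + 1) * rh P p (c j) i * q (i + 2 * kb.1) /
            ((p : ℚ) ^ (-(2 * (kb.1 : ℕ) : ℤ)) * (w * (p : ℚ) ^ (P.E (c j)))) =
            ck i (2 * kb.1) (kb.2 + 1) * q (i + 2 * kb.1) *
            (p : ℚ) ^ (i + 2 * (kb.1 : ℕ)) * (rh P p (c j) i / (w * (p : ℚ) ^ (P.E (c j) + (i : ℕ)))) := by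
          intro i _
          rw [zpow_add₀ hpp, zpow_natCast, _root_.zpow_neg]
          have f3 : (p : ℚ) ^ (2 * (kb.1 : ℕ) : ℤ) = (p : ℚ) ^ (2 * (kb.1 : ℕ)) := by
            have := zpow_natCast (p : ℚ) (2 * (kb.1 : ℕ))
            rw [← this]
            congr 1
          rw [f3, pow_add]
          have g1 : (p : ℚ) ^ (P.E (c j)) ≠ 0 := zpow_ne_zero _ hpp
          have g2 : (p : ℚ) ^ (2 * (kb.1 : ℕ)) ≠ 0 := pow_ne_zero _ hpp
          have g3 : (p : ℚ) ^ i ≠ 0 := pow_ne_zero _ hpp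
          field_simp
        rw [Finset.sum_congr rfl f2]
        ring
      rw [e]
      refine (padicNorm.sub).trans (max_le ?_ hh)
      apply padicNorm.sum_le' _ hpi0
      intro i hi
      have hi' : 3 ≤ i ∧ i ≤ P.Ae := by
        have := (Finset.mem_sdiff.mp hi).1
        simp only [OI, Finset.mem_filter, Finset.mem_Icc] at this
        exact this.1
      have n1 : padicNorm p (ck i (2 * kb.1) (kb.2 + 1)) ≤ 1 := padic_ck _ _ _
      have n2 : padicNorm p (q (i + 2 * kb.1)) ≤ 1 := h3' _ (by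
        rw [Finset.mem_range]; omega)
      have n3 : padicNorm p ((p : ℚ) ^ (i + 2 * (kb.1 : ℕ))) ≤ (p : ℚ)⁻¹ := by
        rw [IsAbsoluteValue.abv_pow (padicNorm p), padicNorm.padicNorm_p hp.one_lt]
        exact pow_le_of_le_one hpi0 hpi (by omega)
      have n4 : padicNorm p (rh P p (c j) i / (w * (p : ℚ) ^ (P.E (c j) + (i : ℕ)))) ≤ 1 := by
        have hh1 := (hl (c j) (hc j)).1 i (by omega)
        have hh2 := h4' (c j, i) (by
          rw [Finset.mem_product, Finset.mem_range, Finset.mem_range]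
          exact ⟨by have := hc j; simp; omega, by simp; omega⟩)
        have : rh P p (c j) i / (w * (p : ℚ) ^ (P.E (c j) + (i : ℕ))) =
            (rh P p (c j) i / (w * (p : ℚ) ^ (P.E (c j) + (i : ℕ))) - rh P 1 (c j) i) +
            rh P 1 (c j) i := by ring
        rw [this]
        exact (padicNorm.nonarchimedean).trans (max_le (hh1.trans hpi) hh2)
      rw [padicNorm.mul, padicNorm.mul, padicNorm.mul]
      calc padicNorm p (ck i (2 * kb.1) (kb.2 + 1)) * padicNorm p (q (i + 2 * kb.1)) *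
            padicNorm p ((p : ℚ) ^ (i + 2 * (kb.1 : ℕ))) *
            padicNorm p (rh P p (c j) i / (w * (p : ℚ) ^ (P.E (c j) + (i : ℕ))))
          ≤ 1 * 1 * (p : ℚ)⁻¹ * 1 := by
            gcongr <;> exact padicNorm.nonneg _
        _ = (p : ℚ)⁻¹ := by ring
  have hfin : (MZ P I0 q p c).det = (∏ i, R i) * ((∏ j, S j) * Sp.det) := by
    rw [← Matrix.det_mul_row, ← Matrix.det_mul_column]
    congr 1
    ext i j
    simp only [Matrix.of_apply, Sp]
    have a1 := hR i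
    have a2 := hS j
    field_simp
  rw [hfin]
  exact mul_ne_zero (Finset.prod_ne_zero_iff.mpr fun i _ => hR i)
    (mul_ne_zero (Finset.prod_ne_zero_iff.mpr fun j _ => hS j) hSp)

end

end Pool.Agent.H513R2.OZ
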