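import Pool.Agent.H513R2.OZ.AsmB

/-!
# Assembly, part C: integrality and the analytic contradiction
-/

open Polynomial Filter Topology Matrix

namespace Pool.Agent.H513R2.OZ

open Pool.Agent.H337R2

noncomputable section

/-- Statement: integrality criterion -/
def IntCrit : Prop := ∀ (n T : ℕ) (x : ℚ), (∀ p : ℕ, p.Prime → padicNorm p x ≤ rp p n ^ T) →
    ∃ z : ℤ, (dl n : ℚ) ^ T * x = z

/-- Statement: arithmetic of the coefficients -/
def PcNormSt (P : Par) : Prop := ∀ (p : ℕ) [Fact p.Prime] (n l j i : ℕ), 1 ≤ n → j ≤ n → 1 ≤ i →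
    padicNorm p (pc P n l j i) ≤ rp p n ^ (P.A + 2 * P.g)

/-- Statement: arithmetic of the rational part -/
def R0NormSt (P : Par) : Prop := ∀ (p : ℕ) [Fact p.Prime] (n l k m : ℕ), 1 ≤ n → l ≤ P.L →
    k < 2 * P.κ → Even k → 1 ≤ m → m ≤ P.B →
    padicNorm p (r0 P n l k m) ≤ rp p n ^ (2 * P.A + 2 * P.g + k)

theorem dl_pos (n : ℕ) : 1 ≤ dl n := by
  unfold dl
  rw [Nat.one_le_iff_ne_zero, Ne, Finset.lcm_eq_zero_iff]
  simp

theorem rp_nonneg (p n : ℕ) : 0 ≤ rp p n := by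
  unfold rp
  exact inv_nonneg.mpr (padicNorm.nonneg _)

theorem rh_int (P : Par) (hint : IntCrit) (hpc : PcNormSt P) (n l i : ℕ) (hn : 1 ≤ n)
    (hi : 1 ≤ i) : ∃ z : ℤ, (dl n : ℚ) ^ (P.A + 2 * P.g) * rh P n l i = z := by
  apply hint
  intro p hp
  have : Fact p.Prime := ⟨hp⟩
  unfold rh
  apply padicNorm.sum_le' _ (pow_nonneg (rp_nonneg p n) _)
  intro j hj
  exact hpc p n l j i hn (by simpa [Nat.lt_succ_iff] using hj) hi

theorem r0_int (P : Par) (hint : IntCrit) (hr0 : R0NormSt P) (n l k m : ℕ) (hn : 1 ≤ n)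
    (hl : l ≤ P.L) (hk : k < 2 * P.κ) (hk2 : Even k) (hm1 : 1 ≤ m) (hm : m ≤ P.B) :
    ∃ z : ℤ, (dl n : ℚ) ^ (2 * P.A + 2 * P.g + k) * r0 P n l k m = z := by
  apply hint
  intro p hp
  have : Fact p.Prime := ⟨hp⟩
  exact hr0 p n l k m hn hl hk hk2 hm1 hm

/-- being an integer -/
def IsZ (x : ℚ) : Prop := ∃ z : ℤ, x = z

theorem IsZ.mul {x y : ℚ} (hx : IsZ x) (hy : IsZ y) : IsZ (x * y) := by
  obtain ⟨a, rfl⟩ := hx
  obtain ⟨b, rfl⟩ := hy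
  exact ⟨a * b, by push_cast; ring⟩

theorem IsZ.sub {x y : ℚ} (hx : IsZ x) (hy : IsZ y) : IsZ (x - y) := by
  obtain ⟨a, rfl⟩ := hx
  obtain ⟨b, rfl⟩ := hy
  exact ⟨a - b, by push_cast; ring⟩

theorem IsZ.nat (n : ℕ) : IsZ (n : ℚ) := ⟨n, by push_cast; ring⟩

theorem IsZ.pow {x : ℚ} (hx : IsZ x) (n : ℕ) : IsZ (x ^ n) := by
  obtain ⟨a, rfl⟩ := hx
  exact ⟨a ^ n, by push_cast; ring⟩

theorem IsZ.sum {ι : Type*} (s : Finset ι) (f : ι → ℚ) (hf : ∀ i ∈ s, IsZ (f i)) :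
    IsZ (∑ i ∈ s, f i) := by
  classical
  induction s using Finset.induction_on with
  | empty => exact ⟨0, by simp⟩
  | insert i s hi ih =>
    rw [Finset.sum_insert hi]
    obtain ⟨a, ha⟩ := hf i (Finset.mem_insert_self i s)
    obtain ⟨b, hb⟩ := ih (fun j hj => hf j (Finset.mem_insert_of_mem hj))
    exact ⟨a + b, by rw [ha, hb]; push_cast; ring⟩

theorem ck_int (i k m : ℕ) : IsZ (ck i k m) := by
  unfold ck
  exact (IsZ.nat _).mul ((IsZ.nat _).pow _)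

theorem XQ_int (P : Par) (hint : IntCrit) (hpc : PcNormSt P) (hr0 : R0NormSt P)
    (I0 : Finset ℕ) (q : ℕ → ℚ) (Q : ℕ) (hQ : ∀ j, j ≤ P.Ae + 2 * P.κ → IsZ ((Q : ℚ) * q j))
    (n l k m : ℕ) (hn : 1 ≤ n)
    (hl : l ≤ P.L) (hk : k < 2 * P.κ) (hk2 : Even k) (hm1 : 1 ≤ m) (hm : m ≤ P.B) :
    IsZ (((Q : ℚ) * (dl n : ℚ) ^ (2 * P.A + 2 * P.g + 2 * P.κ)) * XQ P I0 q n l k m) := by
  unfold XQ
  rw [mul_sub]
  apply IsZ.sub
  · rw [Finset.mul_sum]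
    apply IsZ.sum
    intro i hi
    have hi' : 3 ≤ i ∧ i ≤ P.Ae := by
      have := (Finset.mem_sdiff.mp hi).1
      simp only [OI, Finset.mem_filter, Finset.mem_Icc] at this
      exact this.1
    obtain ⟨z, hz⟩ := rh_int P hint hpc n l i hn (by omega)
    have e : ((Q : ℚ) * (dl n : ℚ) ^ (2 * P.A + 2 * P.g + 2 * P.κ)) *
        (ck i k m * rh P n l i * q (i + k)) =
        ((Q : ℚ) * q (i + k)) * ck i k m * ((dl n : ℚ) ^ (P.A + 2 * P.κ)) *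
          ((dl n : ℚ) ^ (P.A + 2 * P.g) * rh P n l i) := by
      rw [show 2 * P.A + 2 * P.g + 2 * P.κ = (P.A + 2 * P.κ) + (P.A + 2 * P.g) by ring, pow_add]
      ring
    rw [e, hz]
    exact (((hQ _ (by omega)).mul (ck_int _ _ _)).mul ((IsZ.nat _).pow _)).mul ⟨z, rfl⟩
  · obtain ⟨z, hz⟩ := r0_int P hint hr0 n l k m hn hl hk hk2 hm1 hm
    have e : ((Q : ℚ) * (dl n : ℚ) ^ (2 * P.A + 2 * P.g + 2 * P.κ)) * r0 P n l k m =
        (Q : ℚ) * ((dl n : ℚ) ^ (2 * P.κ - k)) *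
          ((dl n : ℚ) ^ (2 * P.A + 2 * P.g + k) * r0 P n l k m) := by
      have : 2 * P.A + 2 * P.g + 2 * P.κ = (2 * P.κ - k) + (2 * P.A + 2 * P.g + k) := by omega
      rw [this, pow_add]
      ring
    rw [e, hz]
    exact ((IsZ.nat _).mul ((IsZ.nat _).pow _)).mul ⟨z, rfl⟩

theorem det_int {ρ : Type*} [Fintype ρ] [DecidableEq ρ] (M : Matrix ρ ρ ℚ) (v : ρ → ℚ)
    (h : ∀ i j, IsZ (v i * M i j)) : IsZ ((∏ i, v i) * M.det) := by
  choose Z hZ using h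
  refine ⟨(Matrix.of Z).det, ?_⟩
  rw [← Matrix.det_mul_column]
  have h1 : (((Matrix.of Z).det : ℤ) : ℚ) = ((Matrix.of Z).map (Int.castRingHom ℚ)).det := by
    have := RingHom.map_det (Int.castRingHom ℚ) (Matrix.of Z)
    simpa using this
  rw [h1]
  congr 1
  ext i j
  simp [hZ]

theorem MZ_det_int (P : Par) (hint : IntCrit) (hpc : PcNormSt P) (hr0 : R0NormSt P)
    (I0 : Finset ℕ) (hI : I0 ⊆ OI P) (q : ℕ → ℚ) (Q : ℕ)
    (hQ : ∀ j, j ≤ P.Ae + 2 * P.κ → IsZ ((Q : ℚ) * q j))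
    (n : ℕ) (hn : 1 ≤ n) (c : RI P I0 → ℕ) (hc : ∀ j, c j ≤ P.L) :
    IsZ ((((dl n : ℚ) ^ (P.A + 2 * P.g)) ^ I0.card *
      ((Q : ℚ) * (dl n : ℚ) ^ (2 * P.A + 2 * P.g + 2 * P.κ)) ^ (P.κ * P.B)) *
      (MZ P I0 q n c).det) := by
  have := det_int (MZ P I0 q n c) (Sum.elim (fun _ => (dl n : ℚ) ^ (P.A + 2 * P.g))
    (fun _ => (Q : ℚ) * (dl n : ℚ) ^ (2 * P.A + 2 * P.g + 2 * P.κ))) (by
      intro x j
      rcases x with i | kb
      · simp only [MZ, Sum.elim_inl, Matrix.of_apply]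
        have hi : 1 ≤ (i : ℕ) := by
          have := hI i.2
          simp only [OI, Finset.mem_filter, Finset.mem_Icc] at this
          omega
        exact rh_int P hint hpc n (c j) i hn hi
      · simp only [MZ, Sum.elim_inr, Matrix.of_apply]
        apply XQ_int P hint hpc hr0 I0 q Q hQ n (c j) _ _ hn (hc j)
        · have := kb.1.2; omega
        · exact ⟨kb.1, by ring⟩
        · omega
        · exact kb.2.2)
  rw [Fintype.prod_sum_type] at this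
  simpa using this

end

end Pool.Agent.H513R2.OZ
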