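import Pool.Agent.H513R2.OZ.AsmC

/-!
# Assembly, part D: the analytic contradiction
-/

open Polynomial Filter Topology Matrix

namespace Pool.Agent.H513R2.OZ

open Pool.Agent.H337R2

noncomputable section

theorem small_limit (K c : ℝ) (D : ℕ) (hc : 0 < c) :
    ∃ n0 : ℕ, ∀ n : ℕ, n0 ≤ n → K * (n : ℝ) ^ D * Real.exp (-(c * n)) < 1 := by
  have h1 := Real.tendsto_pow_mul_exp_neg_atTop_nhds_zero D
  have h2 : Tendsto (fun n : ℕ => c * (n : ℝ)) atTop atTop :=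
    Tendsto.const_mul_atTop hc tendsto_natCast_atTop_atTop
  have h3 := (h1.comp h2).const_mul (K / c ^ D)
  rw [mul_zero] at h3
  have h4 := h3.eventually (gt_mem_nhds (show (0 : ℝ) < 1 by norm_num))
  rw [eventually_atTop] at h4
  obtain ⟨n0, h5⟩ := h4
  refine ⟨n0, fun n hn => ?_⟩
  have h6 := h5 n hn
  simp only [Function.comp] at h6
  have e : K / c ^ D * ((c * (n : ℝ)) ^ D * Real.exp (-(c * (n : ℝ)))) =
      K * (n : ℝ) ^ D * Real.exp (-(c * n)) := by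
    rw [mul_pow]
    have : c ^ D ≠ 0 := pow_ne_zero _ hc.ne'
    field_simp
  rw [← e]
  exact h6

/-- Statement: upper bound for the coefficients -/
def PcBoundSt (P : Par) : Prop := ∃ C : ℝ, ∃ D : ℕ, ∀ n l j i : ℕ, 1 ≤ n → l ≤ P.L → j ≤ n →
    1 ≤ i → |((pc P n l j i : ℚ) : ℝ)| ≤ C * (n : ℝ) ^ D * Real.exp (P.be * n)

/-- Statement: upper bound for the linear forms -/
def XXBoundSt (P : Par) : Prop := ∃ C : ℝ, ∃ D n0 : ℕ, ∀ n l k m : ℕ, n0 ≤ n → l ≤ P.L →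
    k < 2 * P.κ → Even k → 1 ≤ m → m ≤ P.B →
    |XX P n l k m| ≤ C * (n : ℝ) ^ D * Real.exp (-(P.al * n))

/-- Statement: upper bound for the lcm -/
def DlSt : Prop := ∃ n0 : ℕ, ∀ n : ℕ, n0 ≤ n → (dl n : ℝ) ≤ Real.exp ((3 / 2 : ℝ) * n)

theorem be_nonneg (P : Par) (h : P.OK) : 0 ≤ P.be := by
  unfold Par.be
  have h1 : (1 : ℝ) ≤ ((P.r : ℝ) + 2) * P.B := by
    have hB : (1 : ℝ) ≤ P.B := by exact_mod_cast h.hB
    have hr : (0 : ℝ) ≤ P.r := by positivity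
    nlinarith
  have h2 := Real.log_nonneg h1
  have h3 : 0 ≤ Real.log 2 := Real.log_nonneg (by norm_num)
  positivity

theorem exists_den (q : ℕ → ℚ) (N : ℕ) : ∃ Q : ℕ, 1 ≤ Q ∧ ∀ j, j ≤ N → IsZ ((Q : ℚ) * q j) := by
  refine ⟨∏ j ∈ Finset.range (N + 1), (q j).den, ?_, ?_⟩
  · rw [Nat.one_le_iff_ne_zero, Finset.prod_ne_zero_iff]
    intro j _
    exact (q j).den_nz
  · intro j hj
    rw [← Finset.prod_erase_mul _ _ (Finset.mem_range.mpr (show j < N + 1 by omega))]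
    push_cast
    rw [mul_assoc, Rat.den_mul_eq_num]
    have : (∏ x ∈ (Finset.range (N + 1)).erase j, ((q x).den : ℚ)) =
        ((∏ x ∈ (Finset.range (N + 1)).erase j, (q x).den : ℕ) : ℚ) := by push_cast; rfl
    rw [this]
    exact (IsZ.nat _).mul ⟨_, rfl⟩

/-- the main inequality -/
theorem main_ineq (P : Par) (h : P.OK) (hz : ZeroEst P) (hlift : LiftSt P) (hint : IntCrit)
    (hpc : PcNormSt P) (hr0 : R0NormSt P) (hpb : PcBoundSt P) (hxb : XXBoundSt P) (hdl : DlSt)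
    (hal : P.be + 3 / 2 * (3 * (P.A : ℝ) + 4 * P.g + 2 * P.κ) < P.al)
    (I0 : Finset ℕ) (hI : I0 ⊆ OI P) (q : ℕ → ℚ)
    (hq : ∀ i ∈ OI P \ I0, ∀ k < P.κ, zr (i + 2 * k) = ((q (i + 2 * k) : ℚ) : ℝ)) :
    P.κ * P.B < I0.card := by
  by_contra hle
  rw [not_lt] at hle
  set N := P.κ * P.B with hN
  have hN1 : 1 ≤ N := Nat.mul_pos h.hκ h.hB
  set t := I0.card with ht
  obtain ⟨c, hc, hdet⟩ := exists_cols P hz I0 hI
  obtain ⟨p0, hp0⟩ := det_MZ_ne_zero P hlift I0 q c hc hdet hI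
  obtain ⟨Q, hQ1, hQ⟩ := exists_den q (P.Ae + 2 * P.κ)
  obtain ⟨C1, D1, hC1⟩ := hpb
  obtain ⟨C2, D2, n2, hC2⟩ := hxb
  obtain ⟨n3, hn3⟩ := hdl
  set C1' : ℝ := max C1 1 with hC1'
  set C2' : ℝ := max C2 1 with hC2'
  set E : ℕ := 3 * P.A + 4 * P.g + 2 * P.κ with hE
  set δ : ℝ := P.al - P.be - 3 / 2 * E with hδ
  have hδ0 : 0 < δ := by
    rw [hδ, hE]; push_cast; linarith
  have hNR : (0 : ℝ) < N := by exact_mod_cast hN1
  obtain ⟨n4, hn4⟩ := small_limit ((Q : ℝ) ^ N * ((2 * N).factorial : ℝ) * (2 * C1') ^ N * C2' ^ N)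
    (N * δ) ((D1 + 1 + D2) * N) (by positivity)
  obtain ⟨p, hpM, hp⟩ := Nat.exists_infinite_primes (max (max p0 n2) (max n3 n4) + 1)
  have hp1 : 1 ≤ p := hp.one_lt.le
  have hpR : (1 : ℝ) ≤ p := by exact_mod_cast hp1
  have hnz := hp0 p hp (by omega)
  have hn4' := hn4 p (by omega)
  have hdlp := hn3 p (by omega)
  have hdl1 : (1 : ℝ) ≤ dl p := by exact_mod_cast dl_pos p
  -- integrality
  have hZ := MZ_det_int P hint hpc hr0 I0 hI q Q hQ p hp1 c hc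
  obtain ⟨z, hz1⟩ := hZ
  have hQ0 : (Q : ℚ) ≠ 0 := by
    have : Q ≠ 0 := by omega
    exact_mod_cast this
  have hdl0 : (dl p : ℚ) ≠ 0 := by
    have := dl_pos p
    have : dl p ≠ 0 := by omega
    exact_mod_cast this
  have hz0 : z ≠ 0 := by
    intro hz2
    rw [hz2] at hz1
    have : (((dl p : ℚ) ^ (P.A + 2 * P.g)) ^ I0.card *
      ((Q : ℚ) * (dl p : ℚ) ^ (2 * P.A + 2 * P.g + 2 * P.κ)) ^ (P.κ * P.B)) ≠ 0 := by
      apply mul_ne_zero
      · exact pow_ne_zero _ (pow_ne_zero _ hdl0)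
      · exact pow_ne_zero _ (mul_ne_zero hQ0 (pow_ne_zero _ hdl0))
    have h3 := mul_ne_zero this hnz
    rw [hz1] at h3
    simp at h3
  have hz3 : (1 : ℝ) ≤ |(z : ℝ)| := by
    rw [← Int.cast_abs]
    exact_mod_cast Int.one_le_abs hz0
  have hz4 : (z : ℝ) = (((dl p : ℝ) ^ (P.A + 2 * P.g)) ^ t *
      ((Q : ℝ) * (dl p : ℝ) ^ (2 * P.A + 2 * P.g + 2 * P.κ)) ^ N) *
      (((MZ P I0 q p c).det : ℚ) : ℝ) := by
    have : ((z : ℚ) : ℝ) = (z : ℝ) := by push_cast; rfl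
    rw [← this, ← hz1]
    push_cast
    rfl
  rw [← det_MR P h I0 hI q p hp1 c hc hq] at hz4
  -- bounds of the entries
  have hbe := be_nonneg P h
  set U : ℝ := 2 * C1' * (p : ℝ) ^ (D1 + 1) * Real.exp (P.be * p) with hU
  set V : ℝ := C2' * (p : ℝ) ^ D2 * Real.exp (-(P.al * p)) with hV
  have hC1p : 1 ≤ C1' := le_max_right _ _
  have hC2p : 1 ≤ C2' := le_max_right _ _
  have hU1 : 1 ≤ U := by
    rw [hU]
    have e1 : (1 : ℝ) ≤ (p : ℝ) ^ (D1 + 1) := one_le_pow₀ hpR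
    have e2 : (1 : ℝ) ≤ Real.exp (P.be * p) := Real.one_le_exp (by positivity)
    have e3 : (1 : ℝ) ≤ 2 * C1' := by linarith
    calc (1 : ℝ) = 1 * 1 * 1 := by ring
      _ ≤ 2 * C1' * (p : ℝ) ^ (D1 + 1) * Real.exp (P.be * p) := by gcongr
  have hV0 : 0 ≤ V := by
    rw [hV]; positivity
  have hM1 : ∀ i j, |MR P I0 p c (Sum.inl i) j| ≤ U := by
    intro i j
    have hi : 1 ≤ (i : ℕ) := by
      have := hI i.2
      simp only [OI, Finset.mem_filter, Finset.mem_Icc] at this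
      omega
    simp only [MR, Matrix.of_apply, Sum.elim_inl]
    unfold rh
    push_cast
    refine (Finset.abs_sum_le_sum_abs _ _).trans ?_
    have hb : ∀ j' ∈ Finset.range (p + 1), |((pc P p (c j) j' i : ℚ) : ℝ)| ≤
        C1' * (p : ℝ) ^ D1 * Real.exp (P.be * p) := by
      intro j' hj'
      refine (hC1 p (c j) j' i hp1 (hc j) (by simpa [Nat.lt_succ_iff] using hj') hi).trans ?_
      gcongr
      exact le_max_left _ _
    refine (Finset.sum_le_card_nsmul _ _ _ hb).trans ?_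
    rw [Finset.card_range, nsmul_eq_mul, hU]
    push_cast
    have e1 : (p : ℝ) + 1 ≤ 2 * p := by linarith
    calc ((p : ℝ) + 1) * (C1' * (p : ℝ) ^ D1 * Real.exp (P.be * p))
        ≤ (2 * p) * (C1' * (p : ℝ) ^ D1 * Real.exp (P.be * p)) := by gcongr
      _ = 2 * C1' * (p : ℝ) ^ (D1 + 1) * Real.exp (P.be * p) := by ring
  have hM2 : ∀ kb j, |MR P I0 p c (Sum.inr kb) j| ≤ V := by
    intro kb j
    simp only [MR, Matrix.of_apply, Sum.elim_inr]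
    refine (hC2 p (c j) (2 * kb.1) (kb.2 + 1) (by omega) (hc j) (by have := kb.1.2; omega)
      ⟨kb.1, by ring⟩ (by omega) kb.2.2).trans ?_
    rw [hV]
    gcongr
    exact le_max_left _ _
  have hdetb := det_le P I0 (MR P I0 p c) U V (by linarith) hV0 hM1 hM2
  -- conclusion
  have g1 : ((dl p : ℝ) ^ (P.A + 2 * P.g)) ^ t ≤ ((dl p : ℝ) ^ (P.A + 2 * P.g)) ^ N :=
    pow_le_pow_right₀ (one_le_pow₀ hdl1) hle
  have g2 : (((t + P.κ * P.B).factorial : ℕ) : ℝ) ≤ (((2 * N).factorial : ℕ) : ℝ) := by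
    exact_mod_cast Nat.factorial_le (by omega)
  have g3 : U ^ t ≤ U ^ N := pow_le_pow_right₀ hU1 hle
  have g4 : |((dl p : ℝ) ^ (P.A + 2 * P.g)) ^ t *
      ((Q : ℝ) * (dl p : ℝ) ^ (2 * P.A + 2 * P.g + 2 * P.κ)) ^ N| ≤
      (Q : ℝ) ^ N * Real.exp ((3 / 2 : ℝ) * p) ^ (E * N) := by
    rw [abs_of_nonneg (by positivity)]
    calc ((dl p : ℝ) ^ (P.A + 2 * P.g)) ^ t *
      ((Q : ℝ) * (dl p : ℝ) ^ (2 * P.A + 2 * P.g + 2 * P.κ)) ^ N
        ≤ ((dl p : ℝ) ^ (P.A + 2 * P.g)) ^ N *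
      ((Q : ℝ) * (dl p : ℝ) ^ (2 * P.A + 2 * P.g + 2 * P.κ)) ^ N := by gcongr
      _ = (Q : ℝ) ^ N * (dl p : ℝ) ^ (E * N) := by
          rw [hE, mul_pow, ← pow_mul, ← pow_mul]
          rw [show (3 * P.A + 4 * P.g + 2 * P.κ) * N = (P.A + 2 * P.g) * N +
            (2 * P.A + 2 * P.g + 2 * P.κ) * N by ring, pow_add]
          ring
      _ ≤ (Q : ℝ) ^ N * Real.exp ((3 / 2 : ℝ) * p) ^ (E * N) := by gcongr
  have hfin : |(z : ℝ)| ≤ (Q : ℝ) ^ N * ((2 * N).factorial : ℝ) * (2 * C1') ^ N * C2' ^ N *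
      (p : ℝ) ^ ((D1 + 1 + D2) * N) * Real.exp (-(N * δ * p)) := by
    rw [hz4, abs_mul]
    calc |((dl p : ℝ) ^ (P.A + 2 * P.g)) ^ t *
      ((Q : ℝ) * (dl p : ℝ) ^ (2 * P.A + 2 * P.g + 2 * P.κ)) ^ N| * |(MR P I0 p c).det|
        ≤ ((Q : ℝ) ^ N * Real.exp ((3 / 2 : ℝ) * p) ^ (E * N)) *
          (((t + P.κ * P.B).factorial : ℝ) * (U ^ t * V ^ (P.κ * P.B))) :=
          mul_le_mul g4 hdetb (abs_nonneg _) (by positivity)
      _ ≤ ((Q : ℝ) ^ N * Real.exp ((3 / 2 : ℝ) * p) ^ (E * N)) *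
          (((2 * N).factorial : ℝ) * (U ^ N * V ^ N)) := by gcongr
      _ = (Q : ℝ) ^ N * ((2 * N).factorial : ℝ) * (2 * C1') ^ N * C2' ^ N *
      (p : ℝ) ^ ((D1 + 1 + D2) * N) * Real.exp (-(N * δ * p)) := by
          have k1 : Real.exp ((3 / 2 : ℝ) * p) ^ (E * N) = Real.exp (((E * N : ℕ) : ℝ) * ((3 / 2 : ℝ) * p)) := by
            rw [Real.exp_nat_mul]
          have k2 : Real.exp (P.be * p) ^ N = Real.exp ((N : ℝ) * (P.be * p)) := by
            rw [Real.exp_nat_mul]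
          have k3 : Real.exp (-(P.al * p)) ^ N = Real.exp ((N : ℝ) * (-(P.al * p))) := by
            rw [Real.exp_nat_mul]
          have k4 : Real.exp (-(N * δ * p)) = Real.exp (((E * N : ℕ) : ℝ) * ((3 / 2 : ℝ) * p)) *
              Real.exp ((N : ℝ) * (P.be * p)) * Real.exp ((N : ℝ) * (-(P.al * p))) := by
            rw [← Real.exp_add, ← Real.exp_add]
            congr 1
            rw [hδ]
            push_cast
            ring
          rw [k4, hU, hV, k1, mul_pow, mul_pow, mul_pow, mul_pow, k2, k3,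
            show (D1 + 1 + D2) * N = (D1 + 1) * N + D2 * N by ring, pow_add (p : ℝ), mul_pow C2',
            pow_mul, pow_mul]
          ring
  linarith

end

end Pool.Agent.H513R2.OZ
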