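import Pool.Agent.H513R2.OZ.Defs
import Mathlib.NumberTheory.Chebyshev

/-!
# `lcm(1..n) ≤ e^{3n/2}` and the integrality criterion
-/

namespace Pool.Agent.H513R2.OZ

theorem dl_ne_zero (n : ℕ) : dl n ≠ 0 := Nat.lcmUpto_ne_zero n

theorem dl_bound : ∃ n0 : ℕ, ∀ n : ℕ, n0 ≤ n → (dl n : ℝ) ≤ Real.exp ((3 / 2 : ℝ) * n) := by
  have h1 : ∀ᶠ x : ℝ in Filter.atTop, ‖Real.log x‖ ≤ (1 / 20 : ℝ) * ‖x ^ (1 / 2 : ℝ)‖ :=
    (isLittleO_log_rpow_atTop (r := 1 / 2) (by norm_num)).def (by norm_num)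
  have h2 : ∀ᶠ n : ℕ in Filter.atTop,
      ‖Real.log (n : ℝ)‖ ≤ (1 / 20 : ℝ) * ‖(n : ℝ) ^ (1 / 2 : ℝ)‖ :=
    tendsto_natCast_atTop_atTop.eventually h1
  obtain ⟨n0, hn0⟩ := Filter.eventually_atTop.1 h2
  refine ⟨n0 + 1, fun n hn => ?_⟩
  have h3 := hn0 n (by omega)
  have hn1 : (1 : ℝ) ≤ (n : ℝ) := by exact_mod_cast (by omega : 1 ≤ n)
  have hn0' : (0 : ℝ) ≤ (n : ℝ) := by linarith
  have h4 : Chebyshev.psi (n : ℝ) ≤ (3 / 2 : ℝ) * n := by
    refine (Chebyshev.psi_le hn1).trans ?_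
    rw [← Real.sqrt_eq_rpow, Real.norm_eq_abs, Real.norm_eq_abs,
      abs_of_nonneg (Real.log_nonneg hn1), abs_of_nonneg (Real.sqrt_nonneg _)] at h3
    have h5 : 2 * Real.sqrt (n : ℝ) * Real.log (n : ℝ) ≤ 1 / 10 * n := by
      have h6 : Real.sqrt (n : ℝ) * Real.log (n : ℝ) ≤
          Real.sqrt (n : ℝ) * (1 / 20 * Real.sqrt (n : ℝ)) :=
        mul_le_mul_of_nonneg_left h3 (Real.sqrt_nonneg _)
      have h7 : Real.sqrt (n : ℝ) * Real.sqrt (n : ℝ) = n := Real.mul_self_sqrt hn0'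
      nlinarith
    have h8 : Real.log 4 ≤ 1.4 := by
      have h9 : Real.log 4 = 2 * Real.log 2 := by
        rw [show (4 : ℝ) = 2 ^ 2 by norm_num, Real.log_pow]; norm_num
      have := Real.log_two_lt_d9
      rw [h9]; norm_num at this ⊢; linarith
    nlinarith
  rw [Chebyshev.psi_eq_log_lcmUpto] at h4
  have hpos : (0 : ℝ) < (dl n : ℝ) := by exact_mod_cast Nat.pos_of_ne_zero (dl_ne_zero n)
  exact (Real.log_le_iff_le_exp hpos).1 h4

/-- a rational number with all `p`-adic norms `≤ 1` is an integer -/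
private lemma isInt_of_norm {z : ℚ} (h : ∀ p : ℕ, p.Prime → padicNorm p z ≤ 1) :
    ∃ m : ℤ, z = m := by
  by_cases hd : z.den = 1
  · exact ⟨z.num, (Rat.coe_int_num_of_den_eq_one hd).symm⟩
  · exfalso
    obtain ⟨p, hp, hpd⟩ := Nat.exists_prime_and_dvd hd
    haveI : Fact p.Prime := ⟨hp⟩
    have h1 := h p hp
    have hz : z = (z.num : ℚ) / (z.den : ℚ) := (Rat.num_div_den z).symm
    rw [hz, padicNorm.div] at h1
    have h2 : padicNorm p (z.num : ℚ) = 1 := by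
      rw [padicNorm.int_eq_one_iff]
      intro hdvd
      have h3 : p ∣ z.num.natAbs := by
        rwa [← Int.natCast_dvd_natCast, Int.dvd_natAbs]
      have h4 := Nat.dvd_gcd h3 hpd
      rw [z.reduced] at h4
      exact hp.one_lt.ne' (Nat.dvd_one.1 h4)
    have h3 : padicNorm p (z.den : ℚ) < 1 := by
      rw [padicNorm.nat_lt_one_iff]; exact hpd
    have h4 : 0 < padicNorm p (z.den : ℚ) :=
      lt_of_le_of_ne (padicNorm.nonneg _) (Ne.symm (padicNorm.nonzero (by exact_mod_cast z.den_nz)))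
    rw [h2, div_le_one h4] at h1
    linarith

theorem int_of_norm (n T : ℕ) (x : ℚ) (h : ∀ p : ℕ, p.Prime → padicNorm p x ≤ rp p n ^ T) :
    ∃ z : ℤ, (dl n : ℚ) ^ T * x = z := by
  apply isInt_of_norm
  intro p hp
  haveI : Fact p.Prime := ⟨hp⟩
  have h1 := h p hp
  have hne : padicNorm p (dl n : ℚ) ≠ 0 :=
    padicNorm.nonzero (by exact_mod_cast dl_ne_zero n)
  have hpos : 0 < padicNorm p (dl n : ℚ) := lt_of_le_of_ne (padicNorm.nonneg _) hne.symm
  have hpow : padicNorm p ((dl n : ℚ) ^ T) = padicNorm p (dl n : ℚ) ^ T := by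
    induction T with
    | zero => simp
    | succ T ih =>
      rw [pow_succ, pow_succ, padicNorm.mul]
      congr 1
      have : ∀ S : ℕ, padicNorm p ((dl n : ℚ) ^ S) = padicNorm p (dl n : ℚ) ^ S := by
        intro S
        induction S with
        | zero => simp
        | succ S ih2 => rw [pow_succ, pow_succ, padicNorm.mul, ih2]
      exact this T
  rw [padicNorm.mul, hpow]
  unfold rp at h1
  calc padicNorm p (dl n : ℚ) ^ T * padicNorm p x
      ≤ padicNorm p (dl n : ℚ) ^ T * ((padicNorm p (dl n : ℚ))⁻¹) ^ T :=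
        mul_le_mul_of_nonneg_left h1 (pow_nonneg hpos.le _)
    _ = 1 := by rw [← mul_pow, mul_inv_cancel₀ hne, one_pow]

end Pool.Agent.H513R2.OZ
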