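import Pool.Agent.H513R2.OZ.GG

/-!
# Zero estimate, part B : duality

For `n = 1` the reflection `X ↦ -1 - X` exchanges the two poles, so that every functional is a
residue at `0` of `U dX / w ^ e` with `w = X (X + 1)`.  Writing `U = (2 X + 1) q(w)` modulo a power
of `X`, this residue is the coefficient of `w ^ (e - 1)` in `q`.
-/

open Polynomial

namespace Pool.Agent.H513R2.OZ

open Pool.Agent.H337R2

noncomputable section

lemma iv_one_cancel : (PowerSeries.X + 1 : PowerSeries ℚ) * iv 1 = 1 := by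
  have := lin_mul_iv (a := 1) one_ne_zero
  simpa using this

lemma key_coeff0 (d : ℕ) :
    PowerSeries.coeff d ((2 * PowerSeries.X + 1 : PowerSeries ℚ) * iv 1 ^ (d + 1))
      = if d = 0 then 1 else 0 := by
  cases d with
  | zero => simp [iv]
  | succ e =>
    rw [if_neg (by omega), add_mul, one_mul, map_add, mul_assoc]
    have h2 : (2 : PowerSeries ℚ) = PowerSeries.C 2 := (map_ofNat (PowerSeries.C (R := ℚ)) 2).symm
    rw [h2, PowerSeries.coeff_C_mul, PowerSeries.coeff_succ_X_mul,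
      coeff_iv_pow one_ne_zero, coeff_iv_pow one_ne_zero]
    have h3 : Nat.choose (e + 1 + (e + 1)) (e + 1) = 2 * Nat.choose (e + 1 + e) (e + 1) := by
      have h4 := Nat.choose_symm_half e
      have h5 : e + 1 + (e + 1) = (2 * e + 1) + 1 := by ring
      rw [h5, Nat.choose_succ_succ, show e + 1 + e = 2 * e + 1 by ring, h4]
      ring
    rw [h3]
    push_cast
    rw [pow_succ (-1 : ℚ) e]
    ring

lemma key_coeff (j e : ℕ) (he : 1 ≤ e) :
    PowerSeries.coeff (e - 1) ((2 * PowerSeries.X + 1 : PowerSeries ℚ) *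
      (PowerSeries.X * (PowerSeries.X + 1)) ^ j * iv 1 ^ e) = if j + 1 = e then 1 else 0 := by
  by_cases hj : j < e
  · obtain ⟨d, rfl⟩ : ∃ d, e = j + (d + 1) := ⟨e - j - 1, by omega⟩
    have h1 : (2 * PowerSeries.X + 1 : PowerSeries ℚ) *
        (PowerSeries.X * (PowerSeries.X + 1)) ^ j * iv 1 ^ (j + (d + 1))
        = PowerSeries.X ^ j * ((2 * PowerSeries.X + 1) * iv 1 ^ (d + 1)) := by
      have h2 : (PowerSeries.X + 1 : PowerSeries ℚ) ^ j * iv 1 ^ j = 1 := by
        rw [← mul_pow, iv_one_cancel, one_pow]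
      rw [mul_pow, pow_add]
      calc _ = PowerSeries.X ^ j * ((2 * PowerSeries.X + 1) * iv 1 ^ (d + 1)) *
          ((PowerSeries.X + 1 : PowerSeries ℚ) ^ j * iv 1 ^ j) := by ring
        _ = _ := by rw [h2, mul_one]
    rw [h1, PowerSeries.coeff_X_pow_mul', if_pos (by omega),
      show j + (d + 1) - 1 - j = d by omega, key_coeff0]
    by_cases hd : d = 0
    · rw [if_pos hd, if_pos (by omega)]
    · rw [if_neg hd, if_neg (by omega)]
  · rw [if_neg (by omega), mul_pow]
    have h1 : (2 * PowerSeries.X + 1 : PowerSeries ℚ) *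
        (PowerSeries.X ^ j * (PowerSeries.X + 1) ^ j) * iv 1 ^ e
        = PowerSeries.X ^ j * ((2 * PowerSeries.X + 1) * (PowerSeries.X + 1) ^ j * iv 1 ^ e) := by
      ring
    rw [h1, PowerSeries.coeff_X_pow_mul', if_neg (by omega)]

/-- antisymmetric polynomials with prescribed expansion at `0` -/
def AS (q : ℕ → ℚ) (N : ℕ) : ℚ[X] :=
  ∑ j ∈ Finset.range N, C (q j) * ((2 * X + 1) * (X * (X + 1)) ^ j)

lemma AS_coe (q : ℕ → ℚ) (N : ℕ) : ((AS q N : ℚ[X]) : PowerSeries ℚ) =
    ∑ j ∈ Finset.range N, PowerSeries.C (q j) * ((2 * PowerSeries.X + 1) *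
      (PowerSeries.X * (PowerSeries.X + 1)) ^ j) := by
  have h : Polynomial.coeToPowerSeries.ringHom (R := ℚ) (AS q N) =
    ∑ j ∈ Finset.range N, Polynomial.coeToPowerSeries.ringHom (R := ℚ)
      (C (q j) * ((2 * X + 1) * (X * (X + 1)) ^ j)) := by
    unfold AS
    rw [map_sum]
  rw [Polynomial.coeToPowerSeries.ringHom_apply] at h
  rw [h]
  apply Finset.sum_congr rfl
  intro j _
  rw [map_mul, map_mul, map_pow, map_mul, map_add, map_add, map_mul, map_one, map_ofNat]
  simp only [Polynomial.coeToPowerSeries.ringHom_apply, Polynomial.coe_C, Polynomial.coe_X]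

lemma exists_AS (U : PowerSeries ℚ) (N : ℕ) : ∃ q : ℕ → ℚ, ∀ s < N,
    PowerSeries.coeff s ((AS q N : ℚ[X]) : PowerSeries ℚ) = PowerSeries.coeff s U := by
  induction N with
  | zero => exact ⟨0, fun s hs => by omega⟩
  | succ N ih =>
    obtain ⟨q, hq⟩ := ih
    let c := PowerSeries.coeff N U - PowerSeries.coeff N ((AS q N : ℚ[X]) : PowerSeries ℚ)
    refine ⟨fun j => if j < N then q j else c, ?_⟩
    have h1 : ((AS (fun j => if j < N then q j else c) (N + 1) : ℚ[X]) : PowerSeries ℚ)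
        = ((AS q N : ℚ[X]) : PowerSeries ℚ) + PowerSeries.X ^ N * (PowerSeries.C c *
          ((2 * PowerSeries.X + 1) * (PowerSeries.X + 1) ^ N)) := by
      rw [AS_coe, AS_coe, Finset.sum_range_succ, if_neg (lt_irrefl N)]
      congr 1
      · apply Finset.sum_congr rfl
        intro j hj
        rw [if_pos (Finset.mem_range.1 hj)]
      · rw [mul_pow]; ring
    intro s hs
    rw [h1, map_add, PowerSeries.coeff_X_pow_mul']
    by_cases hsN : s < N
    · rw [if_neg (by omega), add_zero, hq s hsN]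
    · have : s = N := by omega
      subst this
      rw [if_pos le_rfl, Nat.sub_self]
      simp [c]

lemma AS_comp (q : ℕ → ℚ) (N : ℕ) : (AS q N).comp (-1 - X) = -AS q N := by
  unfold AS
  rw [← Polynomial.coe_compRingHom_apply, map_sum, ← Finset.sum_neg_distrib]
  apply Finset.sum_congr rfl
  intro j _
  have h1 : ((2 : ℚ[X]) * X + 1).comp (-1 - X) = -(2 * X + 1) := by
    simp [Polynomial.add_comp, Polynomial.mul_comp]; ring
  have h2 : ((X : ℚ[X]) * (X + 1)).comp (-1 - X) = X * (X + 1) := by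
    simp [Polynomial.add_comp, Polynomial.mul_comp]; ring
  rw [Polynomial.coe_compRingHom_apply, Polynomial.mul_comp, Polynomial.C_comp,
    Polynomial.mul_comp, h1, Polynomial.pow_comp, h2]
  ring

lemma AS_natDegree (q : ℕ → ℚ) (N M : ℕ) (hq : ∀ j, M < j → j < N → q j = 0) :
    (AS q N).natDegree ≤ 2 * M + 1 := by
  unfold AS
  apply Polynomial.natDegree_sum_le_of_forall_le
  intro j hj
  rw [Finset.mem_range] at hj
  by_cases h : M < j
  · rw [hq j h hj]; simp
  · have h1 : ((2 : ℚ[X]) * X + 1).natDegree ≤ 1 := by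
      have : ((2 : ℚ[X]) * X + 1) = C 2 * X + C 1 := by
        rw [map_one, map_ofNat]
      rw [this]; exact Polynomial.natDegree_linear_le
    have h2 : ((X : ℚ[X]) * (X + 1)).natDegree ≤ 2 := by
      refine (Polynomial.natDegree_mul_le).trans ?_
      have : ((X : ℚ[X]) + 1).natDegree ≤ 1 := by
        have : ((X : ℚ[X]) + 1) = X + C 1 := by simp
        rw [this, Polynomial.natDegree_X_add_C]
      have h3 : (X : ℚ[X]).natDegree ≤ 1 := Polynomial.natDegree_X_le
      omega
    refine (Polynomial.natDegree_C_mul_le _ _).trans ((Polynomial.natDegree_mul_le).trans ?_)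
    have h3 : (((X : ℚ[X]) * (X + 1)) ^ j).natDegree ≤ j * 2 :=
      (Polynomial.natDegree_pow_le).trans (Nat.mul_le_mul_left _ h2)
    have h4 : j ≤ M := by omega
    omega

lemma TS_zero (F : ℚ[X]) : TS 0 F = (F : PowerSeries ℚ) := by
  unfold TS
  simp

lemma mu_zero (P : Par) : mu P 1 0 = P.A := by simp [mu, Par.A]

lemma mu_one (P : Par) : mu P 1 1 = P.A := by simp [mu, Par.A]

/-- the pole at `-1` is the mirror image of the pole at `0` -/
lemma pc_reflect (P : Par) (l i : ℕ) (hi : 1 ≤ i)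
    (hNP : (NP P 1 l).comp (-X - C ((1 : ℕ) : ℚ)) = -NP P 1 l) :
    pc P 1 l 1 i = -(-1) ^ i * pc P 1 l 0 i := by
  unfold pc pa
  rw [mu_zero, mu_one]
  by_cases h : i ≤ P.A
  · rw [if_pos h, if_pos h]
    have h1 := pfc_reflect (Finset.range (1 + 1)) (mu P 1) (NP P 1 l) 1 (by
        intro k hk
        rw [Finset.mem_range] at *
        omega) (by
        intro k hk
        rw [Finset.mem_range] at hk
        interval_cases k <;> simp [mu]) hNP (by
        rw [Finset.sum_range_succ, Finset.sum_range_one, mu_zero, mu_one]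
        exact ⟨P.A, rfl⟩) (k := 0) (by simp) (j := P.A - i) (by rw [mu_zero]; omega)
    rw [mu_zero, show P.A - (P.A - i) = i by omega] at h1
    exact h1
  · rw [if_neg h, if_neg h, mul_zero]

lemma r0_eq (P : Par) (l k m : ℕ) (hm : 1 ≤ m)
    (hNP : (NP P 1 l).comp (-X - C ((1 : ℕ) : ℚ)) = -NP P 1 l) :
    r0 P 1 l (2 * k) m = ∑ i ∈ Finset.Icc 1 P.A, pc P 1 l 0 i * PowerSeries.coeff (i - 1)
      (∑ v ∈ Finset.Icc 1 m, iv ((v : ℚ) / m) ^ (2 * k + 1)) := by
  unfold r0
  apply Finset.sum_congr rfl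
  intro i hi
  rw [Finset.mem_Icc] at hi
  obtain ⟨s, rfl⟩ : ∃ s, i = s + 1 := ⟨i - 1, by omega⟩
  rw [Finset.sum_range_succ, Finset.sum_range_one, mul_zero, mul_one]
  have h0 : hs (s + 1 + 2 * k) 0 = 0 := by simp [hs]
  rw [h0, mul_zero, zero_add, pc_reflect P l (s + 1) hi.1 hNP, map_sum, Nat.add_sub_cancel]
  have hm0 : (m : ℚ) ≠ 0 := by exact_mod_cast (by omega : m ≠ 0)
  have h1 : ∀ v ∈ Finset.Icc 1 m, PowerSeries.coeff s (iv ((v : ℚ) / m) ^ (2 * k + 1))
      = (-1) ^ s * (Nat.choose (s + 2 * k) s : ℚ) * (m : ℚ) ^ (s + 1 + 2 * k) *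
        (1 / (v : ℚ) ^ (s + 1 + 2 * k)) := by
    intro v hv
    rw [Finset.mem_Icc] at hv
    have hv0 : (v : ℚ) ≠ 0 := by exact_mod_cast (by omega : v ≠ 0)
    rw [coeff_iv_pow (div_ne_zero hv0 hm0), show 2 * k + s = s + 2 * k by ring,
      show 2 * k + 1 + s = s + 1 + 2 * k by ring, Nat.choose_symm_add, div_pow]
    field_simp
  rw [Finset.sum_congr rfl h1, ← Finset.mul_sum]
  have h2 : ∑ v ∈ Finset.Icc 1 m, (1 / (v : ℚ) ^ (s + 1 + 2 * k)) = hs (s + 1 + 2 * k) m := by
    unfold hs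
    have h3 := Finset.sum_Ico_add' (fun v : ℕ => 1 / (v : ℚ) ^ (s + 1 + 2 * k)) 0 m 1
    rw [← Finset.range_eq_Ico] at h3
    have h4 : Finset.Icc 1 m = Finset.Ico (0 + 1) (m + 1) := by ext; simp
    rw [h4, ← h3]
    apply Finset.sum_congr rfl
    intro v _
    push_cast
    rfl
  rw [h2]
  rcases neg_one_pow_eq_or ℚ s with h | h <;> rw [pow_succ, h] <;> ring

lemma coeff_GG (P : Par) (x : ℕ → ℚ) (y : ℕ → ℕ → ℚ) (s : ℕ) :
    PowerSeries.coeff s (GG P x y) =
      (∑ i ∈ (Finset.Icc 3 P.Ae).filter Odd, (2 * x i) * (if s = i - 1 then 1 else 0)) +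
      ∑ k ∈ Finset.range P.κ, ∑ m ∈ Finset.Icc 1 P.B, y k m * PowerSeries.coeff s
        (∑ v ∈ Finset.Icc 1 m, iv ((v : ℚ) / m) ^ (2 * k + 1)) := by
  unfold GG
  rw [map_add, map_sum, map_sum]
  congr 1
  · apply Finset.sum_congr rfl
    intro i _
    rw [PowerSeries.coeff_C_mul, PowerSeries.coeff_X_pow]
  · apply Finset.sum_congr rfl
    intro k _
    rw [map_sum]
    apply Finset.sum_congr rfl
    intro m _
    rw [PowerSeries.coeff_C_mul]

/-- coefficients of a product as a sum over `Icc 1 A` -/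
lemma coeff_mul_Icc (T G : PowerSeries ℚ) (A : ℕ) (hA : 1 ≤ A) :
    PowerSeries.coeff (A - 1) (T * G) =
      ∑ i ∈ Finset.Icc 1 A, PowerSeries.coeff (A - i) T * PowerSeries.coeff (i - 1) G := by
  rw [mul_comm, PowerSeries.coeff_mul, Finset.Nat.sum_antidiagonal_eq_sum_range_succ_mk]
  have h1 := Finset.sum_Ico_add' (fun i : ℕ => PowerSeries.coeff (A - i) T *
    PowerSeries.coeff (i - 1) G) 0 A 1
  rw [← Finset.range_eq_Ico] at h1
  have h4 : Finset.Icc 1 A = Finset.Ico (0 + 1) (A + 1) := by ext; simp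
  rw [h4, ← h1, show (A - 1).succ = A by omega]
  apply Finset.sum_congr rfl
  intro i _
  rw [Nat.add_sub_cancel, mul_comm, show A - 1 - i = A - (i + 1) by omega]

theorem duality (P : Par) (h : P.OK) (N1 : ℚ[X])
    (hN : ∀ l, NP P 1 l = (X * (X + 1)) ^ (l + 2 * P.κ * P.B) * N1)
    (hsym : N1.comp (-1 - X) = -N1) (hN0 : N1.eval 0 ≠ 0)
    (x : ℕ → ℚ) (y : ℕ → ℕ → ℚ)
    (hxy : ∀ l ≤ P.L, ∑ i ∈ (Finset.Icc 3 P.Ae).filter Odd, x i * rh P 1 l i +
      ∑ k ∈ Finset.range P.κ, ∑ m ∈ Finset.Icc 1 P.B, y k m * r0 P 1 l (2 * k) m = 0) :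
    ∃ E1 : ℚ[X], E1.comp (-1 - X) = -E1 ∧ E1.natDegree + P.g + 1 ≤ P.Ae ∧
      ∀ s < P.Ae, PowerSeries.coeff s (E1 : PowerSeries ℚ)
        = PowerSeries.coeff s ((N1 : PowerSeries ℚ) * GG P x y) := by
  -- sizes
  have hsB : P.B ≤ sB P.B := by
    unfold sB
    have h1 := Finset.single_le_sum (f := fun m : ℕ => m) (s := Finset.Icc 1 P.B)
      (fun i _ => Nat.zero_le i) (Finset.mem_Icc.2 ⟨h.hB, le_rfl⟩)
    simpa using h1
  have hcg : 2 * P.κ * P.B + 2 ≤ P.g := by
    rw [h.hg]
    have h1 : P.B ≤ (2 * P.r + 3) * sB P.B := by nlinarith [hsB]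
    have h2 := Nat.mul_le_mul_left (2 * P.κ) h1
    omega
  have hAe : P.Ae + 2 * P.κ * P.B = P.A := by
    unfold Par.Ae Par.A; omega
  obtain ⟨a2, ha2⟩ := h.ha
  have hL : 2 * P.L + 2 = P.Ae + P.g := by
    have h1 : P.κ * P.B + P.κ * P.B = 2 * P.κ * P.B := by ring
    unfold Par.Ae Par.L
    omega
  have hag := h.hag
  have hL2 : P.L + 2 ≤ P.Ae := by
    unfold Par.Ae at hL ⊢
    omega
  -- antisymmetry of the numerator
  have hw : ((X : ℚ[X]) * (X + 1)).comp (-1 - X) = X * (X + 1) := by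
    simp [Polynomial.add_comp, Polynomial.mul_comp]; ring
  have hNPs : ∀ l, (NP P 1 l).comp (-X - C ((1 : ℕ) : ℚ)) = -NP P 1 l := by
    intro l
    have h1 : (-X - C ((1 : ℕ) : ℚ) : ℚ[X]) = -1 - X := by
      simp; ring
    rw [h1, hN l, Polynomial.mul_comp, Polynomial.pow_comp, hw, hsym]
    ring
  -- the relation as a coefficient
  have hkey : ∀ l ≤ P.L, PowerSeries.coeff (P.Ae - l - 1)
      ((N1 : PowerSeries ℚ) * GG P x y * iv 1 ^ (P.Ae - l)) = 0 := by
    intro l hl
    set T : PowerSeries ℚ := TS (-((0 : ℕ) : ℚ)) (NP P 1 l) *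
      VV ((Finset.range (1 + 1)).erase 0) (mu P 1) (-((0 : ℕ) : ℚ)) with hT
    have hpc : ∀ i, 1 ≤ i → i ≤ P.A → pc P 1 l 0 i = PowerSeries.coeff (P.A - i) T := by
      intro i _ hiA
      unfold pc pa
      rw [mu_zero, if_pos hiA]
      rfl
    have h1 : PowerSeries.coeff (P.A - 1) (T * GG P x y) = 0 := by
      rw [coeff_mul_Icc _ _ _ (by unfold Par.A; omega), ← hxy l hl]
      have h2 : ∀ i ∈ Finset.Icc 1 P.A, PowerSeries.coeff (P.A - i) T *
          PowerSeries.coeff (i - 1) (GG P x y) =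
          (∑ i' ∈ (Finset.Icc 3 P.Ae).filter Odd,
            (2 * x i') * (if i - 1 = i' - 1 then pc P 1 l 0 i else 0)) +
          ∑ k ∈ Finset.range P.κ, ∑ m ∈ Finset.Icc 1 P.B, y k m * (pc P 1 l 0 i *
            PowerSeries.coeff (i - 1) (∑ v ∈ Finset.Icc 1 m, iv ((v : ℚ) / m) ^ (2 * k + 1))) := by
        intro i hi
        rw [Finset.mem_Icc] at hi
        rw [← hpc i hi.1 hi.2, coeff_GG, mul_add, Finset.mul_sum, Finset.mul_sum]
        congr 1
        · apply Finset.sum_congr rfl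
          intro i' _
          split_ifs <;> ring
        · apply Finset.sum_congr rfl
          intro k _
          rw [Finset.mul_sum]
          apply Finset.sum_congr rfl
          intro m _
          ring
      rw [Finset.sum_congr rfl h2, Finset.sum_add_distrib]
      congr 1
      · rw [Finset.sum_comm]
        apply Finset.sum_congr rfl
        intro i' hi'
        rw [Finset.mem_filter, Finset.mem_Icc] at hi'
        rw [Finset.sum_eq_single i']
        · rw [if_pos rfl]
          unfold rh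
          rw [Finset.sum_range_succ, Finset.sum_range_one, pc_reflect P l i' (by omega) (hNPs l),
            hi'.2.neg_one_pow]
          ring
        · intro i hi hne
          rw [Finset.mem_Icc] at hi
          rw [if_neg (by omega), mul_zero]
        · intro hni
          exfalso
          apply hni
          rw [Finset.mem_Icc]
          omega
      · rw [Finset.sum_comm]
        apply Finset.sum_congr rfl
        intro k _
        rw [Finset.sum_comm]
        apply Finset.sum_congr rfl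
        intro m hm
        rw [Finset.mem_Icc] at hm
        rw [r0_eq P l k m hm.1 (hNPs l), Finset.mul_sum]
    have hT2 : T * GG P x y = PowerSeries.X ^ (l + 2 * P.κ * P.B) *
        ((N1 : PowerSeries ℚ) * GG P x y * iv 1 ^ (P.Ae - l)) := by
      have h3 : TS (-((0 : ℕ) : ℚ)) (NP P 1 l) = (PowerSeries.X * (PowerSeries.X + 1)) ^
          (l + 2 * P.κ * P.B) * (N1 : PowerSeries ℚ) := by
        rw [Nat.cast_zero, neg_zero, TS_zero, hN l]
        simp
      have h4 : VV ((Finset.range (1 + 1)).erase 0) (mu P 1) (-((0 : ℕ) : ℚ))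
          = iv 1 ^ (l + 2 * P.κ * P.B) * iv 1 ^ (P.Ae - l) := by
        have h5 : (Finset.range (1 + 1)).erase 0 = {1} := by decide
        unfold VV
        rw [h5, Finset.prod_singleton, mu_one, ← pow_add]
        congr 1
        · simp
        · omega
      have h6 : (PowerSeries.X + 1 : PowerSeries ℚ) ^ (l + 2 * P.κ * P.B) *
          iv 1 ^ (l + 2 * P.κ * P.B) = 1 := by
        rw [← mul_pow, iv_one_cancel, one_pow]
      rw [hT, h3, h4, mul_pow]
      calc _ = PowerSeries.X ^ (l + 2 * P.κ * P.B) *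
          ((N1 : PowerSeries ℚ) * GG P x y * iv 1 ^ (P.Ae - l)) *
          ((PowerSeries.X + 1 : PowerSeries ℚ) ^ (l + 2 * P.κ * P.B) *
          iv 1 ^ (l + 2 * P.κ * P.B)) := by ring
        _ = _ := by rw [h6, mul_one]
    rw [hT2, PowerSeries.coeff_X_pow_mul', if_pos (by omega)] at h1
    rw [show P.A - 1 - (l + 2 * P.κ * P.B) = P.Ae - l - 1 by omega] at h1
    exact h1
  -- the antisymmetric polynomial
  obtain ⟨q, hq⟩ := exists_AS ((N1 : PowerSeries ℚ) * GG P x y) P.Ae
  have hq0 : ∀ l ≤ P.L, q (P.Ae - l - 1) = 0 := by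
    intro l hl
    have h1 := hkey l hl
    have h2 : PowerSeries.coeff (P.Ae - l - 1)
        (((AS q P.Ae : ℚ[X]) : PowerSeries ℚ) * iv 1 ^ (P.Ae - l)) = 0 := by
      rw [← h1, PowerSeries.coeff_mul, PowerSeries.coeff_mul]
      apply Finset.sum_congr rfl
      intro ij hij
      rw [Finset.HasAntidiagonal.mem_antidiagonal] at hij
      rw [hq ij.1 (by omega)]
    rw [AS_coe, Finset.sum_mul, map_sum] at h2
    have h3 : ∀ j ∈ Finset.range P.Ae, PowerSeries.coeff (P.Ae - l - 1) (PowerSeries.C (q j) *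
        ((2 * PowerSeries.X + 1) * (PowerSeries.X * (PowerSeries.X + 1)) ^ j) *
        iv 1 ^ (P.Ae - l)) = q j * (if j + 1 = P.Ae - l then 1 else 0) := by
      intro j _
      rw [mul_assoc, PowerSeries.coeff_C_mul, key_coeff j (P.Ae - l) (by omega)]
    rw [Finset.sum_congr rfl h3, Finset.sum_eq_single (P.Ae - l - 1)] at h2
    · rw [if_pos (by omega), mul_one] at h2
      exact h2
    · intro j _ hj
      rw [if_neg (by omega), mul_zero]
    · intro hni
      exfalso
      apply hni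
      rw [Finset.mem_range]
      omega
  refine ⟨AS q P.Ae, AS_comp q P.Ae, ?_, hq⟩
  have hdeg := AS_natDegree q P.Ae (P.Ae - P.L - 2) (by
    intro j hj1 hj2
    have h1 := hq0 (P.Ae - 1 - j) (by omega)
    rwa [show P.Ae - (P.Ae - 1 - j) - 1 = j by omega] at h1)
  omega

end

end Pool.Agent.H513R2.OZ
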