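import Pool.Agent.H513R2.OZ.Defs

/-! # T9 : `p`-adic lift of the functionals -/

open Polynomial Filter Topology

namespace Pool.Agent.H513R2.OZ

open Pool.Agent.H337R2

noncomputable section

namespace T9

lemma norm_pow (p : ℕ) [Fact p.Prime] (x : ℚ) (n : ℕ) : padicNorm p (x ^ n) = padicNorm p x ^ n := by
  induction n with
  | zero => simp
  | succ n ih => rw [pow_succ, padicNorm.mul, ih, pow_succ]

lemma norm_zpow (p : ℕ) [Fact p.Prime] (z : ℤ) : padicNorm p ((p : ℚ) ^ z) = (p : ℚ) ^ (-z) := by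
  have hp : (p : ℚ) ≠ 0 := by exact_mod_cast (Fact.out : p.Prime).ne_zero
  obtain ⟨n, rfl | rfl⟩ := z.eq_nat_or_neg
  · rw [zpow_natCast, norm_pow, padicNorm.padicNorm_p_of_prime, zpow_neg, zpow_natCast, inv_pow]
  · rw [zpow_neg, zpow_natCast, neg_neg, zpow_natCast, ← one_div, padicNorm.div, padicNorm.one,
      norm_pow, padicNorm.padicNorm_p_of_prime, inv_pow, one_div, inv_inv]

lemma padic_le_one_of_den {p : ℕ} [Fact p.Prime] (x : ℚ) (h : x.den < p) : padicNorm p x ≤ 1 := by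
  have h1 : padicNorm p (x.den : ℚ) = 1 := by
    rw [padicNorm.nat_eq_one_iff]
    intro hd
    exact absurd (Nat.le_of_dvd x.den_pos hd) (by omega)
  calc padicNorm p x = padicNorm p ((x.num : ℚ) / (x.den : ℚ)) := by rw [Rat.num_div_den]
    _ = padicNorm p (x.num : ℚ) := by rw [padicNorm.div, h1, div_one]
    _ ≤ 1 := padicNorm.of_int _

lemma unit_term {p : ℕ} [Fact p.Prime] (e v : ℕ) (h : ¬ p ∣ v) :
    padicNorm p (1 / (v : ℚ) ^ e) = 1 := by
  rw [padicNorm.div, padicNorm.one, norm_pow, (padicNorm.nat_eq_one_iff v).2 h]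
  simp

lemma hs_small {p : ℕ} [Fact p.Prime] (e m : ℕ) (h : m < p) : padicNorm p (hs e m) ≤ 1 := by
  unfold hs
  apply padicNorm.sum_le' _ zero_le_one
  intro l hl
  have hl' := Finset.mem_range.1 hl
  have h2 : ¬ p ∣ (l + 1) := fun hd => absurd (Nat.le_of_dvd (by omega) hd) (by omega)
  have := unit_term e (l + 1) h2
  push_cast at this
  exact this.le

lemma mid_term {p : ℕ} [Fact p.Prime] (e v : ℕ) (hv : 1 ≤ v) (h : v < p * p) :
    padicNorm p (1 / (v : ℚ) ^ e) ≤ (p : ℚ) ^ e := by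
  have hp1 : (1 : ℚ) ≤ p := by exact_mod_cast (Fact.out : p.Prime).one_le
  by_cases hd : p ∣ v
  · obtain ⟨u, rfl⟩ := hd
    have hu : ¬ p ∣ u := by
      intro hd
      have hu0 : 0 < u := Nat.pos_of_ne_zero (by rintro rfl; simp at hv)
      have h1 := Nat.le_of_dvd hu0 hd
      have := Nat.mul_le_mul_left p h1
      omega
    rw [padicNorm.div, padicNorm.one, norm_pow]
    push_cast
    rw [padicNorm.mul, padicNorm.padicNorm_p_of_prime, (padicNorm.nat_eq_one_iff u).2 hu, mul_one,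
      inv_pow, one_div, inv_inv]
  · rw [unit_term e v hd]
    exact one_le_pow₀ hp1

lemma hs_mid {p : ℕ} [Fact p.Prime] (e N : ℕ) (h : N < p * p) : padicNorm p (hs e N) ≤ (p : ℚ) ^ e := by
  unfold hs
  apply padicNorm.sum_le' _ (by positivity)
  intro l hl
  have hl' := Finset.mem_range.1 hl
  have := mid_term (p := p) e (l + 1) (by omega) (by omega)
  push_cast at this
  exact this

lemma hs_big {p : ℕ} [Fact p.Prime] (e m : ℕ) (hm : m < p) :
    padicNorm p ((p : ℚ) ^ e * hs e (m * p) - hs e m) ≤ ((p : ℚ) ^ e)⁻¹ := by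
  have hp0 : (p : ℚ) ≠ 0 := by exact_mod_cast (Fact.out : p.Prime).ne_zero
  have hpp := (Fact.out : p.Prime).two_le
  induction m with
  | zero => simp [hs]
  | succ m ih =>
    have ih' := ih (by omega)
    have e1 : hs e ((m + 1) * p) = hs e (m * p) +
        (∑ l ∈ Finset.range (p - 1), 1 / (((m * p + l + 1 : ℕ) : ℚ)) ^ e + 1 / (((m + 1) * p : ℕ) : ℚ) ^ e) := by
      unfold hs
      have h2 : (m + 1) * p = m * p + ((p - 1) + 1) := by
        rw [Nat.sub_add_cancel (by omega)]; ring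
      rw [h2, Finset.sum_range_add, Finset.sum_range_succ]
      congr 1
      congr 1
      · apply Finset.sum_congr rfl
        intro l _
        push_cast
        rfl
      · rw [← h2]
        have h3 : (((m + 1) * p : ℕ) : ℚ) = (((m * p + (p - 1) : ℕ) : ℚ)) + 1 := by
          have : (m + 1) * p = m * p + (p - 1) + 1 := by rw [h2]; ring
          rw [this]
          push_cast
          ring
        rw [h3]
    have e2 : hs e (m + 1) = hs e m + 1 / ((m : ℚ) + 1) ^ e := by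
      unfold hs
      rw [Finset.sum_range_succ]
    have e3 : (p : ℚ) ^ e * hs e ((m + 1) * p) - hs e (m + 1) =
        ((p : ℚ) ^ e * hs e (m * p) - hs e m) +
          (p : ℚ) ^ e * ∑ l ∈ Finset.range (p - 1), 1 / (((m * p + l + 1 : ℕ) : ℚ)) ^ e := by
      rw [e1, e2]
      have e4 : (p : ℚ) ^ e * (1 / (((m + 1) * p : ℕ) : ℚ) ^ e) = 1 / ((m : ℚ) + 1) ^ e := by
        push_cast
        rw [mul_pow]
        have : ((m : ℚ) + 1) ≠ 0 := by positivity
        field_simp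
      linear_combination e4
    rw [e3]
    refine padicNorm.nonarchimedean.trans (max_le ih' ?_)
    rw [padicNorm.mul, norm_pow, padicNorm.padicNorm_p_of_prime, inv_pow]
    have h5 : padicNorm p (∑ l ∈ Finset.range (p - 1), 1 / (((m * p + l + 1 : ℕ) : ℚ)) ^ e) ≤ 1 := by
      apply padicNorm.sum_le' _ zero_le_one
      intro l hl
      have hl' := Finset.mem_range.1 hl
      apply (unit_term e (m * p + l + 1) _).le
      intro hd
      have h6 : p ∣ l + 1 := by
        rw [add_assoc] at hd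
        exact (Nat.dvd_add_right (dvd_mul_left p m)).1 hd
      exact absurd (Nat.le_of_dvd (by omega) h6) (by omega)
    calc ((p : ℚ) ^ e)⁻¹ * padicNorm p (∑ l ∈ Finset.range (p - 1), 1 / (((m * p + l + 1 : ℕ) : ℚ)) ^ e)
        ≤ ((p : ℚ) ^ e)⁻¹ * 1 := mul_le_mul_of_nonneg_left h5 (by positivity)
      _ = _ := mul_one _

lemma split_sum (f : ℕ → ℚ) {p : ℕ} (hp : 1 ≤ p) :
    ∑ j ∈ Finset.range (p + 1), f j = f 0 + f p + ∑ j ∈ Finset.Ico 1 p, f j := by
  rw [Finset.sum_range_succ, Finset.range_eq_Ico, Finset.sum_eq_sum_Ico_succ_bot (by omega)]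
  ring

lemma E_le (P : Par) (h : P.OK) (l : ℕ) (hl : l ≤ P.L) : P.E l ≤ -1 := by
  have hg := h.hg
  have hag := h.hag
  have hκ := h.hκ
  have hB := h.hB
  obtain ⟨b, hb⟩ := h.ha
  have h1 : P.B ≤ sB P.B := by
    unfold sB
    exact Finset.single_le_sum (f := fun m => m) (fun _ _ => Nat.zero_le _)
      (Finset.mem_Icc.2 ⟨hB, le_rfl⟩)
  have h2 : P.κ * P.B ≤ P.g := by
    rw [hg]
    calc P.κ * P.B ≤ P.κ * sB P.B := Nat.mul_le_mul_left _ h1
      _ ≤ 2 * P.κ * ((2 * P.r + 3) * sB P.B) + 2 := by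
        have : P.κ * sB P.B ≤ P.κ * ((2 * P.r + 3) * sB P.B) := by
          apply Nat.mul_le_mul_left
          exact Nat.le_mul_of_pos_left _ (by omega)
        nlinarith
  have hL : P.L = b + P.g - P.κ * P.B - 1 := by
    unfold Par.L
    rw [hb]
    congr 3
    omega
  have hg2 : 2 ≤ P.g := by rw [hg]; omega
  have h20 : P.a = b + b := hb
  have hl' : l + P.κ * P.B + 1 ≤ b + P.g := by
    rw [hL] at hl
    omega
  unfold Par.E
  have h3 : ((l : ℤ) + P.κ * P.B + 1) ≤ b + P.g := by exact_mod_cast hl'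
  have h4 : (P.a : ℤ) = b + b := by exact_mod_cast h20
  rw [h4]
  nlinarith

end T9

theorem rh_lift (P : Par) (h : P.OK)
    (h1 : ∃ p0 : ℕ, ∀ p : ℕ, p.Prime → p0 ≤ p → ∃ w : ℚ, w ≠ 0 ∧ padicNorm p w = 1 ∧
      ∀ l i : ℕ, l ≤ P.L → 1 ≤ i →
      padicNorm p (pc P p l 0 i / (w * (p : ℚ) ^ (P.E l + i)) - pc P 1 l 0 i) ≤ (p : ℚ)⁻¹ ∧
      padicNorm p (pc P p l p i / (w * (p : ℚ) ^ (P.E l + i)) - pc P 1 l 1 i) ≤ (p : ℚ)⁻¹)
    (h2 : ∃ p0 : ℕ, ∀ p : ℕ, p.Prime → p0 ≤ p →
      ∀ l i j : ℕ, 1 ≤ j → j < p → 1 ≤ i → padicNorm p (pc P p l j i) ≤ ((p : ℚ) ^ i)⁻¹) :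
    ∃ p0 : ℕ, ∀ p : ℕ, p.Prime → p0 ≤ p → ∃ w : ℚ, w ≠ 0 ∧ ∀ l : ℕ, l ≤ P.L →
      (∀ i : ℕ, 1 ≤ i → padicNorm p (rh P p l i / (w * (p : ℚ) ^ (P.E l + i)) - rh P 1 l i) ≤ (p : ℚ)⁻¹) ∧
      (∀ k m : ℕ, 1 ≤ m → m ≤ P.B → k < 2 * P.κ →
        padicNorm p (r0 P p l k m / (w * (p : ℚ) ^ (P.E l - k)) - r0 P 1 l k m) ≤ (p : ℚ)⁻¹) := by
  obtain ⟨p1, h1⟩ := h1
  obtain ⟨p2, h2⟩ := h2
  set D : ℕ := ∑ l ∈ Finset.range (P.L + 1), ∑ i ∈ Finset.Icc 1 P.A, (pc P 1 l 1 i).den with hD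
  refine ⟨p1 + p2 + D + P.B + 1, ?_⟩
  intro p hp hpp
  have : Fact p.Prime := ⟨hp⟩
  obtain ⟨w, hw0, hw1, hw⟩ := h1 p hp (by omega)
  have h2' := h2 p hp (by omega)
  have hp1 : 1 ≤ p := hp.one_le
  have hpQ : (0 : ℚ) < p := by exact_mod_cast hp.pos
  have hpQ1 : (1 : ℚ) ≤ p := by exact_mod_cast hp1
  have hpne : (p : ℚ) ≠ 0 := hpQ.ne'
  have hpc1 : ∀ l ≤ P.L, ∀ i ∈ Finset.Icc 1 P.A, padicNorm p (pc P 1 l 1 i) ≤ 1 := by
    intro l hl i hi
    apply T9.padic_le_one_of_den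
    have h3 : (pc P 1 l 1 i).den ≤ D := by
      rw [hD]
      refine le_trans ?_ (Finset.single_le_sum
        (f := fun l => ∑ i ∈ Finset.Icc 1 P.A, (pc P 1 l 1 i).den)
        (fun _ _ => Nat.zero_le _) (Finset.mem_range.2 (Nat.lt_succ_of_le hl)))
      exact Finset.single_le_sum (f := fun i => (pc P 1 l 1 i).den) (fun _ _ => Nat.zero_le _) hi
    omega
  refine ⟨w, hw0, ?_⟩
  intro l hl
  have hE := T9.E_le P h l hl
  constructor
  · intro i hi
    obtain ⟨ha, hb⟩ := hw l i hl hi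
    have e1 : rh P p l i / (w * (p : ℚ) ^ (P.E l + i)) - rh P 1 l i =
        (pc P p l 0 i / (w * (p : ℚ) ^ (P.E l + i)) - pc P 1 l 0 i) +
        ((pc P p l p i / (w * (p : ℚ) ^ (P.E l + i)) - pc P 1 l 1 i) +
        (∑ j ∈ Finset.Ico 1 p, pc P p l j i) / (w * (p : ℚ) ^ (P.E l + i))) := by
      unfold rh
      rw [T9.split_sum _ hp1, T9.split_sum _ le_rfl]
      simp only [Finset.Ico_self, Finset.sum_empty]
      ring
    rw [e1]
    refine padicNorm.nonarchimedean.trans (max_le ha ?_)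
    refine padicNorm.nonarchimedean.trans (max_le hb ?_)
    rw [padicNorm.div, padicNorm.mul, hw1, one_mul, T9.norm_zpow]
    have h3 : padicNorm p (∑ j ∈ Finset.Ico 1 p, pc P p l j i) ≤ ((p : ℚ) ^ i)⁻¹ := by
      apply padicNorm.sum_le' _ (by positivity)
      intro j hj
      rw [Finset.mem_Ico] at hj
      exact h2' l i j hj.1 hj.2 hi
    rw [div_le_iff₀ (by positivity)]
    refine h3.trans ?_
    rw [← zpow_natCast, ← zpow_neg, ← zpow_neg_one, ← zpow_add₀ hpne]
    apply zpow_le_zpow_right₀ hpQ1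
    omega
  · intro k m hm1 hmB hk
    have hmp : m < p := by omega
    set W : ℚ := w * (p : ℚ) ^ (P.E l - k) with hW
    have hWne : W ≠ 0 := mul_ne_zero hw0 (zpow_ne_zero _ hpne)
    have e1 : r0 P p l k m / W - r0 P 1 l k m =
        ∑ i ∈ Finset.Icc 1 P.A, ((((i - 1 + k).choose (i - 1) * m ^ (i + k) : ℕ) : ℤ) : ℚ) *
          ((pc P p l p i * hs (i + k) (m * p) / W - pc P 1 l 1 i * hs (i + k) m) +
            (∑ j ∈ Finset.Ico 1 p, pc P p l j i * hs (i + k) (m * j)) / W) := by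
      unfold r0
      rw [Finset.sum_div, ← Finset.sum_sub_distrib]
      apply Finset.sum_congr rfl
      intro i _
      rw [T9.split_sum _ hp1, T9.split_sum _ le_rfl]
      have h0 : hs (i + k) (m * 0) = 0 := by simp [hs]
      rw [h0]
      simp only [Finset.Ico_self, Finset.sum_empty, mul_one]
      push_cast
      ring
    rw [e1]
    apply padicNorm.sum_le' _ (by positivity)
    intro i hi
    have hi1 : 1 ≤ i := (Finset.mem_Icc.1 hi).1
    rw [padicNorm.mul]
    have hc : padicNorm p (((((i - 1 + k).choose (i - 1) * m ^ (i + k) : ℕ) : ℤ) : ℚ)) ≤ 1 :=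
      padicNorm.of_int _
    refine (mul_le_mul_of_nonneg_right hc (padicNorm.nonneg _)).trans ?_
    rw [one_mul]
    refine padicNorm.nonarchimedean.trans (max_le ?_ ?_)
    · obtain ⟨-, hb⟩ := hw l i hl hi1
      set δ : ℚ := pc P p l p i / (w * (p : ℚ) ^ (P.E l + i)) - pc P 1 l 1 i with hδ
      set ε : ℚ := (p : ℚ) ^ (i + k) * hs (i + k) (m * p) - hs (i + k) m with hε
      have hε1 : padicNorm p ε ≤ (p : ℚ)⁻¹ := by
        refine (T9.hs_big (p := p) (i + k) m hmp).trans ?_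
        apply inv_anti₀ hpQ
        exact le_self_pow₀ hpQ1 (by omega)
      have e2 : pc P p l p i * hs (i + k) (m * p) / W - pc P 1 l 1 i * hs (i + k) m =
          pc P 1 l 1 i * ε + (δ * hs (i + k) m + δ * ε) := by
        have h5 : pc P p l p i = (δ + pc P 1 l 1 i) * (w * (p : ℚ) ^ (P.E l + i)) := by
          rw [hδ]
          have : w * (p : ℚ) ^ (P.E l + i) ≠ 0 := mul_ne_zero hw0 (zpow_ne_zero _ hpne)
          field_simp
          ring
        have h6 : (p : ℚ) ^ (P.E l + i) = (p : ℚ) ^ (P.E l - k) * (p : ℚ) ^ (i + k) := by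
          rw [← zpow_natCast, ← zpow_add₀ hpne]
          congr 1
          push_cast
          ring
        have h7 : (p : ℚ) ^ (i + k) * hs (i + k) (m * p) = ε + hs (i + k) m := by rw [hε]; ring
        have h8 : pc P p l p i * hs (i + k) (m * p) / W =
            (δ + pc P 1 l 1 i) * ((p : ℚ) ^ (i + k) * hs (i + k) (m * p)) := by
          rw [h5, h6, hW]
          have h9 : (p : ℚ) ^ (P.E l - k) ≠ 0 := zpow_ne_zero _ hpne
          field_simp
        rw [h8, h7]
        ring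
      rw [e2]
      have hpi : (p : ℚ)⁻¹ ≤ 1 := inv_le_one_of_one_le₀ hpQ1
      refine padicNorm.nonarchimedean.trans (max_le ?_ ?_)
      · rw [padicNorm.mul]
        calc padicNorm p (pc P 1 l 1 i) * padicNorm p ε ≤ 1 * (p : ℚ)⁻¹ :=
              mul_le_mul (hpc1 l hl i hi) hε1 (padicNorm.nonneg _) zero_le_one
          _ = _ := one_mul _
      refine padicNorm.nonarchimedean.trans (max_le ?_ ?_)
      · rw [padicNorm.mul]
        calc padicNorm p δ * padicNorm p (hs (i + k) m) ≤ (p : ℚ)⁻¹ * 1 :=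
              mul_le_mul hb (T9.hs_small _ _ hmp) (padicNorm.nonneg _) (by positivity)
          _ = _ := mul_one _
      · rw [padicNorm.mul]
        calc padicNorm p δ * padicNorm p ε ≤ (p : ℚ)⁻¹ * 1 :=
              mul_le_mul hb (hε1.trans hpi) (padicNorm.nonneg _) (by positivity)
          _ = _ := mul_one _
    · rw [padicNorm.div, hW, padicNorm.mul, hw1, one_mul, T9.norm_zpow]
      have h3 : padicNorm p (∑ j ∈ Finset.Ico 1 p, pc P p l j i * hs (i + k) (m * j)) ≤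
          ((p : ℚ) ^ i)⁻¹ * (p : ℚ) ^ (i + k) := by
        apply padicNorm.sum_le' _ (by positivity)
        intro j hj
        rw [Finset.mem_Ico] at hj
        rw [padicNorm.mul]
        apply mul_le_mul (h2' l i j hj.1 hj.2 hi1) _ (padicNorm.nonneg _) (by positivity)
        apply T9.hs_mid
        calc m * j < p * j := Nat.mul_lt_mul_of_pos_right hmp (by omega)
          _ ≤ p * p := Nat.mul_le_mul_left _ hj.2.le
      rw [div_le_iff₀ (by positivity)]
      refine h3.trans ?_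
      rw [← zpow_natCast, ← zpow_natCast, ← zpow_neg, ← zpow_neg_one, ← zpow_add₀ hpne,
        ← zpow_add₀ hpne]
      apply zpow_le_zpow_right₀ hpQ1
      push_cast
      omega

end

end Pool.Agent.H513R2.OZ
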