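import Pool.Agent.H513R2.OZ.Defs

/-!
# The linear form identity
-/

open Polynomial Filter Topology

namespace Pool.Agent.H513R2.OZ

open Pool.Agent.H337R2

noncomputable section

private lemma hasSum_tel (M : ℕ) :
    HasSum (fun u : ℕ => 1 / ((u : ℝ) + ((M : ℝ) + 1)) - 1 / ((u : ℝ) + ((M : ℝ) + 1 + 1)))
      (1 / ((M : ℝ) + 1)) := by
  rw [hasSum_iff_tendsto_nat_of_nonneg]
  · have h1 : ∀ N : ℕ, ∑ u ∈ Finset.range N,
        (1 / ((u : ℝ) + ((M : ℝ) + 1)) - 1 / ((u : ℝ) + ((M : ℝ) + 1 + 1)))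
        = 1 / ((M : ℝ) + 1) - 1 / ((N : ℝ) + ((M : ℝ) + 1)) := by
      intro N
      induction N with
      | zero => simp
      | succ N ih =>
        rw [Finset.sum_range_succ, ih]
        push_cast
        rw [show (N : ℝ) + 1 + ((M : ℝ) + 1) = (N : ℝ) + ((M : ℝ) + 1 + 1) by ring]
        ring
    simp only [h1]
    have h2 : Tendsto (fun N : ℕ => 1 / ((N : ℝ) + ((M : ℝ) + 1))) atTop (𝓝 0) := by
      have h3 : Tendsto (fun N : ℕ => (N : ℝ) + ((M : ℝ) + 1)) atTop atTop :=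
        tendsto_atTop_add_const_right _ _ tendsto_natCast_atTop_atTop
      have h4 := h3.inv_tendsto_atTop
      refine h4.congr (fun N => ?_)
      simp [one_div]
    simpa using (tendsto_const_nhds (x := 1 / ((M : ℝ) + 1))).sub h2
  · intro u
    have h1 : (0 : ℝ) < (u : ℝ) + ((M : ℝ) + 1) := by positivity
    rw [sub_nonneg]
    apply one_div_le_one_div_of_le h1
    linarith

private lemma hasSum_hs1 (M : ℕ) :
    HasSum (fun u : ℕ => 1 / ((u : ℝ) + 1) - 1 / ((u : ℝ) + ((M : ℝ) + 1)))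
      ((hs 1 M : ℚ) : ℝ) := by
  induction M with
  | zero => simp [hs]
  | succ M ih =>
    have h := ih.add (hasSum_tel M)
    have e1 : (fun u : ℕ => 1 / ((u : ℝ) + 1) - 1 / ((u : ℝ) + (((M + 1 : ℕ) : ℝ) + 1)))
        = fun u : ℕ => (1 / ((u : ℝ) + 1) - 1 / ((u : ℝ) + ((M : ℝ) + 1))) +
          (1 / ((u : ℝ) + ((M : ℝ) + 1)) - 1 / ((u : ℝ) + ((M : ℝ) + 1 + 1))) := by
      ext u
      push_cast
      ring
    have e2 : ((hs 1 (M + 1) : ℚ) : ℝ) = ((hs 1 M : ℚ) : ℝ) + 1 / ((M : ℝ) + 1) := by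
      unfold hs
      rw [Finset.sum_range_succ]
      push_cast
      ring
    rw [e1, e2]
    exact h

private lemma mu_le (P : Par) (n k : ℕ) : mu P n k ≤ P.A := by
  unfold mu Par.A
  split_ifs <;> omega

private lemma row (P : Par) (n l k m i : ℕ) (hi : 1 ≤ i)
    (hres : rh P n l 1 = 0) :
    HasSum (fun u : ℕ => ∑ j ∈ Finset.range (n + 1), ((pc P n l j i : ℚ) : ℝ) *
        (1 / ((u : ℝ) + (((m * j : ℕ) : ℝ) + 1)) ^ (i + k)))
      (((rh P n l i : ℚ) : ℝ) * zr (i + k) -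
        ((∑ j ∈ Finset.range (n + 1), pc P n l j i * hs (i + k) (m * j) : ℚ) : ℝ)) := by
  by_cases h2 : 2 ≤ i + k
  · have h := hasSum_sum (s := Finset.range (n + 1)) (fun j _ =>
      (hasSum_tail h2 (m * j)).mul_left ((pc P n l j i : ℚ) : ℝ))
    have he : ((rh P n l i : ℚ) : ℝ) * zr (i + k) -
        ((∑ j ∈ Finset.range (n + 1), pc P n l j i * hs (i + k) (m * j) : ℚ) : ℝ)
        = ∑ j ∈ Finset.range (n + 1), ((pc P n l j i : ℚ) : ℝ) *
          (zr (i + k) - ((hs (i + k) (m * j) : ℚ) : ℝ)) := by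
      unfold rh
      push_cast
      rw [Finset.sum_mul, ← Finset.sum_sub_distrib]
      apply Finset.sum_congr rfl
      intro j _
      ring
    rw [he]
    exact h
  · obtain rfl : i = 1 := by omega
    obtain rfl : k = 0 := by omega
    have h := (hasSum_sum (s := Finset.range (n + 1)) (fun j _ =>
      (hasSum_hs1 (m * j)).mul_left ((pc P n l j 1 : ℚ) : ℝ))).neg
    have hz : ∑ j ∈ Finset.range (n + 1), ((pc P n l j 1 : ℚ) : ℝ) = 0 := by
      have := congrArg (fun q : ℚ => (q : ℝ)) hres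
      unfold rh at this
      push_cast at this
      exact this
    have e1 : (fun u : ℕ => ∑ j ∈ Finset.range (n + 1), ((pc P n l j 1 : ℚ) : ℝ) *
        (1 / ((u : ℝ) + (((m * j : ℕ) : ℝ) + 1)) ^ (1 + 0)))
        = fun u : ℕ => -∑ j ∈ Finset.range (n + 1), ((pc P n l j 1 : ℚ) : ℝ) *
          (1 / ((u : ℝ) + 1) - 1 / ((u : ℝ) + (((m * j : ℕ) : ℝ) + 1))) := by
      ext u
      have h3 : ∑ j ∈ Finset.range (n + 1), ((pc P n l j 1 : ℚ) : ℝ) * (1 / ((u : ℝ) + 1)) = 0 := by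
        rw [← Finset.sum_mul, hz, zero_mul]
      simp only [mul_sub, Finset.sum_sub_distrib, h3]
      simp
    have e2 : ((rh P n l 1 : ℚ) : ℝ) * zr (1 + 0) -
        ((∑ j ∈ Finset.range (n + 1), pc P n l j 1 * hs (1 + 0) (m * j) : ℚ) : ℝ)
        = -∑ j ∈ Finset.range (n + 1), ((pc P n l j 1 : ℚ) : ℝ) * ((hs 1 (m * j) : ℚ) : ℝ) := by
      rw [hres]
      push_cast
      simp
    rw [e1, e2]
    exact h

private lemma cf_eq (P : Par) (n l k m : ℕ) (hk : Even k) (hm : 1 ≤ m)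
    (hdeg : (NP P n l).natDegree + 2 ≤ (QQ (Finset.range (n + 1)) (mu P n)).natDegree) (u : ℕ) :
    ((cf P n l k (((u : ℚ) + 1) / m) : ℚ) : ℝ) =
      ∑ i ∈ Finset.Icc 1 P.A, (Nat.choose (i - 1 + k) (i - 1) : ℝ) * (m : ℝ) ^ (i + k) *
        ∑ j ∈ Finset.range (n + 1), ((pc P n l j i : ℚ) : ℝ) *
          (1 / ((u : ℝ) + (((m * j : ℕ) : ℝ) + 1)) ^ (i + k)) := by
  have hdeg' : (NP P n l).degree < (QQ (Finset.range (n + 1)) (mu P n)).degree := by
    rw [Polynomial.degree_eq_natDegree (QQ_monic _ _).ne_zero]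
    exact lt_of_le_of_lt Polynomial.degree_le_natDegree (by exact_mod_cast (by omega))
  have hmQ : (0 : ℚ) < m := by exact_mod_cast hm
  have hmR : (0 : ℝ) < m := by exact_mod_cast hm
  have hc : ∀ j ∈ Finset.range (n + 1), ((u : ℚ) + 1) / m + (j : ℚ) ≠ 0 := by
    intro j _
    positivity
  unfold cf
  rw [coeff_RS _ _ _ hdeg' _ hc k]
  push_cast
  have h1 : ∀ j ∈ Finset.range (n + 1), ∑ j' ∈ Finset.range (mu P n j),
      ((pfc (Finset.range (n + 1)) (mu P n) (NP P n l) j j' : ℚ) : ℝ) *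
        ((-1) ^ k * (Nat.choose (mu P n j - j' - 1 + k) (mu P n j - j' - 1) : ℝ) /
          (((u : ℝ) + 1) / m + j) ^ (mu P n j - j' + k))
      = ∑ i ∈ Finset.Icc 1 P.A, ((pc P n l j i : ℚ) : ℝ) *
        ((-1) ^ k * (Nat.choose (i - 1 + k) (i - 1) : ℝ) /
          (((u : ℝ) + 1) / m + j) ^ (i + k)) := by
    intro j _
    exact sum_pfc_eq (Finset.range (n + 1)) (mu P n) (NP P n l) P.A j (mu_le P n j)
      (fun a i => (a : ℝ) * ((-1) ^ k * (Nat.choose (i - 1 + k) (i - 1) : ℝ) /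
          (((u : ℝ) + 1) / m + j) ^ (i + k))) (by intro i; simp)
  rw [Finset.sum_congr rfl h1, Finset.sum_comm]
  apply Finset.sum_congr rfl
  intro i _
  rw [Finset.mul_sum]
  apply Finset.sum_congr rfl
  intro j _
  rw [hk.neg_one_pow, one_mul]
  have h3 : ((u : ℝ) + 1) / m + j = ((u : ℝ) + ((m : ℝ) * (j : ℝ) + 1)) / m := by
    field_simp
    ring
  have h4 : (0 : ℝ) < (u : ℝ) + ((m : ℝ) * (j : ℝ) + 1) := by positivity
  rw [h3, div_pow]
  generalize (u : ℝ) + ((m : ℝ) * (j : ℝ) + 1) = D at h4 ⊢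
  field_simp

theorem lin_form (P : Par) (h : P.OK) (n l k m : ℕ) (hn : 1 ≤ n) (hl : l ≤ P.L) (hk : Even k)
    (hm : 1 ≤ m)
    (hdeg : (NP P n l).natDegree + 2 ≤ (QQ (Finset.range (n + 1)) (mu P n)).natDegree) :
    HasSum (fun u : ℕ => ((cf P n l k (((u : ℚ) + 1) / m) : ℚ) : ℝ)) (XX P n l k m) := by
  have hres : rh P n l 1 = 0 := residue_sum _ _ _ hdeg
  have hsum := hasSum_sum (s := Finset.Icc 1 P.A) (fun i hi =>
    (row P n l k m i (Finset.mem_Icc.1 hi).1 hres).mul_left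
      ((Nat.choose (i - 1 + k) (i - 1) : ℝ) * (m : ℝ) ^ (i + k)))
  have hf : (fun u : ℕ => ((cf P n l k (((u : ℚ) + 1) / m) : ℚ) : ℝ)) =
      fun u : ℕ => ∑ i ∈ Finset.Icc 1 P.A, (Nat.choose (i - 1 + k) (i - 1) : ℝ) *
        (m : ℝ) ^ (i + k) * ∑ j ∈ Finset.range (n + 1), ((pc P n l j i : ℚ) : ℝ) *
          (1 / ((u : ℝ) + (((m * j : ℕ) : ℝ) + 1)) ^ (i + k)) := by
    ext u
    exact cf_eq P n l k m hk hm hdeg u
  have hX : XX P n l k m = ∑ i ∈ Finset.Icc 1 P.A, (Nat.choose (i - 1 + k) (i - 1) : ℝ) *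
      (m : ℝ) ^ (i + k) * (((rh P n l i : ℚ) : ℝ) * zr (i + k) -
        ((∑ j ∈ Finset.range (n + 1), pc P n l j i * hs (i + k) (m * j) : ℚ) : ℝ)) := by
    unfold XX r0
    push_cast
    rw [← Finset.sum_sub_distrib]
    apply Finset.sum_congr rfl
    intro i _
    ring
  rw [hf, hX]
  exact hsum

end

end Pool.Agent.H513R2.OZ
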