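import Pool.Agent.H513R2.OZ.Defs

/-!
# T10: the polynomial `N1` (zero estimate, part A)
-/

open Polynomial

namespace Pool.Agent.H513R2.OZ

open Pool.Agent.H337R2

noncomputable section

/-- index set of the remaining factors -/
def IM (r m : ℕ) : Finset ℕ := ((Finset.range ((2 * r + 1) * m + 1)).erase ((r + 1) * m)).erase (r * m)

/-- linear factor -/
def LF (r m v : ℕ) : ℚ[X] := C (m : ℚ) * X + C ((((r + 1) * m : ℕ) : ℚ) - (v : ℚ))

/-- `PM r m 1` without the two factors `m X`, `m (X+1)` -/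
def QM (r m : ℕ) : ℚ[X] := ∏ v ∈ IM r m, LF r m v

lemma PM_one (r m : ℕ) (hr : 1 ≤ r) (hm : 1 ≤ m) :
    PM r m 1 = (X * (X + 1)) * (C ((m : ℚ) ^ 2) * QM r m) := by
  have h1 : PM r m 1 = ∏ v ∈ Finset.range ((2 * r + 1) * m + 1), LF r m v := by
    unfold PM LF
    rw [mul_one, mul_one]
  have hne : r * m ≠ (r + 1) * m := by
    intro h
    have : r * m < (r + 1) * m := by nlinarith
    omega
  have hmem1 : (r + 1) * m ∈ Finset.range ((2 * r + 1) * m + 1) := by
    rw [Finset.mem_range]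
    nlinarith
  have hmem2 : r * m ∈ (Finset.range ((2 * r + 1) * m + 1)).erase ((r + 1) * m) := by
    rw [Finset.mem_erase, Finset.mem_range]
    refine ⟨hne, ?_⟩
    nlinarith
  rw [h1, ← Finset.mul_prod_erase _ _ hmem1, ← Finset.mul_prod_erase _ _ hmem2]
  have h2 : LF r m ((r + 1) * m) = C (m : ℚ) * X := by
    unfold LF
    rw [sub_self, C_0, add_zero]
  have h3 : LF r m (r * m) = C (m : ℚ) * (X + 1) := by
    unfold LF
    have : ((((r + 1) * m : ℕ) : ℚ) - ((r * m : ℕ) : ℚ)) = m := by push_cast; ring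
    rw [this]
    ring
  rw [h2, h3]
  have h4 : (C ((m : ℚ) ^ 2) : ℚ[X]) = C (m : ℚ) * C (m : ℚ) := by rw [← C_mul, sq]
  rw [h4]
  unfold QM IM
  ring

lemma LF_comp (r m v : ℕ) (hv : v ≤ (2 * r + 1) * m) :
    (LF r m v).comp (-1 - X) = -LF r m ((2 * r + 1) * m - v) := by
  unfold LF
  have h1 : (((2 * r + 1) * m - v : ℕ) : ℚ) = (2 * r + 1) * m - v := by
    rw [Nat.cast_sub hv]; push_cast; ring
  rw [h1]
  simp only [add_comp, mul_comp, C_comp, X_comp]
  have h2 : (C ((((r + 1) * m : ℕ) : ℚ) - ((2 * r + 1) * m - v)) : ℚ[X]) =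
      C (m : ℚ) - C ((((r + 1) * m : ℕ) : ℚ) - (v : ℚ)) := by
    rw [← C_sub]
    congr 1
    push_cast
    ring
  rw [h2]
  ring

lemma QM_comp_sq (r m : ℕ) : ((QM r m).comp (-1 - X)) ^ 2 = (QM r m) ^ 2 := by
  unfold QM
  rw [Polynomial.prod_comp]
  have h1 : ∏ v ∈ IM r m, (LF r m v).comp (-1 - X) =
      ∏ v ∈ IM r m, (-LF r m ((2 * r + 1) * m - v)) := by
    refine Finset.prod_congr rfl fun v hv => ?_
    apply LF_comp
    simp only [IM, Finset.mem_erase, Finset.mem_range] at hv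
    omega
  have h2 : ∏ v ∈ IM r m, LF r m ((2 * r + 1) * m - v) = ∏ v ∈ IM r m, LF r m v := by
    have e0 : (2 * r + 1) * m = (r + 1) * m + r * m := by ring
    refine Finset.prod_nbij' (fun v => (2 * r + 1) * m - v) (fun v => (2 * r + 1) * m - v)
      ?_ ?_ ?_ ?_ ?_
    · intro v hv
      simp only [IM, Finset.mem_erase, Finset.mem_range] at hv ⊢
      generalize (2 * r + 1) * m = a at *
      generalize (r + 1) * m = b at *
      generalize r * m = c at *
      omega
    · intro v hv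
      simp only [IM, Finset.mem_erase, Finset.mem_range] at hv ⊢
      generalize (2 * r + 1) * m = a at *
      generalize (r + 1) * m = b at *
      generalize r * m = c at *
      omega
    · intro v hv
      simp only [IM, Finset.mem_erase, Finset.mem_range] at hv ⊢
      generalize (2 * r + 1) * m = a at *
      omega
    · intro v hv
      simp only [IM, Finset.mem_erase, Finset.mem_range] at hv ⊢
      generalize (2 * r + 1) * m = a at *
      omega
    · intro v hv
      rfl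
  rw [h1, Finset.prod_neg, h2, mul_pow, ← pow_mul, mul_comm _ 2, pow_mul]
  simp

lemma QM_eval_zero (r m : ℕ) : (QM r m).eval 0 ≠ 0 := by
  unfold QM
  rw [Polynomial.eval_prod, Finset.prod_ne_zero_iff]
  intro v hv
  simp only [IM, Finset.mem_erase, Finset.mem_range] at hv
  unfold LF
  simp only [eval_add, eval_mul, eval_C, eval_X, mul_zero, zero_add]
  intro h
  have : (((r + 1) * m : ℕ) : ℚ) = (v : ℚ) := by linarith
  have h2 : (r + 1) * m = v := by exact_mod_cast this
  exact hv.2.1 h2.symm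

lemma card_IM (r m : ℕ) (hr : 1 ≤ r) (hm : 1 ≤ m) : (IM r m).card + 1 = (2 * r + 1) * m := by
  have hne : r * m ≠ (r + 1) * m := by
    intro h
    have : r * m < (r + 1) * m := by nlinarith
    omega
  have hmem1 : (r + 1) * m ∈ Finset.range ((2 * r + 1) * m + 1) := by
    rw [Finset.mem_range]
    nlinarith
  have hmem2 : r * m ∈ (Finset.range ((2 * r + 1) * m + 1)).erase ((r + 1) * m) := by
    rw [Finset.mem_erase, Finset.mem_range]
    refine ⟨hne, ?_⟩
    nlinarith
  unfold IM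
  rw [Finset.card_erase_of_mem hmem2, Finset.card_erase_of_mem hmem1, Finset.card_range]
  have : 3 ≤ (2 * r + 1) * m := by nlinarith
  omega

lemma QM_natDegree (r m : ℕ) : (QM r m).natDegree ≤ (IM r m).card := by
  unfold QM
  refine (Polynomial.natDegree_prod_le _ _).trans ?_
  calc ∑ v ∈ IM r m, (LF r m v).natDegree ≤ ∑ v ∈ IM r m, 1 := by
        refine Finset.sum_le_sum fun v _ => ?_
        unfold LF
        exact Polynomial.natDegree_linear_le
    _ = (IM r m).card := by simp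

lemma LF_eval_real (r m v : ℕ) (t : ℝ) :
    ((LF r m v).map (algebraMap ℚ ℝ)).eval t = m * t + ((r + 1) * m - v) := by
  rw [Polynomial.eval_map_algebraMap]
  unfold LF
  simp only [map_add, map_mul, aeval_C, aeval_X, map_sub, map_natCast]
  push_cast
  ring

lemma lin_eval_real (t : ℝ) :
    ((C 2 * X + C 1 : ℚ[X]).map (algebraMap ℚ ℝ)).eval t = 2 * t + 1 := by
  rw [Polynomial.eval_map_algebraMap]
  simp only [map_add, map_mul, aeval_C, aeval_X, map_one, map_ofNat]

lemma QM_eval_pos (r m : ℕ) (hm : 1 ≤ m) (t : ℝ) (ht : (r : ℝ) < t) :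
    ((QM r m).map (algebraMap ℚ ℝ)).eval t ≠ 0 := by
  unfold QM
  rw [Polynomial.map_prod, Polynomial.eval_prod, Finset.prod_ne_zero_iff]
  intro v hv
  simp only [IM, Finset.mem_erase, Finset.mem_range] at hv
  rw [LF_eval_real]
  have hm' : (1 : ℝ) ≤ m := by exact_mod_cast hm
  have hv' : (v : ℝ) ≤ (2 * r + 1) * m := by
    have : v ≤ (2 * r + 1) * m := by omega
    exact_mod_cast this
  have : (0 : ℝ) < m * t + ((r + 1) * m - v) := by nlinarith
  exact this.ne'

lemma QM_eval_neg (r m : ℕ) (hm : 1 ≤ m) (t : ℝ) (ht : t < -((r : ℝ) + 1)) :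
    ((QM r m).map (algebraMap ℚ ℝ)).eval t ≠ 0 := by
  unfold QM
  rw [Polynomial.map_prod, Polynomial.eval_prod, Finset.prod_ne_zero_iff]
  intro v hv
  rw [LF_eval_real]
  have hm' : (1 : ℝ) ≤ m := by exact_mod_cast hm
  have hv' : (0 : ℝ) ≤ v := Nat.cast_nonneg v
  have : m * t + ((r + 1) * m - v) < (0 : ℝ) := by nlinarith
  exact this.ne

/-- T10. `NP P 1 l = (X (X+1))^(l + 2κB) * N1` -/
theorem exists_N1 (P : Par) (h : P.OK) : ∃ N1 : ℚ[X],
    (∀ l, NP P 1 l = (X * (X + 1)) ^ (l + 2 * P.κ * P.B) * N1) ∧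
    N1.comp (-1 - X) = -N1 ∧ N1.eval 0 ≠ 0 ∧
    N1.natDegree + 2 * P.κ * P.B ≤ P.Z + 1 ∧
    (∀ t : ℝ, (P.r : ℝ) < t → (N1.map (algebraMap ℚ ℝ)).eval t ≠ 0) ∧
    (∀ t : ℝ, t < -((P.r : ℝ) + 1) → (N1.map (algebraMap ℚ ℝ)).eval t ≠ 0) := by
  have hr := h.hr
  refine ⟨(C 2 * X + C 1) * ∏ m ∈ Finset.Icc 1 P.B, (C ((m : ℚ) ^ 2) * QM P.r m) ^ (2 * P.κ),
    ?_, ?_, ?_, ?_, ?_, ?_⟩
  · intro l
    unfold NP cst
    have h1 : ∏ m ∈ Finset.Icc 1 P.B, (PM P.r m 1) ^ (2 * P.κ) =
        (X * (X + 1)) ^ (2 * P.κ * P.B) *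
          ∏ m ∈ Finset.Icc 1 P.B, (C ((m : ℚ) ^ 2) * QM P.r m) ^ (2 * P.κ) := by
      have h2 : ∀ m ∈ Finset.Icc 1 P.B, (PM P.r m 1) ^ (2 * P.κ) =
          (X * (X + 1)) ^ (2 * P.κ) * (C ((m : ℚ) ^ 2) * QM P.r m) ^ (2 * P.κ) := by
        intro m hm
        rw [PM_one P.r m hr (Finset.mem_Icc.mp hm).1, mul_pow]
      rw [Finset.prod_congr rfl h2, Finset.prod_mul_distrib, Finset.prod_const, Nat.card_Icc,
        Nat.add_sub_cancel, ← pow_mul]
    rw [h1]
    simp only [Nat.factorial_one, Nat.cast_one, one_pow, div_one, C_1, one_mul]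
    rw [pow_add]
    ring
  · rw [mul_comp, Polynomial.prod_comp]
    have h1 : (C 2 * X + C 1 : ℚ[X]).comp (-1 - X) = -(C 2 * X + C 1) := by
      simp only [add_comp, mul_comp, C_comp, X_comp]
      have : (C 2 : ℚ[X]) = 2 := rfl
      rw [this, C_1]
      ring
    have h2 : ∀ m ∈ Finset.Icc 1 P.B, ((C ((m : ℚ) ^ 2) * QM P.r m) ^ (2 * P.κ)).comp (-1 - X) =
        (C ((m : ℚ) ^ 2) * QM P.r m) ^ (2 * P.κ) := by
      intro m _
      rw [pow_comp, mul_comp, C_comp, mul_pow, mul_pow, pow_mul ((QM P.r m).comp (-1 - X)) 2,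
        QM_comp_sq, ← pow_mul]
    rw [h1, Finset.prod_congr rfl h2]
    ring
  · rw [eval_mul, eval_prod]
    apply mul_ne_zero
    · simp
    · rw [Finset.prod_ne_zero_iff]
      intro m hm
      rw [eval_pow, eval_mul, eval_C]
      have hm1 := (Finset.mem_Icc.mp hm).1
      have hm0 : (m : ℚ) ≠ 0 := by
        have : (m : ℚ) ≠ 0 := by
          have h3 : m ≠ 0 := by omega
          exact_mod_cast h3
        exact this
      exact pow_ne_zero _ (mul_ne_zero (pow_ne_zero _ hm0) (QM_eval_zero _ _))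
  · have h1 : ((C 2 * X + C 1) *
        ∏ m ∈ Finset.Icc 1 P.B, (C ((m : ℚ) ^ 2) * QM P.r m) ^ (2 * P.κ) : ℚ[X]).natDegree ≤
        1 + ∑ m ∈ Finset.Icc 1 P.B, 2 * P.κ * (IM P.r m).card := by
      refine Polynomial.natDegree_mul_le.trans ?_
      refine add_le_add Polynomial.natDegree_linear_le ?_
      refine (Polynomial.natDegree_prod_le _ _).trans ?_
      refine Finset.sum_le_sum fun m _ => ?_
      refine Polynomial.natDegree_pow_le.trans ?_
      refine Nat.mul_le_mul_left _ ?_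
      refine (Polynomial.natDegree_C_mul_le _ _).trans (QM_natDegree _ _)
    have h2 : ∑ m ∈ Finset.Icc 1 P.B, 2 * P.κ * (IM P.r m).card + 2 * P.κ * P.B = P.Z := by
      have h3 : ∑ m ∈ Finset.Icc 1 P.B, 2 * P.κ * (IM P.r m).card + 2 * P.κ * P.B =
          ∑ m ∈ Finset.Icc 1 P.B, (2 * P.κ * ((IM P.r m).card + 1)) := by
        simp only [mul_add, Finset.sum_add_distrib, mul_one, Finset.sum_const, Nat.card_Icc,
          Nat.add_sub_cancel, smul_eq_mul]
        ring
      rw [h3]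
      have h4 : ∀ m ∈ Finset.Icc 1 P.B, 2 * P.κ * ((IM P.r m).card + 1) =
          2 * P.κ * (2 * P.r + 1) * m := by
        intro m hm
        rw [card_IM P.r m hr (Finset.mem_Icc.mp hm).1]
        ring
      rw [Finset.sum_congr rfl h4, ← Finset.mul_sum]
      unfold Par.Z sB
      ring
    omega
  · intro t ht
    have hr0 : (0 : ℝ) ≤ P.r := Nat.cast_nonneg _
    rw [Polynomial.map_mul, eval_mul, Polynomial.map_prod, eval_prod]
    apply mul_ne_zero
    · rw [lin_eval_real]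
      have : (0 : ℝ) < 2 * t + 1 := by linarith
      exact this.ne'
    · rw [Finset.prod_ne_zero_iff]
      intro m hm
      have hm1 := (Finset.mem_Icc.mp hm).1
      rw [Polynomial.map_pow, Polynomial.map_mul, eval_pow, eval_mul, map_C, eval_C]
      have hm0 : (m : ℝ) ≠ 0 := by
        have h3 : m ≠ 0 := by omega
        exact_mod_cast h3
      refine pow_ne_zero _ (mul_ne_zero ?_ (QM_eval_pos _ _ hm1 t ht))
      rw [map_pow, map_natCast]
      exact pow_ne_zero _ hm0
  · intro t ht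
    have hr0 : (0 : ℝ) ≤ P.r := Nat.cast_nonneg _
    rw [Polynomial.map_mul, eval_mul, Polynomial.map_prod, eval_prod]
    apply mul_ne_zero
    · rw [lin_eval_real]
      have : 2 * t + 1 < (0 : ℝ) := by linarith
      exact this.ne
    · rw [Finset.prod_ne_zero_iff]
      intro m hm
      have hm1 := (Finset.mem_Icc.mp hm).1
      rw [Polynomial.map_pow, Polynomial.map_mul, eval_pow, eval_mul, map_C, eval_C]
      have hm0 : (m : ℝ) ≠ 0 := by
        have h3 : m ≠ 0 := by omega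
        exact_mod_cast h3
      refine pow_ne_zero _ (mul_ne_zero ?_ (QM_eval_neg _ _ hm1 t ht))
      rw [map_pow, map_natCast]
      exact pow_ne_zero _ hm0

end

end Pool.Agent.H513R2.OZ
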