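import Pool.Agent.H513R2.OZ.Maj

/-!
T3 of project OZ (helper513), by helper483: upper bound for the partial fraction coefficients.
-/

open Polynomial

namespace Pool.Agent.H513R2.OZ

open Pool.Agent.H337R2

noncomputable section


namespace PcB

lemma TS_lin2 (c u v : ℚ) : TS c (C u * X + C v) =
    PowerSeries.C u * PowerSeries.X + PowerSeries.C (v + u * c) := by
  rw [map_add, map_mul, TS_C, TS_X, TS_C, map_add, map_mul]
  ring

/-- the product of the linear factors of `PM` at `-j` -/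
lemma MB_PM (b W : ℝ) (r m n j : ℕ) (hb : 1 ≤ b) (hj : j ≤ n) (hmW : (m : ℝ) ≤ W)
    (hW : ((r + 1) * n * m : ℝ) ≤ W) :
    MB b ((2 * r + 1) * n * m + 1) (W ^ ((2 * r + 1) * n * m + 1)) (TS (-(j : ℚ)) (PM r m n)) := by
  unfold PM
  rw [map_prod]
  have hW0 : 0 ≤ W := le_trans (Nat.cast_nonneg m) hmW
  have h := MB.prod (b := b) (Finset.range ((2 * r + 1) * n * m + 1)) (fun _ => 1) (fun _ => W)
    (fun v => TS (-(j : ℚ)) (C (m : ℚ) * X + C ((((r + 1) * n * m : ℕ) : ℚ) - (v : ℚ))))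
    (by linarith) (fun _ _ => hW0) (fun v hv => by
      rw [TS_lin2]
      rw [Finset.mem_range] at hv
      have hv' : (v : ℝ) ≤ (2 * r + 1) * n * m := by
        have : v ≤ (2 * r + 1) * n * m := by omega
        exact_mod_cast this
      have hj' : (j : ℝ) * m ≤ n * m := by
        have : j * m ≤ n * m := Nat.mul_le_mul_right _ hj
        exact_mod_cast this
      have hjm : (0 : ℝ) ≤ (j : ℝ) * m := by positivity
      have hnm : (0 : ℝ) ≤ (n : ℝ) * m := by positivity
      have hv0 : (0 : ℝ) ≤ v := Nat.cast_nonneg v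
      apply MB.lin _ _ (by linarith) hW0
      · push_cast
        rw [abs_le]
        constructor <;> nlinarith
      · push_cast
        rw [abs_of_nonneg (Nat.cast_nonneg m)]
        nlinarith)
  simpa using h

lemma prod_abs_sub (n j : ℕ) (hj : j ≤ n) :
    ∏ k ∈ (Finset.range (n + 1)).erase j, |(k : ℝ) - j| = (j.factorial : ℝ) * ((n - j).factorial : ℝ) := by
  induction n, hj using Nat.le_induction with
  | base =>
    have h1 : (Finset.range (j + 1)).erase j = Finset.range j := by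
      ext k
      simp only [Finset.mem_erase, Finset.mem_range]
      omega
    rw [h1, Nat.sub_self, Nat.factorial_zero, Nat.cast_one, mul_one, ← Finset.prod_range_reflect,
      ← Finset.prod_range_add_one_eq_factorial]
    push_cast
    apply Finset.prod_congr rfl
    intro k hk
    rw [Finset.mem_range] at hk
    have h2 : ((j - 1 - k : ℕ) : ℝ) = (j : ℝ) - 1 - k := by
      rw [Nat.sub_sub, Nat.cast_sub (by omega)]
      push_cast
      ring
    rw [h2]
    have h3 : (j : ℝ) - 1 - k - j = -((k : ℝ) + 1) := by ring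
    rw [h3, abs_neg, abs_of_nonneg (by positivity)]
  | succ n hn ih =>
    have h1 : (Finset.range (n + 1 + 1)).erase j =
        insert (n + 1) ((Finset.range (n + 1)).erase j) := by
      ext k
      simp only [Finset.mem_erase, Finset.mem_range, Finset.mem_insert]
      omega
    rw [h1, Finset.prod_insert (by simp), ih]
    have h2 : n + 1 - j = (n - j) + 1 := by omega
    rw [h2, Nat.factorial_succ]
    have h3 : |((n + 1 : ℕ) : ℝ) - j| = ((n - j : ℕ) : ℝ) + 1 := by
      rw [Nat.cast_sub hn]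
      push_cast
      have h4 : (j : ℝ) ≤ n := by exact_mod_cast hn
      rw [abs_of_nonneg (by linarith)]
      ring
    rw [h3]
    push_cast
    ring

lemma one_le_abs_sub {k j : ℕ} (h : k ≠ j) : (1 : ℝ) ≤ |(k : ℝ) - j| := by
  have h1 : (1 : ℤ) ≤ |(k : ℤ) - j| := by
    apply Int.one_le_abs
    omega
  exact_mod_cast h1

/-- the denominators at `-j` -/
lemma MB_VV (b : ℝ) (P : Par) (n j : ℕ) (hb : 1 ≤ b) (hj : j ≤ n) :
    MB b ((n + 1) * (P.a + P.g)) ((1 / ((j.factorial : ℝ) * ((n - j).factorial : ℝ))) ^ P.a)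
      (VV ((Finset.range (n + 1)).erase j) (mu P n) (-(j : ℚ))) := by
  unfold VV
  have h := MB.prod (b := b) ((Finset.range (n + 1)).erase j) (fun k => mu P n k * 1)
    (fun k => (1 / |(k : ℝ) - j|) ^ mu P n k)
    (fun k => iv (-(j : ℚ) + k) ^ mu P n k)
    (by linarith) (fun _ _ => by positivity) (fun k hk => by
      have hkj : k ≠ j := Finset.ne_of_mem_erase hk
      have h1 := one_le_abs_sub hkj
      have hne : -(j : ℚ) + k ≠ 0 := by
        intro h0
        apply hkj
        have : (k : ℚ) = j := by linarith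
        exact_mod_cast this
      have h2 : |((-(j : ℚ) + k : ℚ) : ℝ)| = |(k : ℝ) - j| := by
        push_cast
        congr 1
        ring
      have h3 := MB.iv (b := b) hne (by rw [h2]; nlinarith) (by linarith)
      rw [h2] at h3
      exact MB.pow (by linarith) (by positivity) h3 _)
  refine MB.mono h (by linarith) le_rfl ?_ (by positivity) ?_
  · calc ∑ k ∈ (Finset.range (n + 1)).erase j, mu P n k * 1
        ≤ ∑ k ∈ Finset.range (n + 1), mu P n k * 1 :=
          Finset.sum_le_sum_of_subset (Finset.erase_subset _ _)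
      _ ≤ ∑ _k ∈ Finset.range (n + 1), (P.a + P.g) := by
          apply Finset.sum_le_sum
          intro k _
          rw [mul_one]
          unfold mu
          split_ifs <;> omega
      _ = (n + 1) * (P.a + P.g) := by simp
  · calc ∏ k ∈ (Finset.range (n + 1)).erase j, (1 / |(k : ℝ) - j|) ^ mu P n k
        ≤ ∏ k ∈ (Finset.range (n + 1)).erase j, (1 / |(k : ℝ) - j|) ^ P.a := by
          apply Finset.prod_le_prod
          · intro k _
            positivity
          · intro k hk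
            have h1 := one_le_abs_sub (Finset.ne_of_mem_erase hk)
            apply pow_le_pow_of_le_one (by positivity)
            · rw [div_le_one (by linarith)]
              exact h1
            · unfold mu
              split_ifs <;> omega
      _ = (1 / ((j.factorial : ℝ) * ((n - j).factorial : ℝ))) ^ P.a := by
          rw [Finset.prod_pow]
          congr 1
          rw [← prod_abs_sub n j hj, Finset.prod_div_distrib]
          simp

/-- the numerator at `-j` -/
lemma MB_NP (b : ℝ) (P : Par) (n l j : ℕ) (hb : 1 ≤ b) (hn : 1 ≤ n) (hj : j ≤ n) (hB : 1 ≤ P.B) :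
    MB b (1 + 2 * l + (P.Z * n + 2 * P.κ * P.B))
      (((n.factorial : ℝ) ^ P.a / (n.factorial : ℝ) ^ P.Z) * ((n : ℝ) + 2) * (((n : ℝ) + 1) ^ 2) ^ l *
        (((P.r : ℝ) + 2) * n * P.B) ^ (P.Z * n + 2 * P.κ * P.B))
      (TS (-(j : ℚ)) (NP P n l)) := by
  set W : ℝ := ((P.r : ℝ) + 2) * n * P.B with hW
  have hb0 : 0 ≤ b := by linarith
  have hnR : (1 : ℝ) ≤ n := by exact_mod_cast hn
  have hjn : (j : ℝ) ≤ n := by exact_mod_cast hj
  have hj0 : (0 : ℝ) ≤ j := Nat.cast_nonneg j
  have hBR : (1 : ℝ) ≤ P.B := by exact_mod_cast hB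
  have hr0 : (0 : ℝ) ≤ P.r := Nat.cast_nonneg _
  have hW0 : 0 ≤ W := by positivity
  unfold NP
  rw [map_mul, map_mul, map_mul, map_pow, map_mul, TS_C, map_prod]
  have h1 : MB b 0 ((n.factorial : ℝ) ^ P.a / (n.factorial : ℝ) ^ P.Z) (PowerSeries.C (cst P n)) := by
    have h := MB.const (b := b) (cst P n)
    have h2 : |((cst P n : ℚ) : ℝ)| = (n.factorial : ℝ) ^ P.a / (n.factorial : ℝ) ^ P.Z := by
      unfold cst
      push_cast
      rw [abs_of_nonneg (by positivity)]
    rw [h2] at h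
    exact h
  have h2 : MB b 1 ((n : ℝ) + 2) (TS (-(j : ℚ)) (C 2 * X + C (n : ℚ))) := by
    rw [TS_lin2]
    apply MB.lin _ _ hb0 (by positivity)
    · push_cast
      rw [abs_le]
      constructor <;> linarith
    · push_cast
      rw [abs_of_nonneg (by norm_num)]
      nlinarith
  have h3 : MB b 1 ((n : ℝ) + 1) (TS (-(j : ℚ)) X) := by
    have h := TS_lin2 (-(j : ℚ)) 1 0
    rw [map_one, one_mul, map_zero, add_zero] at h
    rw [h]
    apply MB.lin _ _ hb0 (by positivity)
    · push_cast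
      rw [abs_le]
      constructor <;> linarith
    · push_cast
      rw [abs_of_nonneg (by norm_num)]
      nlinarith
  have h4 : MB b 1 ((n : ℝ) + 1) (TS (-(j : ℚ)) (X + C (n : ℚ))) := by
    have h := TS_lin2 (-(j : ℚ)) 1 (n : ℚ)
    rw [map_one, one_mul] at h
    rw [h]
    apply MB.lin _ _ hb0 (by positivity)
    · push_cast
      rw [abs_le]
      constructor <;> linarith
    · push_cast
      rw [abs_of_nonneg (by norm_num)]
      nlinarith
  have h5 := MB.pow hb0 (by positivity) (MB.mul hb0 (by positivity) (by positivity) h3 h4) l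
  have h6 := MB.prod (b := b) (Finset.Icc 1 P.B) (fun m => 2 * P.κ * ((2 * P.r + 1) * n * m + 1))
    (fun m => (W ^ ((2 * P.r + 1) * n * m + 1)) ^ (2 * P.κ))
    (fun m => TS (-(j : ℚ)) (PM P.r m n ^ (2 * P.κ))) hb0 (fun _ _ => by positivity) (fun m hm => by
      rw [Finset.mem_Icc] at hm
      have hmB : (m : ℝ) ≤ P.B := by exact_mod_cast hm.2
      have hm0 : (0 : ℝ) ≤ m := Nat.cast_nonneg m
      rw [map_pow]
      apply MB.pow hb0 (by positivity)
      apply MB_PM b W P.r m n j hb hj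
      · rw [hW]
        have : (1 : ℝ) ≤ ((P.r : ℝ) + 2) * n := by nlinarith
        nlinarith
      · rw [hW]
        have h7 : ((P.r : ℝ) + 1) * n ≤ ((P.r : ℝ) + 2) * n := by nlinarith
        have h8 : 0 ≤ ((P.r : ℝ) + 2) * n := by positivity
        exact mul_le_mul h7 hmB hm0 h8)
  have he : ∑ m ∈ Finset.Icc 1 P.B, 2 * P.κ * ((2 * P.r + 1) * n * m + 1) =
      P.Z * n + 2 * P.κ * P.B := by
    unfold Par.Z sB
    rw [← Finset.mul_sum, Finset.sum_add_distrib, ← Finset.mul_sum]
    simp only [Finset.sum_const, Nat.card_Icc, smul_eq_mul, mul_one, Nat.add_sub_cancel]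
    ring
  have hM : ∏ m ∈ Finset.Icc 1 P.B, (W ^ ((2 * P.r + 1) * n * m + 1)) ^ (2 * P.κ) =
      W ^ (P.Z * n + 2 * P.κ * P.B) := by
    rw [← he, ← Finset.prod_pow_eq_pow_sum]
    apply Finset.prod_congr rfl
    intro m _
    rw [← pow_mul]
    congr 1
    ring
  rw [he, hM] at h6
  have h7 := MB.mul hb0 (by positivity) (by positivity)
    (MB.mul hb0 (by positivity) (by positivity) (MB.mul hb0 (by positivity) (by positivity) h1 h2) h5) h6
  have h8 : 0 + 1 + l * (1 + 1) + (P.Z * n + 2 * P.κ * P.B) =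
      1 + 2 * l + (P.Z * n + 2 * P.κ * P.B) := by ring
  have h9 : (((n : ℝ) + 1) * ((n : ℝ) + 1)) ^ l = (((n : ℝ) + 1) ^ 2) ^ l := by
    rw [pow_two]
  rw [h8, h9] at h7
  exact h7

end PcB

open PcB

theorem pc_bound (P : Par) (h : P.OK) : ∃ C : ℝ, ∃ D : ℕ, ∀ n l j i : ℕ, 1 ≤ n → l ≤ P.L → j ≤ n →
    1 ≤ i → |((pc P n l j i : ℚ) : ℝ)| ≤ C * (n : ℝ) ^ D * Real.exp (P.be * n) := by
  have hB := h.hB
  have hBR : (1 : ℝ) ≤ P.B := by exact_mod_cast hB
  set E0 : ℕ := 1 + 2 * P.L + (P.Z + 2 * P.κ * P.B) + 2 * (P.a + P.g) with hE0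
  refine ⟨3 * (2 ^ 2) ^ P.L * (((P.r : ℝ) + 2) * P.B) ^ (2 * P.κ * P.B) *
    (((P.B : ℝ) + 2) ^ P.A * ((E0 : ℝ) + P.A) ^ P.A), 1 + 2 * P.L + 2 * P.κ * P.B + P.A, ?_⟩
  intro n l j i hn hl hj hi
  have hnR : (1 : ℝ) ≤ n := by exact_mod_cast hn
  have hn0 : (0 : ℝ) < n := by linarith
  unfold pc pa
  split_ifs with him
  · set b : ℝ := (P.B : ℝ) + 2 with hb
    have hb1 : 1 ≤ b := by linarith
    have hb0 : 0 ≤ b := by linarith
    unfold pfc
    have h1 := MB.mul hb0 (by positivity) (by positivity) (MB_NP b P n l j hb1 hn hj hB)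
      (MB_VV b P n j hb1 hj) (mu P n j - i)
    refine h1.trans ?_
    set t : ℕ := mu P n j - i with ht
    have htA : t ≤ P.A := by
      rw [ht]
      unfold mu Par.A
      split_ifs <;> omega
    set e : ℕ := 1 + 2 * l + (P.Z * n + 2 * P.κ * P.B) + (n + 1) * (P.a + P.g) with he
    have heE : e ≤ E0 * n := by
      rw [he, hE0]
      have h2 : 2 * l ≤ 2 * P.L * n := by nlinarith
      have h3 : 2 * P.κ * P.B ≤ 2 * P.κ * P.B * n := Nat.le_mul_of_pos_right _ hn
      have h4 : (n + 1) * (P.a + P.g) ≤ 2 * (P.a + P.g) * n := by nlinarith [Nat.zero_le (P.a + P.g)]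
      calc 1 + 2 * l + (P.Z * n + 2 * P.κ * P.B) + (n + 1) * (P.a + P.g)
          ≤ n + 2 * P.L * n + (P.Z * n + 2 * P.κ * P.B * n) + 2 * (P.a + P.g) * n := by omega
        _ = (1 + 2 * P.L + (P.Z + 2 * P.κ * P.B) + 2 * (P.a + P.g)) * n := by ring
    -- the combinatorial factor
    have hcomb : b ^ t * (Nat.multichoose e t : ℝ) ≤
        (b ^ P.A * ((E0 : ℝ) + P.A) ^ P.A) * (n : ℝ) ^ P.A := by
      have h2 := multichoose_le e t
      have h3 : ((e : ℝ) + t) ^ t ≤ (((E0 : ℝ) + P.A) * n) ^ P.A := by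
        have h4 : (e : ℝ) + t ≤ ((E0 : ℝ) + P.A) * n := by
          have h5 : (e : ℝ) ≤ E0 * n := by exact_mod_cast heE
          have h6 : (t : ℝ) ≤ P.A := by exact_mod_cast htA
          have h7 : (P.A : ℝ) ≤ P.A * n := by
            have : (0 : ℝ) ≤ P.A := Nat.cast_nonneg _
            nlinarith
          linarith
        have h5 : (1 : ℝ) ≤ ((E0 : ℝ) + P.A) * n := by
          have h6 : (1 : ℝ) ≤ E0 := by
            have : 1 ≤ E0 := by omega
            exact_mod_cast this
          have h7 : (0 : ℝ) ≤ P.A := Nat.cast_nonneg _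
          nlinarith
        calc ((e : ℝ) + t) ^ t ≤ (((E0 : ℝ) + P.A) * n) ^ t := by gcongr
          _ ≤ (((E0 : ℝ) + P.A) * n) ^ P.A := pow_le_pow_right₀ h5 htA
      calc b ^ t * (Nat.multichoose e t : ℝ) ≤ b ^ P.A * (((E0 : ℝ) + P.A) * n) ^ P.A := by
            apply mul_le_mul (pow_le_pow_right₀ hb1 htA) (h2.trans h3) (by positivity) (by positivity)
        _ = (b ^ P.A * ((E0 : ℝ) + P.A) ^ P.A) * (n : ℝ) ^ P.A := by
            rw [mul_pow]
            ring
    -- the exponential factor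
    have hfac : ((n.factorial : ℝ) ^ P.a / (n.factorial : ℝ) ^ P.Z) *
        (((P.r : ℝ) + 2) * n * P.B) ^ (P.Z * n) *
        (1 / ((j.factorial : ℝ) * ((n - j).factorial : ℝ))) ^ P.a ≤ Real.exp (P.be * n) := by
      have hf1 : (0 : ℝ) < n.factorial := by exact_mod_cast Nat.factorial_pos n
      have hf2 : (0 : ℝ) < j.factorial := by exact_mod_cast Nat.factorial_pos j
      have hf3 : (0 : ℝ) < (n - j).factorial := by exact_mod_cast Nat.factorial_pos (n - j)
      have h2 : (n.factorial : ℝ) * (1 / ((j.factorial : ℝ) * ((n - j).factorial : ℝ))) ≤ 2 ^ n := by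
        have h3 : ((n.choose j : ℕ) : ℝ) * ((j.factorial : ℝ) * ((n - j).factorial : ℝ)) =
            n.factorial := by
          rw [← mul_assoc]
          exact_mod_cast Nat.choose_mul_factorial_mul_factorial hj
        have h4 : (n.choose j : ℝ) ≤ 2 ^ n := by
          have := Nat.choose_le_two_pow n j
          exact_mod_cast this
        rw [mul_one_div, ← h3, mul_div_assoc, div_self (by positivity), mul_one]
        exact h4
      have h3 : (((P.r : ℝ) + 2) * n * P.B) ^ n / n.factorial ≤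
          (((P.r : ℝ) + 2) * P.B) ^ n * Real.exp n := by
        have h4 := Real.pow_div_factorial_le_exp (x := (n : ℝ)) (by positivity) n
        calc (((P.r : ℝ) + 2) * n * P.B) ^ n / n.factorial
            = (((P.r : ℝ) + 2) * P.B) ^ n * ((n : ℝ) ^ n / n.factorial) := by
              rw [mul_pow, mul_pow, mul_pow]
              ring
          _ ≤ (((P.r : ℝ) + 2) * P.B) ^ n * Real.exp n := by gcongr
      have h4 : ((n.factorial : ℝ) ^ P.a / (n.factorial : ℝ) ^ P.Z) *
        (((P.r : ℝ) + 2) * n * P.B) ^ (P.Z * n) *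
        (1 / ((j.factorial : ℝ) * ((n - j).factorial : ℝ))) ^ P.a =
          ((n.factorial : ℝ) * (1 / ((j.factorial : ℝ) * ((n - j).factorial : ℝ)))) ^ P.a *
          ((((P.r : ℝ) + 2) * n * P.B) ^ n / n.factorial) ^ P.Z := by
        rw [mul_pow _ _ P.a, div_pow _ _ P.Z, ← pow_mul, mul_comm n P.Z]
        ring
      rw [h4]
      have hpos : 0 < ((P.r : ℝ) + 2) * P.B := by positivity
      have h5 : Real.exp (P.be * n) = ((2 : ℝ) ^ n) ^ P.a *
          ((((P.r : ℝ) + 2) * P.B) ^ n * Real.exp n) ^ P.Z := by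
        unfold Par.be
        have h6 : ((2 : ℝ) ^ n) = Real.exp (n * Real.log 2) := by
          rw [mul_comm, Real.exp_mul, Real.exp_log (by norm_num), Real.rpow_natCast]
        have h7 : (((P.r : ℝ) + 2) * P.B) ^ n = Real.exp (n * Real.log (((P.r : ℝ) + 2) * P.B)) := by
          rw [mul_comm (n : ℝ), Real.exp_mul, Real.exp_log hpos, Real.rpow_natCast]
        rw [h6, h7, ← Real.exp_add, ← Real.exp_nat_mul, ← Real.exp_nat_mul, ← Real.exp_add]
        congr 1
        ring
      rw [h5]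
      gcongr
    have hn1 : ((n : ℝ) + 2) ≤ 3 * n := by linarith
    have hn2 : (((n : ℝ) + 1) ^ 2) ^ l ≤ (2 ^ 2) ^ P.L * (n : ℝ) ^ (2 * P.L) := by
      calc (((n : ℝ) + 1) ^ 2) ^ l ≤ ((2 * (n : ℝ)) ^ 2) ^ l := by
            gcongr
            linarith
        _ ≤ ((2 * (n : ℝ)) ^ 2) ^ P.L := by
            apply pow_le_pow_right₀ _ hl
            nlinarith
        _ = (2 ^ 2) ^ P.L * (n : ℝ) ^ (2 * P.L) := by
            rw [mul_pow, mul_pow, ← pow_mul (n : ℝ)]
    have hW2 : (((P.r : ℝ) + 2) * n * P.B) ^ (2 * P.κ * P.B) =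
        (((P.r : ℝ) + 2) * P.B) ^ (2 * P.κ * P.B) * (n : ℝ) ^ (2 * P.κ * P.B) := by
      rw [← mul_pow]
      congr 1
      ring
    calc ((n.factorial : ℝ) ^ P.a / (n.factorial : ℝ) ^ P.Z) * ((n : ℝ) + 2) *
          (((n : ℝ) + 1) ^ 2) ^ l * (((P.r : ℝ) + 2) * n * P.B) ^ (P.Z * n + 2 * P.κ * P.B) *
          (1 / ((j.factorial : ℝ) * ((n - j).factorial : ℝ))) ^ P.a *
          (b ^ t * (Nat.multichoose e t : ℝ))
        = (((n.factorial : ℝ) ^ P.a / (n.factorial : ℝ) ^ P.Z) *
            (((P.r : ℝ) + 2) * n * P.B) ^ (P.Z * n) *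
            (1 / ((j.factorial : ℝ) * ((n - j).factorial : ℝ))) ^ P.a) *
          (((n : ℝ) + 2) * (((n : ℝ) + 1) ^ 2) ^ l) *
          (((P.r : ℝ) + 2) * n * P.B) ^ (2 * P.κ * P.B) *
          (b ^ t * (Nat.multichoose e t : ℝ)) := by
          rw [pow_add]
          ring
      _ ≤ Real.exp (P.be * n) * ((3 * n) * ((2 ^ 2) ^ P.L * (n : ℝ) ^ (2 * P.L))) *
          ((((P.r : ℝ) + 2) * P.B) ^ (2 * P.κ * P.B) * (n : ℝ) ^ (2 * P.κ * P.B)) *
          ((b ^ P.A * ((E0 : ℝ) + P.A) ^ P.A) * (n : ℝ) ^ P.A) := by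
          rw [hW2]
          gcongr
      _ = 3 * (2 ^ 2) ^ P.L * (((P.r : ℝ) + 2) * P.B) ^ (2 * P.κ * P.B) *
          (b ^ P.A * ((E0 : ℝ) + P.A) ^ P.A) *
          (n : ℝ) ^ (1 + 2 * P.L + 2 * P.κ * P.B + P.A) * Real.exp (P.be * n) := by
          rw [pow_add, pow_add, pow_add, pow_one]
          ring
  · simp only [Rat.cast_zero, abs_zero]
    positivity

end

end Pool.Agent.H513R2.OZ
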