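import Pool.Agent.H513R2.OZ.Defs

/-!
# Task T8a (helper356): `p`-adic leading terms at the two extreme poles, for `n = p`
-/

open Polynomial

namespace Pool.Agent.H513R2.OZ

open Pool.Agent.H337R2

noncomputable section

namespace T8a

set_option linter.unusedSectionVars false

variable {p : ℕ} [hp : Fact p.Prime]

lemma PB_add {ρ A : ℚ} {f g : PowerSeries ℚ} (hf : PB p ρ A f) (hg : PB p ρ A g) :
    PB p ρ A (f + g) := by
  intro j
  rw [map_add]
  exact (padicNorm.nonarchimedean).trans (max_le (hf j) (hg j))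

/-- congruent to one modulo `p` -/
def U (p : ℕ) (f : PowerSeries ℚ) : Prop := PB p 1 ((p : ℚ)⁻¹) (f - 1)

lemma p_inv_nonneg : (0 : ℚ) ≤ (p : ℚ)⁻¹ := by positivity

lemma p_inv_le_one : (p : ℚ)⁻¹ ≤ 1 := by
  have : (1 : ℚ) ≤ p := by exact_mod_cast hp.out.one_lt.le
  exact inv_le_one_of_one_le₀ this

lemma U_one : U p (1 : PowerSeries ℚ) := by
  intro j
  simp

lemma U_PB {f : PowerSeries ℚ} (hf : U p f) : PB p 1 1 f := by
  have h1 : f = (f - 1) + 1 := by ring
  rw [h1]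
  exact PB_add (PB.mono zero_le_one hf p_inv_le_one) (PB.one zero_le_one)

lemma U_mul {f g : PowerSeries ℚ} (hf : U p f) (hg : U p g) : U p (f * g) := by
  unfold U
  have h1 : f * g - 1 = (f - 1) * g + (g - 1) := by ring
  rw [h1]
  apply PB_add _ hg
  have := PB.mul (p := p) (ρ := 1) zero_le_one p_inv_nonneg zero_le_one hf (U_PB hg)
  simpa using this

lemma U_pow {f : PowerSeries ℚ} (hf : U p f) (n : ℕ) : U p (f ^ n) := by
  induction n with
  | zero => simpa using U_one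
  | succ n ih => rw [pow_succ]; exact U_mul ih hf

lemma U_prod {ι : Type*} (s : Finset ι) (f : ι → PowerSeries ℚ) (hf : ∀ i ∈ s, U p (f i)) :
    U p (∏ i ∈ s, f i) := by
  classical
  induction s using Finset.induction_on with
  | empty => simpa using U_one
  | insert a s ha ih =>
    rw [Finset.prod_insert ha]
    exact U_mul (hf a (Finset.mem_insert_self _ _))
      (ih fun i hi => hf i (Finset.mem_insert_of_mem hi))

lemma rescale_TS (c q : ℚ) (F : ℚ[X]) :
    PowerSeries.rescale q (TS (q * c) F) = TS c (F.comp (C q * X)) := by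
  have h : (PowerSeries.rescale q).comp (TS (q * c)) =
      (TS c).comp (Polynomial.compRingHom (C q * X)) := by
    apply Polynomial.ringHom_ext
    · intro a
      simp [TS_C, rescale_C']
    · simp only [TS_X, RingHom.comp_apply, Polynomial.coe_compRingHom_apply, Polynomial.X_comp,
        map_mul, TS_C, map_add, rescale_C', PowerSeries.rescale_X]
      ring
  exact congrArg (fun φ => φ F) h

lemma rescale_iv {q : ℚ} (hq : q ≠ 0) (c : ℚ) :
    PowerSeries.rescale q (iv (q * c)) = PowerSeries.C q⁻¹ * iv c := by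
  ext j
  rw [PowerSeries.coeff_rescale, PowerSeries.coeff_C_mul]
  simp only [iv, PowerSeries.coeff_mk]
  rcases eq_or_ne c 0 with hc | hc
  · simp [hc]
  · field_simp
    ring

/-- the constants `(r+1) n m - v` -/
def cv (r m n v : ℕ) : ℚ := (((r + 1) * n * m : ℕ) : ℚ) - (v : ℚ)

/-- the `v` prime to `p` -/
def bad (r m p : ℕ) : Finset ℕ := (Finset.range ((2 * r + 1) * p * m + 1)).filter (fun v => ¬ p ∣ v)

lemma norm_cv (r m v : ℕ) (hv : ¬ p ∣ v) : padicNorm p (cv r m p v) = 1 := by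
  have h1 : cv r m p v = (((((r + 1) * p * m : ℕ) : ℤ) - (v : ℤ) : ℤ) : ℚ) := by
    unfold cv; push_cast; ring
  rw [h1, padicNorm.int_eq_one_iff]
  intro h
  apply hv
  have h2 : (p : ℤ) ∣ (((r + 1) * p * m : ℕ) : ℤ) := by
    exact_mod_cast Dvd.intro_left ((r + 1) * m) (by ring)
  have h3 := (Int.dvd_sub h2 h)
  have h4 : (((r + 1) * p * m : ℕ) : ℤ) - ((((r + 1) * p * m : ℕ) : ℤ) - (v : ℤ)) = (v : ℤ) := by ring
  rw [h4] at h3
  exact_mod_cast h3

lemma cv_ne (r m v : ℕ) (hv : ¬ p ∣ v) : cv r m p v ≠ 0 := by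
  intro h
  have := norm_cv (p := p) r m v hv
  rw [h] at this
  simp at this

lemma PM_comp (r m : ℕ) :
    (PM r m p).comp (C (p : ℚ) * X) =
      C ((p : ℚ) ^ ((2 * r + 1) * m + 1) * ∏ v ∈ bad r m p, cv r m p v) * PM r m 1 *
        ∏ v ∈ bad r m p, (1 + C ((m : ℚ) * p / cv r m p v) * X) := by
  have hp0 : (p : ℚ) ≠ 0 := by exact_mod_cast hp.out.ne_zero
  have hppos : 0 < p := hp.out.pos
  unfold PM
  rw [Polynomial.prod_comp]
  have h1 : ∀ v ∈ Finset.range ((2 * r + 1) * p * m + 1),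
      (C (m : ℚ) * X + C ((((r + 1) * p * m : ℕ) : ℚ) - (v : ℚ))).comp (C (p : ℚ) * X) =
      C (m : ℚ) * (C (p : ℚ) * X) + C (cv r m p v) := by
    intro v _
    simp [cv]
  rw [Finset.prod_congr rfl h1]
  rw [← Finset.prod_filter_mul_prod_filter_not (Finset.range ((2 * r + 1) * p * m + 1))
    (fun v => p ∣ v)]
  have h2 : (Finset.range ((2 * r + 1) * p * m + 1)).filter (fun v => p ∣ v) =
      (Finset.range ((2 * r + 1) * 1 * m + 1)).image (fun w => p * w) := by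
    ext v
    simp only [Finset.mem_filter, Finset.mem_range, Finset.mem_image]
    constructor
    · rintro ⟨h1, w, rfl⟩
      refine ⟨w, ?_, rfl⟩
      have h3 : p * w ≤ p * ((2 * r + 1) * m) := by
        have : (2 * r + 1) * p * m = p * ((2 * r + 1) * m) := by ring
        omega
      have := Nat.le_of_mul_le_mul_left h3 hppos
      rw [mul_one]
      omega
    · rintro ⟨w, hw, rfl⟩
      refine ⟨?_, Dvd.intro _ rfl⟩
      rw [mul_one] at hw
      have h3 : w ≤ (2 * r + 1) * m := by omega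
      have h4 : p * w ≤ p * ((2 * r + 1) * m) := Nat.mul_le_mul_left p h3
      have : (2 * r + 1) * p * m = p * ((2 * r + 1) * m) := by ring
      omega
  have h3 : ∏ v ∈ (Finset.range ((2 * r + 1) * p * m + 1)).filter (fun v => p ∣ v),
      (C (m : ℚ) * (C (p : ℚ) * X) + C (cv r m p v)) =
      C ((p : ℚ) ^ ((2 * r + 1) * m + 1)) * ∏ v ∈ Finset.range ((2 * r + 1) * 1 * m + 1),
        (C (m : ℚ) * X + C ((((r + 1) * 1 * m : ℕ) : ℚ) - (v : ℚ))) := by
    rw [h2, Finset.prod_image (by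
      intro a _ b _ hab
      exact Nat.eq_of_mul_eq_mul_left hppos hab)]
    have h4 : ∀ w ∈ Finset.range ((2 * r + 1) * 1 * m + 1),
        (C (m : ℚ) * (C (p : ℚ) * X) + C (cv r m p (p * w))) =
        C (p : ℚ) * (C (m : ℚ) * X + C ((((r + 1) * 1 * m : ℕ) : ℚ) - (w : ℚ))) := by
      intro w _
      have : cv r m p (p * w) = p * ((((r + 1) * 1 * m : ℕ) : ℚ) - (w : ℚ)) := by
        unfold cv; push_cast; ring
      rw [this, C_mul]
      ring
    rw [Finset.prod_congr rfl h4, Finset.prod_mul_distrib, Finset.prod_const, Finset.card_range,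
      mul_one, C_pow]
  have h5 : ∏ v ∈ (Finset.range ((2 * r + 1) * p * m + 1)).filter (fun v => ¬ p ∣ v),
      (C (m : ℚ) * (C (p : ℚ) * X) + C (cv r m p v)) =
      C (∏ v ∈ bad r m p, cv r m p v) *
        ∏ v ∈ bad r m p, (1 + C ((m : ℚ) * p / cv r m p v) * X) := by
    rw [map_prod C, ← Finset.prod_mul_distrib]
    apply Finset.prod_congr rfl
    intro v hv
    have hv' : ¬ p ∣ v := (Finset.mem_filter.1 hv).2
    have hc := cv_ne (p := p) r m v hv'
    rw [mul_add, mul_one, ← mul_assoc (C (cv r m p v)), ← C_mul,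
      mul_div_cancel₀ _ hc, C_mul]
    ring
  rw [h3, h5]
  rw [C_mul]
  ring

/-- the unit part of the numerator -/
def WW (P : Par) (p : ℕ) : ℚ := ∏ m ∈ Finset.Icc 1 P.B, (∏ v ∈ bad P.r m p, cv P.r m p v) ^ (2 * P.κ)

/-- the part congruent to one of the numerator -/
def Phi (P : Par) (p : ℕ) : ℚ[X] := ∏ m ∈ Finset.Icc 1 P.B,
  (∏ v ∈ bad P.r m p, (1 + C ((m : ℚ) * p / cv P.r m p v) * X)) ^ (2 * P.κ)

lemma cst_one (P : Par) : cst P 1 = 1 := by
  simp [cst]

lemma prod_ppow (P : Par) :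
    ∏ m ∈ Finset.Icc 1 P.B, ((p : ℚ) ^ ((2 * P.r + 1) * m + 1)) ^ (2 * P.κ) =
      (p : ℚ) ^ (P.Z + 2 * P.κ * P.B) := by
  have h1 : ∀ m ∈ Finset.Icc 1 P.B, ((p : ℚ) ^ ((2 * P.r + 1) * m + 1)) ^ (2 * P.κ) =
      (p : ℚ) ^ (((2 * P.r + 1) * m + 1) * (2 * P.κ)) := fun m _ => by rw [← pow_mul]
  rw [Finset.prod_congr rfl h1, Finset.prod_pow_eq_pow_sum]
  congr 1
  rw [← Finset.sum_mul, Finset.sum_add_distrib, ← Finset.mul_sum]
  simp only [Finset.sum_const, Nat.card_Icc, smul_eq_mul, Par.Z, sB]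
  rw [Nat.add_sub_cancel]
  ring

lemma NP_comp (P : Par) (l : ℕ) :
    (NP P p l).comp (C (p : ℚ) * X) =
      C (cst P p * p * ((p : ℚ) ^ 2) ^ l * (p : ℚ) ^ (P.Z + 2 * P.κ * P.B) * WW P p) *
        NP P 1 l * Phi P p := by
  unfold NP
  rw [cst_one]
  simp only [Polynomial.mul_comp, Polynomial.C_comp, Polynomial.add_comp, Polynomial.X_comp,
    Polynomial.pow_comp, Polynomial.prod_comp]
  have h1 : ∏ m ∈ Finset.Icc 1 P.B, (PM P.r m p).comp (C (p : ℚ) * X) ^ (2 * P.κ) =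
      C ((p : ℚ) ^ (P.Z + 2 * P.κ * P.B) * WW P p) * (∏ m ∈ Finset.Icc 1 P.B, (PM P.r m 1) ^ (2 * P.κ)) *
        Phi P p := by
    have h2 : ∀ m ∈ Finset.Icc 1 P.B, (PM P.r m p).comp (C (p : ℚ) * X) ^ (2 * P.κ) =
        C (((p : ℚ) ^ ((2 * P.r + 1) * m + 1)) ^ (2 * P.κ)) *
        C ((∏ v ∈ bad P.r m p, cv P.r m p v) ^ (2 * P.κ)) * (PM P.r m 1) ^ (2 * P.κ) *
        (∏ v ∈ bad P.r m p, (1 + C ((m : ℚ) * p / cv P.r m p v) * X)) ^ (2 * P.κ) := by
      intro m _
      rw [PM_comp, mul_pow, mul_pow, ← C_pow, mul_pow, C_mul]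
    rw [Finset.prod_congr rfl h2, Finset.prod_mul_distrib, Finset.prod_mul_distrib,
      Finset.prod_mul_distrib, ← map_prod C, ← map_prod C, prod_ppow, C_mul]
    rfl
  rw [h1]
  have h3 : (C (2 : ℚ) * (C (p : ℚ) * X) + C (p : ℚ)) = C (p : ℚ) * (C 2 * X + C ((1 : ℕ) : ℚ)) := by
    simp; ring
  have h4 : (C (p : ℚ) * X * (C (p : ℚ) * X + C (p : ℚ))) ^ l =
      C (((p : ℚ) ^ 2) ^ l) * (X * (X + C ((1 : ℕ) : ℚ))) ^ l := by
    rw [C_pow, ← mul_pow]
    congr 1
    simp only [C_pow, Nat.cast_one, map_one]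
    ring
  rw [h3, h4]
  simp only [C_mul, map_one]
  ring

/-- the factors of the inner poles -/
def Psi2 (P : Par) (p j1 : ℕ) : PowerSeries ℚ := ∏ k ∈ Finset.Ioo 0 p,
  (PowerSeries.C (k : ℚ) * PowerSeries.rescale (p : ℚ) (iv (-((p * j1 : ℕ) : ℚ) + k))) ^ P.a

lemma norm_k {k : ℕ} (hk : k ∈ Finset.Ioo 0 p) : padicNorm p (k : ℚ) = 1 := by
  rw [Finset.mem_Ioo] at hk
  rw [padicNorm.nat_eq_one_iff]
  intro h
  have := Nat.le_of_dvd hk.1 h
  omega

lemma norm_c {k : ℕ} (hk : k ∈ Finset.Ioo 0 p) (j1 : ℕ) :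
    padicNorm p (-((p * j1 : ℕ) : ℚ) + k) = 1 := by
  rw [Finset.mem_Ioo] at hk
  have h1 : (-((p * j1 : ℕ) : ℚ) + k) = ((-((p * j1 : ℕ) : ℤ) + k : ℤ) : ℚ) := by push_cast; ring
  rw [h1, padicNorm.int_eq_one_iff]
  intro h
  have h2 : (p : ℤ) ∣ ((p * j1 : ℕ) : ℤ) := by
    exact_mod_cast Dvd.intro j1 rfl
  have h3 := Int.dvd_add h2 h
  have h4 : ((p * j1 : ℕ) : ℤ) + (-((p * j1 : ℕ) : ℤ) + k) = (k : ℤ) := by ring
  rw [h4] at h3
  have h5 : p ∣ k := by exact_mod_cast h3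
  have := Nat.le_of_dvd hk.1 h5
  omega

lemma norm_pow (x : ℚ) (n : ℕ) : padicNorm p (x ^ n) = padicNorm p x ^ n := by
  induction n with
  | zero => simp
  | succ n ih => rw [pow_succ, pow_succ, padicNorm.mul, ih]

lemma norm_p : padicNorm p (p : ℚ) = (p : ℚ)⁻¹ := padicNorm.padicNorm_p_of_prime

lemma U_inner (j1 : ℕ) {k : ℕ} (hk : k ∈ Finset.Ioo 0 p) :
    U p (PowerSeries.C (k : ℚ) * PowerSeries.rescale (p : ℚ) (iv (-((p * j1 : ℕ) : ℚ) + k))) := by
  intro j
  have hc := norm_c hk j1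
  have hkk := norm_k hk
  have hc0 : (-((p * j1 : ℕ) : ℚ) + k) ≠ 0 := by
    intro h
    rw [h] at hc
    simp at hc
  rw [map_sub, PowerSeries.coeff_C_mul, PowerSeries.coeff_rescale, one_pow, mul_one]
  simp only [iv, PowerSeries.coeff_mk]
  rcases j with _ | j
  · rw [PowerSeries.coeff_zero_one]
    have h1 : (k : ℚ) * ((p : ℚ) ^ 0 * ((-1) ^ 0 / (-((p * j1 : ℕ) : ℚ) + k) ^ (0 + 1))) - 1 =
        p * j1 / (-((p * j1 : ℕ) : ℚ) + k) := by
      have h2 : (k : ℚ) = (-((p * j1 : ℕ) : ℚ) + k) + p * j1 := by push_cast; ring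
      rw [pow_zero, pow_zero, one_mul, zero_add, pow_one, mul_one_div, div_sub_one hc0]
      congr 1
      push_cast
      ring
    rw [h1, padicNorm.div, padicNorm.mul, hc, norm_p, div_one]
    have h3 : padicNorm p (j1 : ℚ) ≤ 1 := padicNorm.of_nat j1
    calc (p : ℚ)⁻¹ * padicNorm p (j1 : ℚ) ≤ (p : ℚ)⁻¹ * 1 :=
          mul_le_mul_of_nonneg_left h3 p_inv_nonneg
      _ = (p : ℚ)⁻¹ := mul_one _
  · rw [PowerSeries.coeff_one, if_neg (by omega), sub_zero, padicNorm.mul, padicNorm.mul,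
      padicNorm.div, norm_pow, norm_pow, norm_pow, hc, hkk, norm_p, one_pow, div_one]
    have h4 : padicNorm p (-1 : ℚ) = 1 := by simp
    rw [h4, one_pow, mul_one, one_mul, pow_succ]
    have h5 : ((p : ℚ)⁻¹) ^ j ≤ 1 := pow_le_one₀ p_inv_nonneg p_inv_le_one
    calc (p : ℚ)⁻¹ ^ j * (p : ℚ)⁻¹ ≤ 1 * (p : ℚ)⁻¹ := mul_le_mul_of_nonneg_right h5 p_inv_nonneg
      _ = (p : ℚ)⁻¹ := one_mul _

lemma U_Psi2 (P : Par) (j1 : ℕ) : U p (Psi2 P p j1) :=
  U_prod _ _ fun _ hk => U_pow (U_inner j1 hk) _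

lemma U_TS_Phi (P : Par) (j1 : ℕ) : U p (TS (-(j1 : ℚ)) (Phi P p)) := by
  unfold Phi
  rw [map_prod]
  apply U_prod
  intro m _
  rw [map_pow, map_prod]
  apply U_pow
  apply U_prod
  intro v hv
  have hv' : ¬ p ∣ v := (Finset.mem_filter.1 hv).2
  have hcv := norm_cv (p := p) P.r m v hv'
  rw [map_add, map_one, map_mul, TS_C, TS_X]
  have hq : padicNorm p ((m : ℚ) * p / cv P.r m p v) ≤ (p : ℚ)⁻¹ := by
    rw [padicNorm.div, padicNorm.mul, hcv, norm_p, div_one]
    have h3 : padicNorm p (m : ℚ) ≤ 1 := padicNorm.of_nat m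
    calc padicNorm p (m : ℚ) * (p : ℚ)⁻¹ ≤ 1 * (p : ℚ)⁻¹ :=
          mul_le_mul_of_nonneg_right h3 p_inv_nonneg
      _ = (p : ℚ)⁻¹ := one_mul _
  unfold U
  rw [add_sub_cancel_left]
  have h1 : PB p 1 ((p : ℚ)⁻¹) (PowerSeries.C ((m : ℚ) * p / cv P.r m p v)) :=
    PB.C zero_le_one p_inv_nonneg hq
  have h2 : PB p 1 1 (PowerSeries.X + PowerSeries.C (-(j1 : ℚ))) := by
    apply PB.linX zero_le_one zero_le_one _ (by norm_num)
    rw [padicNorm.neg]
    exact padicNorm.of_nat j1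
  have := PB.mul (p := p) (ρ := 1) zero_le_one p_inv_nonneg zero_le_one h1 h2
  simpa using this

lemma VV_rescale (P : Par) (j1 : ℕ) (hj : j1 ≤ 1) :
    PowerSeries.rescale (p : ℚ) (VV ((Finset.range (p + 1)).erase (p * j1)) (mu P p)
      (-((p * j1 : ℕ) : ℚ))) =
    PowerSeries.C (((p : ℚ)⁻¹) ^ P.A * ((((p - 1).factorial : ℕ) : ℚ)⁻¹) ^ P.a) *
      VV ((Finset.range (1 + 1)).erase j1) (mu P 1) (-(j1 : ℚ)) * Psi2 P p j1 := by
  have hp0 : (p : ℚ) ≠ 0 := by exact_mod_cast hp.out.ne_zero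
  have hppos : 0 < p := hp.out.pos
  have h1 : (Finset.range (p + 1)).erase (p * j1) = insert (p * (1 - j1)) (Finset.Ioo 0 p) := by
    ext k
    simp only [Finset.mem_erase, Finset.mem_range, Finset.mem_insert, Finset.mem_Ioo]
    interval_cases j1 <;> simp <;> omega
  have h1' : p * (1 - j1) ∉ Finset.Ioo 0 p := by
    simp only [Finset.mem_Ioo]
    interval_cases j1 <;> simp
  have h2 : (Finset.range (1 + 1)).erase j1 = {1 - j1} := by
    interval_cases j1 <;> decide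
  have h3 : mu P p (p * (1 - j1)) = P.A := by
    unfold mu Par.A
    interval_cases j1 <;> simp
  have h4 : mu P 1 (1 - j1) = P.A := by
    unfold mu Par.A
    interval_cases j1 <;> simp
  unfold VV
  rw [h1, h2, Finset.prod_insert h1', Finset.prod_singleton, h3, h4, map_mul, map_pow, map_prod]
  have h5 : (-((p * j1 : ℕ) : ℚ) + ((p * (1 - j1) : ℕ) : ℚ)) =
      p * (-(j1 : ℚ) + ((1 - j1 : ℕ) : ℚ)) := by
    push_cast; ring
  rw [h5, rescale_iv hp0]
  have h6 : ∏ k ∈ Finset.Ioo 0 p, PowerSeries.rescale (p : ℚ)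
      (iv (-((p * j1 : ℕ) : ℚ) + (k : ℚ)) ^ mu P p k) =
      PowerSeries.C (((((p - 1).factorial : ℕ) : ℚ)⁻¹) ^ P.a) * Psi2 P p j1 := by
    have h7 : ∀ k ∈ Finset.Ioo 0 p, PowerSeries.rescale (p : ℚ)
        (iv (-((p * j1 : ℕ) : ℚ) + (k : ℚ)) ^ mu P p k) =
        PowerSeries.C (((k : ℚ)⁻¹) ^ P.a) * (PowerSeries.C (k : ℚ) *
          PowerSeries.rescale (p : ℚ) (iv (-((p * j1 : ℕ) : ℚ) + k))) ^ P.a := by
      intro k hk
      rw [Finset.mem_Ioo] at hk
      have hk0 : (k : ℚ) ≠ 0 := by exact_mod_cast (by omega : k ≠ 0)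
      have hmu : mu P p k = P.a := by
        unfold mu
        rw [if_neg (by omega)]
      rw [hmu, map_pow, mul_pow, map_pow, ← mul_assoc, ← mul_pow, ← map_mul, inv_mul_cancel₀ hk0,
        map_one, one_pow, one_mul]
    rw [Finset.prod_congr rfl h7, Finset.prod_mul_distrib, ← map_prod]
    unfold Psi2
    congr 2
    rw [Finset.prod_pow]
    congr 1
    rw [Finset.prod_inv_distrib]
    congr 1
    rw [← Finset.prod_range_add_one_eq_factorial]
    push_cast
    have h8 : Finset.Ioo 0 p = (Finset.range (p - 1)).image (fun x => x + 1) := by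
      ext k
      simp only [Finset.mem_Ioo, Finset.mem_image, Finset.mem_range]
      constructor
      · intro h; exact ⟨k - 1, by omega, by omega⟩
      · rintro ⟨x, hx, rfl⟩; omega
    rw [h8, Finset.prod_image (by intro a _ b _ hab; exact Nat.succ_injective hab)]
    apply Finset.prod_congr rfl
    intro x _
    push_cast
    ring
  rw [h6, mul_pow, ← map_pow, map_mul]
  ring

/-- the unit -/
def wv (P : Par) (p : ℕ) : ℚ := WW P p / (((p - 1).factorial : ℕ) : ℚ) ^ P.Z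

lemma norm_WW (P : Par) : padicNorm p (WW P p) = 1 := by
  unfold WW
  have hprod : ∀ (ι : Type) (s : Finset ι) (f : ι → ℚ), (∀ i ∈ s, padicNorm p (f i) = 1) →
      padicNorm p (∏ i ∈ s, f i) = 1 := by
    intro ι s f
    classical
    induction s using Finset.induction_on with
    | empty => simp
    | insert a s ha ih =>
      intro h
      rw [Finset.prod_insert ha, padicNorm.mul, h a (Finset.mem_insert_self _ _), one_mul]
      exact ih fun i hi => h i (Finset.mem_insert_of_mem hi)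
  apply hprod
  intro m _
  rw [norm_pow, hprod ℕ (bad P.r m p) (fun v => cv P.r m p v)
    (fun v hv => norm_cv (p := p) P.r m v (Finset.mem_filter.1 hv).2), one_pow]

lemma norm_fact : padicNorm p ((((p - 1).factorial : ℕ) : ℚ)) = 1 := by
  rw [padicNorm.nat_eq_one_iff]
  intro h
  rw [hp.out.dvd_factorial] at h
  have := hp.out.pos
  omega

lemma norm_wv (P : Par) : padicNorm p (wv P p) = 1 := by
  unfold wv
  rw [padicNorm.div, norm_pow, norm_WW, norm_fact, one_pow, div_one]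

lemma const_eq (P : Par) (l : ℕ) :
    cst P p * p * ((p : ℚ) ^ 2) ^ l * (p : ℚ) ^ (P.Z + 2 * P.κ * P.B) * WW P p *
      (((p : ℚ)⁻¹) ^ P.A * ((((p - 1).factorial : ℕ) : ℚ)⁻¹) ^ P.a) =
    wv P p * (p : ℚ) ^ (P.E l + P.A) := by
  have hp0 : (p : ℚ) ≠ 0 := by exact_mod_cast hp.out.ne_zero
  have hf0 : ((((p - 1).factorial : ℕ) : ℚ)) ≠ 0 := by exact_mod_cast Nat.factorial_ne_zero _
  have hfac : ((p.factorial : ℕ) : ℚ) = p * (((p - 1).factorial : ℕ) : ℚ) := by
    have := Nat.mul_factorial_pred hp.out.ne_zero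
    rw [← this]; push_cast; ring
  have hE : P.E l + P.A = ((1 + 2 * l + 2 * P.κ * P.B : ℕ) : ℤ) - ((P.g : ℕ) : ℤ) := by
    unfold Par.E Par.A
    push_cast
    ring
  rw [hE, zpow_sub₀ hp0, zpow_natCast, zpow_natCast]
  unfold cst wv Par.A
  rw [hfac]
  set f := (((p - 1).factorial : ℕ) : ℚ)
  set W := WW P p
  rw [inv_pow, inv_pow, mul_pow, mul_pow, ← pow_mul]
  field_simp
  ring

theorem main_id (P : Par) (j1 : ℕ) (hj : j1 ≤ 1) (l : ℕ) :
    PowerSeries.rescale (p : ℚ) (TS (-((p * j1 : ℕ) : ℚ)) (NP P p l) *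
      VV ((Finset.range (p + 1)).erase (p * j1)) (mu P p) (-((p * j1 : ℕ) : ℚ))) =
    PowerSeries.C (wv P p * (p : ℚ) ^ (P.E l + P.A)) *
      ((TS (-(j1 : ℚ)) (NP P 1 l) * VV ((Finset.range (1 + 1)).erase j1) (mu P 1) (-(j1 : ℚ))) *
        (TS (-(j1 : ℚ)) (Phi P p) * Psi2 P p j1)) := by
  rw [map_mul, VV_rescale P j1 hj]
  have h1 : (-((p * j1 : ℕ) : ℚ)) = (p : ℚ) * (-(j1 : ℚ)) := by push_cast; ring
  rw [h1, rescale_TS, NP_comp, map_mul, map_mul, TS_C, ← const_eq]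
  simp only [map_mul]
  ring

/-- integrality of the series for `n = 1` -/
lemma PB_one (P : Par) (j1 : ℕ) (hj : j1 ≤ 1) (l : ℕ) :
    PB p 1 1 (TS (-(j1 : ℚ)) (NP P 1 l) * VV ((Finset.range (1 + 1)).erase j1) (mu P 1) (-(j1 : ℚ))) := by
  have hint : ∀ z : ℤ, padicNorm p (z : ℚ) ≤ 1 := fun z => padicNorm.of_int z
  have hlin : ∀ u a : ℤ, PB p 1 1 (TS (-(j1 : ℚ)) (C (u : ℚ) * X + C (a : ℚ))) := by
    intro u a
    rw [map_add, map_mul, TS_C, TS_C, TS_X, mul_add, add_assoc, ← map_mul, ← map_add]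
    apply PB.lin zero_le_one zero_le_one
    · have : ((u : ℚ) * -(j1 : ℚ) + a) = ((u * -(j1 : ℤ) + a : ℤ) : ℚ) := by push_cast; ring
      rw [this]
      exact hint _
    · simpa using hint u
  have hlin1 : ∀ a : ℤ, PB p 1 1 (TS (-(j1 : ℚ)) (X + C (a : ℚ))) := by
    intro a
    have := hlin 1 a
    simpa using this
  have h1 : PB p 1 1 (TS (-(j1 : ℚ)) (NP P 1 l)) := by
    unfold NP
    rw [cst_one, map_mul, map_mul, map_mul, map_pow, map_mul, map_one, map_one, one_mul, map_prod]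
    have ha : PB p 1 1 (TS (-(j1 : ℚ)) (C 2 * X + C ((1 : ℕ) : ℚ))) := by
      have := hlin 2 1
      simpa using this
    have hb : PB p 1 1 (TS (-(j1 : ℚ)) X) := by
      have := hlin1 0
      simpa using this
    have hc : PB p 1 1 (TS (-(j1 : ℚ)) (X + C ((1 : ℕ) : ℚ))) := by
      have := hlin1 1
      simpa using this
    have hbc := PB.mul (p := p) (ρ := 1) zero_le_one zero_le_one zero_le_one hb hc
    rw [one_mul] at hbc
    have hbcl := PB.pow (p := p) (ρ := 1) zero_le_one zero_le_one hbc l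
    rw [one_pow] at hbcl
    have habc := PB.mul (p := p) (ρ := 1) zero_le_one zero_le_one zero_le_one ha hbcl
    rw [one_mul] at habc
    have hd : PB p 1 1 (∏ m ∈ Finset.Icc 1 P.B, TS (-(j1 : ℚ)) (PM P.r m 1 ^ (2 * P.κ))) := by
      have := PB.prod (p := p) (ρ := 1) (Finset.Icc 1 P.B) (fun _ => (1 : ℚ))
        (fun m => TS (-(j1 : ℚ)) (PM P.r m 1 ^ (2 * P.κ))) zero_le_one (fun _ _ => zero_le_one) (by
          intro m _
          rw [map_pow]
          have h2 : PB p 1 1 (TS (-(j1 : ℚ)) (PM P.r m 1)) := by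
            unfold PM
            rw [map_prod]
            have := PB.prod (p := p) (ρ := 1) (Finset.range ((2 * P.r + 1) * 1 * m + 1))
              (fun _ => (1 : ℚ)) (fun v => TS (-(j1 : ℚ)) (C (m : ℚ) * X +
                C ((((P.r + 1) * 1 * m : ℕ) : ℚ) - (v : ℚ)))) zero_le_one (fun _ _ => zero_le_one) (by
                intro v _
                have := hlin m ((((P.r + 1) * 1 * m : ℕ) : ℤ) - (v : ℤ))
                simpa using this)
            simpa using this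
          have := PB.pow (p := p) (ρ := 1) zero_le_one zero_le_one h2 (2 * P.κ)
          simpa using this)
      simpa using this
    have := PB.mul (p := p) (ρ := 1) zero_le_one zero_le_one zero_le_one habc hd
    simpa using this
  have h2 : PB p 1 1 (VV ((Finset.range (1 + 1)).erase j1) (mu P 1) (-(j1 : ℚ))) := by
    have h2 : (Finset.range (1 + 1)).erase j1 = {1 - j1} := by
      interval_cases j1 <;> decide
    unfold VV
    rw [h2, Finset.prod_singleton]
    have h3 : PB p 1 1 (iv (-(j1 : ℚ) + ((1 - j1 : ℕ) : ℚ))) := by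
      apply PB.iv
      · interval_cases j1 <;> simp
      · interval_cases j1 <;> simp
      · interval_cases j1 <;> simp
    have := PB.pow (p := p) (ρ := 1) zero_le_one zero_le_one h3 (mu P 1 (1 - j1))
    simpa using this
  have := PB.mul (p := p) (ρ := 1) zero_le_one zero_le_one zero_le_one h1 h2
  simpa using this

theorem pc_lift (P : Par) (j1 : ℕ) (hj : j1 ≤ 1) (l i : ℕ) :
    padicNorm p (pc P p l (p * j1) i / (wv P p * (p : ℚ) ^ (P.E l + i)) - pc P 1 l j1 i) ≤ (p : ℚ)⁻¹ := by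
  have hp0 : (p : ℚ) ≠ 0 := by exact_mod_cast hp.out.ne_zero
  have hw0 : wv P p ≠ 0 := by
    intro h
    have := norm_wv (p := p) P
    rw [h] at this
    simp at this
  have hmu : mu P p (p * j1) = P.A := by
    unfold mu Par.A
    interval_cases j1 <;> simp
  have hmu1 : mu P 1 j1 = P.A := by
    unfold mu Par.A
    interval_cases j1 <;> simp
  unfold pc pa
  rw [hmu, hmu1]
  split_ifs with hi
  · unfold pfc
    have h1 := congrArg (PowerSeries.coeff (P.A - i)) (main_id (p := p) P j1 hj l)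
    rw [PowerSeries.coeff_rescale, PowerSeries.coeff_C_mul] at h1
    set F := TS (-((p * j1 : ℕ) : ℚ)) (NP P p l) *
      VV ((Finset.range (p + 1)).erase (p * j1)) (mu P p) (-((p * j1 : ℕ) : ℚ)) with hF
    set f1 := TS (-(j1 : ℚ)) (NP P 1 l) * VV ((Finset.range (1 + 1)).erase j1) (mu P 1) (-(j1 : ℚ)) with hf1
    set Ps := TS (-(j1 : ℚ)) (Phi P p) * Psi2 P p j1 with hPs
    have hU : U p Ps := U_mul (U_TS_Phi P j1) (U_Psi2 P j1)
    have hf : PB p 1 1 f1 := PB_one P j1 hj l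
    have h2 : PB p 1 ((p : ℚ)⁻¹) (f1 * (Ps - 1)) := by
      have := PB.mul (p := p) (ρ := 1) zero_le_one zero_le_one p_inv_nonneg hf hU
      simpa using this
    have h3 : PowerSeries.coeff (P.A - i) F / (wv P p * (p : ℚ) ^ (P.E l + i)) =
        PowerSeries.coeff (P.A - i) (f1 * Ps) := by
      have h4 : (p : ℚ) ^ (P.E l + P.A) = (p : ℚ) ^ (P.E l + i) * (p : ℚ) ^ (P.A - i) := by
        rw [← zpow_natCast (p : ℚ) (P.A - i), ← zpow_add₀ hp0]
        congr 1
        omega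
      rw [h4] at h1
      have h5 : (p : ℚ) ^ (P.A - i) ≠ 0 := pow_ne_zero _ hp0
      have h6 : (p : ℚ) ^ (P.E l + i) ≠ 0 := zpow_ne_zero _ hp0
      rw [div_eq_iff (mul_ne_zero hw0 h6)]
      apply mul_left_cancel₀ h5
      rw [h1]
      ring
    rw [h3, ← map_sub]
    have h7 : f1 * Ps - f1 = f1 * (Ps - 1) := by ring
    rw [h7]
    have := h2 (P.A - i)
    simpa using this
  · simp

end T8a

/-- the poles at `0` and `-p` -/
theorem pc_end (P : Par) (h : P.OK) : ∃ p0 : ℕ, ∀ p : ℕ, p.Prime → p0 ≤ p → ∃ w : ℚ, w ≠ 0 ∧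
    padicNorm p w = 1 ∧
    ∀ l i : ℕ, l ≤ P.L → 1 ≤ i →
      padicNorm p (pc P p l 0 i / (w * (p : ℚ) ^ (P.E l + i)) - pc P 1 l 0 i) ≤ (p : ℚ)⁻¹ ∧
      padicNorm p (pc P p l p i / (w * (p : ℚ) ^ (P.E l + i)) - pc P 1 l 1 i) ≤ (p : ℚ)⁻¹ := by
  refine ⟨0, fun p hp _ => ?_⟩
  have : Fact p.Prime := ⟨hp⟩
  have hn := T8a.norm_wv (p := p) P
  refine ⟨T8a.wv P p, ?_, hn, fun l i _ _ => ⟨?_, ?_⟩⟩
  · intro h0
    rw [h0] at hn
    simp at hn
  · have := T8a.pc_lift (p := p) P 0 (by norm_num) l i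
    simpa using this
  · have := T8a.pc_lift (p := p) P 1 le_rfl l i
    simpa using this

end

end Pool.Agent.H513R2.OZ
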