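import Pool.Agent.H513R2.OZ.Defs

/-!
# `p`-adic size of the partial fraction coefficients at the middle poles, `n = p`
-/

open Polynomial

namespace Pool.Agent.H513R2.OZ

open Pool.Agent.H337R2

noncomputable section

lemma norm_int_le_one {p : ℕ} [Fact p.Prime] (z : ℤ) : padicNorm p (z : ℚ) ≤ 1 :=
  padicNorm.of_int z

lemma norm_fact_prime (p : ℕ) [hp : Fact p.Prime] : padicNorm p ((p.factorial : ℕ) : ℚ) = (p : ℚ)⁻¹ := by
  have h1 : p.factorial = p * (p - 1).factorial := (Nat.mul_factorial_pred hp.out.ne_zero).symm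
  rw [h1, Nat.cast_mul, padicNorm.mul, padicNorm.padicNorm_p_of_prime]
  have h2 : padicNorm p (((p - 1).factorial : ℕ) : ℚ) = 1 := by
    rw [padicNorm.nat_eq_one_iff]
    rw [hp.out.dvd_factorial]
    have := hp.out.pos
    omega
  rw [h2, mul_one]

lemma norm_pow {p : ℕ} [Fact p.Prime] (x : ℚ) (n : ℕ) : padicNorm p (x ^ n) = padicNorm p x ^ n := by
  induction n with
  | zero => simp
  | succ n ih => rw [pow_succ, pow_succ, padicNorm.mul, ih]

/-- the numbers `v < N p` with `p ∣ c - v` -/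
lemma card_block (p N : ℕ) (hp : 1 ≤ p) (c : ℤ) :
    ∃ T : Finset ℕ, T ⊆ Finset.range (N * p + 1) ∧ T.card = N ∧ ∀ v ∈ T, (p : ℤ) ∣ c - v := by
  have hp0 : (0 : ℤ) < p := by exact_mod_cast hp
  obtain ⟨v0, hv0⟩ : ∃ v0 : ℕ, (v0 : ℤ) = c % p :=
    ⟨(c % p).toNat, Int.toNat_of_nonneg (Int.emod_nonneg _ hp0.ne')⟩
  have hv1 : (v0 : ℤ) < p := by rw [hv0]; exact Int.emod_lt_of_pos _ hp0
  refine ⟨(Finset.range N).image (fun t => t * p + v0), ?_, ?_, ?_⟩
  · intro v hv
    rw [Finset.mem_image] at hv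
    obtain ⟨t, ht, rfl⟩ := hv
    rw [Finset.mem_range] at ht ⊢
    have h1 : v0 < p := by exact_mod_cast hv1
    have h2 : (t + 1) * p ≤ N * p := Nat.mul_le_mul_right _ ht
    have h3 : (t + 1) * p = t * p + p := by ring
    omega
  · rw [Finset.card_image_of_injective, Finset.card_range]
    intro t1 t2 h
    simp only [Nat.add_right_cancel_iff] at h
    exact Nat.eq_of_mul_eq_mul_right (by omega) h
  · intro v hv
    rw [Finset.mem_image] at hv
    obtain ⟨t, _, rfl⟩ := hv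
    push_cast
    rw [hv0]
    have h1 : c - (t * p + c % p) = p * (c / p - t) := by
      have := Int.emod_add_mul_ediv c p
      linarith
    rw [h1]
    exact Dvd.intro _ rfl

lemma PB_PM {p : ℕ} [hp : Fact p.Prime] (r m j : ℕ) :
    PB p p ((p : ℚ)⁻¹ ^ ((2 * r + 1) * m)) (TS (-(j : ℚ)) (PM r m p)) := by
  have hp1 : 1 ≤ p := hp.out.pos
  have hpq : (1 : ℚ) ≤ p := by exact_mod_cast hp1
  have hp0 : (0 : ℚ) < p := by linarith
  have hpi : (p : ℚ)⁻¹ ≤ 1 := inv_le_one_of_one_le₀ hpq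
  set c : ℤ := -(m : ℤ) * j + (r + 1) * p * m with hc
  obtain ⟨T, hT1, hT2, hT3⟩ := card_block p ((2 * r + 1) * m) hp1 c
  have hrange : (2 * r + 1) * p * m + 1 = (2 * r + 1) * m * p + 1 := by ring
  unfold PM
  rw [map_prod, hrange]
  classical
  have h1 := PB.prod (p := p) (ρ := p) (Finset.range ((2 * r + 1) * m * p + 1))
    (fun v => if v ∈ T then (p : ℚ)⁻¹ else 1)
    (fun v => TS (-(j : ℚ)) (C (m : ℚ) * X + C ((((r + 1) * p * m : ℕ) : ℚ) - (v : ℚ)))) hp0.le
    (fun v _ => by split_ifs <;> positivity) (by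
      intro v _
      have h2 : TS (-(j : ℚ)) (C (m : ℚ) * X + C ((((r + 1) * p * m : ℕ) : ℚ) - (v : ℚ)))
          = PowerSeries.C (m : ℚ) * PowerSeries.X + PowerSeries.C (((c - v : ℤ) : ℚ)) := by
        rw [map_add, map_mul, TS_X, TS_C, TS_C, mul_add, add_assoc, ← map_mul, ← map_add]
        congr 2
        rw [hc]
        push_cast
        ring
      rw [h2]
      have hm : padicNorm p (m : ℚ) ≤ 1 := by exact_mod_cast norm_int_le_one (p := p) (m : ℤ)
      split_ifs with hv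
      · apply PB.lin hp0.le (by positivity)
        · obtain ⟨z, hz⟩ := hT3 v hv
          rw [hz]
          push_cast
          rw [padicNorm.mul, padicNorm.padicNorm_p_of_prime]
          have := norm_int_le_one (p := p) z
          calc (p : ℚ)⁻¹ * padicNorm p z ≤ (p : ℚ)⁻¹ * 1 := by gcongr
            _ = _ := mul_one _
        · rw [inv_mul_cancel₀ hp0.ne']; exact hm
      · apply PB.lin hp0.le zero_le_one (norm_int_le_one _)
        rw [one_mul]; exact hm.trans hpq)
  refine PB.mono hp0.le h1 ?_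
  rw [Finset.prod_ite_mem, Finset.inter_eq_right.2 hT1, Finset.prod_const, hT2]

/-- the other poles -/
theorem pc_mid (P : Par) (h : P.OK) : ∃ p0 : ℕ, ∀ p : ℕ, p.Prime → p0 ≤ p →
    ∀ l i j : ℕ, 1 ≤ j → j < p → 1 ≤ i → padicNorm p (pc P p l j i) ≤ ((p : ℚ) ^ i)⁻¹ := by
  refine ⟨0, fun p hp _ l i j hj1 hjp hi => ?_⟩
  haveI : Fact p.Prime := ⟨hp⟩
  have hp1 : 1 ≤ p := hp.pos
  have hpq : (1 : ℚ) ≤ p := by exact_mod_cast hp1
  have hp0 : (0 : ℚ) < p := by linarith
  have hmu : mu P p j = P.a := by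
    unfold mu
    rw [if_neg (by omega)]
  unfold pc pa
  rw [hmu]
  split_ifs with hia
  swap
  · rw [padicNorm.zero]; positivity
  -- bound on the numerator
  have hcst : padicNorm p (cst P p) = (p : ℚ)⁻¹ ^ P.a / (p : ℚ)⁻¹ ^ P.Z := by
    unfold cst
    rw [padicNorm.div, norm_pow, norm_pow, norm_fact_prime]
  have h1 : PB p p ((p : ℚ)⁻¹ ^ P.a / (p : ℚ)⁻¹ ^ P.Z) (TS (-(j : ℚ)) (C (cst P p))) := by
    rw [TS_C]
    exact PB.C hp0.le (by positivity) hcst.le
  have h2 : PB p p 1 (TS (-(j : ℚ)) (C 2 * X + C (p : ℚ))) := by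
    have e : TS (-(j : ℚ)) (C 2 * X + C (p : ℚ))
        = PowerSeries.C ((2 : ℤ) : ℚ) * PowerSeries.X + PowerSeries.C (((-2 * j + p : ℤ)) : ℚ) := by
      rw [map_add, map_mul, TS_X, TS_C, TS_C, mul_add, add_assoc, ← map_mul, ← map_add]
      congr 2
      push_cast
      ring
    rw [e]
    apply PB.lin hp0.le zero_le_one (norm_int_le_one _)
    rw [one_mul]
    exact (norm_int_le_one _).trans hpq
  have h3 : PB p p 1 (TS (-(j : ℚ)) (X * (X + C (p : ℚ)))) := by
    rw [map_mul, TS_X, TS_lin]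
    have := PB.mul (p := p) (A := 1) (B := 1) (ρ := p)
      (f := PowerSeries.X + PowerSeries.C (-(j : ℚ))) (g := PowerSeries.X + PowerSeries.C (-(j : ℚ) + p))
      hp0.le zero_le_one zero_le_one
      (PB.linX hp0.le zero_le_one (by exact_mod_cast norm_int_le_one (p := p) (-(j : ℤ))) (by simpa using hpq))
      (PB.linX hp0.le zero_le_one (by exact_mod_cast norm_int_le_one (p := p) (-(j : ℤ) + p)) (by simpa using hpq))
    simpa using this
  have h4 : PB p p (∏ m ∈ Finset.Icc 1 P.B, ((p : ℚ)⁻¹ ^ ((2 * P.r + 1) * m)) ^ (2 * P.κ))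
      (TS (-(j : ℚ)) (∏ m ∈ Finset.Icc 1 P.B, (PM P.r m p) ^ (2 * P.κ))) := by
    rw [map_prod]
    apply PB.prod _ _ _ hp0.le (fun m _ => by positivity)
    intro m _
    rw [map_pow]
    exact PB.pow hp0.le (by positivity) (PB_PM P.r m j) _
  have h5 : (∏ m ∈ Finset.Icc 1 P.B, ((p : ℚ)⁻¹ ^ ((2 * P.r + 1) * m)) ^ (2 * P.κ)) = (p : ℚ)⁻¹ ^ P.Z := by
    have : ∀ m ∈ Finset.Icc 1 P.B, ((p : ℚ)⁻¹ ^ ((2 * P.r + 1) * m)) ^ (2 * P.κ)
        = (p : ℚ)⁻¹ ^ ((2 * P.r + 1) * m * (2 * P.κ)) := fun m _ => (pow_mul _ _ _).symm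
    rw [Finset.prod_congr rfl this, Finset.prod_pow_eq_pow_sum]
    congr 1
    unfold Par.Z sB
    rw [Finset.mul_sum, Finset.mul_sum]
    apply Finset.sum_congr rfl
    intro m _
    ring
  rw [h5] at h4
  have h6 : PB p p ((p : ℚ)⁻¹ ^ P.a) (TS (-(j : ℚ)) (NP P p l)) := by
    unfold NP
    rw [map_mul, map_mul, map_mul, map_pow]
    have := PB.mul hp0.le (by positivity) (by positivity)
      (PB.mul hp0.le (by positivity) (by positivity) (PB.mul hp0.le (by positivity) zero_le_one h1 h2)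
        (PB.pow hp0.le zero_le_one h3 l)) h4
    refine PB.mono hp0.le this ?_
    rw [mul_one, one_pow, mul_one]
    have : (p : ℚ)⁻¹ ^ P.Z ≠ 0 := by positivity
    rw [div_mul_cancel₀ _ this]
  have h7 := pfc_bound (Finset.range (p + 1)) (mu P p) (NP P p l) j p ((p : ℚ)⁻¹ ^ P.a) (fun _ => 1)
    hp0.le (by positivity) h6 (by
      intro m hm _
      rw [Finset.mem_erase, Finset.mem_range] at hm
      have h8 : padicNorm p ((m : ℚ) - j) = 1 := by
        have h9 : ((m : ℚ) - j) = ((m - j : ℤ) : ℚ) := by push_cast; ring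
        rw [h9, padicNorm.int_eq_one_iff]
        intro hdvd
        obtain ⟨z, hz⟩ := hdvd
        have hz0 : z = 0 := by
          by_contra hz0
          have h10 : (p : ℤ) ≤ |(m : ℤ) - j| := by
            rw [hz, abs_mul]
            have : (1 : ℤ) ≤ |z| := Int.one_le_abs hz0
            calc (p : ℤ) = |(p : ℤ)| * 1 := by simp
              _ ≤ |(p : ℤ)| * |z| := by gcongr
          have h11 : |(m : ℤ) - j| < p := by
            rw [abs_lt]
            constructor <;> omega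
          omega
        rw [hz0, mul_zero] at hz
        omega
      rw [h8]
      refine ⟨by norm_num, by simpa using hpq⟩) (fun _ _ => zero_le_one) (P.a - i)
  refine h7.trans ?_
  simp only [one_pow, Finset.prod_const_one, mul_one]
  have h12 : (p : ℚ) ^ P.a = (p : ℚ) ^ i * (p : ℚ) ^ (P.a - i) := by
    rw [← pow_add]; congr 1; omega
  rw [inv_pow, h12, mul_inv, mul_assoc, inv_mul_cancel₀ (by positivity), mul_one]

end

end Pool.Agent.H513R2.OZ
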