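import Pool.Agent.H513R2.OZ.Defs

/-!
# T5 : arithmetic of the coefficients
-/

open Polynomial Filter Topology

namespace Pool.Agent.H513R2.OZ

open Pool.Agent.H337R2

noncomputable section

theorem rp_spec (p n c : ℕ) [Fact p.Prime] (hc : 1 ≤ c) (hcn : c ≤ n) :
    (padicNorm p (c : ℚ))⁻¹ ≤ rp p n := by
  unfold rp
  have hdvd : c ∣ dl n := by
    unfold dl
    exact Finset.dvd_lcm (f := id) (Finset.mem_Icc.2 ⟨hc, hcn⟩)
  have hdl : dl n ≠ 0 := by
    unfold dl
    rw [Ne, Finset.lcm_eq_zero_iff]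
    simp
  obtain ⟨k, hk⟩ := hdvd
  have hc0 : (c : ℚ) ≠ 0 := by exact_mod_cast (by omega : c ≠ 0)
  have hd0 : (dl n : ℚ) ≠ 0 := by exact_mod_cast hdl
  have h1 : 0 < padicNorm p (dl n : ℚ) :=
    lt_of_le_of_ne (padicNorm.nonneg _) (Ne.symm (padicNorm.nonzero hd0))
  apply inv_anti₀ h1
  rw [hk, Nat.cast_mul, padicNorm.mul]
  have h2 : padicNorm p (k : ℚ) ≤ 1 := padicNorm.of_nat k
  have h3 : 0 ≤ padicNorm p (c : ℚ) := padicNorm.nonneg _
  nlinarith

namespace T5

variable {p : ℕ} [hp : Fact p.Prime]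

lemma PB.add {ρ A : ℚ} {f g : PowerSeries ℚ} (hf : PB p ρ A f) (hg : PB p ρ A g) :
    PB p ρ A (f + g) := by
  intro j
  rw [map_add]
  exact padicNorm.nonarchimedean.trans (max_le (hf j) (hg j))

lemma PB.sub {ρ A : ℚ} {f g : PowerSeries ℚ} (hf : PB p ρ A f) (hg : PB p ρ A g) :
    PB p ρ A (f - g) := by
  intro j
  rw [map_sub]
  exact padicNorm.sub.trans (max_le (hf j) (hg j))

/-- a block of consecutive linear factors divided by the factorial -/
def Rb (u c : ℤ) (n : ℕ) : PowerSeries ℚ :=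
  PowerSeries.C (1 / (n.factorial : ℚ)) *
    ∏ w ∈ Finset.range n, (PowerSeries.C (u : ℚ) * PowerSeries.X + PowerSeries.C ((c : ℚ) + (w : ℚ)))

lemma Rb_rec (u c : ℤ) (n : ℕ) : Rb u (c + 1) (n + 1) = Rb u c (n + 1) + Rb u (c + 1) n := by
  unfold Rb
  have hf : ((n + 1).factorial : ℚ) = ((n : ℚ) + 1) * (n.factorial : ℚ) := by
    rw [Nat.factorial_succ]; push_cast; ring
  have hn : (n.factorial : ℚ) ≠ 0 := by exact_mod_cast n.factorial_ne_zero
  have hn1 : (n : ℚ) + 1 ≠ 0 := by positivity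
  rw [Finset.prod_range_succ, Finset.prod_range_succ']
  have h1 : ∏ k ∈ Finset.range n, (PowerSeries.C (u : ℚ) * PowerSeries.X +
      PowerSeries.C ((c : ℚ) + ((k + 1 : ℕ) : ℚ))) =
      ∏ w ∈ Finset.range n, (PowerSeries.C (u : ℚ) * PowerSeries.X +
        PowerSeries.C (((c + 1 : ℤ) : ℚ) + (w : ℚ))) := by
    apply Finset.prod_congr rfl
    intro k _
    congr 2
    push_cast
    ring
  rw [h1]
  set Q := ∏ w ∈ Finset.range n, (PowerSeries.C (u : ℚ) * PowerSeries.X +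
        PowerSeries.C (((c + 1 : ℤ) : ℚ) + (w : ℚ))) with hQ
  have h2 : PowerSeries.C (1 / (n.factorial : ℚ)) = PowerSeries.C (1 / ((n + 1).factorial : ℚ)) *
      PowerSeries.C ((n : ℚ) + 1) := by
    rw [← map_mul, hf]
    congr 1
    field_simp
  rw [h2]
  have h3 : (PowerSeries.C (((c + 1 : ℤ) : ℚ) + (n : ℚ)) : PowerSeries ℚ) =
      PowerSeries.C ((c : ℚ) + ((0 : ℕ) : ℚ)) + PowerSeries.C ((n : ℚ) + 1) := by
    rw [← map_add]
    congr 1
    push_cast
    ring
  rw [h3]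
  ring

lemma Rb_zero (u c : ℤ) : Rb u c 0 = 1 := by
  simp [Rb]

lemma Rb_base (u : ℤ) (n : ℕ) : Rb u 0 (n + 1) =
    (PowerSeries.C ((u : ℚ) / ((n : ℚ) + 1)) * PowerSeries.X + PowerSeries.C 0) *
      ∏ w ∈ Finset.range n, (PowerSeries.C ((u : ℚ) / ((w : ℚ) + 1)) * PowerSeries.X +
        PowerSeries.C 1) := by
  unfold Rb
  rw [Finset.prod_range_succ']
  have h1 : ∀ w ∈ Finset.range n, (PowerSeries.C ((u : ℚ) / ((w : ℚ) + 1)) * PowerSeries.X +
        PowerSeries.C 1 : PowerSeries ℚ) = PowerSeries.C (1 / ((w : ℚ) + 1)) *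
        (PowerSeries.C (u : ℚ) * PowerSeries.X + PowerSeries.C (((0 : ℤ) : ℚ) + ((w + 1 : ℕ) : ℚ))) := by
    intro w _
    have hw : (w : ℚ) + 1 ≠ 0 := by positivity
    rw [mul_add, ← mul_assoc, ← map_mul, ← map_mul]
    congr 3
    · field_simp
    · push_cast
      field_simp
      simp
  rw [Finset.prod_congr rfl h1, Finset.prod_mul_distrib, ← map_prod]
  have h2 : ∏ w ∈ Finset.range n, (1 / ((w : ℚ) + 1)) = 1 / (n.factorial : ℚ) := by
    rw [Finset.prod_div_distrib, Finset.prod_const_one, ← Finset.prod_range_add_one_eq_factorial]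
    push_cast
    rfl
  rw [h2]
  have hf : ((n + 1).factorial : ℚ) = ((n : ℚ) + 1) * (n.factorial : ℚ) := by
    rw [Nat.factorial_succ]; push_cast; ring
  have hn : (n.factorial : ℚ) ≠ 0 := by exact_mod_cast n.factorial_ne_zero
  have hn1 : (n : ℚ) + 1 ≠ 0 := by positivity
  have h3 : (PowerSeries.C (1 / ((n + 1).factorial : ℚ)) : PowerSeries ℚ) =
      PowerSeries.C (1 / ((n : ℚ) + 1)) * PowerSeries.C (1 / (n.factorial : ℚ)) := by
    rw [← map_mul, hf]
    congr 1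
    field_simp
  have h4 : (PowerSeries.C ((u : ℚ) / ((n : ℚ) + 1)) : PowerSeries ℚ) =
      PowerSeries.C (1 / ((n : ℚ) + 1)) * PowerSeries.C (u : ℚ) := by
    rw [← map_mul]
    congr 1
    field_simp
  rw [h3, h4]
  simp only [Int.cast_zero, Nat.cast_zero, add_zero, map_zero]
  ring

lemma Rb_pb (u : ℤ) (ρ : ℚ) (N : ℕ) (hρ1 : 1 ≤ ρ)
    (hρ : ∀ i : ℕ, 1 ≤ i → i ≤ N → (padicNorm p (i : ℚ))⁻¹ ≤ ρ) :
    ∀ n : ℕ, n ≤ N → ∀ c : ℤ, PB p ρ 1 (Rb u c n) := by
  have hρ0 : 0 ≤ ρ := by linarith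
  have hlin : ∀ w : ℕ, w + 1 ≤ N → padicNorm p ((u : ℚ) / ((w : ℚ) + 1)) ≤ 1 * ρ := by
    intro w hw
    rw [one_mul, padicNorm.div, div_eq_mul_inv]
    have h1 := hρ (w + 1) (by omega) hw
    push_cast at h1
    have h2 : padicNorm p (u : ℚ) ≤ 1 := padicNorm.of_int u
    have h3 : 0 ≤ padicNorm p (u : ℚ) := padicNorm.nonneg _
    have h4 : 0 ≤ (padicNorm p ((w : ℚ) + 1))⁻¹ := inv_nonneg.2 (padicNorm.nonneg _)
    nlinarith
  intro n
  induction n with
  | zero =>
    intro _ c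
    rw [Rb_zero]
    exact PB.one hρ0
  | succ n ih =>
    intro hn
    have ih := ih (by omega)
    have base : PB p ρ 1 (Rb u 0 (n + 1)) := by
      rw [Rb_base]
      have h1 : PB p ρ (1 * ∏ w ∈ Finset.range n, (1 : ℚ))
          ((PowerSeries.C ((u : ℚ) / ((n : ℚ) + 1)) * PowerSeries.X + PowerSeries.C 0) *
          ∏ w ∈ Finset.range n, (PowerSeries.C ((u : ℚ) / ((w : ℚ) + 1)) * PowerSeries.X +
            PowerSeries.C 1)) := by
        apply PB.mul hρ0 zero_le_one (by simp)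
        · exact PB.lin hρ0 zero_le_one (by simp) (hlin n hn)
        · apply PB.prod _ _ _ hρ0 (fun _ _ => zero_le_one)
          intro w hw
          rw [Finset.mem_range] at hw
          exact PB.lin hρ0 zero_le_one (by simp) (hlin w (by omega))
      simpa using h1
    intro c
    induction c using Int.induction_on with
    | zero => exact base
    | succ i hi =>
      rw [Rb_rec]
      exact PB.add hi (ih _)
    | pred i hi =>
      have h := Rb_rec u (-(i : ℤ) - 1) n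
      rw [show (-(i : ℤ) - 1 + 1) = -(i : ℤ) by ring] at h
      have h2 : Rb u (-(i : ℤ) - 1) (n + 1) = Rb u (-(i : ℤ)) (n + 1) - Rb u (-(i : ℤ)) n := by
        rw [h]; ring
      rw [h2]
      exact PB.sub hi (ih _)

/-- many blocks -/
lemma blocks (u c : ℤ) (ρ : ℚ) (n : ℕ) (hρ1 : 1 ≤ ρ)
    (hρ : ∀ i : ℕ, 1 ≤ i → i ≤ n → (padicNorm p (i : ℚ))⁻¹ ≤ ρ) (q : ℕ) :
    PB p ρ 1 (PowerSeries.C ((1 / (n.factorial : ℚ)) ^ q) * ∏ v ∈ Finset.range (n * q + 1),
      (PowerSeries.C (u : ℚ) * PowerSeries.X + PowerSeries.C ((c : ℚ) + (v : ℚ)))) := by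
  have hρ0 : 0 ≤ ρ := by linarith
  have h1 : ∀ q : ℕ, PB p ρ 1 (PowerSeries.C ((1 / (n.factorial : ℚ)) ^ q) * ∏ v ∈ Finset.range (n * q),
      (PowerSeries.C (u : ℚ) * PowerSeries.X + PowerSeries.C ((c : ℚ) + (v : ℚ)))) := by
    intro q
    induction q with
    | zero => simpa using PB.one hρ0
    | succ q ih =>
      have h2 : PB p ρ (1 * 1) ((PowerSeries.C ((1 / (n.factorial : ℚ)) ^ q) *
          ∏ v ∈ Finset.range (n * q),
          (PowerSeries.C (u : ℚ) * PowerSeries.X + PowerSeries.C ((c : ℚ) + (v : ℚ)))) *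
          Rb u (c + (n * q : ℕ)) n) :=
        PB.mul hρ0 zero_le_one zero_le_one ih (Rb_pb u ρ n hρ1 hρ n le_rfl _)
      rw [one_mul] at h2
      convert h2 using 1
      rw [Nat.mul_succ, Finset.prod_range_add]
      unfold Rb
      have h3 : ∏ x ∈ Finset.range n, (PowerSeries.C (u : ℚ) * PowerSeries.X +
          PowerSeries.C ((c : ℚ) + ((n * q + x : ℕ) : ℚ))) =
          ∏ w ∈ Finset.range n, (PowerSeries.C (u : ℚ) * PowerSeries.X +
            PowerSeries.C (((c + (n * q : ℕ) : ℤ) : ℚ) + (w : ℚ))) := by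
        apply Finset.prod_congr rfl
        intro x _
        congr 2
        push_cast
        ring
      rw [h3, pow_succ, map_mul]
      ring
  rw [Finset.prod_range_succ, ← mul_assoc]
  have h4 : PB p ρ (1 * 1) ((PowerSeries.C ((1 / (n.factorial : ℚ)) ^ q) * ∏ v ∈ Finset.range (n * q),
      (PowerSeries.C (u : ℚ) * PowerSeries.X + PowerSeries.C ((c : ℚ) + (v : ℚ)))) *
      (PowerSeries.C (u : ℚ) * PowerSeries.X + PowerSeries.C ((c : ℚ) + ((n * q : ℕ) : ℚ)))) := by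
    apply PB.mul hρ0 zero_le_one zero_le_one (h1 q)
    apply PB.lin hρ0 zero_le_one
    · have := padicNorm.of_int (p := p) (c + (n * q : ℕ))
      push_cast at this
      push_cast
      exact this
    · rw [one_mul]
      exact (padicNorm.of_int u).trans hρ1
  simpa using h4

lemma PM_pb (r m n j : ℕ) (ρ : ℚ) (hρ1 : 1 ≤ ρ)
    (hρ : ∀ i : ℕ, 1 ≤ i → i ≤ n → (padicNorm p (i : ℚ))⁻¹ ≤ ρ) :
    PB p ρ 1 (PowerSeries.C ((1 / (n.factorial : ℚ)) ^ ((2 * r + 1) * m)) *
      TS (-(j : ℚ)) (PM r m n)) := by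
  have h := blocks (p := p) (m : ℤ) (((r + 1) * n * m : ℕ) - (m * j : ℕ) - ((2 * r + 1) * n * m : ℕ)) ρ n
    hρ1 hρ ((2 * r + 1) * m)
  convert h using 2
  unfold PM
  rw [map_prod, show n * ((2 * r + 1) * m) = (2 * r + 1) * n * m by ring,
    ← Finset.prod_range_reflect]
  apply Finset.prod_congr rfl
  intro v hv
  rw [Finset.mem_range] at hv
  rw [map_add, map_mul, TS_C, TS_C, TS_X]
  have h1 : ((2 * r + 1) * n * m + 1 - 1 - v : ℕ) = (2 * r + 1) * n * m - v := by omega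
  rw [h1, Nat.cast_sub (by omega : v ≤ (2 * r + 1) * n * m)]
  rw [mul_add, add_assoc, ← map_mul, ← map_add]
  congr 2
  push_cast
  ring

lemma norm_diff (n : ℕ) {m j : ℕ} (hm : m ≤ n) (hj : j ≤ n) (hmj : m ≠ j) :
    (padicNorm p (-(j : ℚ) + (m : ℚ)))⁻¹ ≤ rp p n := by
  have h1 : (-(j : ℚ) + (m : ℚ)) = (((m : ℤ) - (j : ℤ) : ℤ) : ℚ) := by push_cast; ring
  rcases lt_or_gt_of_ne hmj with h | h
  · have h2 : (-(j : ℚ) + (m : ℚ)) = -((j - m : ℕ) : ℚ) := by
      rw [Nat.cast_sub h.le]; ring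
    rw [h2, padicNorm.neg]
    exact rp_spec p n (j - m) (by omega) (by omega)
  · have h2 : (-(j : ℚ) + (m : ℚ)) = ((m - j : ℕ) : ℚ) := by
      rw [Nat.cast_sub h.le]; ring
    rw [h2]
    exact rp_spec p n (m - j) (by omega) (by omega)

lemma PB_civ {ρ c : ℚ} (hc : c ≠ 0) (hρ : (padicNorm p c)⁻¹ ≤ ρ) :
    PB p ρ 1 (PowerSeries.C c * iv c) := by
  intro j
  have h0 : 0 < padicNorm p c := lt_of_le_of_ne (padicNorm.nonneg _) (Ne.symm (padicNorm.nonzero hc))
  rw [PowerSeries.coeff_C_mul]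
  simp only [iv, PowerSeries.coeff_mk]
  have h1 : c * ((-1) ^ j / c ^ (j + 1)) = (-1) ^ j * (c⁻¹) ^ j := by
    rw [pow_succ, inv_pow]
    field_simp
  rw [h1, padicNorm.mul]
  have h3 : padicNorm p ((-1 : ℚ) ^ j) = 1 := by
    rcases neg_one_pow_eq_or ℚ j with h | h <;> rw [h] <;> simp
  have h4 : padicNorm p ((c⁻¹) ^ j) = ((padicNorm p c)⁻¹) ^ j := by
    induction j with
    | zero => simp
    | succ m ih =>
      have h5 : padicNorm p c⁻¹ = (padicNorm p c)⁻¹ := by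
        rw [← one_div, padicNorm.div, padicNorm.one, one_div]
      rw [pow_succ, pow_succ, padicNorm.mul, ih (by rw [pow_succ, inv_pow]; field_simp) (by
        rcases neg_one_pow_eq_or ℚ m with h | h <;> rw [h] <;> simp), h5]
  rw [h3, h4, one_mul, one_mul]
  exact pow_le_pow_left₀ (inv_nonneg.2 h0.le) hρ j

/-- `n! ∏_{m ≠ j} 1/(m - j)` is an integer up to sign -/
lemma fact_prod (n j : ℕ) (hj : j ≤ n) :
    (n.factorial : ℚ) * ∏ m ∈ (Finset.range (n + 1)).erase j, (-(j : ℚ) + (m : ℚ))⁻¹ =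
      (-1) ^ j * (Nat.choose n j : ℚ) := by
  have h1 : ∏ m ∈ (Finset.range (n + 1)).erase j, (-(j : ℚ) + (m : ℚ)) =
      (-1) ^ j * ((j.factorial : ℚ) * ((n - j).factorial : ℚ)) := by
    have hsplit : (Finset.range (n + 1)).erase j =
        (Finset.range j) ∪ (Finset.Ico (j + 1) (n + 1)) := by
      ext m
      simp only [Finset.mem_erase, Finset.mem_range, Finset.mem_union, Finset.mem_Ico]
      omega
    have hdisj : Disjoint (Finset.range j) (Finset.Ico (j + 1) (n + 1)) := by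
      rw [Finset.disjoint_left]
      intro m hm
      simp only [Finset.mem_range, Finset.mem_Ico] at *
      omega
    rw [hsplit, Finset.prod_union hdisj]
    have e1 : ∏ m ∈ Finset.range j, (-(j : ℚ) + (m : ℚ)) = (-1) ^ j * (j.factorial : ℚ) := by
      rw [← Finset.prod_range_reflect]
      have : ∀ m ∈ Finset.range j, (-(j : ℚ) + ((j - 1 - m : ℕ) : ℚ)) = (-1) * ((m : ℚ) + 1) := by
        intro m hm
        rw [Finset.mem_range] at hm
        have h2 : ((j - 1 - m : ℕ) : ℚ) = (j : ℚ) - 1 - m := by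
          rw [Nat.cast_sub (by omega), Nat.cast_sub (by omega)]; push_cast; ring
        rw [h2]; ring
      rw [Finset.prod_congr rfl this, Finset.prod_mul_distrib, Finset.prod_const, Finset.card_range,
        ← Finset.prod_range_add_one_eq_factorial]
      push_cast
      rfl
    have e2 : ∏ m ∈ Finset.Ico (j + 1) (n + 1), (-(j : ℚ) + (m : ℚ)) = ((n - j).factorial : ℚ) := by
      rw [Finset.prod_Ico_eq_prod_range, show n + 1 - (j + 1) = n - j by omega,
        ← Finset.prod_range_add_one_eq_factorial]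
      push_cast
      apply Finset.prod_congr rfl
      intro m _
      ring
    rw [e1, e2]
    ring
  rw [Finset.prod_inv_distrib, h1, Nat.cast_choose ℚ hj]
  have h2 : (j.factorial : ℚ) ≠ 0 := by exact_mod_cast j.factorial_ne_zero
  have h3 : ((n - j).factorial : ℚ) ≠ 0 := by exact_mod_cast (n - j).factorial_ne_zero
  have h4 : ((-1 : ℚ) ^ j) * (-1) ^ j = 1 := by
    rw [← mul_pow]; simp
  have h5 : ((-1 : ℚ) ^ j) ≠ 0 := by
    intro h; rw [h] at h4; simp at h4
  field_simp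
  linear_combination -h4

lemma VVa_pb (n j : ℕ) (hn : 1 ≤ n) (hj : j ≤ n) :
    PB p (rp p n) 1 (PowerSeries.C (n.factorial : ℚ) *
      ∏ m ∈ (Finset.range (n + 1)).erase j, iv (-(j : ℚ) + (m : ℚ))) := by
  have hρ1 : 1 ≤ rp p n := by simpa using rp_spec p n 1 le_rfl hn
  have hρ0 : 0 ≤ rp p n := by linarith
  have hne : ∀ m ∈ (Finset.range (n + 1)).erase j, (-(j : ℚ) + (m : ℚ)) ≠ 0 := by
    intro m hm h
    apply Finset.ne_of_mem_erase hm
    have : (m : ℚ) = j := by linarith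
    exact_mod_cast this
  have h1 : PowerSeries.C (n.factorial : ℚ) *
      ∏ m ∈ (Finset.range (n + 1)).erase j, iv (-(j : ℚ) + (m : ℚ)) =
      PowerSeries.C ((-1) ^ j * (Nat.choose n j : ℚ)) *
        ∏ m ∈ (Finset.range (n + 1)).erase j, (PowerSeries.C (-(j : ℚ) + (m : ℚ)) *
          iv (-(j : ℚ) + (m : ℚ))) := by
    rw [← fact_prod n j hj, map_mul, map_prod, mul_assoc, ← Finset.prod_mul_distrib]
    congr 1
    apply Finset.prod_congr rfl
    intro m hm
    rw [← mul_assoc, ← map_mul, inv_mul_cancel₀ (hne m hm), map_one, one_mul]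
  rw [h1]
  have h2 : PB p (rp p n) (1 * ∏ m ∈ (Finset.range (n + 1)).erase j, (1 : ℚ))
      (PowerSeries.C ((-1) ^ j * (Nat.choose n j : ℚ)) *
        ∏ m ∈ (Finset.range (n + 1)).erase j, (PowerSeries.C (-(j : ℚ) + (m : ℚ)) *
          iv (-(j : ℚ) + (m : ℚ)))) := by
    apply PB.mul hρ0 zero_le_one (by simp)
    · apply PB.C hρ0 zero_le_one
      rw [padicNorm.mul]
      have h3 : padicNorm p ((-1 : ℚ) ^ j) = 1 := by
        rcases neg_one_pow_eq_or ℚ j with h | h <;> rw [h] <;> simp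
      rw [h3, one_mul]
      exact padicNorm.of_nat _
    · apply PB.prod _ _ _ hρ0 (fun _ _ => zero_le_one)
      intro m hm
      have hm2 := Finset.mem_of_mem_erase hm
      rw [Finset.mem_range] at hm2
      exact PB_civ (hne m hm) (norm_diff n (by omega) hj (Finset.ne_of_mem_erase hm))
  simpa using h2

end T5

open T5

theorem pc_norm (P : Par) (h : P.OK) (p : ℕ) [Fact p.Prime] (n l j i : ℕ) (hn : 1 ≤ n)
    (hj : j ≤ n) (hi : 1 ≤ i) :
    padicNorm p (pc P n l j i) ≤ rp p n ^ (P.A + 2 * P.g) := by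
  have hρ1 : 1 ≤ rp p n := by simpa using rp_spec p n 1 le_rfl hn
  have hρ0 : 0 ≤ rp p n := by linarith
  set ρ := rp p n with hρ
  unfold pc pa
  split_ifs with hmu
  swap
  · rw [padicNorm.zero]; positivity
  unfold pfc
  -- the extra multiplicity
  set ex : ℕ → ℕ := fun m => if m = 0 ∨ m = n then P.g else 0 with hex
  set s := (Finset.range (n + 1)).erase j with hs
  have hmuex : ∀ m, mu P n m = P.a + ex m := by
    intro m
    simp only [mu, hex]
    split_ifs <;> simp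
  have hVV : VV s (mu P n) (-(j : ℚ)) =
      (∏ m ∈ s, iv (-(j : ℚ) + m)) ^ P.a * ∏ m ∈ s, iv (-(j : ℚ) + m) ^ ex m := by
    unfold VV
    rw [← Finset.prod_pow, ← Finset.prod_mul_distrib]
    apply Finset.prod_congr rfl
    intro m _
    rw [hmuex, pow_add]
  have hf0 : (n.factorial : ℚ) ≠ 0 := by exact_mod_cast n.factorial_ne_zero
  have hTS : TS (-(j : ℚ)) (NP P n l) * VV s (mu P n) (-(j : ℚ)) =
      (PowerSeries.C (n.factorial : ℚ) * ∏ m ∈ s, iv (-(j : ℚ) + m)) ^ P.a *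
      (∏ m ∈ Finset.Icc 1 P.B, (PowerSeries.C ((1 / (n.factorial : ℚ)) ^ ((2 * P.r + 1) * m)) *
        TS (-(j : ℚ)) (PM P.r m n)) ^ (2 * P.κ)) *
      (PowerSeries.C 2 * PowerSeries.X + PowerSeries.C ((n : ℚ) - 2 * j)) *
      ((PowerSeries.X + PowerSeries.C (-(j : ℚ))) * (PowerSeries.X + PowerSeries.C (-(j : ℚ) + n))) ^ l *
      ∏ m ∈ s, iv (-(j : ℚ) + m) ^ ex m := by
    rw [hVV]
    unfold NP cst
    have e1 : (PowerSeries.C ((n.factorial : ℚ) ^ P.a / (n.factorial : ℚ) ^ P.Z) : PowerSeries ℚ) =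
        (PowerSeries.C (n.factorial : ℚ)) ^ P.a *
        ∏ m ∈ Finset.Icc 1 P.B, (PowerSeries.C ((1 / (n.factorial : ℚ)) ^ ((2 * P.r + 1) * m))) ^ (2 * P.κ) := by
      have e2 : ∀ m ∈ Finset.Icc 1 P.B,
          ((PowerSeries.C ((1 / (n.factorial : ℚ)) ^ ((2 * P.r + 1) * m))) ^ (2 * P.κ) : PowerSeries ℚ) =
          (PowerSeries.C (1 / (n.factorial : ℚ))) ^ ((2 * P.r + 1) * m * (2 * P.κ)) := by
        intro m _
        rw [map_pow, ← pow_mul]
      rw [Finset.prod_congr rfl e2, Finset.prod_pow_eq_pow_sum]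
      have e3 : ∑ m ∈ Finset.Icc 1 P.B, (2 * P.r + 1) * m * (2 * P.κ) = P.Z := by
        unfold Par.Z sB
        rw [Finset.mul_sum, Finset.mul_sum]
        apply Finset.sum_congr rfl
        intro m _
        ring
      rw [e3, ← map_pow, ← map_pow, ← map_mul]
      congr 1
      rw [one_div, inv_pow]
      field_simp
    rw [map_mul, map_mul, map_mul, TS_C, e1, map_add, map_mul, TS_C, TS_C, TS_X, map_pow, map_mul, map_add,
      TS_X, TS_C, map_prod, Finset.prod_congr rfl (fun m _ => mul_pow _ _ _), Finset.prod_mul_distrib]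
    have e4 : (∏ m ∈ Finset.Icc 1 P.B, TS (-(j : ℚ)) (PM P.r m n ^ (2 * P.κ))) =
        ∏ m ∈ Finset.Icc 1 P.B, (TS (-(j : ℚ)) (PM P.r m n)) ^ (2 * P.κ) :=
      Finset.prod_congr rfl fun m _ => by rw [map_pow]
    rw [e4]
    have e5 : (PowerSeries.C ((n : ℚ) - 2 * j) : PowerSeries ℚ) =
        PowerSeries.C 2 * PowerSeries.C (-(j : ℚ)) + PowerSeries.C (n : ℚ) := by
      rw [← map_mul, ← map_add]
      congr 1
      ring
    have e6 : (PowerSeries.C (-(j : ℚ) + n) : PowerSeries ℚ) =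
        PowerSeries.C (-(j : ℚ)) + PowerSeries.C (n : ℚ) := by
      rw [← map_add]
    rw [e5, e6]
    ring
  have hex_sum : ∑ m ∈ s, ex m ≤ 2 * P.g := by
    have h1 : ∑ m ∈ s, ex m ≤ ∑ m ∈ Finset.range (n + 1), ex m := by
      apply Finset.sum_le_sum_of_subset
      exact Finset.erase_subset _ _
    refine h1.trans ?_
    have h2 : ∑ m ∈ Finset.range (n + 1), ex m =
        ∑ m ∈ (Finset.range (n + 1)).filter (fun m => m = 0 ∨ m = n), P.g := by
      rw [Finset.sum_filter]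
    rw [h2, Finset.sum_const, smul_eq_mul]
    apply Nat.mul_le_mul_right
    have h3 : (Finset.range (n + 1)).filter (fun m => m = 0 ∨ m = n) ⊆ {0, n} := by
      intro m hm
      simp only [Finset.mem_filter, Finset.mem_insert, Finset.mem_singleton] at *
      exact hm.2
    exact (Finset.card_le_card h3).trans Finset.card_le_two
  have hall : PB p ρ (1 ^ P.a * (∏ m ∈ Finset.Icc 1 P.B, (1 : ℚ) ^ (2 * P.κ)) * 1 * (1 * 1) ^ l *
      ∏ m ∈ s, ρ ^ ex m) (TS (-(j : ℚ)) (NP P n l) * VV s (mu P n) (-(j : ℚ))) := by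
    rw [hTS]
    have hn0 : 0 ≤ ∏ m ∈ s, ρ ^ ex m := Finset.prod_nonneg fun _ _ => pow_nonneg hρ0 _
    have hρi : ∀ i : ℕ, 1 ≤ i → i ≤ n → (padicNorm p (i : ℚ))⁻¹ ≤ ρ := fun i h1 h2 =>
      rp_spec p n i h1 h2
    have hint : ∀ z : ℤ, padicNorm p (z : ℚ) ≤ 1 := fun z => padicNorm.of_int z
    refine PB.mul hρ0 (by positivity) hn0 (PB.mul hρ0 (by positivity) (by positivity)
      (PB.mul hρ0 (by positivity) zero_le_one (PB.mul hρ0 (by positivity) (by positivity)
        (PB.pow hρ0 zero_le_one (VVa_pb n j hn hj) _) ?_) ?_) (PB.pow hρ0 (by norm_num) (PB.mul hρ0 zero_le_one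
          zero_le_one ?_ ?_) _)) ?_
    · exact PB.prod _ _ _ hρ0 (fun _ _ => by positivity) fun m _ =>
        PB.pow hρ0 zero_le_one (PM_pb P.r m n j ρ hρ1 hρi) _
    · apply PB.lin hρ0 zero_le_one
      · have := hint ((n : ℤ) - 2 * j)
        push_cast at this
        exact this
      · rw [one_mul]
        exact (padicNorm.of_nat 2).trans hρ1
    · apply PB.linX hρ0 zero_le_one
      · have := hint (-(j : ℤ))
        push_cast at this
        exact this
      · rw [one_mul]; exact hρ1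
    · apply PB.linX hρ0 zero_le_one
      · have := hint (-(j : ℤ) + n)
        push_cast at this
        exact this
      · rw [one_mul]; exact hρ1
    · apply PB.prod _ _ _ hρ0 (fun _ _ => pow_nonneg hρ0 _)
      intro m hm
      have hmj := Finset.ne_of_mem_erase hm
      have hm2 := Finset.mem_of_mem_erase hm
      rw [Finset.mem_range] at hm2
      have hne : -(j : ℚ) + m ≠ 0 := by
        intro h
        apply hmj
        have : (m : ℚ) = j := by linarith
        exact_mod_cast this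
      have hd := norm_diff (p := p) n (by omega : m ≤ n) hj hmj
      exact PB.pow hρ0 hρ0 (PB.iv hne hd hd) _
  refine (hall _).trans ?_
  have h1 : (1 ^ P.a * (∏ m ∈ Finset.Icc 1 P.B, (1 : ℚ) ^ (2 * P.κ)) * 1 * (1 * 1) ^ l *
      ∏ m ∈ s, ρ ^ ex m) = ρ ^ (∑ m ∈ s, ex m) := by
    simp only [one_pow, Finset.prod_const_one, mul_one, one_mul]
    rw [Finset.prod_pow_eq_pow_sum]
  rw [h1, ← pow_add]
  apply pow_le_pow_right₀ hρ1
  have h2 : mu P n j ≤ P.A := by
    unfold mu Par.A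
    split_ifs <;> omega
  omega

end

end Pool.Agent.H513R2.OZ
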