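import Pool.Agent.H513R2.OZ.Defs

/-!
# T6: arithmetic of the rational part
-/

open Polynomial

namespace Pool.Agent.H513R2.OZ

open Pool.Agent.H337R2

noncomputable section

namespace R0Norm

lemma dl_ne_zero (n : ℕ) : dl n ≠ 0 := by
  unfold dl
  rw [Ne, Finset.lcm_eq_zero_iff]
  simp

lemma dvd_dl {n c : ℕ} (hc : 1 ≤ c) (hcn : c ≤ n) : c ∣ dl n := by
  exact (Finset.dvd_lcm (f := id) (Finset.mem_Icc.2 ⟨hc, hcn⟩) : id c ∣ (Finset.Icc 1 n).lcm id)

lemma pn_pos (p : ℕ) [Fact p.Prime] {q : ℚ} (h : q ≠ 0) : 0 < padicNorm p q :=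
  lt_of_le_of_ne (padicNorm.nonneg _) (Ne.symm (padicNorm.nonzero h))

lemma rp_spec' (p n c : ℕ) [Fact p.Prime] (hc : 1 ≤ c) (hcn : c ≤ n) :
    (padicNorm p (c : ℚ))⁻¹ ≤ rp p n := by
  unfold rp
  obtain ⟨q, hq⟩ := dvd_dl hc hcn
  have hq0 : (dl n : ℚ) ≠ 0 := by exact_mod_cast dl_ne_zero n
  apply inv_anti₀ (pn_pos p hq0)
  have h1 : (dl n : ℚ) = (c : ℚ) * (q : ℚ) := by rw [hq]; push_cast; ring
  rw [h1, padicNorm.mul]
  have h2 : padicNorm p (q : ℚ) ≤ 1 := padicNorm.of_nat q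
  have h3 : 0 ≤ padicNorm p (c : ℚ) := padicNorm.nonneg _
  nlinarith

lemma one_le_rp (p n : ℕ) [Fact p.Prime] : 1 ≤ rp p n := by
  unfold rp
  have hq0 : (dl n : ℚ) ≠ 0 := by exact_mod_cast dl_ne_zero n
  rw [one_le_inv₀ (pn_pos p hq0)]
  exact padicNorm.of_nat _

/-- the part of the linear form at the pole `-j`, evaluated at `-w/m` -/
def tt (P : Par) (n l k m j w : ℕ) : ℚ :=
  ∑ i ∈ Finset.Icc 1 P.A, (Nat.choose (i - 1 + k) (i - 1) : ℚ) *
    (pc P n l j i * ((m : ℚ) / ((m : ℚ) * j - w)) ^ (i + k))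

lemma pn_pow (p : ℕ) [Fact p.Prime] (q : ℚ) (e : ℕ) :
    padicNorm p (q ^ e) = padicNorm p q ^ e := by
  induction e with
  | zero => simp
  | succ m ih => rw [pow_succ, pow_succ, padicNorm.mul, ih]

lemma tt_bound (P : Par) (p : ℕ) [Fact p.Prime] (n l k m j w : ℕ) (hj : j ≤ n)
    (hpc : ∀ j i, j ≤ n → 1 ≤ i → padicNorm p (pc P n l j i) ≤ rp p n ^ (P.A + 2 * P.g))
    (hx : padicNorm p ((m : ℚ) / ((m : ℚ) * j - w)) ≤ rp p n) :
    padicNorm p (tt P n l k m j w) ≤ rp p n ^ (2 * P.A + 2 * P.g + k) := by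
  have h1 := one_le_rp p n
  unfold tt
  apply padicNorm.sum_le' _ (by positivity)
  intro i hi
  rw [Finset.mem_Icc] at hi
  rw [padicNorm.mul, padicNorm.mul, pn_pow]
  have h2 : padicNorm p (Nat.choose (i - 1 + k) (i - 1) : ℚ) ≤ 1 := padicNorm.of_nat _
  have h3 := hpc j i hj hi.1
  have h4 : padicNorm p ((m : ℚ) / ((m : ℚ) * j - w)) ^ (i + k) ≤ rp p n ^ (P.A + k) :=
    (pow_le_pow_left₀ (padicNorm.nonneg _) hx _).trans (pow_le_pow_right₀ h1 (by omega))
  have h5 : 0 ≤ padicNorm p ((m : ℚ) / ((m : ℚ) * j - w)) ^ (i + k) :=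
    pow_nonneg (padicNorm.nonneg _) _
  calc _ ≤ 1 * (rp p n ^ (P.A + 2 * P.g) * rp p n ^ (P.A + k)) := by
        apply mul_le_mul h2 _ (mul_nonneg (padicNorm.nonneg _) h5) zero_le_one
        exact mul_le_mul h3 h4 h5 (by positivity)
    _ = _ := by rw [one_mul, ← pow_add]; congr 1; ring

lemma hs_reflect (e m j n : ℕ) (hj : j ≤ n) :
    hs e (m * j) = ∑ w ∈ Finset.range (m * n), if w < m * j then 1 / ((m : ℚ) * j - w) ^ e else 0 := by
  unfold hs
  rw [← Finset.sum_range_reflect, ← Finset.sum_filter]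
  apply Finset.sum_congr
  · ext w
    have : m * j ≤ m * n := Nat.mul_le_mul_left m hj
    simp only [Finset.mem_range, Finset.mem_filter]
    omega
  · intro w hw
    rw [Finset.mem_filter] at hw
    have h1 : m * j - 1 - w + 1 = m * j - w := by omega
    have h2 : (((m * j - 1 - w : ℕ) : ℚ) + 1) = (m : ℚ) * j - w := by
      have : (((m * j - 1 - w + 1 : ℕ)) : ℚ) = ((m * j - w : ℕ) : ℚ) := by rw [h1]
      rw [Nat.cast_add, Nat.cast_one] at this
      rw [this, Nat.cast_sub hw.2.le]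
      push_cast; ring
    rw [h2]

lemma r0_eq (P : Par) (n l k m : ℕ) :
    r0 P n l k m = ∑ w ∈ Finset.range (m * n), ∑ j ∈ (Finset.range (n + 1)).filter (fun j => w < m * j),
      tt P n l k m j w := by
  unfold r0
  have h1 : ∀ i ∈ Finset.Icc 1 P.A, (Nat.choose (i - 1 + k) (i - 1) : ℚ) * (m : ℚ) ^ (i + k) *
      ∑ j ∈ Finset.range (n + 1), pc P n l j i * hs (i + k) (m * j)
      = ∑ w ∈ Finset.range (m * n), ∑ j ∈ Finset.range (n + 1), if w < m * j then
        (Nat.choose (i - 1 + k) (i - 1) : ℚ) * (pc P n l j i * ((m : ℚ) / ((m : ℚ) * j - w)) ^ (i + k))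
        else 0 := by
    intro i _
    rw [Finset.sum_comm, Finset.mul_sum]
    apply Finset.sum_congr rfl
    intro j hj
    rw [Finset.mem_range] at hj
    rw [hs_reflect (i + k) m j n (by omega), Finset.mul_sum, Finset.mul_sum]
    apply Finset.sum_congr rfl
    intro w _
    split_ifs with h
    · rw [div_pow]; ring
    · ring
  rw [Finset.sum_congr rfl h1, Finset.sum_comm]
  apply Finset.sum_congr rfl
  intro w _
  rw [Finset.sum_comm, Finset.sum_filter]
  apply Finset.sum_congr rfl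
  intro j _
  split_ifs with h
  · rfl
  · simp

lemma pa_sum (s : Finset ℕ) (μ : ℕ → ℕ) (Q : ℚ[X]) (r : ℕ) (k : ℕ) (hr : μ k ≤ r)
    (F : ℚ → ℕ → ℚ) (hF : ∀ i, F 0 i = 0) :
    ∑ j ∈ Finset.range (μ k), F (pfc s μ Q k j) (μ k - j) = ∑ i ∈ Finset.Icc 1 r, F (pa s μ Q k i) i := by
  have h := sum_pfc_eq s μ Q r k hr (fun x i => ((F x i : ℚ) : ℝ)) (by intro i; simp [hF])
  exact_mod_cast h

lemma mu_le (P : Par) (n j : ℕ) : mu P n j ≤ P.A := by
  unfold mu Par.A
  split_ifs <;> omega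

/-- vanishing of the sum of all parts at a zero -/
lemma tt_sum_zero (P : Par) (n l k m w : ℕ) (hm1 : 1 ≤ m) (hk2 : Even k) (hw : ¬ m ∣ w)
    (hdeg : (NP P n l).natDegree + 2 ≤ (QQ (Finset.range (n + 1)) (mu P n)).natDegree)
    (hz : cf P n l k (((-(w : ℤ) : ℤ) : ℚ) / m) = 0) :
    ∑ j ∈ Finset.range (n + 1), tt P n l k m j w = 0 := by
  have hdeg' : (NP P n l).degree < (QQ (Finset.range (n + 1)) (mu P n)).degree := by
    rw [Polynomial.degree_eq_natDegree (QQ_monic _ _).ne_zero]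
    exact lt_of_le_of_lt Polynomial.degree_le_natDegree (by exact_mod_cast (by omega))
  have hm0 : (m : ℚ) ≠ 0 := by
    have : m ≠ 0 := by omega
    exact_mod_cast this
  have hne' : ∀ j : ℕ, (m : ℚ) * j - w ≠ 0 := by
    intro j h
    apply hw
    refine ⟨j, ?_⟩
    have : (w : ℚ) = (m * j : ℕ) := by push_cast; linarith
    exact_mod_cast this
  have hcj : ∀ j : ℕ, ((-(w : ℤ) : ℤ) : ℚ) / m + j = ((m : ℚ) * j - w) / m := by
    intro j; push_cast; field_simp; ring
  have hne : ∀ j ∈ Finset.range (n + 1), ((-(w : ℤ) : ℤ) : ℚ) / m + (j : ℚ) ≠ 0 := by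
    intro j _
    rw [hcj j]
    exact div_ne_zero (hne' j) hm0
  unfold cf at hz
  rw [coeff_RS _ _ _ hdeg' _ hne k] at hz
  rw [← hz]
  apply Finset.sum_congr rfl
  intro j hj
  have h2 := pa_sum (Finset.range (n + 1)) (mu P n) (NP P n l) P.A j (mu_le P n j)
    (fun x i => x * ((-1) ^ k * (Nat.choose (i - 1 + k) (i - 1) : ℚ)
        / (((-(w : ℤ) : ℤ) : ℚ) / m + j) ^ (i + k))) (by intro i; ring)
  rw [h2]
  unfold tt
  apply Finset.sum_congr rfl
  intro i _
  unfold pc
  rw [hcj j, hk2.neg_one_pow, div_pow, div_pow]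
  have := hne' j
  field_simp

end R0Norm

open R0Norm

theorem r0_norm (P : Par) (h : P.OK) (p : ℕ) [Fact p.Prime] (n l k m : ℕ) (hn : 1 ≤ n) (hl : l ≤ P.L)
    (hk : k < 2 * P.κ) (hk2 : Even k) (hm1 : 1 ≤ m) (hm : m ≤ P.B)
    (hpc : ∀ j i, j ≤ n → 1 ≤ i → padicNorm p (pc P n l j i) ≤ rp p n ^ (P.A + 2 * P.g))
    (hdeg : (NP P n l).natDegree + 2 ≤ (QQ (Finset.range (n + 1)) (mu P n)).natDegree)
    (hz : ∀ u : ℤ, -(((P.r + 1) * n * m : ℕ) : ℤ) ≤ u → u ≤ ((P.r * n * m : ℕ) : ℤ) →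
      cf P n l k ((u : ℚ) / m) = 0) :
    padicNorm p (r0 P n l k m) ≤ rp p n ^ (2 * P.A + 2 * P.g + k) := by
  have h1 := one_le_rp p n
  have hm0 : (m : ℚ) ≠ 0 := by
    have : m ≠ 0 := by omega
    exact_mod_cast this
  rw [r0_eq]
  apply padicNorm.sum_le' _ (by positivity)
  intro w hw
  rw [Finset.mem_range] at hw
  by_cases hmw : m ∣ w
  · obtain ⟨q, hq⟩ := hmw
    apply padicNorm.sum_le' _ (by positivity)
    intro j hj
    rw [Finset.mem_filter, Finset.mem_range] at hj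
    apply tt_bound P p n l k m j w (by omega) hpc
    have hqj : q < j := by
      rw [hq] at hj
      exact Nat.lt_of_mul_lt_mul_left hj.2
    have h2 : (m : ℚ) / ((m : ℚ) * j - w) = 1 / ((j - q : ℕ) : ℚ) := by
      rw [hq, Nat.cast_sub hqj.le]
      push_cast
      have h3 : (j : ℚ) - q ≠ 0 := by
        have : (q : ℚ) < j := by exact_mod_cast hqj
        intro h; linarith
      have h4 : (m : ℚ) * j - m * q ≠ 0 := by
        rw [← mul_sub]; exact mul_ne_zero hm0 h3
      rw [div_eq_div_iff h4 h3]; ring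
    rw [h2, padicNorm.div, padicNorm.one, one_div]
    exact rp_spec' p n (j - q) (by omega) (by omega)
  · have hrange : w ≤ (P.r + 1) * n * m := by
      have : m * n ≤ (P.r + 1) * n * m := by
        calc m * n = 1 * n * m := by ring
          _ ≤ (P.r + 1) * n * m := by gcongr; omega
      omega
    have hz' := hz (-(w : ℤ)) (by
      have : (w : ℤ) ≤ (((P.r + 1) * n * m : ℕ) : ℤ) := by exact_mod_cast hrange
      linarith) (by
      have : (0 : ℤ) ≤ ((P.r * n * m : ℕ) : ℤ) := by positivity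
      have : (0 : ℤ) ≤ (w : ℤ) := by positivity
      linarith)
    have hsum := tt_sum_zero P n l k m w hm1 hk2 hmw hdeg hz'
    have hne' : ∀ j : ℕ, (m : ℚ) * j - w ≠ 0 := by
      intro j h
      apply hmw
      refine ⟨j, ?_⟩
      have : (w : ℚ) = (m * j : ℕ) := by push_cast; linarith
      exact_mod_cast this
    obtain ⟨j1, hj1, hmin⟩ := Finset.exists_min_image (Finset.range (n + 1))
      (fun j : ℕ => padicNorm p ((m : ℚ) * j - w)) ⟨0, by simp⟩
    have hgood : ∀ j ∈ Finset.range (n + 1), j ≠ j1 →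
        padicNorm p ((m : ℚ) / ((m : ℚ) * j - w)) ≤ rp p n := by
      intro j hj hjj
      have h3 := hmin j hj
      rw [Finset.mem_range] at hj hj1
      have h4 : padicNorm p ((m : ℚ) * ((j : ℚ) - j1)) ≤ padicNorm p ((m : ℚ) * j - w) := by
        have h5 : (m : ℚ) * ((j : ℚ) - j1) = ((m : ℚ) * j - w) - ((m : ℚ) * j1 - w) := by ring
        rw [h5]
        exact padicNorm.sub.trans (max_le le_rfl h3)
      have hpj : 0 < padicNorm p ((m : ℚ) * j - w) := pn_pos p (hne' j)
      have hjne : (j : ℚ) - j1 ≠ 0 := by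
        intro h
        apply hjj
        have : (j : ℚ) = j1 := by linarith
        exact_mod_cast this
      have hpd : 0 < padicNorm p ((j : ℚ) - j1) := pn_pos p hjne
      have h6 : (padicNorm p ((j : ℚ) - j1))⁻¹ ≤ rp p n := by
        rcases lt_or_gt_of_ne hjj with hlt | hlt
        · have h7 : (j : ℚ) - j1 = -((j1 - j : ℕ) : ℚ) := by
            rw [Nat.cast_sub hlt.le]; ring
          rw [h7, padicNorm.neg]
          exact rp_spec' p n (j1 - j) (by omega) (by omega)
        · have h7 : (j : ℚ) - j1 = ((j - j1 : ℕ) : ℚ) := by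
            rw [Nat.cast_sub hlt.le]
          rw [h7]
          exact rp_spec' p n (j - j1) (by omega) (by omega)
      refine le_trans ?_ h6
      rw [padicNorm.div, div_le_iff₀ hpj, inv_mul_eq_div, le_div_iff₀ hpd, ← padicNorm.mul]
      exact h4
    by_cases hcase : w < m * j1
    · have hsplit := Finset.sum_filter_add_sum_filter_not (Finset.range (n + 1))
        (fun j => w < m * j) (fun j => tt P n l k m j w)
      rw [hsum] at hsplit
      have h5 : ∑ j ∈ (Finset.range (n + 1)).filter (fun j => w < m * j), tt P n l k m j w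
          = - ∑ j ∈ (Finset.range (n + 1)).filter (fun j => ¬ w < m * j), tt P n l k m j w := by
        linarith
      rw [h5, padicNorm.neg]
      apply padicNorm.sum_le' _ (by positivity)
      intro j hj
      rw [Finset.mem_filter] at hj
      have hj2 := Finset.mem_range.1 hj.1
      apply tt_bound P p n l k m j w (by omega) hpc
      apply hgood j hj.1
      intro h
      rw [h] at hj
      exact hj.2 hcase
    · apply padicNorm.sum_le' _ (by positivity)
      intro j hj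
      rw [Finset.mem_filter] at hj
      have hj2 := Finset.mem_range.1 hj.1
      apply tt_bound P p n l k m j w (by omega) hpc
      apply hgood j hj.1
      intro h
      rw [h] at hj
      exact hcase hj.2

end

end Pool.Agent.H513R2.OZ
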