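import Mathlib

namespace Pool.Agent.H513R2.OZ

open scoped Classical in
theorem separated (J : Set ℕ) (κ B s : ℕ) (hκ : 1 ≤ κ) (hJ : ∀ j ∈ J, Odd j)
    (hc : 2 * κ * B < ((Finset.Icc 3 s).filter fun i => Odd i ∧ ∃ k < κ, i + 2 * k ≤ s ∧
      i + 2 * k ∈ J).card) :
    ∃ S : Finset ℕ, S.card = B ∧ (∀ i ∈ S, i ∈ J ∧ 3 ≤ i ∧ i ≤ s) ∧
      ∀ i ∈ S, ∀ j ∈ S, i < j → i + 2 * κ ≤ j := by
  induction B generalizing J with
  | zero => exact ⟨∅, rfl, by simp, by simp⟩
  | succ B ih =>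
    -- the least element of `J` in `[3, s]`
    have hex : ∃ j, j ∈ J ∧ 3 ≤ j ∧ j ≤ s := by
      have hne : ((Finset.Icc 3 s).filter fun i => Odd i ∧ ∃ k < κ, i + 2 * k ≤ s ∧
          i + 2 * k ∈ J).Nonempty := by
        rw [← Finset.card_pos]; omega
      obtain ⟨i, hi⟩ := hne
      simp only [Finset.mem_filter, Finset.mem_Icc] at hi
      obtain ⟨⟨h3, _⟩, _, k, _, hks, hkJ⟩ := hi
      exact ⟨i + 2 * k, hkJ, by omega, hks⟩
    obtain ⟨j1, ⟨hj1J, hj13, hj1s⟩, hmin⟩ :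
        ∃ j1, (j1 ∈ J ∧ 3 ≤ j1 ∧ j1 ≤ s) ∧ ∀ j, (j ∈ J ∧ 3 ≤ j ∧ j ≤ s) → j1 ≤ j :=
      ⟨Nat.find hex, Nat.find_spec hex, fun j hj => Nat.find_min' hex hj⟩
    have hodd1 : Odd j1 := hJ j1 hj1J
    set J' : Set ℕ := {j | j ∈ J ∧ j1 + 2 * κ ≤ j} with hJ'
    have hsub : ((Finset.Icc 3 s).filter fun i => Odd i ∧ ∃ k < κ, i + 2 * k ≤ s ∧
          i + 2 * k ∈ J) ⊆
        ((Finset.Icc 3 s).filter fun i => Odd i ∧ ∃ k < κ, i + 2 * k ≤ s ∧
          i + 2 * k ∈ J') ∪ (Finset.range (2 * κ)).image (fun t => j1 + 2 * t - 2 * κ) := by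
      intro i hi
      simp only [Finset.mem_filter, Finset.mem_Icc] at hi
      obtain ⟨⟨h3, his⟩, hiodd, k, hkκ, hks, hkJ⟩ := hi
      rw [Finset.mem_union]
      by_cases hb : j1 + 2 * κ ≤ i + 2 * k
      · left
        simp only [Finset.mem_filter, Finset.mem_Icc]
        exact ⟨⟨h3, his⟩, hiodd, k, hkκ, hks, ⟨hkJ, hb⟩⟩
      · right
        have h1 : j1 ≤ i + 2 * k := hmin _ ⟨hkJ, by omega, hks⟩
        rw [Finset.mem_image]
        obtain ⟨a, ha⟩ := hodd1
        obtain ⟨b, hb'⟩ := hiodd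
        refine ⟨b + κ - a, ?_, ?_⟩
        · rw [Finset.mem_range]; omega
        · show j1 + 2 * (b + κ - a) - 2 * κ = i
          omega
    have hcard := Finset.card_le_card hsub
    have hcard2 := hcard.trans (Finset.card_union_le _ _)
    have himg : ((Finset.range (2 * κ)).image (fun t => j1 + 2 * t - 2 * κ)).card ≤ 2 * κ :=
      Finset.card_image_le.trans (by simp)
    have hc' : 2 * κ * B < ((Finset.Icc 3 s).filter fun i => Odd i ∧ ∃ k < κ, i + 2 * k ≤ s ∧
          i + 2 * k ∈ J').card := by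
      have e : 2 * κ * (B + 1) = 2 * κ * B + 2 * κ := by ring
      rw [e] at hc
      omega
    obtain ⟨S, hScard, hSJ, hSsep⟩ := ih J' (fun j hj => hJ j hj.1) (by
      refine lt_of_lt_of_eq hc' ?_
      congr 1
      ext x
      simp only [Finset.mem_filter])
    have hnot : j1 ∉ S := by
      intro h
      have := (hSJ j1 h).1.2
      omega
    refine ⟨insert j1 S, ?_, ?_, ?_⟩
    · rw [Finset.card_insert_of_notMem hnot, hScard]
    · intro i hi
      rcases Finset.mem_insert.1 hi with h | h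
      · subst h; exact ⟨hj1J, hj13, hj1s⟩
      · exact ⟨(hSJ i h).1.1, (hSJ i h).2⟩
    · intro i hi j hj hij
      rcases Finset.mem_insert.1 hi with h | h
      · rcases Finset.mem_insert.1 hj with h' | h'
        · omega
        · have := (hSJ j h').1.2
          omega
      · rcases Finset.mem_insert.1 hj with h' | h'
        · have := (hSJ i h).1.2
          omega
        · exact hSsep i h j h' hij

end Pool.Agent.H513R2.OZ
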