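import Pool.Agent.H513R2.OZ.Defs

/-! Majorants of power series by `M (1 - b X)^(-e)`. -/

open Polynomial

namespace Pool.Agent.H513R2.OZ

open Pool.Agent.H337R2 Pool.Agent.H513R2.OZ

noncomputable section

/-- `f` is majorised by `M (1 - b X)^(-e)` -/
def MB (b : ℝ) (e : ℕ) (M : ℝ) (f : PowerSeries ℚ) : Prop :=
  ∀ j, |((PowerSeries.coeff j f : ℚ) : ℝ)| ≤ M * (b ^ j * (Nat.multichoose e j : ℝ))

lemma maj_mk_pow (e : ℕ) : (PowerSeries.mk 1 : PowerSeries ℝ) ^ e =
    PowerSeries.mk fun n => (Nat.multichoose e n : ℝ) := by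
  cases e with
  | zero =>
    ext n
    rw [pow_zero, PowerSeries.coeff_mk, PowerSeries.coeff_one]
    cases n with
    | zero => simp
    | succ n => simp [Nat.multichoose_zero_succ]
  | succ d =>
    rw [PowerSeries.mk_one_pow_eq_mk_choose_add]
    ext n
    rw [PowerSeries.coeff_mk, PowerSeries.coeff_mk, Nat.multichoose_eq]
    rw [show d + 1 + n - 1 = d + n by omega]
    rw [Nat.choose_symm_add]

lemma maj_conv (e e' n : ℕ) :
    ∑ p ∈ Finset.HasAntidiagonal.antidiagonal n, (Nat.multichoose e p.1 : ℝ) * (Nat.multichoose e' p.2 : ℝ) =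
      (Nat.multichoose (e + e') n : ℝ) := by
  have h : (PowerSeries.mk 1 : PowerSeries ℝ) ^ (e + e') =
      (PowerSeries.mk 1 : PowerSeries ℝ) ^ e * (PowerSeries.mk 1 : PowerSeries ℝ) ^ e' := pow_add _ _ _
  rw [maj_mk_pow, maj_mk_pow, maj_mk_pow] at h
  have h2 := congrArg (PowerSeries.coeff n) h
  rw [PowerSeries.coeff_mk, PowerSeries.coeff_mul] at h2
  rw [h2]
  apply Finset.sum_congr rfl
  intro p _
  rw [PowerSeries.coeff_mk, PowerSeries.coeff_mk]

lemma MB.mul {b M M' : ℝ} {e e' : ℕ} {f g : PowerSeries ℚ} (hb : 0 ≤ b) (hM : 0 ≤ M) (hM' : 0 ≤ M')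
    (hf : MB b e M f) (hg : MB b e' M' g) : MB b (e + e') (M * M') (f * g) := by
  intro n
  rw [PowerSeries.coeff_mul, Rat.cast_sum]
  calc |∑ p ∈ Finset.HasAntidiagonal.antidiagonal n,
        ((PowerSeries.coeff p.1 f * PowerSeries.coeff p.2 g : ℚ) : ℝ)|
      ≤ ∑ p ∈ Finset.HasAntidiagonal.antidiagonal n,
        |((PowerSeries.coeff p.1 f * PowerSeries.coeff p.2 g : ℚ) : ℝ)| :=
        Finset.abs_sum_le_sum_abs _ _
    _ ≤ ∑ p ∈ Finset.HasAntidiagonal.antidiagonal n, (M * M') * (b ^ n *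
          ((Nat.multichoose e p.1 : ℝ) * (Nat.multichoose e' p.2 : ℝ))) := by
        apply Finset.sum_le_sum
        intro p hp
        rw [Rat.cast_mul, abs_mul]
        have h1 := hf p.1
        have h2 := hg p.2
        have hp' : p.1 + p.2 = n := Finset.HasAntidiagonal.mem_antidiagonal.1 hp
        calc |((PowerSeries.coeff p.1 f : ℚ) : ℝ)| * |((PowerSeries.coeff p.2 g : ℚ) : ℝ)|
            ≤ (M * (b ^ p.1 * (Nat.multichoose e p.1 : ℝ))) *
              (M' * (b ^ p.2 * (Nat.multichoose e' p.2 : ℝ))) :=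
              mul_le_mul h1 h2 (abs_nonneg _) (by positivity)
          _ = (M * M') * (b ^ n *
              ((Nat.multichoose e p.1 : ℝ) * (Nat.multichoose e' p.2 : ℝ))) := by
              rw [← hp', pow_add]; ring
    _ = M * M' * (b ^ n * (Nat.multichoose (e + e') n : ℝ)) := by
        rw [← Finset.mul_sum, ← Finset.mul_sum, maj_conv]

lemma MB.const {b : ℝ} (c : ℚ) : MB b 0 |(c : ℝ)| (PowerSeries.C c) := by
  intro n
  cases n with
  | zero => simp
  | succ n =>
    rw [PowerSeries.coeff_C]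
    simp [Nat.multichoose_zero_succ]

lemma MB.one {b : ℝ} : MB b 0 1 1 := by
  have h := MB.const (b := b) 1
  simpa using h

lemma MB.pow {b M : ℝ} {e : ℕ} {f : PowerSeries ℚ} (hb : 0 ≤ b) (hM : 0 ≤ M) (hf : MB b e M f) (n : ℕ) :
    MB b (n * e) (M ^ n) (f ^ n) := by
  induction n with
  | zero =>
    rw [pow_zero, pow_zero, zero_mul]
    exact MB.one
  | succ n ih =>
    rw [pow_succ, pow_succ, Nat.succ_mul]
    exact MB.mul hb (pow_nonneg hM n) hM ih hf

lemma MB.prod {ι : Type*} {b : ℝ} (s : Finset ι) (e : ι → ℕ) (M : ι → ℝ) (f : ι → PowerSeries ℚ) (hb : 0 ≤ b)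
    (hM : ∀ i ∈ s, 0 ≤ M i) (hf : ∀ i ∈ s, MB b (e i) (M i) (f i)) :
    MB b (∑ i ∈ s, e i) (∏ i ∈ s, M i) (∏ i ∈ s, f i) := by
  classical
  induction s using Finset.induction_on with
  | empty =>
    simp only [Finset.sum_empty, Finset.prod_empty]
    exact MB.one
  | insert a s ha ih =>
    rw [Finset.sum_insert ha, Finset.prod_insert ha, Finset.prod_insert ha]
    apply MB.mul hb (hM a (Finset.mem_insert_self a s))
      (Finset.prod_nonneg fun i hi => hM i (Finset.mem_insert_of_mem hi))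
      (hf a (Finset.mem_insert_self a s))
    exact ih (fun i hi => hM i (Finset.mem_insert_of_mem hi))
      (fun i hi => hf i (Finset.mem_insert_of_mem hi))

lemma MB.lin {b M : ℝ} {u c : ℚ} (hc : |(c : ℝ)| ≤ M) (hu : |(u : ℝ)| ≤ M * b) (hb : 0 ≤ b) (hM : 0 ≤ M) :
    MB b 1 M (PowerSeries.C u * PowerSeries.X + PowerSeries.C c) := by
  intro j
  rw [Nat.multichoose_one, map_add, PowerSeries.coeff_C_mul, PowerSeries.coeff_X,
    PowerSeries.coeff_C]
  rcases j with _ | _ | j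
  · simpa using hc
  · simpa using hu
  · simp
    positivity

lemma MB.iv {b : ℝ} {a : ℚ} (ha : a ≠ 0) (hb : 1 ≤ |(a : ℝ)| * b) (hb0 : 0 ≤ b) :
    MB b 1 (1 / |(a : ℝ)|) (iv a) := by
  intro j
  have ha' : (0 : ℝ) < |(a : ℝ)| := abs_pos.2 (by exact_mod_cast ha)
  rw [Nat.multichoose_one]
  simp only [Pool.Agent.H337R2.iv, PowerSeries.coeff_mk]
  push_cast
  rw [abs_div, abs_pow, abs_neg, abs_one, one_pow, abs_pow, mul_one]
  have h1 : 1 ≤ (|(a : ℝ)| * b) ^ j := one_le_pow₀ hb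
  rw [mul_pow] at h1
  rw [div_mul_eq_mul_div, one_mul, div_le_div_iff₀ (by positivity) ha', one_mul, pow_succ]
  calc |(a : ℝ)| = 1 * |(a : ℝ)| := (one_mul _).symm
    _ ≤ (|(a : ℝ)| ^ j * b ^ j) * |(a : ℝ)| := by
        apply mul_le_mul_of_nonneg_right h1 ha'.le
    _ = b ^ j * (|(a : ℝ)| ^ j * |(a : ℝ)|) := by ring

lemma MB.mono {b b' M M' : ℝ} {e e' : ℕ} {f : PowerSeries ℚ} (h : MB b e M f) (hb0 : 0 ≤ b) (hb : b ≤ b')
    (he : e ≤ e') (hM0 : 0 ≤ M) (hM : M ≤ M') : MB b' e' M' f := by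
  intro j
  have h1 : (Nat.multichoose e j : ℝ) ≤ (Nat.multichoose e' j : ℝ) := by
    have : Nat.multichoose e j ≤ Nat.multichoose e' j := by
      rw [Nat.multichoose_eq, Nat.multichoose_eq]
      exact Nat.choose_le_choose j (by omega)
    exact_mod_cast this
  refine (h j).trans ?_
  apply mul_le_mul hM _ (by positivity) (hM0.trans hM)
  apply mul_le_mul (pow_le_pow_left₀ hb0 hb j) h1 (by positivity)
  exact pow_nonneg (hb0.trans hb) j

lemma multichoose_le (e j : ℕ) : (Nat.multichoose e j : ℝ) ≤ ((e : ℝ) + j) ^ j := by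
  have h : Nat.multichoose e j ≤ (e + j) ^ j := by
    rw [Nat.multichoose_eq]
    refine (Nat.choose_le_pow _ _).trans ?_
    exact Nat.pow_le_pow_left (by omega) j
  exact_mod_cast h

end

end Pool.Agent.H513R2.OZ
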