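import Pool.Agent.H513R2.OZ.Basics
import Pool.Agent.H513R2.OZ.Maj

/-!
# T4: the tail bound
-/

open Polynomial Filter Topology

namespace Pool.Agent.H513R2.OZ

open Pool.Agent.H337R2


noncomputable section

namespace Tail

/-- the majorant of a linear factor -/
lemma MB_TS_lin {t M : ℝ} {c : ℚ} (hct : (c : ℝ) = t) (_ : 1 ≤ t) (a b : ℚ)
    (hM : |((a : ℝ) * t + b)| ≤ M) (ha : |(a : ℝ)| ≤ M) (hM0 : 0 ≤ M) :
    MB 1 1 M (TS c (C a * X + C b)) := by
  have h1 : TS c (C a * X + C b) = PowerSeries.C a * PowerSeries.X + PowerSeries.C (a * c + b) := by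
    rw [map_add, map_mul, TS_C, TS_C, TS_X, mul_add, add_assoc, ← map_mul, ← map_add]
  rw [h1]
  apply MB.lin
  · push_cast
    rw [hct]; exact hM
  · rw [mul_one]; exact ha
  · norm_num
  · exact hM0

lemma MB_PM {t : ℝ} {c : ℚ} (P : Par) (h : P.OK) (hr : 2 ≤ P.r) (hct : (c : ℝ) = t) (n m : ℕ)
    (hn : 1 ≤ n) (hm1 : 1 ≤ m) (hmB : m ≤ P.B) (ht : (P.r : ℝ) * n < t) :
    MB 1 ((2 * P.r + 1) * n * m + 1) ((5 * P.B * t) ^ ((2 * P.r + 1) * n * m + 1))
      (TS c (PM P.r m n)) := by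
  have hn' : (1 : ℝ) ≤ n := by exact_mod_cast hn
  have hr' : (2 : ℝ) ≤ P.r := by exact_mod_cast hr
  have hB' : (1 : ℝ) ≤ P.B := by exact_mod_cast h.hB
  have hm' : (m : ℝ) ≤ P.B := by exact_mod_cast hmB
  have hm1' : (1 : ℝ) ≤ m := by exact_mod_cast hm1
  have ht1 : (2 : ℝ) * n < t := by nlinarith
  have ht1' : (1 : ℝ) ≤ t := by linarith
  have hM0 : 0 ≤ 5 * (P.B : ℝ) * t := by positivity
  unfold PM
  rw [map_prod]
  have key := MB.prod (b := 1) (Finset.range ((2 * P.r + 1) * n * m + 1)) (fun _ => 1)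
    (fun _ => 5 * (P.B : ℝ) * t)
    (fun v => TS c (C (m : ℚ) * X + C ((((P.r + 1) * n * m : ℕ) : ℚ) - (v : ℚ)))) (by norm_num)
    (fun _ _ => hM0) (by
      intro v hv
      rw [Finset.mem_range] at hv
      have hv' : (v : ℝ) ≤ (2 * P.r + 1) * n * m := by
        have : v ≤ (2 * P.r + 1) * n * m := by omega
        exact_mod_cast this
      have hv0 : (0 : ℝ) ≤ v := by positivity
      apply MB_TS_lin hct ht1'
      · push_cast
        rw [abs_le]
        have e1 : (m : ℝ) * t ≤ P.B * t := by nlinarith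
        have e2 : (P.r : ℝ) * n * m ≤ m * t := by nlinarith
        have e3 : (n : ℝ) * m ≤ P.B * t := by
          have : (n : ℝ) ≤ t := by linarith
          calc (n : ℝ) * m ≤ t * P.B := by gcongr
            _ = P.B * t := by ring
        have e0 : 0 ≤ (P.B : ℝ) * t := by positivity
        constructor
        · nlinarith
        · nlinarith
      · push_cast
        rw [abs_of_nonneg (by positivity)]
        nlinarith
      · exact hM0)
  simpa using key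

lemma MB_VV {t : ℝ} {c : ℚ} (P : Par) (hct : (c : ℝ) = t) (n : ℕ) (ht : 1 ≤ t) :
    MB 1 (∑ j ∈ Finset.range (n + 1), mu P n j) ((1 / t) ^ (∑ j ∈ Finset.range (n + 1), mu P n j))
      (VV (Finset.range (n + 1)) (mu P n) c) := by
  unfold VV
  have key := MB.prod (b := 1) (Finset.range (n + 1)) (fun j => mu P n j * 1)
    (fun j => (1 / t) ^ (mu P n j)) (fun j => iv (c + j) ^ mu P n j) (by norm_num)
    (fun _ _ => by positivity) (by
      intro j _
      apply MB.pow (by norm_num) (by positivity)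
      have hj0 : (0 : ℝ) ≤ j := by positivity
      have hc0 : (((c + (j : ℚ) : ℚ)) : ℝ) = t + j := by push_cast; rw [hct]
      have hne : c + (j : ℚ) ≠ 0 := by
        intro h0
        have : (((c + (j : ℚ) : ℚ)) : ℝ) = 0 := by rw [h0]; norm_num
        rw [hc0] at this
        linarith
      have h1 := MB.iv (b := 1) hne (by rw [hc0, abs_of_nonneg (by linarith)]; linarith) (by norm_num)
      refine MB.mono h1 (by norm_num) le_rfl le_rfl (by positivity) ?_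
      rw [hc0, abs_of_nonneg (by linarith)]
      apply one_div_le_one_div_of_le (by linarith)
      linarith)
  simp only [mul_one] at key
  rw [Finset.prod_pow_eq_pow_sum] at key
  exact key

lemma sum_mu (P : Par) (n : ℕ) (hn : 1 ≤ n) :
    ∑ j ∈ Finset.range (n + 1), mu P n j = P.a * (n + 1) + 2 * P.g := by
  have h1 : ∀ j ∈ Finset.range (n + 1), mu P n j =
      P.a + ((if j = 0 then P.g else 0) + (if j = n then P.g else 0)) := by
    intro j _
    unfold mu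
    by_cases h0 : j = 0
    · subst h0
      rw [if_pos (Or.inl rfl), if_pos rfl, if_neg (by omega), add_zero]
    · by_cases hjn : j = n
      · rw [if_pos (Or.inr hjn), if_neg h0, if_pos hjn]; ring
      · rw [if_neg (by tauto), if_neg h0, if_neg hjn]
        simp
  rw [Finset.sum_congr rfl h1, Finset.sum_add_distrib, Finset.sum_add_distrib,
    Finset.sum_ite_eq' (Finset.range (n + 1)) 0, Finset.sum_ite_eq' (Finset.range (n + 1)) n]
  simp
  ring

/-- degree of the product of the `PM` -/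
lemma sum_exp (P : Par) (n : ℕ) :
    ∑ m ∈ Finset.Icc 1 P.B, 2 * P.κ * ((2 * P.r + 1) * n * m + 1) =
      P.Z * n + 2 * P.κ * P.B := by
  unfold Par.Z sB
  simp only [mul_add, mul_one, Finset.sum_add_distrib, Finset.sum_const, Nat.card_Icc]
  rw [Finset.mul_sum, Finset.mul_sum, Finset.sum_mul]
  congr 1
  · apply Finset.sum_congr rfl
    intro m _
    ring
  · simp; ring

lemma MB_NP {t : ℝ} {c : ℚ} (P : Par) (h : P.OK) (hr : 2 ≤ P.r) (hct : (c : ℝ) = t) (n l : ℕ)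
    (hn : 1 ≤ n) (ht : (P.r : ℝ) * n < t) :
    MB 1 (1 + 2 * l + (P.Z * n + 2 * P.κ * P.B))
      (((n.factorial : ℝ) ^ P.a / (n.factorial : ℝ) ^ P.Z) *
        (5 * P.B * t) ^ (1 + 2 * l + (P.Z * n + 2 * P.κ * P.B)))
      (TS c (NP P n l)) := by
  have hn' : (1 : ℝ) ≤ n := by exact_mod_cast hn
  have hr' : (2 : ℝ) ≤ P.r := by exact_mod_cast hr
  have hB' : (1 : ℝ) ≤ P.B := by exact_mod_cast h.hB
  have ht1 : (2 : ℝ) * n < t := by nlinarith
  have ht1' : (1 : ℝ) ≤ t := by linarith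
  have hBt : t ≤ P.B * t := by nlinarith
  have hM0 : 0 ≤ 5 * (P.B : ℝ) * t := by positivity
  have e1 : MB 1 0 ((n.factorial : ℝ) ^ P.a / (n.factorial : ℝ) ^ P.Z) (TS c (C (cst P n))) := by
    rw [TS_C]
    have := MB.const (b := 1) (cst P n)
    have e : |((cst P n : ℚ) : ℝ)| = (n.factorial : ℝ) ^ P.a / (n.factorial : ℝ) ^ P.Z := by
      unfold cst
      push_cast
      rw [abs_of_nonneg (by positivity)]
    rw [e] at this
    exact this
  have e2 : MB 1 1 (5 * P.B * t) (TS c (C 2 * X + C (n : ℚ))) := by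
    apply MB_TS_lin hct ht1'
    · push_cast
      rw [abs_of_nonneg (by positivity)]
      nlinarith
    · push_cast
      rw [abs_of_nonneg (by positivity)]
      nlinarith
    · exact hM0
  have e3 : MB 1 1 (5 * P.B * t) (TS c X) := by
    have := MB_TS_lin (M := 5 * P.B * t) hct ht1' 1 0
      (by
        push_cast
        rw [abs_of_nonneg (by positivity)]
        nlinarith)
      (by
        push_cast
        rw [abs_of_nonneg (by positivity)]
        nlinarith) hM0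
    simpa using this
  have e4 : MB 1 1 (5 * P.B * t) (TS c (X + C (n : ℚ))) := by
    have := MB_TS_lin (M := 5 * P.B * t) hct ht1' 1 n
      (by
        push_cast
        rw [abs_of_nonneg (by positivity)]
        nlinarith)
      (by
        push_cast
        rw [abs_of_nonneg (by positivity)]
        nlinarith) hM0
    simpa using this
  have e5 : MB 1 (l * (1 + 1)) ((5 * P.B * t * (5 * P.B * t)) ^ l)
      (TS c ((X * (X + C (n : ℚ))) ^ l)) := by
    rw [map_pow, map_mul]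
    exact MB.pow (by norm_num) (by positivity) (MB.mul (by norm_num) hM0 hM0 e3 e4) l
  have e6 : MB 1 (∑ m ∈ Finset.Icc 1 P.B, 2 * P.κ * ((2 * P.r + 1) * n * m + 1))
      (∏ m ∈ Finset.Icc 1 P.B, ((5 * P.B * t) ^ ((2 * P.r + 1) * n * m + 1)) ^ (2 * P.κ))
      (TS c (∏ m ∈ Finset.Icc 1 P.B, (PM P.r m n) ^ (2 * P.κ))) := by
    rw [map_prod]
    apply MB.prod _ (fun m => 2 * P.κ * ((2 * P.r + 1) * n * m + 1))
      (fun m => ((5 * P.B * t) ^ ((2 * P.r + 1) * n * m + 1)) ^ (2 * P.κ)) _ (by norm_num)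
    · intro m _; positivity
    · intro m hm
      rw [Finset.mem_Icc] at hm
      rw [map_pow]
      exact MB.pow (by norm_num) (by positivity) (MB_PM P h hr hct n m hn hm.1 hm.2 ht) _
  have e7 := MB.mul (by norm_num) (by positivity) (by positivity)
    (MB.mul (by norm_num) (by positivity) (by positivity)
      (MB.mul (by norm_num) (by positivity) hM0 e1 e2) e5) e6
  unfold NP
  rw [map_mul, map_mul, map_mul]
  have hexp := sum_exp P n
  have hprod : ∏ m ∈ Finset.Icc 1 P.B, ((5 * P.B * t) ^ ((2 * P.r + 1) * n * m + 1)) ^ (2 * P.κ)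
      = (5 * P.B * t) ^ (P.Z * n + 2 * P.κ * P.B) := by
    rw [← hexp, ← Finset.prod_pow_eq_pow_sum]
    apply Finset.prod_congr rfl
    intro m _
    rw [← pow_mul, mul_comm (2 * P.κ)]
  rw [hexp, hprod] at e7
  refine MB.mono e7 (by norm_num) le_rfl (by omega) (by positivity) ?_
  apply le_of_eq
  rw [pow_add (5 * (P.B : ℝ) * t) (1 + 2 * l), pow_add (5 * (P.B : ℝ) * t) 1 (2 * l), pow_one,
    pow_mul (5 * (P.B : ℝ) * t) 2 l, pow_two]
  ring

/-- elementary facts on the parameters -/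
lemma Z_lt (P : Par) (h : P.OK) : P.Z + 1 ≤ P.a := by
  have h1 := h.hg
  have h2 := h.hag
  have h3 : P.Z ≤ 2 * P.κ * ((2 * P.r + 3) * sB P.B) := by
    unfold Par.Z
    apply Nat.mul_le_mul_left
    apply Nat.mul_le_mul_right
    omega
  omega

lemma fact_bound (a Z n : ℕ) (hn : 1 ≤ n) :
    (n.factorial : ℝ) ^ a / (n.factorial : ℝ) ^ Z ≤
      ((n : ℝ) ^ n) ^ a * ((Real.exp 1) ^ n / (n : ℝ) ^ n) ^ Z := by
  have hn0 : (0 : ℝ) < n := by exact_mod_cast hn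
  have hf : (0 : ℝ) < n.factorial := by exact_mod_cast n.factorial_pos
  have h1 : (n.factorial : ℝ) ≤ (n : ℝ) ^ n := by exact_mod_cast n.factorial_le_pow
  have h2 : (n : ℝ) ^ n / n.factorial ≤ Real.exp n :=
    Real.pow_div_factorial_le_exp n hn0.le n
  have h3 : 1 / (n.factorial : ℝ) ≤ (Real.exp 1) ^ n / (n : ℝ) ^ n := by
    have e : Real.exp n = (Real.exp 1) ^ n := by rw [← Real.exp_nat_mul]; simp
    rw [e, div_le_iff₀ hf] at h2
    rw [div_le_div_iff₀ hf (by positivity), one_mul]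
    exact h2
  rw [div_eq_mul_one_div, ← one_div_pow]
  gcongr

/-- the core estimate, `q = (a - Z) n`, `s = D0 + 2` -/
lemma core {a Z n d D0 e2 : ℕ} {t r B : ℝ} (hn : 1 ≤ n) (hr : 0 < r) (hB : 1 ≤ B)
    (ht : r * n < t) (ht1 : 1 ≤ t) (hZa : Z + 1 ≤ a) (hd : d ≤ Z * n + D0) (_hdZ : Z * n ≤ d)
    (he2 : a * n ≤ e2) (hs : D0 + 2 ≤ (a - Z) * n) :
    ((n : ℝ) ^ n) ^ a * ((Real.exp 1) ^ n / (n : ℝ) ^ n) ^ Z * (5 * B * t) ^ d * (1 / t) ^ e2 ≤
      (5 * B) ^ D0 * r ^ (D0 + 2) * (n : ℝ) ^ (D0 + 2) *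
        Real.exp (-((((a : ℝ) - Z) * Real.log r - Z * (Real.log (5 * B) + 1)) * n)) * (1 / t ^ 2) := by
  have hn0 : (0 : ℝ) < n := by exact_mod_cast hn
  have ht0 : (0 : ℝ) < t := by linarith
  have hB0 : (0 : ℝ) < 5 * B := by linarith
  set x : ℝ := n / t with hx
  have hx0 : 0 < x := by positivity
  have hxr : x ≤ 1 / r := by
    rw [hx, div_le_div_iff₀ ht0 hr]
    nlinarith
  have h5 : (5 * B * t) ^ d ≤ (5 * B * t) ^ (Z * n) * ((5 * B) ^ D0 * t ^ D0) := by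
    rw [← mul_pow, ← pow_add]
    apply pow_le_pow_right₀ _ hd
    nlinarith
  have h6 : (1 / t) ^ e2 ≤ (1 / t) ^ (a * n) := by
    apply pow_le_pow_of_le_one (by positivity) _ he2
    rw [div_le_one ht0]; exact ht1
  have hq : (a - Z) * n + Z * n = a * n := by
    rw [← add_mul]; congr 1; omega
  have h7 : ((n : ℝ) ^ n) ^ a * ((Real.exp 1) ^ n / (n : ℝ) ^ n) ^ Z * (5 * B * t) ^ (Z * n) *
      (1 / t) ^ (a * n) = (5 * B * Real.exp 1) ^ (Z * n) * x ^ ((a - Z) * n) := by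
    have e1 : ((n : ℝ) ^ n) ^ a = (n : ℝ) ^ ((a - Z) * n) * (n : ℝ) ^ (Z * n) := by
      rw [← pow_mul, ← pow_add, hq, mul_comm]
    have e2 : (1 / t) ^ (a * n) = (1 / t) ^ ((a - Z) * n) * (1 / t) ^ (Z * n) := by
      rw [← pow_add, hq]
    have e3 : ((Real.exp 1) ^ n / (n : ℝ) ^ n) ^ Z = (Real.exp 1 / n) ^ (Z * n) := by
      rw [← div_pow, ← pow_mul, mul_comm]
    have e4 : x ^ ((a - Z) * n) = (n : ℝ) ^ ((a - Z) * n) * (1 / t) ^ ((a - Z) * n) := by
      rw [hx, ← mul_pow, mul_one_div]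
    have e5 : (n : ℝ) ^ (Z * n) * (Real.exp 1 / n) ^ (Z * n) * (5 * B * t) ^ (Z * n) *
        (1 / t) ^ (Z * n) = (5 * B * Real.exp 1) ^ (Z * n) := by
      rw [← mul_pow, ← mul_pow, ← mul_pow]
      congr 1
      field_simp
    rw [e1, e2, e3, e4, ← e5]
    ring
  have h8 : x ^ ((a - Z) * n) ≤ (1 / r) ^ ((a - Z) * n) * r ^ (D0 + 2) * x ^ (D0 + 2) := by
    have e1 : (a - Z) * n = ((a - Z) * n - (D0 + 2)) + (D0 + 2) := by omega
    have e2 : (1 / r) ^ ((a - Z) * n) * r ^ (D0 + 2) = (1 / r) ^ ((a - Z) * n - (D0 + 2)) := by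
      conv_lhs => rw [e1]
      rw [pow_add, mul_assoc, ← mul_pow, one_div_mul_cancel hr.ne', one_pow, mul_one]
    rw [e2]
    conv_lhs => rw [e1]
    rw [pow_add]
    gcongr
  have h9 : (5 * B * Real.exp 1) ^ (Z * n) * (1 / r) ^ ((a - Z) * n) =
      Real.exp (-((((a : ℝ) - Z) * Real.log r - Z * (Real.log (5 * B) + 1)) * n)) := by
    have e1 : 5 * B * Real.exp 1 = Real.exp (Real.log (5 * B) + 1) := by
      rw [Real.exp_add, Real.exp_log hB0]
    have e2 : 1 / r = Real.exp (-Real.log r) := by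
      rw [Real.exp_neg, Real.exp_log hr, one_div]
    rw [e1, e2, ← Real.exp_nat_mul, ← Real.exp_nat_mul, ← Real.exp_add]
    congr 1
    push_cast [Nat.cast_sub (by omega : Z ≤ a)]
    ring
  have h10 : t ^ D0 * x ^ (D0 + 2) = (n : ℝ) ^ (D0 + 2) * (1 / t ^ 2) := by
    rw [hx, div_pow, pow_add t D0 2]
    field_simp
  calc ((n : ℝ) ^ n) ^ a * ((Real.exp 1) ^ n / (n : ℝ) ^ n) ^ Z * (5 * B * t) ^ d * (1 / t) ^ e2
      ≤ ((n : ℝ) ^ n) ^ a * ((Real.exp 1) ^ n / (n : ℝ) ^ n) ^ Z *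
        ((5 * B * t) ^ (Z * n) * ((5 * B) ^ D0 * t ^ D0)) * (1 / t) ^ (a * n) := by gcongr
    _ = (((n : ℝ) ^ n) ^ a * ((Real.exp 1) ^ n / (n : ℝ) ^ n) ^ Z * (5 * B * t) ^ (Z * n) *
      (1 / t) ^ (a * n)) * ((5 * B) ^ D0 * t ^ D0) := by ring
    _ = (5 * B * Real.exp 1) ^ (Z * n) * x ^ ((a - Z) * n) * ((5 * B) ^ D0 * t ^ D0) := by rw [h7]
    _ ≤ (5 * B * Real.exp 1) ^ (Z * n) * ((1 / r) ^ ((a - Z) * n) * r ^ (D0 + 2) * x ^ (D0 + 2)) *
        ((5 * B) ^ D0 * t ^ D0) := by gcongr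
    _ = ((5 * B * Real.exp 1) ^ (Z * n) * (1 / r) ^ ((a - Z) * n)) * ((5 * B) ^ D0 * r ^ (D0 + 2)) *
        (t ^ D0 * x ^ (D0 + 2)) := by ring
    _ = _ := by rw [h9, h10]; ring

/-- the bound for one term of the series -/
lemma cf_bound (P : Par) (h : P.OK) (hr : 2 ≤ P.r) :
    ∃ C : ℝ, 0 ≤ C ∧ ∃ D n0 : ℕ, 1 ≤ n0 ∧ ∀ n l k m U : ℕ, n0 ≤ n → l ≤ P.L →
    k < 2 * P.κ → 1 ≤ m → m ≤ P.B → P.r * n * m < U →
    |((cf P n l k ((U : ℚ) / m) : ℚ) : ℝ)| ≤
      C * (n : ℝ) ^ D * Real.exp (-(P.al * n)) * (1 / (U : ℝ) ^ 2) := by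
  have hZ := Z_lt P h
  obtain ⟨D0, hD0⟩ : ∃ D0, D0 = 1 + 2 * P.L + 2 * P.κ * P.B := ⟨_, rfl⟩
  obtain ⟨K, hK⟩ : ∃ K, K = 1 + 2 * P.L + P.Z + 2 * P.κ * P.B + 2 * P.a + 2 * P.g + 2 * P.κ :=
    ⟨_, rfl⟩
  refine ⟨(K : ℝ) ^ (2 * P.κ) * ((5 * P.B) ^ D0 * (P.r : ℝ) ^ (D0 + 2)) * (P.B : ℝ) ^ 2,
    by positivity, 2 * P.κ + (D0 + 2), D0 + 2, by omega, ?_⟩
  intro n l k m U hn hl hk hm1 hmB hU
  have hn1 : 1 ≤ n := by omega
  have hn' : (1 : ℝ) ≤ n := by exact_mod_cast hn1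
  have hr' : (2 : ℝ) ≤ P.r := by exact_mod_cast hr
  have hB' : (1 : ℝ) ≤ P.B := by exact_mod_cast h.hB
  have hm' : (1 : ℝ) ≤ m := by exact_mod_cast hm1
  have hmB' : (m : ℝ) ≤ P.B := by exact_mod_cast hmB
  have hU' : (P.r : ℝ) * n * m < U := by exact_mod_cast hU
  have hU0 : (0 : ℝ) < U := lt_of_le_of_lt (by positivity) hU'
  set t : ℝ := (U : ℝ) / m with ht
  have hct : (((U : ℚ) / m : ℚ) : ℝ) = t := by push_cast; rfl
  have htr : (P.r : ℝ) * n < t := by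
    rw [ht, lt_div_iff₀ (by linarith)]; exact hU'
  have ht1 : 1 ≤ t := by nlinarith
  have hmu := sum_mu P n hn1
  have e1 := MB_NP P h hr hct n l hn1 htr
  have e2 := MB_VV P hct n ht1
  rw [hmu] at e2
  have e3 := MB.mul (by norm_num) (by positivity) (by positivity) e1 e2
  have e4 := e3 k
  obtain ⟨e, he⟩ : ∃ e, e = 1 + 2 * l + (P.Z * n + 2 * P.κ * P.B) + (P.a * (n + 1) + 2 * P.g) :=
    ⟨_, rfl⟩
  rw [← he, one_pow, one_mul] at e4
  have hcf : cf P n l k ((U : ℚ) / m) = PowerSeries.coeff k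
      (TS ((U : ℚ) / m) (NP P n l) * VV (Finset.range (n + 1)) (mu P n) ((U : ℚ) / m)) := rfl
  rw [hcf]
  have hekK : e + k ≤ K * n := by
    have q1 : 1 + 2 * l + 2 * P.κ * P.B + P.a + 2 * P.g + k ≤
        (1 + 2 * P.L + 2 * P.κ * P.B + P.a + 2 * P.g + 2 * P.κ) * n := by
      calc 1 + 2 * l + 2 * P.κ * P.B + P.a + 2 * P.g + k ≤
          (1 + 2 * P.L + 2 * P.κ * P.B + P.a + 2 * P.g + 2 * P.κ) * 1 := by omega
        _ ≤ _ := Nat.mul_le_mul_left _ hn1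
    have q2 : K * n = (1 + 2 * P.L + 2 * P.κ * P.B + P.a + 2 * P.g + 2 * P.κ) * n + P.Z * n +
        P.a * n := by rw [hK]; ring
    have q3 : e + k = (1 + 2 * l + 2 * P.κ * P.B + P.a + 2 * P.g + k) + P.Z * n + P.a * n := by
      rw [he]; ring
    rw [q2, q3]
    omega
  have hmc : (Nat.multichoose e k : ℝ) ≤ (K : ℝ) ^ (2 * P.κ) * (n : ℝ) ^ (2 * P.κ) := by
    refine (multichoose_le e k).trans ?_
    have q1 : ((e : ℝ) + k) ≤ K * n := by exact_mod_cast hekK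
    have q2 : (1 : ℝ) ≤ K * n := by
      have : 1 ≤ K * n := Nat.one_le_iff_ne_zero.2 (by
        have : 1 ≤ K := by omega
        positivity)
      exact_mod_cast this
    calc ((e : ℝ) + k) ^ k ≤ (K * n : ℝ) ^ k := by gcongr
      _ ≤ (K * n : ℝ) ^ (2 * P.κ) := pow_le_pow_right₀ q2 hk.le
      _ = _ := by rw [mul_pow]
  have hcore := core (a := P.a) (Z := P.Z) (n := n)
    (d := 1 + 2 * l + (P.Z * n + 2 * P.κ * P.B)) (D0 := D0) (e2 := P.a * (n + 1) + 2 * P.g)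
    (t := t) (r := P.r) (B := P.B) hn1 (by linarith) hB' htr ht1 hZ (by omega) (by omega)
    (by rw [mul_add]; omega) (by
      calc D0 + 2 ≤ n := hn
        _ = 1 * n := (one_mul n).symm
        _ ≤ (P.a - P.Z) * n := Nat.mul_le_mul_right _ (by omega))
  have hfb := fact_bound P.a P.Z n hn1
  have hal : -(P.al * n) = -((((P.a : ℝ) - P.Z) * Real.log P.r -
      P.Z * (Real.log (5 * P.B) + 1)) * n) := rfl
  have ht2 : 1 / t ^ 2 ≤ (P.B : ℝ) ^ 2 * (1 / (U : ℝ) ^ 2) := by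
    rw [ht, div_pow, one_div_div, mul_one_div]
    gcongr
  have hM : ((n.factorial : ℝ) ^ P.a / (n.factorial : ℝ) ^ P.Z) *
        (5 * P.B * t) ^ (1 + 2 * l + (P.Z * n + 2 * P.κ * P.B)) *
        (1 / t) ^ (P.a * (n + 1) + 2 * P.g) ≤
      ((5 * P.B) ^ D0 * (P.r : ℝ) ^ (D0 + 2)) * (n : ℝ) ^ (D0 + 2) * Real.exp (-(P.al * n)) *
        ((P.B : ℝ) ^ 2 * (1 / (U : ℝ) ^ 2)) := by
    calc _ ≤ ((n : ℝ) ^ n) ^ P.a * ((Real.exp 1) ^ n / (n : ℝ) ^ n) ^ P.Z *
        (5 * P.B * t) ^ (1 + 2 * l + (P.Z * n + 2 * P.κ * P.B)) *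
        (1 / t) ^ (P.a * (n + 1) + 2 * P.g) := by gcongr
      _ ≤ _ := hcore
      _ ≤ _ := by
        rw [← hal]
        gcongr
  calc _ ≤ _ := e4
    _ ≤ (((5 * P.B) ^ D0 * (P.r : ℝ) ^ (D0 + 2)) * (n : ℝ) ^ (D0 + 2) * Real.exp (-(P.al * n)) *
        ((P.B : ℝ) ^ 2 * (1 / (U : ℝ) ^ 2))) * ((K : ℝ) ^ (2 * P.κ) * (n : ℝ) ^ (2 * P.κ)) := by
        apply mul_le_mul hM hmc (by positivity) (by positivity)
    _ = _ := by rw [pow_add (n : ℝ) (2 * P.κ) (D0 + 2)]; ring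

end Tail

theorem XX_bound (P : Par) (h : P.OK) (hr : 2 ≤ P.r) : ∃ C : ℝ, ∃ D n0 : ℕ, ∀ n l k m : ℕ, n0 ≤ n →
    l ≤ P.L → k < 2 * P.κ → 1 ≤ m → m ≤ P.B →
    (HasSum (fun u : ℕ => ((cf P n l k (((u : ℚ) + 1) / m) : ℚ) : ℝ)) (XX P n l k m)) →
    |XX P n l k m| ≤ C * (n : ℝ) ^ D * Real.exp (-(P.al * n)) := by
  obtain ⟨C, hC, D, n0, hn0, hb⟩ := Tail.cf_bound P h hr
  refine ⟨C * zr 2, D, n0, ?_⟩
  intro n l k m hn hl hk hm1 hmB hsum
  have hz : HasSum (fun t : ℕ => 1 / ((t : ℝ) + 1) ^ 2) (zr 2) := (summable_zr le_rfl).hasSum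
  have hg := hz.mul_left (C * (n : ℝ) ^ D * Real.exp (-(P.al * n)))
  have hterm : ∀ u : ℕ, ‖((cf P n l k (((u : ℚ) + 1) / m) : ℚ) : ℝ)‖ ≤
      C * (n : ℝ) ^ D * Real.exp (-(P.al * n)) * (1 / ((u : ℝ) + 1) ^ 2) := by
    intro u
    rw [Real.norm_eq_abs]
    by_cases hu : u + 1 ≤ P.r * n * m
    · have h0 := cf_zero P n l k m (u + 1 : ℤ) hm1 hmB hk (by
        have : (0 : ℤ) ≤ (((P.r + 1) * n * m : ℕ) : ℤ) := by positivity
        have : (0 : ℤ) ≤ u := by positivity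
        omega) (by exact_mod_cast hu)
      have h1 : (((u + 1 : ℤ) : ℚ)) / m = ((u : ℚ) + 1) / m := by push_cast; rfl
      rw [h1] at h0
      rw [h0]
      simp only [Rat.cast_zero, abs_zero]
      positivity
    · have h0 := hb n l k m (u + 1) hn hl hk hm1 hmB (by omega)
      push_cast at h0
      exact h0
  rw [← hsum.tsum_eq]
  have := tsum_of_norm_bounded hg hterm
  rw [Real.norm_eq_abs] at this
  refine this.trans (le_of_eq ?_)
  ring

end

end Pool.Agent.H513R2.OZ
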