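import Pool.Agent.H513R2.OZ.AsmD
import Pool.Agent.H513R2.OZ.Basics
import Pool.Agent.H513R2.OZ.LinForm
import Pool.Agent.H513R2.OZ.PcBound
import Pool.Agent.H513R2.OZ.Tail
import Pool.Agent.H513R2.OZ.PcNorm
import Pool.Agent.H513R2.OZ.R0Norm
import Pool.Agent.H513R2.OZ.Dl
import Pool.Agent.H513R2.OZ.PcEnd
import Pool.Agent.H513R2.OZ.PcMid
import Pool.Agent.H513R2.OZ.Lift
import Pool.Agent.H513R2.OZ.N1
import Pool.Agent.H513R2.OZ.Duality
import Pool.Agent.H513R2.OZ.Rigidity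
import Pool.Agent.H513R2.OZ.Sep

/-!
# Assembly, part E: the theorem
-/

open Polynomial Filter Topology Matrix

namespace Pool.Agent.H513R2.OZ

open Pool.Agent.H337R2

noncomputable section

theorem zeroEst (P : Par) (h : P.OK) : ZeroEst P := by
  intro x y hxy
  obtain ⟨N1, hN, hsym, hN0, hdeg, hr1, hr2⟩ := exists_N1 P h
  obtain ⟨E1, hE, hEd, hco⟩ := duality P h N1 hN hsym hN0 x y hxy
  exact rigidity P h N1 E1 hsym hN0 hdeg hr1 hr2 hE hEd x y hco

theorem liftSt (P : Par) (h : P.OK) : LiftSt P := rh_lift P h (pc_end P h) (pc_mid P h)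

theorem intCrit : IntCrit := int_of_norm

theorem pcNormSt (P : Par) (h : P.OK) : PcNormSt P :=
  fun p _ n l j i hn hj hi => pc_norm P h p n l j i hn hj hi

theorem r0NormSt (P : Par) (h : P.OK) : R0NormSt P := by
  intro p _ n l k m hn hl hk hk2 hm1 hm
  exact r0_norm P h p n l k m hn hl hk hk2 hm1 hm
    (fun j i hj hi => pc_norm P h p n l j i hn hj hi) (natDegree_NP P h n l hn hl)
    (fun u hu1 hu2 => cf_zero P n l k m u hm1 hm hk hu1 hu2)

theorem xxBoundSt (P : Par) (h : P.OK) (hr : 2 ≤ P.r) : XXBoundSt P := by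
  obtain ⟨C, D, n0, hb⟩ := XX_bound P h hr
  refine ⟨C, D, max n0 1, fun n l k m hn hl hk hk2 hm1 hm => ?_⟩
  exact hb n l k m ((le_max_left _ _).trans hn) hl hk hm1 hm
    (lin_form P h n l k m ((le_max_right _ _).trans hn) hl hk2 hm1
      (natDegree_NP P h n l ((le_max_right _ _).trans hn) hl))

/-- the odd `j` with `ζ(j)` irrational -/
def JJ : Set ℕ := {j : ℕ | Odd j ∧ Irrational (zr j)}

open scoped Classical in
/-- many `i` such that one of `ζ(i), ζ(i+2), ..., ζ(i+2κ-2)` is irrational -/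
theorem card_gt (P : Par) (h : P.OK) (hr : 2 ≤ P.r)
    (hal : P.be + 3 / 2 * (3 * (P.A : ℝ) + 4 * P.g + 2 * P.κ) < P.al)
    (s : ℕ) (hs : P.Ae + 2 * P.κ ≤ s) :
    P.κ * P.B < ((Finset.Icc 3 s).filter fun i => Odd i ∧ ∃ k < P.κ, i + 2 * k ≤ s ∧
      i + 2 * k ∈ JJ).card := by
  set I0 := (OI P).filter (fun i => ∃ k < P.κ, Irrational (zr (i + 2 * k))) with hI0
  let q : ℕ → ℚ := fun j => if hj : ∃ r : ℚ, zr j = (r : ℝ) then Classical.choose hj else 0
  have hq : ∀ i ∈ OI P \ I0, ∀ k < P.κ, zr (i + 2 * k) = ((q (i + 2 * k) : ℚ) : ℝ) := by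
    intro i hi k hk
    rw [Finset.mem_sdiff] at hi
    have h1 : ¬ Irrational (zr (i + 2 * k)) := by
      intro hc
      exact hi.2 (Finset.mem_filter.mpr ⟨hi.1, k, hk, hc⟩)
    unfold Irrational at h1
    rw [not_not] at h1
    obtain ⟨r, hr⟩ := h1
    have h2 : ∃ r : ℚ, zr (i + 2 * k) = (r : ℝ) := ⟨r, hr.symm⟩
    simp only [q, h2, dite_true]
    exact Classical.choose_spec h2
  have hmain := main_ineq P h (zeroEst P h) (liftSt P h) intCrit (pcNormSt P h) (r0NormSt P h)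
    (pc_bound P h) (xxBoundSt P h hr) dl_bound hal I0 (Finset.filter_subset _ _) q hq
  refine hmain.trans_le (Finset.card_le_card ?_)
  intro i hi
  rw [hI0, Finset.mem_filter] at hi
  obtain ⟨hi1, k, hk, hirr⟩ := hi
  simp only [OI, Finset.mem_filter, Finset.mem_Icc] at hi1
  rw [Finset.mem_filter, Finset.mem_Icc]
  refine ⟨⟨hi1.1.1, by omega⟩, hi1.2, k, hk, by omega, ?_, hirr⟩
  obtain ⟨t, ht⟩ := hi1.2
  exact ⟨t + k, by omega⟩

theorem sB_eq (B : ℕ) : 2 * sB B = B * (B + 1) := by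
  induction B with
  | zero => simp [sB]
  | succ B ih =>
    have : sB (B + 1) = sB B + (B + 1) := by
      unfold sB
      rw [Finset.sum_Icc_succ_top (by omega)]
    rw [this]
    linarith

/-- the choice of the parameters -/
def PP (κ B : ℕ) : Par where
  κ := κ
  B := 2 * B
  r := 500
  a := 40 * (2 * κ * ((2 * 500 + 3) * sB (2 * B)) + 2) * (1 + Nat.log 2 B)
  g := 2 * κ * ((2 * 500 + 3) * sB (2 * B)) + 2

theorem PP_OK (κ B : ℕ) (hκ : 1 ≤ κ) (hB : 1 ≤ B) : (PP κ B).OK where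
  hκ := hκ
  hB := by show 1 ≤ 2 * B; omega
  hr := by show 1 ≤ 500; omega
  ha := by
    show Even (40 * (2 * κ * ((2 * 500 + 3) * sB (2 * B)) + 2) * (1 + Nat.log 2 B))
    rw [mul_assoc]
    exact Even.mul_right ⟨20, rfl⟩ _
  hg := rfl
  hag := by
    show 20 * (2 * κ * ((2 * 500 + 3) * sB (2 * B)) + 2) ≤
      40 * (2 * κ * ((2 * 500 + 3) * sB (2 * B)) + 2) * (1 + Nat.log 2 B)
    set G := 2 * κ * ((2 * 500 + 3) * sB (2 * B)) + 2
    nlinarith [Nat.zero_le (Nat.log 2 B), Nat.zero_le G, Nat.zero_le (G * Nat.log 2 B)]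

theorem PP_num (κ B : ℕ) (hκ : 1 ≤ κ) (hB : 1 ≤ B) :
    (PP κ B).be + 3 / 2 * (3 * ((PP κ B).A : ℝ) + 4 * (PP κ B).g + 2 * (PP κ B).κ) <
      (PP κ B).al := by
  set G : ℕ := 2 * κ * ((2 * 500 + 3) * sB (2 * B)) + 2 with hG
  set lam : ℕ := 1 + Nat.log 2 B with hlam
  have hlog2 : Real.log 2 < 0.6932 := by
    have := Real.log_two_lt_d9; linarith
  have hlog2' : 0.6931 < Real.log 2 := by
    have := Real.log_two_gt_d9; linarith
  have hlam1 : (1 : ℝ) ≤ lam := by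
    have : 1 ≤ lam := by omega
    exact_mod_cast this
  have hBR : (1 : ℝ) ≤ B := by exact_mod_cast hB
  -- logs
  have l500 : Real.log 500 ≤ 9 * Real.log 2 := by
    have h1 : (9 : ℝ) * Real.log 2 = Real.log (2 ^ 9) := by
      rw [Real.log_pow]; norm_num
    rw [h1]
    exact Real.log_le_log (by norm_num) (by norm_num)
  have l500' : 8.9 * Real.log 2 ≤ Real.log 500 := by
    have h1 : (89 : ℝ) * Real.log 2 = Real.log (2 ^ 89) := by
      rw [Real.log_pow]; norm_num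
    have h2 : (10 : ℝ) * Real.log 500 = Real.log (500 ^ 10) := by
      rw [Real.log_pow]; norm_num
    have h3 : Real.log ((2 : ℝ) ^ 89) ≤ Real.log ((500 : ℝ) ^ 10) :=
      Real.log_le_log (by norm_num) (by norm_num)
    linarith
  have l5 : Real.log 5 ≤ 3 * Real.log 2 := by
    have h1 : (3 : ℝ) * Real.log 2 = Real.log (2 ^ 3) := by
      rw [Real.log_pow]; norm_num
    rw [h1]
    exact Real.log_le_log (by norm_num) (by norm_num)
  have l502 : Real.log 502 ≤ 9 * Real.log 2 := by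
    have h1 : (9 : ℝ) * Real.log 2 = Real.log (2 ^ 9) := by
      rw [Real.log_pow]; norm_num
    rw [h1]
    exact Real.log_le_log (by norm_num) (by norm_num)
  have lB : Real.log B ≤ lam * Real.log 2 := by
    rw [← Real.log_pow]
    apply Real.log_le_log (by linarith)
    have h1 : B < 2 ^ (Nat.log 2 B + 1) := Nat.lt_pow_succ_log_self (by norm_num) B
    have h2 : B ≤ 2 ^ lam := by rw [hlam, add_comm 1]; exact h1.le
    exact_mod_cast h2
  -- the parameters
  have ha : ((PP κ B).a : ℝ) = 40 * G * lam := by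
    have : (PP κ B).a = 40 * G * lam := rfl
    rw [this]; push_cast; ring
  have hg : ((PP κ B).g : ℝ) = G := rfl
  have hA : ((PP κ B).A : ℝ) = 40 * G * lam + G := by
    have : (PP κ B).A = (PP κ B).a + (PP κ B).g := rfl
    rw [this, Nat.cast_add, ha, hg]
  have hZ : ((PP κ B).Z : ℝ) ≤ G := by
    have : (PP κ B).Z ≤ G := by
      show 2 * κ * ((2 * 500 + 1) * sB (2 * B)) ≤ 2 * κ * ((2 * 500 + 3) * sB (2 * B)) + 2
      have h1 : 2 * κ * ((2 * 500 + 1) * sB (2 * B)) ≤ 2 * κ * ((2 * 500 + 3) * sB (2 * B)) := by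
        gcongr
        omega
      omega
    exact_mod_cast this
  have hZ0 : (0 : ℝ) ≤ ((PP κ B).Z : ℝ) := by positivity
  have hκG : ((PP κ B).κ : ℝ) ≤ G := by
    have : κ ≤ G := by
      have h0 : 1 ≤ sB (2 * B) := by
        have := sB_eq (2 * B)
        nlinarith
      have h1 : κ * 1 ≤ 2 * κ * ((2 * 500 + 3) * sB (2 * B)) := by
        rw [show 2 * κ * ((2 * 500 + 3) * sB (2 * B)) = κ * (2 * ((2 * 500 + 3) * sB (2 * B))) by ring]
        gcongr
        omega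
      omega
    exact_mod_cast this
  have hG1 : (1 : ℝ) ≤ G := by
    have : 1 ≤ G := by omega
    exact_mod_cast this
  have e5 : Real.log (5 * ((PP κ B).B : ℝ)) ≤ (4 + lam) * Real.log 2 := by
    have : ((PP κ B).B : ℝ) = 2 * B := by
      have : (PP κ B).B = 2 * B := rfl
      rw [this]; push_cast; ring
    rw [this, Real.log_mul (by norm_num) (by positivity), Real.log_mul (by norm_num) (by positivity)]
    linarith
  have e502 : Real.log ((((PP κ B).r : ℝ) + 2) * ((PP κ B).B : ℝ)) ≤ (10 + lam) * Real.log 2 := by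
    have h1 : ((PP κ B).B : ℝ) = 2 * B := by
      have : (PP κ B).B = 2 * B := rfl
      rw [this]; push_cast; ring
    have h2 : ((PP κ B).r : ℝ) + 2 = 502 := by
      have : (PP κ B).r = 500 := rfl
      rw [this]; norm_num
    rw [h1, h2, Real.log_mul (by norm_num) (by positivity), Real.log_mul (by norm_num) (by positivity)]
    linarith
  have er : Real.log ((PP κ B).r : ℝ) = Real.log 500 := by
    have : (PP κ B).r = 500 := rfl
    rw [this]; norm_num
  unfold Par.be Par.al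
  rw [ha, hA, hg, er]
  set Z : ℝ := ((PP κ B).Z : ℝ)
  set K : ℝ := ((PP κ B).κ : ℝ)
  set x5 : ℝ := Real.log (5 * ((PP κ B).B : ℝ))
  set x502 : ℝ := Real.log ((((PP κ B).r : ℝ) + 2) * ((PP κ B).B : ℝ))
  set y : ℝ := Real.log 500
  set t : ℝ := Real.log 2
  -- bound of the terms with `Z`
  have hzt : Z * (y + x5 + x502 + 2) ≤ G * (19.4 * lam) := by
    have h1 : y + x5 + x502 + 2 ≤ 19.4 * lam := by
      have : y + x5 + x502 ≤ (23 + 2 * lam) * t := by linarith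
      have h2 : (23 + 2 * (lam : ℝ)) * t ≤ (25 * lam) * t := by
        have ht : 0 ≤ t := by linarith
        have : (23 + 2 * (lam : ℝ)) ≤ 25 * lam := by linarith
        exact mul_le_mul_of_nonneg_right this ht
      have h3 : (25 * (lam : ℝ)) * t ≤ (25 * lam) * 0.6932 :=
        mul_le_mul_of_nonneg_left hlog2.le (by positivity)
      nlinarith
    have h2 : 0 ≤ 19.4 * (lam : ℝ) := by positivity
    calc Z * (y + x5 + x502 + 2) ≤ Z * (19.4 * lam) := mul_le_mul_of_nonneg_left h1 hZ0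
      _ ≤ G * (19.4 * lam) := mul_le_mul_of_nonneg_right hZ h2
  have hGl : (G : ℝ) ≤ G * lam := le_mul_of_one_le_right (by positivity) hlam1
  have hpos : 0 < (G : ℝ) * lam := by positivity
  have hy : 40 * (G : ℝ) * lam * (y - t - 4.5) ≥ 40 * (G : ℝ) * lam * 0.97 := by
    have : y - t - 4.5 ≥ 0.97 := by linarith
    exact mul_le_mul_of_nonneg_left this (by positivity)
  nlinarith

theorem PP_Ae (κ B : ℕ) (hκ : 1 ≤ κ) (hB : 1 ≤ B) :
    (PP κ B).Ae + 2 * (PP κ B).κ ≤ 252840 * κ * B ^ 2 * (1 + Nat.log 2 B) := by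
  show 40 * (2 * κ * ((2 * 500 + 3) * sB (2 * B)) + 2) * (1 + Nat.log 2 B) +
    (2 * κ * ((2 * 500 + 3) * sB (2 * B)) + 2) - 2 * κ * (2 * B) + 2 * κ ≤ _
  have h1 := sB_eq (2 * B)
  have h2 : sB (2 * B) ≤ 3 * B ^ 2 := by nlinarith
  set G : ℕ := 2 * κ * ((2 * 500 + 3) * sB (2 * B)) + 2 with hG
  have hG2 : G ≤ 6020 * κ * B ^ 2 := by
    have h3 : 2 * κ * ((2 * 500 + 3) * sB (2 * B)) ≤ 2 * κ * ((2 * 500 + 3) * (3 * B ^ 2)) := by
      gcongr
    have h4 : 1 ≤ κ * B ^ 2 := Nat.mul_pos hκ (by positivity)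
    calc G ≤ 2 * κ * ((2 * 500 + 3) * (3 * B ^ 2)) + 2 * (κ * B ^ 2) := by omega
      _ = 6020 * κ * B ^ 2 := by ring
  have h5 : 2 * κ ≤ G := by
    have h6 : 1 ≤ sB (2 * B) := by nlinarith
    have h7 : 2 * κ * 1 ≤ 2 * κ * ((2 * 500 + 3) * sB (2 * B)) := by
      gcongr
      omega
    omega
  have h8 : G ≤ G * (1 + Nat.log 2 B) := Nat.le_mul_of_pos_right _ (by omega)
  calc 40 * G * (1 + Nat.log 2 B) + G - 2 * κ * (2 * B) + 2 * κ
      ≤ 40 * G * (1 + Nat.log 2 B) + G + 2 * κ := by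
        have := Nat.sub_le (40 * G * (1 + Nat.log 2 B) + G) (2 * κ * (2 * B))
        exact Nat.add_le_add_right this _
    _ ≤ 42 * G * (1 + Nat.log 2 B) := by
        have h6 : 42 * G * (1 + Nat.log 2 B) = 40 * G * (1 + Nat.log 2 B) +
          G * (1 + Nat.log 2 B) + G * (1 + Nat.log 2 B) := by ring
        omega
    _ ≤ 42 * (6020 * κ * B ^ 2) * (1 + Nat.log 2 B) := by gcongr
    _ = 252840 * κ * B ^ 2 * (1 + Nat.log 2 B) := by ring

/-- **Theorem.** -/
theorem main (κ B s : ℕ) (hκ : 1 ≤ κ) (hB : 1 ≤ B)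
    (hs : 252840 * κ * B ^ 2 * (1 + Nat.log 2 B) ≤ s) :
    ∃ S : Finset ℕ, S.card = B ∧ (∀ i ∈ S, Odd i ∧ 3 ≤ i ∧ i ≤ s ∧
      Irrational (∑' t : ℕ, 1 / ((t : ℝ) + 1) ^ i)) ∧
      ∀ i ∈ S, ∀ j ∈ S, i < j → i + 2 * κ ≤ j := by
  classical
  have h1 := card_gt (PP κ B) (PP_OK κ B hκ hB) (by show 2 ≤ 500; norm_num) (PP_num κ B hκ hB) s
    ((PP_Ae κ B hκ hB).trans hs)
  obtain ⟨S, hS1, hS2, hS3⟩ := separated JJ κ B s hκ
    (fun j hj => hj.1) (by
      have e : 2 * κ * B = (PP κ B).κ * (PP κ B).B := by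
        show 2 * κ * B = κ * (2 * B)
        ring
      rw [e]
      exact h1)
  refine ⟨S, hS1, fun i hi => ?_, hS3⟩
  obtain ⟨h2, h3, h4⟩ := hS2 i hi
  exact ⟨h2.1, h3, h4, h2.2⟩

end

end Pool.Agent.H513R2.OZ
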