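import Mathlib

/-!
# Linear algebra and `p`-adic determinants
-/

namespace Pool.Agent.H513R2.OZ

open Matrix

/-- independent rows have a non-vanishing square minor -/
theorem choose_cols {ρ : Type*} [Fintype ρ] [DecidableEq ρ] {N : ℕ} (M : ρ → Fin N → ℚ)
    (h : LinearIndependent ℚ M) :
    ∃ c : ρ → Fin N, (Matrix.of fun i j => M i (c j)).det ≠ 0 := by
  classical
  -- columns
  let v : Fin N → (ρ → ℚ) := fun j i => M i j
  have hrank : (Matrix.of M).rank = Fintype.card ρ := LinearIndependent.rank_matrix h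
  have hspan : Submodule.span ℚ (Set.range v) = ⊤ := by
    apply Submodule.eq_top_of_finrank_eq
    rw [Module.finrank_fintype_fun_eq_card, ← hrank, Matrix.rank_eq_finrank_span_cols]
    rfl
  obtain ⟨κ, a, ha, hs, hli⟩ := exists_linearIndependent' ℚ v
  haveI : Finite κ := Finite.of_injective a ha
  haveI : Fintype κ := Fintype.ofFinite κ
  have hcard : Fintype.card κ = Fintype.card ρ := by
    have h1 := finrank_span_eq_card hli
    rw [hs, hspan, finrank_top, Module.finrank_fintype_fun_eq_card] at h1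
    exact h1.symm
  obtain e : ρ ≃ κ := (Fintype.equivOfCardEq hcard).symm
  refine ⟨fun i => a (e i), ?_⟩
  have h2 : LinearIndependent ℚ (fun i : ρ => v (a (e i))) := hli.comp e e.injective
  have h3 : IsUnit (Matrix.of fun i j => M i (a (e j))) := by
    rw [← Matrix.linearIndependent_cols_iff_isUnit]
    exact h2
  rw [Matrix.isUnit_iff_isUnit_det] at h3
  exact h3.ne_zero

variable {p : ℕ} [hp : Fact p.Prime]

theorem padic_prod_congr {ι : Type*} (s : Finset ι) (a b : ι → ℚ)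
    (hb : ∀ i ∈ s, padicNorm p (b i) ≤ 1)
    (hab : ∀ i ∈ s, padicNorm p (a i - b i) ≤ (p : ℚ)⁻¹) :
    padicNorm p (∏ i ∈ s, b i) ≤ 1 ∧
    padicNorm p (∏ i ∈ s, a i - ∏ i ∈ s, b i) ≤ (p : ℚ)⁻¹ := by
  classical
  induction s using Finset.induction_on with
  | empty => simp
  | insert i s hi ih =>
    have ih' := ih (fun j hj => hb j (Finset.mem_insert_of_mem hj))
      (fun j hj => hab j (Finset.mem_insert_of_mem hj))
    have hb' := hb i (Finset.mem_insert_self i s)
    have hab' := hab i (Finset.mem_insert_self i s)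
    have hp1 : (1 : ℚ) < p := by exact_mod_cast hp.out.one_lt
    have hpi : (p : ℚ)⁻¹ ≤ 1 := by
      rw [inv_le_one₀ (by linarith)]; linarith
    have hpi0 : (0 : ℚ) ≤ (p : ℚ)⁻¹ := by positivity
    rw [Finset.prod_insert hi, Finset.prod_insert hi]
    constructor
    · rw [padicNorm.mul]
      exact mul_le_one₀ hb' (padicNorm.nonneg _) ih'.1
    · have hA : padicNorm p (a i) ≤ 1 := by
        have : a i = (a i - b i) + b i := by ring
        rw [this]
        refine (padicNorm.nonarchimedean).trans (max_le (hab'.trans hpi) hb')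
      have hsplit : a i * ∏ j ∈ s, a j - b i * ∏ j ∈ s, b j
          = a i * (∏ j ∈ s, a j - ∏ j ∈ s, b j) + (a i - b i) * ∏ j ∈ s, b j := by ring
      rw [hsplit]
      refine (padicNorm.nonarchimedean).trans (max_le ?_ ?_)
      · rw [padicNorm.mul]
        calc padicNorm p (a i) * padicNorm p (∏ j ∈ s, a j - ∏ j ∈ s, b j)
            ≤ 1 * (p : ℚ)⁻¹ := mul_le_mul hA ih'.2 (padicNorm.nonneg _) (by norm_num)
          _ = _ := one_mul _
      · rw [padicNorm.mul]
        calc padicNorm p (a i - b i) * padicNorm p (∏ j ∈ s, b j)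
            ≤ (p : ℚ)⁻¹ * 1 := mul_le_mul hab' ih'.1 (padicNorm.nonneg _) hpi0
          _ = _ := mul_one _

theorem padic_det_congr {ρ : Type*} [Fintype ρ] [DecidableEq ρ] (a b : Matrix ρ ρ ℚ)
    (hb : ∀ i j, padicNorm p (b i j) ≤ 1)
    (hab : ∀ i j, padicNorm p (a i j - b i j) ≤ (p : ℚ)⁻¹) :
    padicNorm p (a.det - b.det) ≤ (p : ℚ)⁻¹ := by
  have hpi0 : (0 : ℚ) ≤ (p : ℚ)⁻¹ := by positivity
  rw [Matrix.det_apply, Matrix.det_apply, ← Finset.sum_sub_distrib]
  apply padicNorm.sum_le' _ hpi0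
  intro σ _
  have h := (padic_prod_congr (p := p) Finset.univ (fun i => a (σ i) i) (fun i => b (σ i) i)
    (fun i _ => hb _ _) (fun i _ => hab _ _)).2
  rw [← smul_sub]
  rcases Int.units_eq_one_or (Equiv.Perm.sign σ) with h1 | h1
  · rw [h1, one_smul]; exact h
  · rw [h1, Units.neg_smul, one_smul, padicNorm.neg]; exact h

theorem padic_large (x : ℚ) : ∃ p0 : ℕ, ∀ q : ℕ, q.Prime → p0 ≤ q →
    padicNorm q x ≤ 1 ∧ (x ≠ 0 → padicNorm q x = 1) := by
  refine ⟨x.num.natAbs + x.den + 1, fun q hq hq0 => ?_⟩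
  haveI : Fact q.Prime := ⟨hq⟩
  have hden : padicNorm q (x.den : ℚ) = 1 := by
    rw [padicNorm.nat_eq_one_iff]
    intro hd
    have := Nat.le_of_dvd x.den_pos hd
    omega
  have hx : x = (x.num : ℚ) / (x.den : ℚ) := (Rat.num_div_den x).symm
  constructor
  · rw [hx, padicNorm.div, hden, div_one]
    exact padicNorm.of_int _
  · intro hx0
    rw [hx, padicNorm.div, hden, div_one, padicNorm.int_eq_one_iff]
    intro hd
    have hn : x.num ≠ 0 := Rat.num_ne_zero.mpr hx0
    have h1 := Int.natAbs_dvd_natAbs.mpr hd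
    have h2 := Nat.le_of_dvd (Int.natAbs_pos.mpr hn) h1
    simp at h2
    omega

theorem padic_large_fin {ι : Type*} (s : Finset ι) (x : ι → ℚ) : ∃ p0 : ℕ, ∀ q : ℕ, q.Prime →
    p0 ≤ q → ∀ i ∈ s, padicNorm q (x i) ≤ 1 := by
  classical
  induction s using Finset.induction_on with
  | empty => exact ⟨0, fun q _ _ i hi => by simp at hi⟩
  | insert i s hi ih =>
    obtain ⟨p0, h0⟩ := ih
    obtain ⟨p1, h1⟩ := padic_large (x i)
    refine ⟨max p0 p1, fun q hq hq0 j hj => ?_⟩
    rcases Finset.mem_insert.mp hj with rfl | hj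
    · exact (h1 q hq ((le_max_right _ _).trans hq0)).1
    · exact h0 q hq ((le_max_left _ _).trans hq0) j hj

/-- a matrix congruent modulo large primes to a non-singular one is non-singular -/
theorem det_ne_zero_of_congr {ρ : Type*} [Fintype ρ] [DecidableEq ρ] (b : Matrix ρ ρ ℚ)
    (hb : b.det ≠ 0) : ∃ p0 : ℕ, ∀ q : ℕ, q.Prime → p0 ≤ q → ∀ a : Matrix ρ ρ ℚ,
    (∀ i j, padicNorm q (a i j - b i j) ≤ (q : ℚ)⁻¹) → a.det ≠ 0 := by
  obtain ⟨p1, h1⟩ := padic_large b.det
  obtain ⟨p2, h2⟩ := padic_large_fin (Finset.univ : Finset (ρ × ρ)) (fun x => b x.1 x.2)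
  refine ⟨max p1 p2, fun q hq hq0 a ha => ?_⟩
  haveI : Fact q.Prime := ⟨hq⟩
  have h3 := (h1 q hq ((le_max_left _ _).trans hq0)).2 hb
  have h4 := padic_det_congr (p := q) a b
    (fun i j => h2 q hq ((le_max_right _ _).trans hq0) (i, j) (Finset.mem_univ _)) ha
  intro h5
  rw [h5, zero_sub, padicNorm.neg, h3] at h4
  have : (q : ℚ)⁻¹ < 1 := by
    rw [inv_lt_one₀ (by exact_mod_cast hq.pos)]
    exact_mod_cast hq.one_lt
  linarith

end Pool.Agent.H513R2.OZ
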