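import Pool.Agent.H337R2.PAdic

/-!
# Irrational odd zeta values at well separated places: definitions

All rational functions have poles at `0, -1, ..., -n`; the numerator is `NP P n l` and the
multiplicity of the (formal) pole at `-k` is `mu P n k`.
-/

open Polynomial

namespace Pool.Agent.H513R2.OZ

open Pool.Agent.H337R2

noncomputable section

/-- the parameters: `κ` derivatives, dilations `1, ..., B`, length `r` of the range of zeros,
multiplicity `a` of the poles, additional multiplicity `g` of the two extreme poles -/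
structure Par where
  κ : ℕ
  B : ℕ
  r : ℕ
  a : ℕ
  g : ℕ

/-- `1 + 2 + ... + B` -/
def sB (B : ℕ) : ℕ := ∑ m ∈ Finset.Icc 1 B, m

/-- maximal order of a pole -/
def Par.A (P : Par) : ℕ := P.a + P.g

/-- number of zeros per unit length -/
def Par.Z (P : Par) : ℕ := 2 * P.κ * ((2 * P.r + 1) * sB P.B)

/-- the last index of the columns -/
def Par.L (P : Par) : ℕ := P.a / 2 + P.g - P.κ * P.B - 1

/-- true maximal order of a pole -/
def Par.Ae (P : Par) : ℕ := P.a + P.g - 2 * P.κ * P.B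

/-- conditions on the parameters -/
structure Par.OK (P : Par) : Prop where
  hκ : 1 ≤ P.κ
  hB : 1 ≤ P.B
  hr : 1 ≤ P.r
  ha : Even P.a
  hg : P.g = 2 * P.κ * ((2 * P.r + 3) * sB P.B) + 2
  hag : 20 * P.g ≤ P.a

/-- the product of the `m X - u`, `-(r+1) n m ≤ u ≤ r n m` -/
def PM (r m n : ℕ) : ℚ[X] :=
  ∏ v ∈ Finset.range ((2 * r + 1) * n * m + 1),
    (C (m : ℚ) * X + C ((((r + 1) * n * m : ℕ) : ℚ) - (v : ℚ)))

/-- normalising constant -/
def cst (P : Par) (n : ℕ) : ℚ := (n.factorial : ℚ) ^ P.a / (n.factorial : ℚ) ^ P.Z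

/-- the numerator -/
def NP (P : Par) (n l : ℕ) : ℚ[X] :=
  C (cst P n) * (C 2 * X + C (n : ℚ)) * (X * (X + C (n : ℚ))) ^ l *
    ∏ m ∈ Finset.Icc 1 P.B, (PM P.r m n) ^ (2 * P.κ)

/-- multiplicities of the poles `-k`, `0 ≤ k ≤ n` -/
def mu (P : Par) (n k : ℕ) : ℕ := if k = 0 ∨ k = n then P.a + P.g else P.a

/-- coefficient of `1/(X+j)^i` in the partial fraction expansion -/
def pc (P : Par) (n l j i : ℕ) : ℚ := pa (Finset.range (n + 1)) (mu P n) (NP P n l) j i

/-- coefficient of `ζ(i + ·)` -/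
def rh (P : Par) (n l i : ℕ) : ℚ := ∑ j ∈ Finset.range (n + 1), pc P n l j i

/-- the rational part (the linear form is `∑ ... ζ - r0`) -/
def r0 (P : Par) (n l k m : ℕ) : ℚ :=
  ∑ i ∈ Finset.Icc 1 P.A, (Nat.choose (i - 1 + k) (i - 1) : ℚ) * (m : ℚ) ^ (i + k) *
    ∑ j ∈ Finset.range (n + 1), pc P n l j i * hs (i + k) (m * j)

/-- `k`-th Taylor coefficient of the rational function at `c` -/
def cf (P : Par) (n l k : ℕ) (c : ℚ) : ℚ :=
  PowerSeries.coeff k (RS (Finset.range (n + 1)) (mu P n) (NP P n l) c)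

/-- the linear form -/
def XX (P : Par) (n l k m : ℕ) : ℝ :=
  (∑ i ∈ Finset.Icc 1 P.A, (Nat.choose (i - 1 + k) (i - 1) : ℝ) * (m : ℝ) ^ (i + k) *
    ((rh P n l i : ℚ) : ℝ) * zr (i + k)) - ((r0 P n l k m : ℚ) : ℝ)

/-- `lcm(1, ..., n)` -/
def dl (n : ℕ) : ℕ := (Finset.Icc 1 n).lcm id

/-- the `p`-adic radius of `lcm(1..n)`: `p ^ (v_p (lcm(1..n)))` -/
def rp (p n : ℕ) : ℚ := (padicNorm p (dl n : ℚ))⁻¹

/-- exponential smallness of the linear forms -/
def Par.al (P : Par) : ℝ :=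
  ((P.a : ℝ) - P.Z) * Real.log P.r - P.Z * (Real.log (5 * P.B) + 1)

/-- exponential size of the coefficients -/
def Par.be (P : Par) : ℝ :=
  (P.a : ℝ) * Real.log 2 + P.Z * (Real.log ((P.r + 2) * P.B) + 1)

/-- the exponent of `p` in the `p`-adic leading terms, for `n = p` -/
def Par.E (P : Par) (l : ℕ) : ℤ := 1 + 2 * l + 2 * P.κ * P.B - P.a - 2 * P.g

end

end Pool.Agent.H513R2.OZ
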