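import Pool.Agent.H513R2.OZ.Defs

/-! Majorants: stub version (the proofs are task T3a, file Maj.lean, same statements in namespace `Pool.Agent.H513R2.OZ`). -/

open Polynomial

namespace Pool.Agent.H513R2.OZ.MajStubs

open Pool.Agent.H337R2 Pool.Agent.H513R2.OZ

noncomputable section

/-- `f` is majorised by `M (1 - b X)^(-e)` -/
def MB (b : ℝ) (e : ℕ) (M : ℝ) (f : PowerSeries ℚ) : Prop :=
  ∀ j, |((PowerSeries.coeff j f : ℚ) : ℝ)| ≤ M * (b ^ j * (Nat.multichoose e j : ℝ))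

lemma MB.mul {b M M' : ℝ} {e e' : ℕ} {f g : PowerSeries ℚ} (hb : 0 ≤ b) (hM : 0 ≤ M) (hM' : 0 ≤ M')
    (hf : MB b e M f) (hg : MB b e' M' g) : MB b (e + e') (M * M') (f * g) := by sorry

lemma MB.const {b : ℝ} (c : ℚ) : MB b 0 |(c : ℝ)| (PowerSeries.C c) := by sorry

lemma MB.one {b : ℝ} : MB b 0 1 1 := by sorry

lemma MB.pow {b M : ℝ} {e : ℕ} {f : PowerSeries ℚ} (hb : 0 ≤ b) (hM : 0 ≤ M) (hf : MB b e M f) (n : ℕ) :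
    MB b (n * e) (M ^ n) (f ^ n) := by sorry

lemma MB.prod {ι : Type*} {b : ℝ} (s : Finset ι) (e : ι → ℕ) (M : ι → ℝ) (f : ι → PowerSeries ℚ) (hb : 0 ≤ b)
    (hM : ∀ i ∈ s, 0 ≤ M i) (hf : ∀ i ∈ s, MB b (e i) (M i) (f i)) :
    MB b (∑ i ∈ s, e i) (∏ i ∈ s, M i) (∏ i ∈ s, f i) := by sorry

lemma MB.lin {b M : ℝ} {u c : ℚ} (hc : |(c : ℝ)| ≤ M) (hu : |(u : ℝ)| ≤ M * b) (hb : 0 ≤ b) (hM : 0 ≤ M) :
    MB b 1 M (PowerSeries.C u * PowerSeries.X + PowerSeries.C c) := by sorry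

lemma MB.iv {b : ℝ} {a : ℚ} (ha : a ≠ 0) (hb : 1 ≤ |(a : ℝ)| * b) (hb0 : 0 ≤ b) :
    MB b 1 (1 / |(a : ℝ)|) (iv a) := by sorry

lemma MB.mono {b b' M M' : ℝ} {e e' : ℕ} {f : PowerSeries ℚ} (h : MB b e M f) (hb0 : 0 ≤ b) (hb : b ≤ b')
    (he : e ≤ e') (hM0 : 0 ≤ M) (hM : M ≤ M') : MB b' e' M' f := by sorry

lemma multichoose_le (e j : ℕ) : (Nat.multichoose e j : ℝ) ≤ ((e : ℝ) + j) ^ j := by sorry

end

end Pool.Agent.H513R2.OZ.MajStubs
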