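import Pool.Agent.H513R2.OZ.GG

/-!
# Zero estimate, part C : rigidity
-/

open Polynomial Filter Topology

namespace Pool.Agent.H513R2.OZ

open Pool.Agent.H337R2

noncomputable section

/-! ### analytic lemmas -/

/-- a singular part which is bounded vanishes -/
lemma rig_sing (x0 : ℝ) : ∀ (K : ℕ) (γ : ℕ → ℝ) (G : ℝ → ℝ), ContinuousAt G x0 →
    (∀ᶠ t in 𝓝[≠] x0, ∑ k ∈ Finset.range K, γ k * ((t - x0) ^ (2 * k + 1))⁻¹ = G t) →
    ∀ k < K, γ k = 0 := by
  intro K
  induction K with
  | zero => intro γ G _ _ k hk; omega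
  | succ K ih =>
    intro γ G hG hev
    have hK : γ K = 0 := by
      have h1 : ∀ᶠ t in 𝓝[≠] x0,
          ∑ k ∈ Finset.range (K + 1), γ k * (t - x0) ^ (2 * K - 2 * k)
            = (t - x0) ^ (2 * K + 1) * G t := by
        filter_upwards [hev, self_mem_nhdsWithin] with t ht htne
        have hne : t - x0 ≠ 0 := sub_ne_zero.mpr htne
        rw [← ht, Finset.mul_sum]
        apply Finset.sum_congr rfl
        intro k hk
        have hk' : k ≤ K := by
          have := Finset.mem_range.mp hk; omega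
        have : (t - x0) ^ (2 * K + 1) = (t - x0) ^ (2 * K - 2 * k) * (t - x0) ^ (2 * k + 1) := by
          rw [← pow_add]; congr 1; omega
        rw [this]
        field_simp
      have hL : Tendsto (fun t => ∑ k ∈ Finset.range (K + 1), γ k * (t - x0) ^ (2 * K - 2 * k))
          (𝓝[≠] x0) (𝓝 (∑ k ∈ Finset.range (K + 1), γ k * (x0 - x0) ^ (2 * K - 2 * k))) := by
        apply Tendsto.mono_left _ nhdsWithin_le_nhds
        have : Continuous (fun t : ℝ => ∑ k ∈ Finset.range (K + 1),
            γ k * (t - x0) ^ (2 * K - 2 * k)) := by fun_prop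
        exact this.tendsto x0
      have hR : Tendsto (fun t => (t - x0) ^ (2 * K + 1) * G t)
          (𝓝[≠] x0) (𝓝 ((x0 - x0) ^ (2 * K + 1) * G x0)) := by
        apply Tendsto.mono_left _ nhdsWithin_le_nhds
        have h2 : ContinuousAt (fun t : ℝ => (t - x0) ^ (2 * K + 1) * G t) x0 := by
          apply ContinuousAt.mul
          · fun_prop
          · exact hG
        exact h2
      have h3 := tendsto_nhds_unique (hL.congr' h1) hR
      rw [sub_self, zero_pow (by omega), zero_mul, Finset.sum_range_succ] at h3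
      have h4 : ∑ k ∈ Finset.range K, γ k * (0:ℝ) ^ (2 * K - 2 * k) = 0 := by
        apply Finset.sum_eq_zero
        intro k hk
        have := Finset.mem_range.mp hk
        rw [zero_pow (by omega), mul_zero]
      rw [h4] at h3
      simpa using h3
    intro k hk
    rcases Nat.lt_succ_iff_lt_or_eq.mp hk with h | h
    · apply ih γ G hG _ k h
      filter_upwards [hev] with t ht
      rw [← ht, Finset.sum_range_succ, hK, zero_mul, add_zero]
    · rw [h]; exact hK

/-- a non-zero polynomial is eventually non-zero near a point -/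
lemma rig_ev_ne (p : ℚ[X]) (hp : p ≠ 0) (s x0 : ℝ) : ∀ᶠ t in 𝓝[≠] x0, aeval (t + s) p ≠ 0 := by
  have hfin : {t : ℝ | aeval (t + s) p = 0}.Finite := by
    have h1 : {t : ℝ | aeval t p = 0}.Finite := by
      have := Polynomial.rootSet_finite p ℝ
      apply this.subset
      intro t ht
      rw [Polynomial.mem_rootSet]
      exact ⟨hp, ht⟩
    exact h1.preimage (f := fun t => t + s) (fun a _ b _ h => by simpa using h)
  have h2 : ({t : ℝ | aeval (t + s) p = 0} \ {x0}).Finite := hfin.subset Set.sdiff_subset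
  have h3 : ({t : ℝ | aeval (t + s) p = 0} \ {x0})ᶜ ∈ 𝓝 x0 := by
    apply h2.isClosed.isOpen_compl.mem_nhds
    simp
  have h4 : ∀ᶠ t in 𝓝[≠] x0, t ∈ ({t : ℝ | aeval (t + s) p = 0} \ {x0})ᶜ :=
    mem_nhdsWithin_of_mem_nhds h3
  filter_upwards [h4, self_mem_nhdsWithin] with t ht htne h0
  apply ht
  exact ⟨h0, htne⟩

/-- separation of the singular terms -/
lemma rig_split {ι : Type*} (I : Finset ι) (w : ι → ℝ) (x0 : ℝ) (k : ℕ) :
    ∃ R : ℝ → ℝ, ContinuousAt R x0 ∧ ∀ t, ∑ i ∈ I, ((t + w i) ^ (2 * k + 1))⁻¹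
      = R t + ((I.filter fun i => x0 + w i = 0).card : ℝ) * ((t - x0) ^ (2 * k + 1))⁻¹ := by
  refine ⟨fun t => ∑ i ∈ I.filter (fun i => ¬ (x0 + w i = 0)), ((t + w i) ^ (2 * k + 1))⁻¹, ?_, ?_⟩
  · apply tendsto_finsetSum
    intro i hi
    have hi' := (Finset.mem_filter.mp hi).2
    have : ContinuousAt (fun t : ℝ => ((t + w i) ^ (2 * k + 1))⁻¹) x0 := by
      apply ContinuousAt.inv₀
      · fun_prop
      · exact pow_ne_zero _ hi'
    exact this
  · intro t
    rw [← Finset.sum_filter_add_sum_filter_not I (fun i => x0 + w i = 0), add_comm]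
    congr 1
    rw [← nsmul_eq_mul, ← Finset.sum_const]
    apply Finset.sum_congr rfl
    intro i hi
    have hi' := (Finset.mem_filter.mp hi).2
    have : w i = - x0 := by linarith
    rw [this, sub_eq_add_neg]

/-! ### algebra -/

/-- the common denominator -/
def rigD (P : Par) : ℚ[X] := ∏ m ∈ Finset.Icc 1 P.B, ∏ v ∈ Finset.Icc 1 m,
  (C ((v : ℚ) / m) ^ 2 - X ^ 2) ^ (2 * P.κ)

lemma rigD_comp (P : Par) : (rigD P).comp (-X) = rigD P := by
  unfold rigD
  rw [Polynomial.prod_comp]
  apply Finset.prod_congr rfl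
  intro m _
  rw [Polynomial.prod_comp]
  apply Finset.prod_congr rfl
  intro v _
  simp

lemma rigD_natDegree (P : Par) : (rigD P).natDegree ≤ 4 * P.κ * sB P.B := by
  unfold rigD sB
  refine (Polynomial.natDegree_prod_le _ _).trans ?_
  rw [Finset.mul_sum]
  apply Finset.sum_le_sum
  intro m _
  refine (Polynomial.natDegree_prod_le _ _).trans ?_
  have : ∀ v ∈ Finset.Icc 1 m, ((C ((v : ℚ) / m) ^ 2 - X ^ 2 : ℚ[X]) ^ (2 * P.κ)).natDegree
      ≤ 4 * P.κ := by
    intro v _
    have h1 : (C ((v : ℚ) / m) ^ 2 - X ^ 2 : ℚ[X]).natDegree ≤ 2 := by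
      rw [← map_pow]
      compute_degree
    calc _ ≤ 2 * P.κ * (C ((v : ℚ) / m) ^ 2 - X ^ 2 : ℚ[X]).natDegree :=
          Polynomial.natDegree_pow_le
      _ ≤ 2 * P.κ * 2 := Nat.mul_le_mul_left _ h1
      _ = 4 * P.κ := by ring
  calc _ ≤ ∑ v ∈ Finset.Icc 1 m, 4 * P.κ := Finset.sum_le_sum this
    _ = 4 * P.κ * m := by simp [mul_comm]

lemma rigD_ne (P : Par) : rigD P ≠ 0 := by
  unfold rigD
  rw [Finset.prod_ne_zero_iff]
  intro m _
  rw [Finset.prod_ne_zero_iff]
  intro v _
  apply pow_ne_zero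
  intro h
  have := congrArg (fun p => Polynomial.coeff p 2) h
  simp only [← C_pow, Polynomial.coeff_sub, Polynomial.coeff_C, Polynomial.coeff_X_pow,
    Polynomial.coeff_zero] at this
  norm_num at this

lemma rigD_dvd (P : Par) (k m v : ℕ) (hk : k < P.κ) (hm : m ∈ Finset.Icc 1 P.B)
    (hv : v ∈ Finset.Icc 1 m) : (X + C ((v : ℚ) / m)) ^ (2 * k + 1) ∣ rigD P := by
  have h1 : (X + C ((v : ℚ) / m)) ^ (2 * k + 1) ∣ (C ((v : ℚ) / m) ^ 2 - X ^ 2 : ℚ[X]) ^ (2 * P.κ) := by
    refine (pow_dvd_pow _ (show 2 * k + 1 ≤ 2 * P.κ by omega)).trans ?_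
    apply pow_dvd_pow_of_dvd
    exact ⟨C ((v : ℚ) / m) - X, by ring⟩
  unfold rigD
  refine h1.trans ?_
  refine (Finset.dvd_prod_of_mem (fun v : ℕ => (C ((v : ℚ) / m) ^ 2 - X ^ 2 : ℚ[X]) ^ (2 * P.κ)) hv).trans ?_
  exact Finset.dvd_prod_of_mem (fun m : ℕ => ∏ v ∈ Finset.Icc 1 m, (C ((v : ℚ) / m) ^ 2 - X ^ 2 : ℚ[X]) ^ (2 * P.κ)) hm

/-- the even part as a polynomial -/
def rigEv (P : Par) (x : ℕ → ℚ) : ℚ[X] :=
  ∑ i ∈ (Finset.Icc 3 P.Ae).filter Odd, C (2 * x i) * X ^ (i - 1)

lemma rigEv_comp (P : Par) (x : ℕ → ℚ) : (rigEv P x).comp (-X) = rigEv P x := by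
  unfold rigEv
  rw [Polynomial.sum_comp]
  apply Finset.sum_congr rfl
  intro i hi
  have hi' : Odd i := (Finset.mem_filter.mp hi).2
  have : Even (i - 1) := by
    obtain ⟨j, hj⟩ := hi'
    exact ⟨j, by omega⟩
  simp [this.neg_pow]

lemma rig_alg (P : Par) (h : P.OK) (N1 E1 : ℚ[X])
    (hdeg : N1.natDegree + 2 * P.κ * P.B ≤ P.Z + 1)
    (hEd : E1.natDegree + P.g + 1 ≤ P.Ae)
    (x : ℕ → ℚ) (y : ℕ → ℕ → ℚ)
    (hco : ∀ s < P.Ae, PowerSeries.coeff s (E1 : PowerSeries ℚ)
        = PowerSeries.coeff s ((N1 : PowerSeries ℚ) * GG P x y)) :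
    ∃ H : ℚ[X], 
      ((∀ k < P.κ, ∀ m ∈ Finset.Icc 1 P.B, y k m = 0) → H = 0) ∧
      (∀ t : ℝ, aeval t (rigD P) ≠ 0 → aeval t H / aeval t (rigD P) =
        ∑ k ∈ Finset.range P.κ, ∑ m ∈ Finset.Icc 1 P.B, (y k m : ℝ) *
          ∑ v ∈ Finset.Icc 1 m, ((t + (v : ℝ) / m) ^ (2 * k + 1))⁻¹) ∧
      rigD P * (N1.comp (-X) * E1 - N1 * E1.comp (-X))
        = N1 * N1.comp (-X) * (H - H.comp (-X)) := by
  classical
  have hQ : ∀ k m v : ℕ, ∃ Q : ℚ[X], k < P.κ → m ∈ Finset.Icc 1 P.B → v ∈ Finset.Icc 1 m →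
      rigD P = (X + C ((v : ℚ) / m)) ^ (2 * k + 1) * Q := by
    intro k m v
    by_cases hh : k < P.κ ∧ m ∈ Finset.Icc 1 P.B ∧ v ∈ Finset.Icc 1 m
    · obtain ⟨Q, hQ⟩ := rigD_dvd P k m v hh.1 hh.2.1 hh.2.2
      exact ⟨Q, fun _ _ _ => hQ⟩
    · exact ⟨0, fun h1 h2 h3 => absurd ⟨h1, h2, h3⟩ hh⟩
  choose Q hQ using hQ
  set H : ℚ[X] := ∑ k ∈ Finset.range P.κ, ∑ m ∈ Finset.Icc 1 P.B, C (y k m) *
    ∑ v ∈ Finset.Icc 1 m, Q k m v with hH
  have hHdeg : H.natDegree ≤ 4 * P.κ * sB P.B := by
    rw [hH]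
    apply Polynomial.natDegree_sum_le_of_forall_le
    intro k hk
    apply Polynomial.natDegree_sum_le_of_forall_le
    intro m hm
    refine (Polynomial.natDegree_C_mul_le _ _).trans ?_
    apply Polynomial.natDegree_sum_le_of_forall_le
    intro v hv
    have h1 := hQ k m v (Finset.mem_range.mp hk) hm hv
    have h2 := rigD_natDegree P
    have h3 : Q k m v ≠ 0 := by
      intro h0
      rw [h0, mul_zero] at h1
      exact rigD_ne P h1
    have h4 : (rigD P).natDegree = (2 * k + 1) + (Q k m v).natDegree := by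
      rw [h1, Polynomial.Monic.natDegree_mul' ((monic_X_add_C _).pow _) h3,
        (monic_X_add_C _).natDegree_pow, natDegree_X_add_C, mul_one]
    omega
  -- the power series identity
  have hps : (rigD P : PowerSeries ℚ) * GG P x y = ((rigD P * rigEv P x + H : ℚ[X]) : PowerSeries ℚ) := by
    unfold GG
    rw [mul_add, Polynomial.coe_add, Polynomial.coe_mul]
    congr 1
    · congr 1
      unfold rigEv
      have : ∀ (s : Finset ℕ) (f : ℕ → ℚ[X]), ((∑ i ∈ s, f i : ℚ[X]) : PowerSeries ℚ)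
          = ∑ i ∈ s, (f i : PowerSeries ℚ) := by
        intro s f
        exact map_sum (Polynomial.coeToPowerSeries.ringHom (R := ℚ)) f s
      rw [this]
      apply Finset.sum_congr rfl
      intro i _
      simp
    · have hsum : ∀ (s : Finset ℕ) (f : ℕ → ℚ[X]), ((∑ i ∈ s, f i : ℚ[X]) : PowerSeries ℚ)
          = ∑ i ∈ s, (f i : PowerSeries ℚ) := by
        intro s f
        exact map_sum (Polynomial.coeToPowerSeries.ringHom (R := ℚ)) f s
      rw [hH, hsum, Finset.mul_sum]
      apply Finset.sum_congr rfl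
      intro k hk
      rw [hsum, Finset.mul_sum]
      apply Finset.sum_congr rfl
      intro m hm
      rw [Polynomial.coe_mul, Polynomial.coe_C, hsum, mul_left_comm, Finset.mul_sum]
      congr 1
      apply Finset.sum_congr rfl
      intro v hv
      have hne : ((v : ℚ) / m) ≠ 0 := by
        have h1 := (Finset.mem_Icc.mp hv).1
        have h2 := (Finset.mem_Icc.mp hm).1
        positivity
      have h1 : (rigD P : PowerSeries ℚ)
          = ((PowerSeries.X + PowerSeries.C ((v : ℚ) / m)) ^ (2 * k + 1)) * (Q k m v : PowerSeries ℚ) := by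
        conv_lhs => rw [hQ k m v (Finset.mem_range.mp hk) hm hv]
        simp
      rw [h1, mul_right_comm, ← mul_pow, lin_mul_iv hne, one_pow, one_mul]
  refine ⟨H, ?_, ?_, ?_⟩
  · intro hy
    rw [hH]
    apply Finset.sum_eq_zero
    intro k hk
    apply Finset.sum_eq_zero
    intro m hm
    rw [hy k (Finset.mem_range.mp hk) m hm]
    simp
  · intro t ht
    rw [hH, map_sum, Finset.sum_div]
    apply Finset.sum_congr rfl
    intro k hk
    rw [map_sum, Finset.sum_div]
    apply Finset.sum_congr rfl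
    intro m hm
    rw [map_mul, mul_div_assoc, aeval_C, map_sum, Finset.sum_div]
    congr 1
    apply Finset.sum_congr rfl
    intro v hv
    have h1 : aeval t (rigD P) = (t + (v : ℝ) / m) ^ (2 * k + 1) * aeval t (Q k m v) := by
      conv_lhs => rw [hQ k m v (Finset.mem_range.mp hk) hm hv]
      simp
    have h2 : (t + (v : ℝ) / m) ^ (2 * k + 1) ≠ 0 := by
      intro h0; rw [h0, zero_mul] at h1; exact ht h1
    have h3 : aeval t (Q k m v) ≠ 0 := by
      intro h0; rw [h0, mul_zero] at h1; exact ht h1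
    rw [h1]
    field_simp
  · -- the polynomial identity
    set U : ℚ[X] := N1.comp (-X) * rigD P * E1 - N1 * N1.comp (-X) * (rigD P * rigEv P x + H) with hU
    have hU1 : (X : ℚ[X]) ^ P.Ae ∣ U := by
      rw [Polynomial.X_pow_dvd_iff]
      intro d hd
      rw [← Polynomial.coeff_coe]
      have h1 : (U : PowerSeries ℚ) = ((N1.comp (-X) * rigD P : ℚ[X]) : PowerSeries ℚ) *
          ((E1 : PowerSeries ℚ) - (N1 : PowerSeries ℚ) * GG P x y) := by
        rw [hU, Polynomial.coe_sub, Polynomial.coe_mul (N1 * N1.comp (-X)), ← hps]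
        simp only [Polynomial.coe_mul]
        ring
      have h2 : (PowerSeries.X : PowerSeries ℚ) ^ P.Ae ∣ (U : PowerSeries ℚ) := by
        rw [h1]
        apply Dvd.dvd.mul_left
        rw [PowerSeries.X_pow_dvd_iff]
        intro s hs
        rw [map_sub, hco s hs, sub_self]
      exact (PowerSeries.X_pow_dvd_iff.mp h2) d hd
    have hU2 : (X : ℚ[X]) ^ P.Ae ∣ U.comp (-X) := by
      obtain ⟨W, hW⟩ := hU1
      rw [hW, Polynomial.mul_comp, Polynomial.pow_comp, Polynomial.X_comp, neg_pow]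
      exact ⟨(-1) ^ P.Ae * W.comp (-X), by ring⟩
    have hcc : (-X : ℚ[X]).comp (-X) = X := by simp
    have hNcc : (N1.comp (-X)).comp (-X) = N1 := by
      rw [Polynomial.comp_assoc, hcc, Polynomial.comp_X]
    have hU3 : U - U.comp (-X) = rigD P * (N1.comp (-X) * E1 - N1 * E1.comp (-X))
        - N1 * N1.comp (-X) * (H - H.comp (-X)) := by
      rw [hU, Polynomial.sub_comp, Polynomial.mul_comp, Polynomial.mul_comp, Polynomial.mul_comp,
        Polynomial.mul_comp, Polynomial.add_comp, Polynomial.mul_comp, rigD_comp, rigEv_comp, hNcc]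
      ring
    have hU4 : (X : ℚ[X]) ^ P.Ae ∣ U - U.comp (-X) := dvd_sub hU1 hU2
    have hdegc : ∀ p : ℚ[X], (p.comp (-X)).natDegree ≤ p.natDegree := by
      intro p
      refine Polynomial.natDegree_comp_le.trans ?_
      simp
    have hg := h.hg
    have hag := h.hag
    have hZ : P.g = P.Z + 4 * P.κ * sB P.B + 2 := by
      rw [hg]; unfold Par.Z; ring
    have hsB : P.B ≤ sB P.B := by
      unfold sB
      exact Finset.single_le_sum (f := fun m => m) (fun _ _ => Nat.zero_le _)
        (Finset.mem_Icc.mpr ⟨h.hB, le_refl _⟩)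
    have hAe : P.Ae = P.a + P.g - 2 * P.κ * P.B := rfl
    have hκB : P.κ * P.B ≤ P.κ * sB P.B := Nat.mul_le_mul_left _ hsB
    have e1 : 4 * P.κ * sB P.B = 4 * (P.κ * sB P.B) := by ring
    have e2 : 2 * P.κ * P.B = 2 * (P.κ * P.B) := by ring
    have hU5 : (U - U.comp (-X)).natDegree < P.Ae := by
      rw [hU3]
      have d1 : (rigD P * (N1.comp (-X) * E1 - N1 * E1.comp (-X))).natDegree
          ≤ 4 * P.κ * sB P.B + (N1.natDegree + E1.natDegree) := by
        refine Polynomial.natDegree_mul_le.trans (Nat.add_le_add (rigD_natDegree P) ?_)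
        refine (Polynomial.natDegree_sub_le _ _).trans (max_le ?_ ?_)
        · exact Polynomial.natDegree_mul_le.trans (Nat.add_le_add (hdegc _) le_rfl)
        · exact Polynomial.natDegree_mul_le.trans (Nat.add_le_add le_rfl (hdegc _))
      have d2 : (N1 * N1.comp (-X) * (H - H.comp (-X))).natDegree
          ≤ (N1.natDegree + N1.natDegree) + 4 * P.κ * sB P.B := by
        refine Polynomial.natDegree_mul_le.trans (Nat.add_le_add ?_ ?_)
        · exact Polynomial.natDegree_mul_le.trans (Nat.add_le_add le_rfl (hdegc _))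
        · exact (Polynomial.natDegree_sub_le _ _).trans (max_le hHdeg ((hdegc _).trans hHdeg))
      refine lt_of_le_of_lt (Polynomial.natDegree_sub_le _ _) (max_lt ?_ ?_)
      · refine lt_of_le_of_lt d1 ?_
        omega
      · refine lt_of_le_of_lt d2 ?_
        omega
    have hU6 : U - U.comp (-X) = 0 := by
      by_contra hne
      have := Polynomial.natDegree_le_of_dvd hU4 hne
      rw [Polynomial.natDegree_X_pow] at this
      omega
    rw [hU3] at hU6
    exact sub_eq_zero.mp hU6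

/-! ### the final argument -/

/-- the trigonometric-type sum `f` at `t`, decomposed over the shifts -/
lemma rig_main (P : Par) (h : P.OK) (N1 E1 : ℚ[X])
    (hsym : N1.comp (-1 - X) = -N1) (hN0 : N1.eval 0 ≠ 0)
    (hdeg : N1.natDegree + 2 * P.κ * P.B ≤ P.Z + 1)
    (hr1 : ∀ t : ℝ, (P.r : ℝ) < t → aeval t N1 ≠ 0)
    (hr2 : ∀ t : ℝ, t < -((P.r : ℝ) + 1) → aeval t N1 ≠ 0)
    (hE : E1.comp (-1 - X) = -E1) (hEd : E1.natDegree + P.g + 1 ≤ P.Ae)
    (x : ℕ → ℚ) (y : ℕ → ℕ → ℚ)
    (hco : ∀ s < P.Ae, PowerSeries.coeff s (E1 : PowerSeries ℚ)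
        = PowerSeries.coeff s ((N1 : PowerSeries ℚ) * GG P x y)) :
    (∀ k < P.κ, ∀ m ∈ Finset.Icc 1 P.B, y k m = 0) := by
  classical
  obtain ⟨H, -, hH, hid⟩ := rig_alg P h N1 E1 hdeg hEd x y hco
  have hN1ne : N1 ≠ 0 := by
    intro h0; rw [h0] at hN0; simp at hN0
  have hrefl : ∀ (p : ℚ[X]), p.comp (-1 - X) = -p → ∀ t : ℝ, aeval (-t) p = - aeval (t - 1) p := by
    intro p hp t
    have h1 := congrArg (fun q => aeval (t - 1) q) hp
    simp only [Polynomial.aeval_comp, map_neg, map_sub, map_one, aeval_X] at h1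
    rw [← h1]
    congr 1
    ring_nf
  -- the functional equation
  have hfe : ∀ t : ℝ, aeval t (rigD P) ≠ 0 → aeval t N1 ≠ 0 → aeval (t - 1) N1 ≠ 0 →
      aeval t E1 / aeval t N1 - aeval (t - 1) E1 / aeval (t - 1) N1
      = ∑ k ∈ Finset.range P.κ, ∑ m ∈ Finset.Icc 1 P.B, (y k m : ℝ) *
          ∑ v ∈ Finset.Icc 1 m, (((t + (v : ℝ) / m) ^ (2 * k + 1))⁻¹
            + ((t - (v : ℝ) / m) ^ (2 * k + 1))⁻¹) := by
    intro t hD hN hN'
    have hDc : aeval (-t) (rigD P) = aeval t (rigD P) := by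
      conv_rhs => rw [← rigD_comp P]
      simp [Polynomial.aeval_comp]
    have h1 := hH t hD
    have h2 := hH (-t) (by rw [hDc]; exact hD)
    rw [hDc] at h2
    have h3 := congrArg (fun q => aeval t q) hid
    simp only [map_mul, map_sub, Polynomial.aeval_comp, map_neg, aeval_X] at h3
    rw [hrefl N1 hsym, hrefl E1 hE] at h3
    have h4 : aeval t E1 / aeval t N1 - aeval (t - 1) E1 / aeval (t - 1) N1
        = aeval t H / aeval t (rigD P) - aeval (-t) H / aeval t (rigD P) := by
      field_simp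
      field_simp at h3
      linear_combination (-1 : ℝ) * h3
    rw [h4, h1, h2, ← Finset.sum_sub_distrib]
    apply Finset.sum_congr rfl
    intro k hk
    rw [← Finset.sum_sub_distrib]
    apply Finset.sum_congr rfl
    intro m hm
    rw [← mul_sub, ← Finset.sum_sub_distrib]
    congr 1
    apply Finset.sum_congr rfl
    intro v hv
    have : (-t + (v : ℝ) / m) ^ (2 * k + 1) = -(t - (v : ℝ) / m) ^ (2 * k + 1) := by
      rw [← Odd.neg_pow ⟨k, rfl⟩]
      congr 1
      ring
    rw [this, inv_neg, sub_neg_eq_add]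
  -- downward induction
  have key : ∀ j : ℕ, ∀ d : ℕ, d ∈ Finset.Icc 1 P.B → P.B - d = j → ∀ k < P.κ, y k d = 0 := by
    intro j
    induction j using Nat.strong_induction_on with
    | _ j ih =>
    intro d hd hj
    have hd1 := (Finset.mem_Icc.mp hd).1
    have hd2 := (Finset.mem_Icc.mp hd).2
    have hlarge : ∀ m ∈ Finset.Icc 1 P.B, d < m → ∀ k < P.κ, y k m = 0 := by
      intro m hm hdm k hk
      have hm2 := (Finset.mem_Icc.mp hm).2
      exact ih (P.B - m) (by omega) m hm rfl k hk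
    set x0 : ℝ := 1 / d with hx0
    have hdpos : (0 : ℝ) < d := by exact_mod_cast hd1
    have hx0pos : 0 < x0 := by positivity
    have hx0le : x0 ≤ 1 := by
      rw [hx0, div_le_one hdpos]; exact_mod_cast hd1
    set S : ℕ := P.r + 2 with hS
    set M : ℕ := 2 * S + 1 with hM
    -- index set
    let I : ℕ → Finset (ℕ × ℕ × Bool) := fun m =>
      Finset.range M ×ˢ (Finset.Icc 1 m ×ˢ (Finset.univ : Finset Bool))
    let w : ℕ → ℕ × ℕ × Bool → ℝ := fun m q =>
      ((q.1 : ℝ) - S) + (if q.2.2 then ((q.2.1 : ℝ) / m) else -((q.2.1 : ℝ) / m))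
    have hsplit := fun m k => rig_split (I m) (w m) x0 k
    choose R hRc hR using hsplit
    -- the telescoped equation
    have htel : ∀ᶠ t in 𝓝[≠] x0,
        aeval (t + (S : ℝ)) E1 / aeval (t + (S : ℝ)) N1
          - aeval (t + (-(S : ℝ) - 1)) E1 / aeval (t + (-(S : ℝ) - 1)) N1
        = ∑ k ∈ Finset.range P.κ, ∑ m ∈ Finset.Icc 1 P.B, (y k m : ℝ) *
          ∑ q ∈ I m, ((t + w m q) ^ (2 * k + 1))⁻¹ := by
      have e1 : ∀ᶠ t in 𝓝[≠] x0, ∀ j ∈ Finset.range M, aeval (t + ((j : ℝ) - S)) (rigD P) ≠ 0 := by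
        rw [Filter.eventually_all_finset]
        intro j _
        exact rig_ev_ne _ (rigD_ne P) _ _
      have e2 : ∀ᶠ t in 𝓝[≠] x0, ∀ j ∈ Finset.range (M + 1),
          aeval (t + ((j : ℝ) - S - 1)) N1 ≠ 0 := by
        rw [Filter.eventually_all_finset]
        intro j _
        exact rig_ev_ne _ hN1ne _ _
      filter_upwards [e1, e2] with t ht1 ht2
      have hstep : ∀ j ∈ Finset.range M,
          aeval (t + (((j + 1 : ℕ) : ℝ) - S - 1)) E1 / aeval (t + (((j + 1 : ℕ) : ℝ) - S - 1)) N1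
          - aeval (t + ((j : ℝ) - S - 1)) E1 / aeval (t + ((j : ℝ) - S - 1)) N1
          = ∑ k ∈ Finset.range P.κ, ∑ m ∈ Finset.Icc 1 P.B, (y k m : ℝ) *
          ∑ v ∈ Finset.Icc 1 m, (((t + ((j : ℝ) - S) + (v : ℝ) / m) ^ (2 * k + 1))⁻¹
            + ((t + ((j : ℝ) - S) - (v : ℝ) / m) ^ (2 * k + 1))⁻¹) := by
        intro j hj
        have hj' := Finset.mem_range.mp hj
        have a1 : t + (((j + 1 : ℕ) : ℝ) - S - 1) = t + ((j : ℝ) - S) := by push_cast; ring
        have a2 : t + ((j : ℝ) - S - 1) = t + ((j : ℝ) - S) - 1 := by ring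
        have b1 := ht1 j hj
        have b2 := ht2 (j + 1) (Finset.mem_range.mpr (by omega))
        have b3 := ht2 j (Finset.mem_range.mpr (by omega))
        rw [a1] at b2 ⊢
        rw [a2] at b3 ⊢
        exact hfe _ b1 b2 b3
      have hs1 := Finset.sum_congr rfl hstep
      rw [Finset.sum_range_sub (fun j : ℕ => aeval (t + ((j : ℝ) - S - 1)) E1
        / aeval (t + ((j : ℝ) - S - 1)) N1)] at hs1
      have c1 : t + ((M : ℝ) - S - 1) = t + (S : ℝ) := by rw [hM]; push_cast; ring
      have c2 : t + (((0 : ℕ) : ℝ) - S - 1) = t + (-(S : ℝ) - 1) := by push_cast; ring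
      rw [c1, c2] at hs1
      rw [hs1, Finset.sum_comm]
      apply Finset.sum_congr rfl
      intro k hk
      rw [Finset.sum_comm]
      apply Finset.sum_congr rfl
      intro m hm
      rw [← Finset.mul_sum]
      congr 1
      rw [Finset.sum_product]
      apply Finset.sum_congr rfl
      intro j hj
      rw [Finset.sum_product]
      apply Finset.sum_congr rfl
      intro v hv
      simp only [Fintype.sum_bool, w, if_true]
      simp only [Bool.false_eq_true, if_false]
      congr 3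
      · ring
      · ring
    -- singular parts
    set n : ℝ := (((I d).filter fun q => x0 + w d q = 0).card : ℝ) with hn
    have hnne : n ≠ 0 := by
      rw [hn]
      have : 0 < ((I d).filter fun q => x0 + w d q = 0).card := by
        rw [Finset.card_pos]
        refine ⟨(S, 1, false), ?_⟩
        rw [Finset.mem_filter]
        refine ⟨?_, ?_⟩
        · simp only [I, Finset.mem_product, Finset.mem_range, Finset.mem_Icc, Finset.mem_univ,
            and_true]
          omega
        · simp [w, hx0]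
      positivity
    have hsmall : ∀ m ∈ Finset.Icc 1 P.B, m < d →
        ((I m).filter fun q => x0 + w m q = 0).card = 0 := by
      intro m hm hmd
      rw [Finset.card_eq_zero, Finset.filter_eq_empty_iff]
      rintro ⟨j, v, b⟩ hq hzero
      have hm1 := (Finset.mem_Icc.mp hm).1
      have hmpos : (0 : ℝ) < m := by exact_mod_cast hm1
      -- multiply by m d : an integer equation  m + d * (integer) = 0
      have hint : ∃ z : ℤ, (m : ℝ) = d * z := by
        simp only [w] at hzero
        cases b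
        · simp only [Bool.false_eq_true, if_false] at hzero
          refine ⟨-(m * ((j : ℤ) - S) - v), ?_⟩
          rw [hx0] at hzero
          field_simp at hzero
          push_cast
          linarith
        · simp only [if_true] at hzero
          refine ⟨-(m * ((j : ℤ) - S) + v), ?_⟩
          rw [hx0] at hzero
          field_simp at hzero
          push_cast
          linarith
      obtain ⟨z, hz⟩ := hint
      have hz' : (m : ℤ) = d * z := by exact_mod_cast hz
      have hzpos : 0 < z := by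
        by_contra hneg
        push Not at hneg
        have : (d : ℤ) * z ≤ 0 := mul_nonpos_of_nonneg_of_nonpos (by positivity) hneg
        omega
      have : (d : ℤ) ≤ d * z := by nlinarith
      omega
    have hcont : ContinuousAt (fun t : ℝ => aeval (t + (S : ℝ)) E1 / aeval (t + (S : ℝ)) N1
          - aeval (t + (-(S : ℝ) - 1)) E1 / aeval (t + (-(S : ℝ) - 1)) N1
          - ∑ k ∈ Finset.range P.κ, ∑ m ∈ Finset.Icc 1 P.B, (y k m : ℝ) * R m k t) x0 := by
      have cp : ∀ (p : ℚ[X]) (s : ℝ), ContinuousAt (fun t : ℝ => aeval (t + s) p) x0 := by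
        intro p s
        have : Continuous (fun t : ℝ => aeval (t + s) p) :=
          (Polynomial.continuous_aeval p).comp (by fun_prop)
        exact this.continuousAt
      apply ContinuousAt.sub
      · apply ContinuousAt.sub
        · apply ContinuousAt.div (cp _ _) (cp _ _)
          apply hr1
          rw [hS]; push_cast; linarith
        · apply ContinuousAt.div (cp _ _) (cp _ _)
          apply hr2
          rw [hS]; push_cast; linarith
      · apply tendsto_finsetSum
        intro k _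
        apply tendsto_finsetSum
        intro m _
        exact (hRc m k).const_mul _
    have hfin := rig_sing x0 P.κ (fun k => (y k d : ℝ) * n) _ hcont (by
      filter_upwards [htel] with t ht
      rw [ht, ← Finset.sum_sub_distrib]
      apply Finset.sum_congr rfl
      intro k hk
      have hk' := Finset.mem_range.mp hk
      rw [← Finset.sum_sub_distrib]
      rw [Finset.sum_eq_single d]
      · rw [hR d k t]
        ring
      · intro m hm hmd
        rcases lt_or_gt_of_ne hmd with hlt | hgt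
        · rw [hR m k t, hsmall m hm hlt]
          push_cast
          ring
        · rw [hlarge m hm hgt k hk']
          simp
      · intro hnot; exact absurd hd hnot)
    intro k hk
    have := hfin k hk
    have h5 : (y k d : ℝ) = 0 := by
      rcases mul_eq_zero.mp this with h6 | h6
      · exact h6
      · exact absurd h6 hnne
    exact_mod_cast h5
  intro k hk m hm
  exact key _ m hm rfl k hk

/-- T12 -/
theorem rigidity (P : Par) (h : P.OK) (N1 E1 : ℚ[X])
    (hsym : N1.comp (-1 - X) = -N1) (hN0 : N1.eval 0 ≠ 0)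
    (hdeg : N1.natDegree + 2 * P.κ * P.B ≤ P.Z + 1)
    (hr1 : ∀ t : ℝ, (P.r : ℝ) < t → (N1.map (algebraMap ℚ ℝ)).eval t ≠ 0)
    (hr2 : ∀ t : ℝ, t < -((P.r : ℝ) + 1) → (N1.map (algebraMap ℚ ℝ)).eval t ≠ 0)
    (hE : E1.comp (-1 - X) = -E1) (hEd : E1.natDegree + P.g + 1 ≤ P.Ae)
    (x : ℕ → ℚ) (y : ℕ → ℕ → ℚ)
    (hco : ∀ s < P.Ae, PowerSeries.coeff s (E1 : PowerSeries ℚ)
        = PowerSeries.coeff s ((N1 : PowerSeries ℚ) * GG P x y)) :
    (∀ i ∈ (Finset.Icc 3 P.Ae).filter Odd, x i = 0) ∧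
    (∀ k < P.κ, ∀ m ∈ Finset.Icc 1 P.B, y k m = 0) := by
  classical
  have hr1' : ∀ t : ℝ, (P.r : ℝ) < t → aeval t N1 ≠ 0 := by
    intro t ht
    have := hr1 t ht
    rwa [Polynomial.eval_map_algebraMap] at this
  have hr2' : ∀ t : ℝ, t < -((P.r : ℝ) + 1) → aeval t N1 ≠ 0 := by
    intro t ht
    have := hr2 t ht
    rwa [Polynomial.eval_map_algebraMap] at this
  have hy := rig_main P h N1 E1 hsym hN0 hdeg hr1' hr2' hE hEd x y hco
  refine ⟨?_, hy⟩
  obtain ⟨H, hH0, -, hid⟩ := rig_alg P h N1 E1 hdeg hEd x y hco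
  rw [hH0 hy] at hid
  have hid2 : N1.comp (-X) * E1 = N1 * E1.comp (-X) := by
    have h1 : rigD P * (N1.comp (-X) * E1 - N1 * E1.comp (-X)) = 0 := by
      rw [hid]; simp
    rcases mul_eq_zero.mp h1 with h2 | h2
    · exact absurd h2 (rigD_ne P)
    · exact sub_eq_zero.mp h2
  have hrefl : ∀ (p : ℚ[X]), p.comp (-1 - X) = -p → ∀ t : ℚ, p.eval (-t) = - p.eval (t - 1) := by
    intro p hp t
    have h1 := congrArg (fun q => q.eval (t - 1)) hp
    simp only [Polynomial.eval_comp, Polynomial.eval_neg, Polynomial.eval_sub,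
      Polynomial.eval_one, Polynomial.eval_X] at h1
    rw [← h1]
    congr 1
    ring
  have hshift : ∀ t : ℚ, N1.eval (t - 1) * E1.eval t = N1.eval t * E1.eval (t - 1) := by
    intro t
    have h1 := congrArg (fun q => q.eval t) hid2
    simp only [Polynomial.eval_mul, Polynomial.eval_comp, Polynomial.eval_neg,
      Polynomial.eval_X] at h1
    rw [hrefl N1 hsym, hrefl E1 hE] at h1
    linear_combination (-1 : ℚ) * h1
  have hNQ : ∀ t : ℚ, (P.r : ℚ) < t → N1.eval t ≠ 0 := by
    intro t ht h0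
    apply hr1' (t : ℝ) (by exact_mod_cast ht)
    have : aeval (t : ℝ) N1 = ((N1.eval t : ℚ) : ℝ) := by
      have := Polynomial.aeval_algebraMap_apply ℝ t N1
      simpa using this
    rw [this, h0]
    simp
  set c : ℚ := E1.eval (P.r + 1 : ℚ) / N1.eval (P.r + 1 : ℚ) with hc
  have hall : ∀ j : ℕ, E1.eval ((P.r : ℚ) + 1 + j) = c * N1.eval ((P.r : ℚ) + 1 + j) := by
    intro j
    induction j with
    | zero =>
      have := hNQ ((P.r : ℚ) + 1) (by linarith)
      simp only [Nat.cast_zero, add_zero]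
      rw [hc]; field_simp
    | succ j ihj =>
      have h1 := hshift ((P.r : ℚ) + 1 + (j + 1 : ℕ))
      have h2 : (P.r : ℚ) + 1 + (j + 1 : ℕ) - 1 = (P.r : ℚ) + 1 + j := by push_cast; ring
      rw [h2, ihj] at h1
      have h3 := hNQ ((P.r : ℚ) + 1 + j) (by
        have : (0 : ℚ) ≤ j := Nat.cast_nonneg j
        linarith)
      have h4 : N1.eval ((P.r : ℚ) + 1 + j) * (E1.eval ((P.r : ℚ) + 1 + (j + 1 : ℕ))
          - c * N1.eval ((P.r : ℚ) + 1 + (j + 1 : ℕ))) = 0 := by
        linear_combination h1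
      rcases mul_eq_zero.mp h4 with h5 | h5
      · exact absurd h5 h3
      · exact sub_eq_zero.mp h5
  have hEc : E1 = C c * N1 := by
    apply Polynomial.eq_of_infinite_eval_eq
    have hinf : (Set.range (fun j : ℕ => (P.r : ℚ) + 1 + j)).Infinite := by
      apply Set.infinite_range_of_injective
      intro a b hab
      simpa using hab
    apply hinf.mono
    rintro _ ⟨j, rfl⟩
    simp only [Set.mem_ofPred_eq, Polynomial.eval_mul, Polynomial.eval_C]
    exact hall j
  -- conclude
  have hGG : GG P x y = ((rigEv P x : ℚ[X]) : PowerSeries ℚ) := by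
    unfold GG rigEv
    have h0 : ∑ k ∈ Finset.range P.κ, ∑ m ∈ Finset.Icc 1 P.B, PowerSeries.C (y k m) *
        ∑ v ∈ Finset.Icc 1 m, iv ((v : ℚ) / m) ^ (2 * k + 1) = 0 := by
      apply Finset.sum_eq_zero
      intro k hk
      apply Finset.sum_eq_zero
      intro m hm
      rw [hy k (Finset.mem_range.mp hk) m hm]
      simp
    rw [h0, add_zero]
    have : ∀ (s : Finset ℕ) (f : ℕ → ℚ[X]), ((∑ i ∈ s, f i : ℚ[X]) : PowerSeries ℚ)
        = ∑ i ∈ s, (f i : PowerSeries ℚ) := by
      intro s f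
      exact map_sum (Polynomial.coeToPowerSeries.ringHom (R := ℚ)) f s
    rw [this]
    apply Finset.sum_congr rfl
    intro i _
    simp
  have hdiv : (X : ℚ[X]) ^ P.Ae ∣ N1 * (rigEv P x - C c) := by
    rw [Polynomial.X_pow_dvd_iff]
    intro d hd
    have h1 := hco d hd
    rw [hGG, hEc, ← Polynomial.coe_mul, Polynomial.coeff_coe, Polynomial.coeff_coe] at h1
    rw [mul_sub, Polynomial.coeff_sub, ← h1, mul_comm N1 (C c), sub_self]
  have hcop : IsCoprime ((X : ℚ[X]) ^ P.Ae) N1 := by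
    apply IsCoprime.pow_left
    rw [Polynomial.irreducible_X.coprime_iff_not_dvd]
    intro hdvd
    rw [Polynomial.X_dvd_iff, Polynomial.coeff_zero_eq_eval_zero] at hdvd
    exact hN0 hdvd
  have hdiv2 := hcop.dvd_of_dvd_mul_left hdiv
  rw [Polynomial.X_pow_dvd_iff] at hdiv2
  intro i hi
  have hi' := Finset.mem_filter.mp hi
  have hi3 := (Finset.mem_Icc.mp hi'.1).1
  have hiA := (Finset.mem_Icc.mp hi'.1).2
  have h1 := hdiv2 (i - 1) (by omega)
  rw [Polynomial.coeff_sub, Polynomial.coeff_C, if_neg (by omega), sub_zero] at h1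
  unfold rigEv at h1
  rw [Polynomial.finsetSum_coeff, Finset.sum_eq_single i] at h1
  · rw [Polynomial.coeff_C_mul, Polynomial.coeff_X_pow, if_pos rfl, mul_one] at h1
    linarith
  · intro j hj hji
    have hj3 := (Finset.mem_Icc.mp (Finset.mem_filter.mp hj).1).1
    rw [Polynomial.coeff_C_mul, Polynomial.coeff_X_pow, if_neg (by omega), mul_zero]
  · intro hnot; exact absurd hi hnot

end

end Pool.Agent.H513R2.OZ
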