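import Pool.Agent.H513R2.OZ.Defs

/-!
# Stubs: the exact statements of the modules.  NOT to be imported by finished files.
-/

open Polynomial Filter Topology

namespace Pool.Agent.H513R2.OZ.Stubs

open Pool.Agent.H337R2 Pool.Agent.H513R2.OZ

noncomputable section

/-! ## T1 -/
theorem natDegree_NP (P : Par) (h : P.OK) (n l : ℕ) (hn : 1 ≤ n) (hl : l ≤ P.L) :
    (NP P n l).natDegree + 2 ≤ (QQ (Finset.range (n + 1)) (mu P n)).natDegree := by sorry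

theorem cf_zero (P : Par) (n l k m : ℕ) (u : ℤ) (hm1 : 1 ≤ m) (hm : m ≤ P.B) (hk : k < 2 * P.κ)
    (hu1 : -(((P.r + 1) * n * m : ℕ) : ℤ) ≤ u) (hu2 : u ≤ ((P.r * n * m : ℕ) : ℤ)) :
    cf P n l k ((u : ℚ) / m) = 0 := by sorry

theorem rh_even (P : Par) (h : P.OK) (n l i : ℕ) (hn : 1 ≤ n) (hi : Even i) (hi1 : 1 ≤ i) :
    rh P n l i = 0 := by sorry

theorem rh_one (P : Par) (h : P.OK) (n l : ℕ) (hn : 1 ≤ n) (hl : l ≤ P.L) :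
    rh P n l 1 = 0 := by sorry

theorem pc_high (P : Par) (h : P.OK) (n l j i : ℕ) (hn : 1 ≤ n) (hj : j ≤ n) (hi : P.Ae < i) :
    pc P n l j i = 0 := by sorry

/-! ## T2 -/
theorem lin_form (P : Par) (h : P.OK) (n l k m : ℕ) (hn : 1 ≤ n) (hl : l ≤ P.L) (hk : Even k)
    (hm : 1 ≤ m)
    (hdeg : (NP P n l).natDegree + 2 ≤ (QQ (Finset.range (n + 1)) (mu P n)).natDegree) :
    HasSum (fun u : ℕ => ((cf P n l k (((u : ℚ) + 1) / m) : ℚ) : ℝ)) (XX P n l k m) := by sorry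

/-! ## T3 : majorants (definition in Maj.lean) and upper bound for the coefficients -/
theorem pc_bound (P : Par) (h : P.OK) : ∃ C : ℝ, ∃ D : ℕ, ∀ n l j i : ℕ, 1 ≤ n → l ≤ P.L → j ≤ n →
    1 ≤ i → |((pc P n l j i : ℚ) : ℝ)| ≤ C * (n : ℝ) ^ D * Real.exp (P.be * n) := by sorry

/-! ## T4 : tail bound -/
theorem XX_bound (P : Par) (h : P.OK) (hr : 2 ≤ P.r) : ∃ C : ℝ, ∃ D n0 : ℕ, ∀ n l k m : ℕ, n0 ≤ n → l ≤ P.L →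
    k < 2 * P.κ → 1 ≤ m → m ≤ P.B →
    (HasSum (fun u : ℕ => ((cf P n l k (((u : ℚ) + 1) / m) : ℚ) : ℝ)) (XX P n l k m)) →
    |XX P n l k m| ≤ C * (n : ℝ) ^ D * Real.exp (-(P.al * n)) := by sorry

/-! ## T5 : arithmetic of the coefficients -/
theorem rp_spec (p n c : ℕ) [Fact p.Prime] (hc : 1 ≤ c) (hcn : c ≤ n) :
    (padicNorm p (c : ℚ))⁻¹ ≤ rp p n := by sorry

theorem pc_norm (P : Par) (h : P.OK) (p : ℕ) [Fact p.Prime] (n l j i : ℕ) (hn : 1 ≤ n)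
    (hj : j ≤ n) (hi : 1 ≤ i) :
    padicNorm p (pc P n l j i) ≤ rp p n ^ (P.A + 2 * P.g) := by sorry

/-! ## T6 : arithmetic of the rational part -/
theorem r0_norm (P : Par) (h : P.OK) (p : ℕ) [Fact p.Prime] (n l k m : ℕ) (hn : 1 ≤ n) (hl : l ≤ P.L)
    (hk : k < 2 * P.κ) (hk2 : Even k) (hm1 : 1 ≤ m) (hm : m ≤ P.B)
    (hpc : ∀ j i, j ≤ n → 1 ≤ i → padicNorm p (pc P n l j i) ≤ rp p n ^ (P.A + 2 * P.g))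
    (hdeg : (NP P n l).natDegree + 2 ≤ (QQ (Finset.range (n + 1)) (mu P n)).natDegree)
    (hz : ∀ u : ℤ, -(((P.r + 1) * n * m : ℕ) : ℤ) ≤ u → u ≤ ((P.r * n * m : ℕ) : ℤ) →
      cf P n l k ((u : ℚ) / m) = 0) :
    padicNorm p (r0 P n l k m) ≤ rp p n ^ (2 * P.A + 2 * P.g + k) := by sorry

/-! ## T7 -/
theorem dl_bound : ∃ n0 : ℕ, ∀ n : ℕ, n0 ≤ n → (dl n : ℝ) ≤ Real.exp ((3 / 2 : ℝ) * n) := by sorry

theorem int_of_norm (n T : ℕ) (x : ℚ) (h : ∀ p : ℕ, p.Prime → padicNorm p x ≤ rp p n ^ T) :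
    ∃ z : ℤ, (dl n : ℚ) ^ T * x = z := by sorry

/-! ## T8 : `p`-adic leading terms for `n = p` -/
/-- the poles at `0` and `-p` -/
theorem pc_end (P : Par) (h : P.OK) : ∃ p0 : ℕ, ∀ p : ℕ, p.Prime → p0 ≤ p → ∃ w : ℚ, w ≠ 0 ∧
    padicNorm p w = 1 ∧
    ∀ l i : ℕ, l ≤ P.L → 1 ≤ i →
      padicNorm p (pc P p l 0 i / (w * (p : ℚ) ^ (P.E l + i)) - pc P 1 l 0 i) ≤ (p : ℚ)⁻¹ ∧
      padicNorm p (pc P p l p i / (w * (p : ℚ) ^ (P.E l + i)) - pc P 1 l 1 i) ≤ (p : ℚ)⁻¹ := by sorry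

/-- the other poles -/
theorem pc_mid (P : Par) (h : P.OK) : ∃ p0 : ℕ, ∀ p : ℕ, p.Prime → p0 ≤ p →
    ∀ l i j : ℕ, 1 ≤ j → j < p → 1 ≤ i → padicNorm p (pc P p l j i) ≤ ((p : ℚ) ^ i)⁻¹ := by sorry

/-! ## T9 : consequences for the functionals -/
theorem rh_lift (P : Par) (h : P.OK)
    (h1 : ∃ p0 : ℕ, ∀ p : ℕ, p.Prime → p0 ≤ p → ∃ w : ℚ, w ≠ 0 ∧ padicNorm p w = 1 ∧
      ∀ l i : ℕ, l ≤ P.L → 1 ≤ i →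
      padicNorm p (pc P p l 0 i / (w * (p : ℚ) ^ (P.E l + i)) - pc P 1 l 0 i) ≤ (p : ℚ)⁻¹ ∧
      padicNorm p (pc P p l p i / (w * (p : ℚ) ^ (P.E l + i)) - pc P 1 l 1 i) ≤ (p : ℚ)⁻¹)
    (h2 : ∃ p0 : ℕ, ∀ p : ℕ, p.Prime → p0 ≤ p →
      ∀ l i j : ℕ, 1 ≤ j → j < p → 1 ≤ i → padicNorm p (pc P p l j i) ≤ ((p : ℚ) ^ i)⁻¹) :
    ∃ p0 : ℕ, ∀ p : ℕ, p.Prime → p0 ≤ p → ∃ w : ℚ, w ≠ 0 ∧ ∀ l : ℕ, l ≤ P.L →
      (∀ i : ℕ, 1 ≤ i → padicNorm p (rh P p l i / (w * (p : ℚ) ^ (P.E l + i)) - rh P 1 l i) ≤ (p : ℚ)⁻¹) ∧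
      (∀ k m : ℕ, 1 ≤ m → m ≤ P.B → k < 2 * P.κ →
        padicNorm p (r0 P p l k m / (w * (p : ℚ) ^ (P.E l - k)) - r0 P 1 l k m) ≤ (p : ℚ)⁻¹) := by sorry

/-! ## T10 : zero estimate, part A : the polynomial `N1` -/
/-- `NP P 1 l = (X (X+1))^(l + 2κB) * N1` -/
theorem exists_N1 (P : Par) (h : P.OK) : ∃ N1 : ℚ[X],
    (∀ l, NP P 1 l = (X * (X + 1)) ^ (l + 2 * P.κ * P.B) * N1) ∧
    N1.comp (-1 - X) = -N1 ∧ N1.eval 0 ≠ 0 ∧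
    N1.natDegree + 2 * P.κ * P.B ≤ P.Z + 1 ∧
    (∀ t : ℝ, (P.r : ℝ) < t → (N1.map (algebraMap ℚ ℝ)).eval t ≠ 0) ∧
    (∀ t : ℝ, t < -((P.r : ℝ) + 1) → (N1.map (algebraMap ℚ ℝ)).eval t ≠ 0) := by sorry

/-! ## T11 : zero estimate, part B : duality -/
/-- the series attached to the relation -/
def GG (P : Par) (x : ℕ → ℚ) (y : ℕ → ℕ → ℚ) : PowerSeries ℚ :=
  (∑ i ∈ (Finset.Icc 3 P.Ae).filter Odd, PowerSeries.C (2 * x i) * PowerSeries.X ^ (i - 1)) +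
  ∑ k ∈ Finset.range P.κ, ∑ m ∈ Finset.Icc 1 P.B, PowerSeries.C (y k m) *
    ∑ v ∈ Finset.Icc 1 m, iv ((v : ℚ) / m) ^ (2 * k + 1)

theorem duality (P : Par) (h : P.OK) (N1 : ℚ[X])
    (hN : ∀ l, NP P 1 l = (X * (X + 1)) ^ (l + 2 * P.κ * P.B) * N1)
    (hsym : N1.comp (-1 - X) = -N1) (hN0 : N1.eval 0 ≠ 0)
    (x : ℕ → ℚ) (y : ℕ → ℕ → ℚ)
    (hxy : ∀ l ≤ P.L, ∑ i ∈ (Finset.Icc 3 P.Ae).filter Odd, x i * rh P 1 l i +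
      ∑ k ∈ Finset.range P.κ, ∑ m ∈ Finset.Icc 1 P.B, y k m * r0 P 1 l (2 * k) m = 0) :
    ∃ E1 : ℚ[X], E1.comp (-1 - X) = -E1 ∧ E1.natDegree + P.g + 1 ≤ P.Ae ∧
      ∀ s < P.Ae, PowerSeries.coeff s (E1 : PowerSeries ℚ)
        = PowerSeries.coeff s ((N1 : PowerSeries ℚ) * GG P x y) := by sorry

/-! ## T12 : zero estimate, part C -/
theorem rigidity (P : Par) (h : P.OK) (N1 E1 : ℚ[X])
    (hsym : N1.comp (-1 - X) = -N1) (hN0 : N1.eval 0 ≠ 0)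
    (hdeg : N1.natDegree + 2 * P.κ * P.B ≤ P.Z + 1)
    (hr1 : ∀ t : ℝ, (P.r : ℝ) < t → (N1.map (algebraMap ℚ ℝ)).eval t ≠ 0)
    (hr2 : ∀ t : ℝ, t < -((P.r : ℝ) + 1) → (N1.map (algebraMap ℚ ℝ)).eval t ≠ 0)
    (hE : E1.comp (-1 - X) = -E1) (hEd : E1.natDegree + P.g + 1 ≤ P.Ae)
    (x : ℕ → ℚ) (y : ℕ → ℕ → ℚ)
    (hco : ∀ s < P.Ae, PowerSeries.coeff s (E1 : PowerSeries ℚ)
        = PowerSeries.coeff s ((N1 : PowerSeries ℚ) * GG P x y)) :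
    (∀ i ∈ (Finset.Icc 3 P.Ae).filter Odd, x i = 0) ∧
    (∀ k < P.κ, ∀ m ∈ Finset.Icc 1 P.B, y k m = 0) := by sorry

/-! ## T13 : final combinatorics -/
open scoped Classical in
theorem separated (J : Set ℕ) (κ B s : ℕ) (hκ : 1 ≤ κ)
    (hJ : ∀ j ∈ J, Odd j)
    (hc : 2 * κ * B < ((Finset.Icc 3 s).filter fun i => Odd i ∧ ∃ k < κ, i + 2 * k ≤ s ∧ i + 2 * k ∈ J).card) :
    ∃ S : Finset ℕ, S.card = B ∧ (∀ i ∈ S, i ∈ J ∧ 3 ≤ i ∧ i ≤ s) ∧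
      ∀ i ∈ S, ∀ j ∈ S, i < j → i + 2 * κ ≤ j := by sorry

end

end Pool.Agent.H513R2.OZ.Stubs
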